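import Pool.Agent.Lib.MP_f58a57_nt.R.Defs
import Pool.Agent.Lib.MP_f58a57_nt.R.A2_RpBd
import Pool.Agent.Lib.MP_f58a57_nt.R.A3_DerIt

/-! # U/C5a_Rp: the size of the derivatives of the polynomials `Rp` (copied from R/C5_Step) -/

open Complex

noncomputable section

namespace Pool.Agent.MSU

open MSD MSP MSK MSR

variable {d : ℕ}

theorem d0_nn (T E d : ℕ) (hT : 1 ≤ T) : (1 : ℝ) ≤ (8 * (d + 1) * T * ((4 * (d * E) : ℕ) + (d + 3) * T)) ^ T *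
    (88 * (d + 1) * ((d * E : ℕ) + 1)) ^ (d * E) := by
  have hT1 : (1 : ℝ) ≤ T := by exact_mod_cast hT
  have hd0 : (0 : ℝ) ≤ d := Nat.cast_nonneg d
  have hE0 : (0 : ℝ) ≤ ((4 * (d * E) : ℕ) : ℝ) := Nat.cast_nonneg _
  have hE0' : (0 : ℝ) ≤ ((d * E : ℕ) : ℝ) := Nat.cast_nonneg _
  have h1 : (1 : ℝ) ≤ 8 * (d + 1) * T := by nlinarith
  have h2 : (1 : ℝ) ≤ (4 * (d * E) : ℕ) + (d + 3) * T := by nlinarith
  have h3 : (1 : ℝ) ≤ (8 * (d + 1) * T * ((4 * (d * E) : ℕ) + (d + 3) * T)) ^ T := by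
    apply one_le_pow₀
    nlinarith
  have h4 : (1 : ℝ) ≤ (88 * (d + 1) * ((d * E : ℕ) + 1)) ^ (d * E) := by
    apply one_le_pow₀
    nlinarith
  nlinarith

theorem d0_Rp (d T E : ℕ) (hT : 1 ≤ T) (hE : 1 ≤ E) (a : Fin d → ℕ) (ha : ∀ j, a j ≤ T) (k : ℕ) (hk : k ≤ T) (κ : Ir d E) :
    ((der (fun j => (a j : ℤ)))^[k] (Rp (fun j => (κ j).val))).totalDegree ≤ 4 * (d * E) + (d + 3) * T ∧
      mlen ((der (fun j => (a j : ℤ)))^[k] (Rp (fun j => (κ j).val))) ≤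
        (8 * (d + 1) * T * ((4 * (d * E) : ℕ) + (d + 3) * T)) ^ T * (88 * (d + 1) * ((d * E : ℕ) + 1)) ^ (d * E) := by
  have hs : ∑ j, (κ j).val ≤ d * E := by
    calc ∑ j, (κ j).val ≤ ∑ _j : Fin d, E := Finset.sum_le_sum fun j _ => (κ j).isLt.le
      _ = d * E := by simp
  obtain ⟨h1, h2⟩ := Rp_bd (fun j => (κ j).val)
  have hd0 : (0 : ℝ) ≤ d := Nat.cast_nonneg d
  have h3 : mlen (Rp (fun j => (κ j).val)) ≤ (88 * ((d : ℝ) + 1) * ((d * E : ℕ) + 1)) ^ (d * E) := by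
    refine h2.trans ?_
    have hs' : ((∑ j, (κ j).val : ℕ) : ℝ) ≤ ((d * E : ℕ) : ℝ) := by exact_mod_cast hs
    have hs0 : (0 : ℝ) ≤ ((∑ j, (κ j).val : ℕ) : ℝ) := Nat.cast_nonneg _
    have h4 : (88 * ((d : ℝ) + 1) * (((∑ j, (κ j).val : ℕ) : ℝ) + 1)) ≤ (88 * ((d : ℝ) + 1) * ((d * E : ℕ) + 1)) :=
      mul_le_mul_of_nonneg_left (by linarith) (by positivity)
    have h5 : 1 ≤ (88 * ((d : ℝ) + 1) * ((d * E : ℕ) + 1)) := by
      have : (0 : ℝ) ≤ ((d * E : ℕ) : ℝ) := Nat.cast_nonneg _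
      nlinarith
    exact (pow_le_pow_left₀ (by positivity) h4 _).trans (pow_le_pow_right₀ h5 hs)
  exact der_iter_gen (fun j => (a j : ℤ)) (T : ℝ) (by exact_mod_cast hT) (fun j => by
    rw [Int.cast_natCast, abs_of_nonneg (Nat.cast_nonneg _)]
    exact_mod_cast ha j) (Rp (fun j => (κ j).val)) (4 * (d * E)) _ (h1.trans (by omega)) h3 T k hT hk

end Pool.Agent.MSU
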