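import Pool.Agent.Lib.MP_f58a57_nt.U.V6_Dense

/-! # U/V7_Final: the zero estimate -/

open Complex MvPolynomial

noncomputable section

namespace Pool.Agent.MSU

open MSD MSP MSK MSR

/-- V7a. a generic base point with the rows. PROOF. `D0 : Dt 2` with the given `τ, om, kap` and any base point; `inj_generic`; `W ≠ 0` and `∏ th (t l) ≠ 0` as an entire function: a point `t` where both are `≠ 0` (`E3.dense_ne` and open, or a product in the domain `E3`; `TE D0 1`). `D = rebase D0 t`; `rows_exist` for `R = (Fin 2 → ℕ) × ℕ`,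
`S = {(a, k) : a j ≤ 8E, k ≤ 8E}`. -/
theorem generic_rows (P : Par 2) (τ om kap : ℂ) (hτ : 0 < τ.im) (hom : om ≠ 0) (E : ℕ) (hE : 1 ≤ E) : ∃ D : Dt 2, D.τ = τ ∧ D.om = om ∧ D.kap = kap ∧
    ∃ (a : Ir 2 E → Fin 2 → ℕ) (k : Ir 2 E → ℕ), (∀ i j, a i j ≤ 8 * E) ∧ (∀ i, k i ≤ 8 * E) ∧ (Dm (MSK.vals P D) a k).det ≠ 0 := by
  have h12 : th τ (1 / 2) ≠ 0 := by
    have h1 := th_real_ne τ hτ (1 / 2) (fun m hm => by
      have h2 : (1 : ℝ) = ((2 * m : ℤ) : ℝ) := by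
        push_cast
        linarith
      have h3 : (1 : ℤ) = 2 * m := by exact_mod_cast h2
      omega)
    have h4 : (((1 / 2 : ℝ)) : ℂ) = 1 / 2 := by norm_num
    rwa [h4] at h1
  let D0 : Dt 2 := ⟨τ, hτ, om, hom, kap, fun _ => 1 / 2, fun _ => h12⟩
  obtain ⟨W, hW, hin⟩ := inj_generic P D0 E hE
  have hWT : W * TE D0 1 ≠ 0 := mul_ne_zero hW (TE_one_ne D0)
  obtain ⟨t, ht⟩ := (E3.dense_ne (W * TE D0 1) hWT).nonempty
  have ht' : (W : (Fin 3 → ℂ) → ℂ) t * (TE D0 1 : (Fin 3 → ℂ) → ℂ) t ≠ 0 := ht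
  have htW := left_ne_zero_of_mul ht'
  have htT := right_ne_zero_of_mul ht'
  have hth : ∀ l, th D0.τ (t l) ≠ 0 := by
    intro l hl
    apply htT
    rw [TE_apply, TH_one]
    unfold MSK.pp
    refine Finset.prod_eq_zero (Finset.mem_univ l) ?_
    rw [add_sub_cancel]
    exact hl
  have hr := rows_exist (ι := Ir 2 E) (R := (Fin 2 → ℕ) × ℕ) {r | (∀ j, r.1 j ≤ 8 * E) ∧ r.2 ≤ 8 * E}
    (fun r κ => aeval (MSK.vals P (rebase D0 t hth)) ((der (fun j => (r.1 j : ℤ)))^[r.2] (Rp (fun j => (κ j).val))))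
    (fun c hc => by
      obtain ⟨a, k, h1, h2, h3⟩ := hin (rebase D0 t hth) rfl rfl rfl htW c hc
      exact ⟨(a, k), ⟨h1, h2⟩, h3⟩)
  obtain ⟨f, hf, hdet⟩ := hr
  exact ⟨rebase D0 t hth, rfl, rfl, rfl, fun i => (f i).1, fun i => (f i).2, fun i j => (hf i).1 j, fun i => (hf i).2, hdet⟩

/-- V7b. ZERO ESTIMATE. PROOF. `C = 576`. `generic_rows`, `Q = Dp a k`; `all_signs`; `delta_exists`, `sign_norm` with `n = 48 E^3`, `g, G` as in `curve_eq`: `W` with `aeval x W = ∏ ε, aeval (vxy .. x (ε y)) Q` on the curve, so `W ≠ 0` (value at `D'`). `int_point` (`12 · 48 E^3 = 576 E^3`). For `D` with `D.X l 0 = x l`: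
`curve_eq`, so `∏ ε .. ≠ 0`, in particular the factor `ε = true`: `(Dm (vals P D) a k).det ≠ 0` (`aeval_Dp`, `vals_eq`), so `Dm *ᵥ c ≠ 0` for `c ≠ 0` (`Matrix.eq_zero_of_mulVec_eq_zero`): some row is `≠ 0`. -/
theorem zprime (P : Par 2) : ∃ C : ℕ, ∀ (τ om kap : ℂ), 0 < τ.im → om ≠ 0 → ∀ (X0 E : ℕ), 1 ≤ E →
    ∃ x : Fin 3 → ℕ, (∀ l, X0 ≤ x l ∧ x l ≤ X0 + C * E ^ 3) ∧ ∀ D : Dt 2, D.τ = τ → D.om = om → D.kap = kap → (∀ l, D.X l 0 = x l) →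
      ∀ c : Ir 2 E → ℂ, c ≠ 0 → ∃ (a : Fin 2 → ℕ) (k : ℕ), (∀ j, a j ≤ 8 * E) ∧ k ≤ 8 * E ∧
        ∑ κ, c κ * aeval (MSK.vals P D) ((der (fun j => (a j : ℤ)))^[k] (Rp (fun j => (κ j).val))) ≠ 0 := by
  refine ⟨576, ?_⟩
  intro τ om kap hτ hom X0 E hE
  obtain ⟨D, rfl, rfl, rfl, a, k, ha, hk, hdet⟩ := generic_rows P τ om kap hτ hom E hE
  rw [← aeval_Dp] at hdet
  obtain ⟨D', e1, e2, e3, hs⟩ := all_signs P D (Dp a k) hdet
  obtain ⟨δ, hδ, hδe⟩ := delta_exists P D.τ D.om D.kap (Dp a k) (48 * E ^ 3) (Dp_deg hE a k ha hk)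
  obtain ⟨W, hWd, hWe⟩ := sign_norm δ (48 * E ^ 3) hδ (2 / 3 * Real.pi ^ 4 * e4 D.τ / D.om ^ 4)
    (8 / 27 * Real.pi ^ 6 * e6 D.τ / D.om ^ 6)
  have hW : W ≠ 0 := by
    intro h0
    have h1 := hWe (fun l => D'.X l 0) (fun l => D'.Y l 0) (fun l => by
      have h2 := curve_eq D' l
      rw [e1, e2] at h2
      exact h2)
    rw [h0, map_zero] at h1
    refine Finset.prod_ne_zero_iff.2 (fun ε _ => ?_) h1.symm
    rw [hδe]
    exact hs ε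
  obtain ⟨x, hx, hxW⟩ := int_point W hW (12 * (48 * E ^ 3)) hWd X0
  refine ⟨x, fun l => ⟨(hx l).1, (hx l).2.trans (by ring_nf; exact le_refl _)⟩, ?_⟩
  intro D'' f1 f2 f3 f4 c hc
  have h1 := hWe (fun l => (x l : ℂ)) (fun l => D''.Y l 0) (fun l => by
      have h2 := curve_eq D'' l
      rw [f1, f2, f4] at h2
      exact h2)
  rw [h1] at hxW
  have h3 := Finset.prod_ne_zero_iff.1 hxW (fun _ => true) (Finset.mem_univ _)
  have h4 : sg3 (fun _ => true) (fun l => D''.Y l 0) = fun l => D''.Y l 0 := by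
    funext l
    simp only [sg3, if_true]
  rw [h4, hδe] at h3
  have h5 : vxy P D.τ D.om D.kap (fun l => (x l : ℂ)) (fun l => D''.Y l 0) = MSK.vals P D'' := by
    rw [vals_eq, f1, f2, f3]
    congr 1
    funext l
    exact (f4 l).symm
  rw [h5, aeval_Dp] at h3
  have h6 : (Dm (MSK.vals P D'') a k).mulVec c ≠ 0 := fun h7 => hc (Matrix.eq_zero_of_mulVec_eq_zero h3 h7)
  obtain ⟨i, hi⟩ := Function.ne_iff.1 h6
  refine ⟨a i, k i, ha i, hk i, ?_⟩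
  intro h8
  apply hi
  rw [Pi.zero_apply, Matrix.mulVec, dotProduct, ← h8]
  refine Finset.sum_congr rfl fun κ _ => ?_
  rw [mul_comm]
  rfl

end Pool.Agent.MSU
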