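import Pool.Agent.Lib.MP_f58a57_nt.U.Z5_TwoVar

/-! # U/Z9b_Split: decomposition of the space of forms -/

open MvPolynomial

noncomputable section

namespace Pool.Agent.MSU

variable {M : Type} [Field M] [Algebra ℂ M]

/-- dehomogenisation -/
def ZA10_f (K : Type) [Field K] : Po K →ₐ[K] Polynomial K := aeval ![1, Polynomial.X]

theorem ZA10_map (h : Po ℂ) :
    ZA10_f M (ofC h : Po M) = Polynomial.map (algebraMap ℂ M) (ZA10_f ℂ h) := by
  unfold ofC ZA10_f
  induction h using MvPolynomial.induction_on with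
  | C a => simp
  | add p q hp hq => rw [map_add, map_add, map_add, Polynomial.map_add, hp, hq]
  | mul_X p i hp =>
    rw [map_mul, map_mul, map_mul, Polynomial.map_mul, hp, map_X, aeval_X, aeval_X]
    fin_cases i
    · simp
    · simp

theorem ZA10_inj (K : Type) [Field K] (n : ℕ) (P : Po K) (hP : P ∈ Hs K n) (h : ZA10_f K P = 0) :
    P = 0 := by
  obtain ⟨f, hf⟩ := dehom_exists (M := K) n
  have h1 : f ⟨P, hP⟩ = 0 := by
    apply Subtype.ext
    rw [hf]
    exact h
  have h2 := f.map_eq_zero_iff.1 h1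
  exact congrArg Subtype.val h2

theorem ZA10_deg (K : Type) [Field K] (n : ℕ) (P : Po K) (hP : P ∈ Hs K n) :
    (ZA10_f K P).degree < ((n + 1 : ℕ) : WithBot ℕ) := by
  obtain ⟨f, hf⟩ := dehom_exists (M := K) n
  have h1 := (f ⟨P, hP⟩).2
  rw [Polynomial.mem_degreeLT, hf] at h1
  exact h1

theorem ZA10_surj (K : Type) [Field K] (n : ℕ) (Q : Polynomial K)
    (hQ : Q.degree < ((n + 1 : ℕ) : WithBot ℕ)) : ∃ P ∈ Hs K n, ZA10_f K P = Q := by
  obtain ⟨f, hf⟩ := dehom_exists (M := K) n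
  refine ⟨(f.symm ⟨Q, Polynomial.mem_degreeLT.2 hQ⟩ : Hs K n), Subtype.mem _, ?_⟩
  have h1 := hf (f.symm ⟨Q, Polynomial.mem_degreeLT.2 hQ⟩)
  rw [LinearEquiv.apply_symm_apply] at h1
  exact h1.symm

/-- division in one variable -/
theorem ZA10_one (K : Type) [Field K] (N' r' : ℕ) (H F : Polynomial K) (b : K)
    (hb : H.eval b ≠ 0) (hH : H.degree < ((r' + 1 + 1 : ℕ) : WithBot ℕ))
    (hF : F.degree < ((N' + r' + 1 + 1 : ℕ) : WithBot ℕ)) :
    ∃ G P : Polynomial K, G.degree < ((N' + 1 : ℕ) : WithBot ℕ) ∧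
      P.degree < ((r' + 1 : ℕ) : WithBot ℕ) ∧
      F = H * G + (Polynomial.X - Polynomial.C b) ^ (N' + 1) * P := by
  have hcop : IsCoprime H ((Polynomial.X - Polynomial.C b) ^ (N' + 1)) := by
    apply IsCoprime.pow_right
    refine ((Polynomial.irreducible_X_sub_C b).coprime_iff_not_dvd.2 ?_).symm
    rw [Polynomial.dvd_iff_isRoot]
    exact hb
  obtain ⟨u, v, huv⟩ := hcop
  have hmon : ((Polynomial.X - Polynomial.C b) ^ (N' + 1)).Monic :=
    (Polynomial.monic_X_sub_C b).pow _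
  have hdeg : ((Polynomial.X - Polynomial.C b) ^ (N' + 1)).degree = ((N' + 1 : ℕ) : WithBot ℕ) := by
    rw [Polynomial.degree_pow, Polynomial.degree_X_sub_C]
    simp
  set T := (Polynomial.X - Polynomial.C b) ^ (N' + 1) with hT
  set G := (F * u) %ₘ T with hG
  set P := F * v + H * ((F * u) /ₘ T) with hP
  have hGdeg : G.degree < ((N' + 1 : ℕ) : WithBot ℕ) := by
    rw [← hdeg]
    exact Polynomial.degree_modByMonic_lt _ hmon
  have hsum : F = H * G + T * P := by
    have h1 : (F * u) %ₘ T + T * ((F * u) /ₘ T) = F * u := Polynomial.modByMonic_add_div _ _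
    have h2 : F = F * (u * H + v * T) := by rw [huv, mul_one]
    calc F = F * (u * H + v * T) := h2
      _ = H * (F * u) + T * (F * v) := by ring
      _ = H * (G + T * ((F * u) /ₘ T)) + T * (F * v) := by rw [h1]
      _ = H * G + T * P := by rw [hP]; ring
  refine ⟨G, P, hGdeg, ?_, hsum⟩
  by_cases hP0 : P = 0
  · rw [hP0, Polynomial.degree_zero]
    exact WithBot.bot_lt_coe _
  have hTP : T * P = F - H * G := by rw [hsum]; ring
  have hTPdeg : (T * P).degree < ((N' + r' + 1 + 1 : ℕ) : WithBot ℕ) := by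
    rw [hTP]
    refine lt_of_le_of_lt (Polynomial.degree_sub_le _ _) (max_lt hF ?_)
    by_cases hG0 : G = 0
    · rw [hG0, mul_zero, Polynomial.degree_zero]
      exact WithBot.bot_lt_coe _
    have hH0 : H ≠ 0 := by
      intro h
      rw [h, Polynomial.eval_zero] at hb
      exact hb rfl
    rw [Polynomial.degree_mul, Polynomial.degree_eq_natDegree hH0,
      Polynomial.degree_eq_natDegree hG0]
    rw [Polynomial.degree_eq_natDegree hH0] at hH
    rw [Polynomial.degree_eq_natDegree hG0] at hGdeg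
    have h1 : H.natDegree < r' + 1 + 1 := by exact_mod_cast hH
    have h2 : G.natDegree < N' + 1 := by exact_mod_cast hGdeg
    have h3 : H.natDegree + G.natDegree < N' + r' + 1 + 1 := by omega
    exact_mod_cast h3
  rw [Polynomial.degree_mul, hdeg, Polynomial.degree_eq_natDegree hP0] at hTPdeg
  rw [Polynomial.degree_eq_natDegree hP0]
  have h4 : N' + 1 + P.natDegree < N' + r' + 1 + 1 := by exact_mod_cast hTPdeg
  have h5 : P.natDegree < r' + 1 := by omega
  exact_mod_cast h5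

/-- Z9b. PROOF. Let `L = X 0 - b X 1` with `b ∈ ℂ` such that `h(b, 1) ≠ 0` if `h(X, 1)` is a nonzero polynomial in one variable (it is, as `h` is a nonzero form: `dehom_exists` with the variables exchanged) . So `L` does not divide `h`, even in `M[X_0, X_1]`: `h(b,1) ≠ 0` in `M`.
(uniqueness) if `h g + L^N p = 0` with `p` a form of degree `r - 1` (or `p = 0`), `g` a form: `L^N ∣ h g`. `L` is prime and `L ∤ h`, so `L^N ∣ g`: `g = L^N g'`, `h g' = -p`, so `p = 0` by degrees (`deg (h g') ≥ r` if `g' ≠ 0`).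
(existence) the map `Hs M (N-1) × Hs M (r-1) → Hs M (N+r-1)`, `(g, p) ↦ h g + L^N p` is injective (uniqueness, `h ≠ 0`), and the dimensions are `N + r = N + r`. Here `r = r' + 1`, `N = N' + 1`. -/
theorem split_forms (r' : ℕ) (h : Po ℂ) (h0 : h ≠ 0) (hh : h.IsHomogeneous (r' + 1)) : ∃ L : Po ℂ, L.IsHomogeneous 1 ∧ L ≠ 0 ∧
    ∀ N' : ℕ, (∀ g ∈ Hs M N', ∀ p ∈ Hs M r', (ofC h : Po M) * g + ofC (L ^ (N' + 1)) * p = 0 → p = 0) ∧
      ∀ f ∈ Hs M (N' + r' + 1), ∃ g ∈ Hs M N', ∃ p ∈ Hs M r', f = (ofC h : Po M) * g + ofC (L ^ (N' + 1)) * p := by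
  classical
  have hφ0 : ZA10_f ℂ h ≠ 0 := fun h1 => h0 (ZA10_inj ℂ (r' + 1) h hh h1)
  obtain ⟨b, hb⟩ : ∃ b : ℂ, (ZA10_f ℂ h).eval b ≠ 0 := by
    by_contra hcon
    push Not at hcon
    apply hφ0
    apply Polynomial.funext
    intro x
    rw [hcon x, Polynomial.eval_zero]
  have hbM : (ZA10_f M (ofC h : Po M)).eval (algebraMap ℂ M b) ≠ 0 := by
    rw [ZA10_map, Polynomial.eval_map, Polynomial.eval₂_at_apply]
    intro h1
    exact hb ((map_eq_zero (algebraMap ℂ M)).1 h1)
  have hhM : (ofC h : Po M) ∈ Hs M (r' + 1) := by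
    rw [mem_homogeneousSubmodule]
    exact hh.map _
  have hLh : (X 1 - C b * X 0 : Po ℂ).IsHomogeneous 1 := by
    have h1 : (X 1 : Po ℂ).IsHomogeneous 1 := isHomogeneous_X _ _
    have h2 : (C b * X 0 : Po ℂ).IsHomogeneous (0 + 1) :=
      (isHomogeneous_C _ _).mul (isHomogeneous_X _ _)
    rw [zero_add] at h2
    exact h1.sub h2
  have hLφ : ZA10_f M (ofC (X 1 - C b * X 0) : Po M) =
      Polynomial.X - Polynomial.C (algebraMap ℂ M b) := by
    rw [ZA10_map]
    unfold ZA10_f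
    simp
  refine ⟨X 1 - C b * X 0, hLh, ?_, ?_⟩
  · intro h1
    have h2 := congrArg (eval ![0, (1 : ℂ)]) h1
    simp at h2
  intro N'
  have hLN : ∀ p ∈ Hs M r', (ofC ((X 1 - C b * X 0) ^ (N' + 1)) : Po M) * p ∈
      Hs M (N' + r' + 1) := by
    intro p hp
    rw [mem_homogeneousSubmodule] at hp ⊢
    have h1 : (ofC ((X 1 - C b * X 0) ^ (N' + 1)) : Po M).IsHomogeneous (1 * (N' + 1)) :=
      (hLh.pow (N' + 1)).map _
    have h2 := h1.mul hp
    have h3 : 1 * (N' + 1) + r' = N' + r' + 1 := by ring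
    rw [h3] at h2
    exact h2
  have hhN : ∀ g ∈ Hs M N', (ofC h : Po M) * g ∈ Hs M (N' + r' + 1) := by
    intro g hg
    rw [mem_homogeneousSubmodule] at hg hhM ⊢
    have h2 := hhM.mul hg
    have h3 : r' + 1 + N' = N' + r' + 1 := by ring
    rw [h3] at h2
    exact h2
  have hTφ : ZA10_f M (ofC ((X 1 - C b * X 0) ^ (N' + 1)) : Po M) =
      (Polynomial.X - Polynomial.C (algebraMap ℂ M b)) ^ (N' + 1) := by
    have h1 : (ofC ((X 1 - C b * X 0) ^ (N' + 1)) : Po M) =
        (ofC (X 1 - C b * X 0) : Po M) ^ (N' + 1) := by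
      unfold ofC
      rw [map_pow]
    rw [h1, map_pow, hLφ]
  refine ⟨?_, ?_⟩
  · intro g hg p hp hgp
    have h1 := congrArg (ZA10_f M) hgp
    rw [map_add, map_mul, map_mul, hTφ, map_zero] at h1
    have hdvd : (Polynomial.X - Polynomial.C (algebraMap ℂ M b)) ^ (N' + 1) ∣ ZA10_f M g := by
      have hcop : IsCoprime ((Polynomial.X - Polynomial.C (algebraMap ℂ M b)) ^ (N' + 1))
          (ZA10_f M (ofC h : Po M)) := by
        apply IsCoprime.pow_left
        refine (Polynomial.irreducible_X_sub_C _).coprime_iff_not_dvd.2 ?_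
        rw [Polynomial.dvd_iff_isRoot]
        exact hbM
      apply hcop.dvd_of_dvd_mul_left
      refine ⟨-ZA10_f M p, ?_⟩
      linear_combination h1
    have hg0 : ZA10_f M g = 0 := by
      by_contra hne
      have h2 := Polynomial.degree_le_of_dvd hdvd hne
      rw [Polynomial.degree_pow, Polynomial.degree_X_sub_C] at h2
      have h3 := ZA10_deg M N' g hg
      have h4 := lt_of_le_of_lt h2 h3
      simp at h4
    rw [hg0, mul_zero, zero_add] at h1
    have h5 : ZA10_f M p = 0 := by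
      rcases mul_eq_zero.1 h1 with h6 | h6
      · exact absurd h6 (pow_ne_zero _ (Polynomial.X_sub_C_ne_zero _))
      · exact h6
    exact ZA10_inj M r' p hp h5
  · intro f hf
    obtain ⟨G, P, hG, hP, hsum⟩ := ZA10_one M N' r' (ZA10_f M (ofC h : Po M)) (ZA10_f M f)
      (algebraMap ℂ M b) hbM (ZA10_deg M (r' + 1) _ hhM) (ZA10_deg M (N' + r' + 1) f hf)
    obtain ⟨g, hg, hgG⟩ := ZA10_surj M N' G hG
    obtain ⟨p, hp, hpP⟩ := ZA10_surj M r' P hP
    refine ⟨g, hg, p, hp, ?_⟩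
    have h1 : f - ((ofC h : Po M) * g + ofC ((X 1 - C b * X 0) ^ (N' + 1)) * p) ∈
        Hs M (N' + r' + 1) :=
      Submodule.sub_mem _ hf (Submodule.add_mem _ (hhN g hg) (hLN p hp))
    have h2 := ZA10_inj M (N' + r' + 1) _ h1 (by
      rw [map_sub, map_add, map_mul, map_mul, hTφ, hgG, hpP, ← hsum, sub_self])
    exact sub_eq_zero.1 h2

end Pool.Agent.MSU
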