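import Mathlib

/-! # U/V2_Pow: powers of linear forms span -/

open MvPolynomial

noncomputable section

namespace Pool.Agent.MSU

theorem VA03_monomials (K : ℕ) (L : MvPolynomial (Fin 2) ℂ →ₗ[ℂ] ℂ)
    (h : ∀ k ≤ K, ∀ a : Fin 2 → ℕ, (∀ j, a j ≤ max 1 K) → L ((∑ i, C (a i : ℂ) * X i) ^ k) = 0)
    (k : ℕ) (hk : k ≤ K) (m : ℕ) (hm : m ≤ k) :
    L (X 0 ^ m * X 1 ^ (k - m)) = 0 := by
  have hexp : ∀ j : ℕ, j ≤ k → ∑ i ∈ Finset.range (k + 1),
      (L (X 0 ^ (k - i) * X 1 ^ i) * (Nat.choose k i : ℂ)) * (j : ℂ) ^ i = 0 := by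
    intro j hj
    have h1 := h k hk ![1, j] (fun i => by
      fin_cases i
      · exact le_max_left _ _
      · exact (hj.trans hk).trans (le_max_right _ _))
    rw [Fin.sum_univ_two] at h1
    have e1 : (C ((![1, j] 0 : ℕ) : ℂ) * X 0 + C ((![1, j] 1 : ℕ) : ℂ) * X 1 :
        MvPolynomial (Fin 2) ℂ) = C (j : ℂ) * X 1 + X 0 := by
      simp [add_comm]
    rw [e1, add_pow, map_sum] at h1
    rw [← h1]
    refine Finset.sum_congr rfl (fun i _ => ?_)
    have e2 : ((C (j : ℂ) * X 1) ^ i * X 0 ^ (k - i) * (Nat.choose k i : MvPolynomial (Fin 2) ℂ)) =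
        ((Nat.choose k i : ℂ) * (j : ℂ) ^ i) • (X 0 ^ (k - i) * X 1 ^ i) := by
      rw [smul_eq_C_mul, map_mul, map_pow, mul_pow]
      simp only [map_natCast]
      ring
    rw [e2, map_smul, smul_eq_mul]
    ring
  have hv := Matrix.eq_zero_of_forall_index_sum_mul_pow_eq_zero (n := k + 1)
    (f := fun j : Fin (k + 1) => ((j : ℕ) : ℂ))
    (v := fun i : Fin (k + 1) => L (X 0 ^ (k - (i : ℕ)) * X 1 ^ (i : ℕ)) * (Nat.choose k i : ℂ))
    (fun a b hab => Fin.ext (Nat.cast_injective hab)) (fun j => by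
      have h1 := hexp j (by omega)
      rw [Finset.sum_range] at h1
      exact h1)
  have h2 := congrFun hv ⟨k - m, by omega⟩
  have h3 : L (X 0 ^ (k - (k - m)) * X 1 ^ (k - m)) * (Nat.choose k (k - m) : ℂ) = 0 := h2
  rw [Nat.sub_sub_self hm] at h3
  rcases mul_eq_zero.1 h3 with h4 | h4
  · exact h4
  · exact absurd (Nat.cast_eq_zero.1 h4) (Nat.choose_pos (Nat.sub_le k m)).ne'

/-- V2. PROOF. `(X_0 + j X_1)^k = ∑_i binom(k,i) j^i X_0^(k-i) X_1^i`, `j = 0, ..., k`: a Vandermonde system, so every monomial of degree `k` is a combination of these powers; `L` vanishes on every monomial of degree `k ≤ K`, so on every polynomial of degree `≤ K`. -/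
theorem pow_span (K : ℕ) (L : MvPolynomial (Fin 2) ℂ →ₗ[ℂ] ℂ)
    (h : ∀ k ≤ K, ∀ a : Fin 2 → ℕ, (∀ j, a j ≤ max 1 K) → L ((∑ i, C (a i : ℂ) * X i) ^ k) = 0)
    (p : MvPolynomial (Fin 2) ℂ) (hp : p.totalDegree ≤ K) : L p = 0 := by
  rw [← support_sum_monomial_coeff p, map_sum]
  refine Finset.sum_eq_zero (fun m hm => ?_)
  have h1 : m 0 + m 1 ≤ K := by
    have h2 := (le_totalDegree hm).trans hp
    rw [Finsupp.sum_fintype _ _ (fun _ => rfl), Fin.sum_univ_two] at h2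
    exact h2
  have h3 : (monomial m (coeff m p) : MvPolynomial (Fin 2) ℂ) =
      coeff m p • (X 0 ^ (m 0) * X 1 ^ ((m 0 + m 1) - m 0)) := by
    rw [monomial_eq, smul_eq_C_mul, Finsupp.prod_fintype _ _ (fun _ => pow_zero _),
      Fin.prod_univ_two, Nat.add_sub_cancel_left]
  rw [h3, map_smul, VA03_monomials K L h (m 0 + m 1) h1 (m 0) (Nat.le_add_right _ _), smul_zero]

end Pool.Agent.MSU
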