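import Pool.Agent.Lib.MP_f58a57_nt.U.Defs

/-! # U/D1_Geo: every vector is the sum of a point of `V` and a real vector -/

open Complex

noncomputable section

namespace Pool.Agent.MSU

open MSD MSP MSK MSR

variable {d : ℕ}

/-- D1. PROOF. Let `w = ∑_l z^l h_l`, `r₁ = Im w / Im z`, `r₀ = Re w - r₁ Re z`, so `w = r₀ + r₁ z`; `r_l = 0` for `l ≥ 2`, `p_j = h_{j+1} - r_{j+1}` (i.e. `p_0 = h_1 - r₁`, `p_j = h_{j+1}` otherwise). Then
`tt z p 0 = -∑_j z^(j+1) p_j = -(w - h_0 - z r₁) = h_0 - r₀`. Norm: `‖w‖ ≤ ∑ ‖z‖^l H`, `|r₁| ≤ ‖w‖ / Im z`, `‖p‖ ≤ H + |r₁|`, so `C = 1 + (∑_l ‖z‖^l)/Im z` works. -/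
theorem exists_p (P : Par d) (hd : 1 ≤ d) : ∃ C : ℝ, 1 ≤ C ∧ ∀ (h : Fin (d + 1) → ℂ) (H : ℝ), (∀ l, ‖h l‖ ≤ H) →
    ∃ p : Fin d → ℂ, (∀ l, ∃ r : ℝ, h l = tt P.z p l + r) ∧ ‖p‖ ≤ C * H := by
  obtain ⟨e, rfl⟩ : ∃ e, d = e + 1 := ⟨d - 1, by omega⟩
  have hy : 0 < P.z.im := P.im
  refine ⟨1 + (∑ l : Fin (e + 1 + 1), ‖P.z‖ ^ (l : ℕ)) / P.z.im, ?_, ?_⟩
  · have : 0 ≤ (∑ l : Fin (e + 1 + 1), ‖P.z‖ ^ (l : ℕ)) / P.z.im := by positivity
    linarith
  intro h H hH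
  have hH0 : 0 ≤ H := (norm_nonneg _).trans (hH 0)
  set w : ℂ := ∑ l : Fin (e + 1 + 1), P.z ^ (l : ℕ) * h l with hw
  set r1 : ℝ := w.im / P.z.im with hr1
  set r0 : ℝ := w.re - r1 * P.z.re with hr0
  have hw2 : w = (r0 : ℂ) + (r1 : ℂ) * P.z := by
    apply Complex.ext
    · simp [hr0]
    · simp only [hr1, Complex.add_im, Complex.ofReal_im, Complex.mul_im, Complex.ofReal_re, zero_mul, add_zero,
        zero_add]
      field_simp
  have hwn : ‖w‖ ≤ (∑ l : Fin (e + 1 + 1), ‖P.z‖ ^ (l : ℕ)) * H := by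
    rw [hw, Finset.sum_mul]
    refine (norm_sum_le _ _).trans (Finset.sum_le_sum fun l _ => ?_)
    rw [norm_mul, norm_pow]
    exact mul_le_mul_of_nonneg_left (hH l) (by positivity)
  have hr1n : |r1| ≤ (∑ l : Fin (e + 1 + 1), ‖P.z‖ ^ (l : ℕ)) / P.z.im * H := by
    rw [hr1, abs_div, abs_of_pos hy, div_mul_eq_mul_div]
    exact div_le_div_of_nonneg_right ((Complex.abs_im_le_norm w).trans hwn) hy.le
  refine ⟨fun j => h j.succ - (if j = 0 then (r1 : ℂ) else 0), ?_, ?_⟩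
  · intro l
    refine Fin.cases ?_ ?_ l
    · refine ⟨r0, ?_⟩
      simp only [tt, Fin.cons_zero]
      have h1 : w = h 0 + ∑ j : Fin (e + 1), P.z ^ (j.val + 1) * h j.succ := by
        rw [hw, Fin.sum_univ_succ]
        simp
      have h2 : ∑ j : Fin (e + 1), P.z ^ (j.val + 1) * (h j.succ - (if j = 0 then (r1 : ℂ) else 0))
          = (∑ j : Fin (e + 1), P.z ^ (j.val + 1) * h j.succ) - P.z * r1 := by
        simp only [mul_sub, Finset.sum_sub_distrib]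
        congr 1
        simp
      rw [h2]
      have h3 : ∑ j : Fin (e + 1), P.z ^ (j.val + 1) * h j.succ = w - h 0 := by rw [h1]; ring
      rw [h3, hw2]
      ring
    · intro j
      refine ⟨if j = 0 then r1 else 0, ?_⟩
      simp only [tt, Fin.cons_succ]
      split_ifs <;> simp
  · have hC : 0 ≤ (1 + (∑ l : Fin (e + 1 + 1), ‖P.z‖ ^ (l : ℕ)) / P.z.im) * H := by positivity
    rw [pi_norm_le_iff_of_nonneg hC]
    intro j
    refine (norm_sub_le _ _).trans ?_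
    rw [add_mul, one_mul]
    refine add_le_add (hH _) ?_
    split_ifs with hj
    · rw [Complex.norm_real, Real.norm_eq_abs]
      exact hr1n
    · rw [norm_zero]; positivity

end Pool.Agent.MSU
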