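import Pool.Agent.Lib.MP_f58a57_nt.U.Defs
import Pool.Agent.Lib.MP_f58a57_nt.R.B9_NnShift

/-! # U/D2_Shift: the absolute value of the function is invariant under the lattice -/

open Complex

noncomputable section

namespace Pool.Agent.MSU

open MSD MSP MSK MSR

variable {d : ℕ}

/-- D2. PROOF. Copy the proof of `NnR_shift` in R/B9_NnShift with `p` instead of `p0 P.z` and `GP P D p` instead of `GA P D`. Only changes: `harg : D.h l + tt P.z (fun j => u j - p j) l = tt P.z u l + r l` with real `r l` (from `hD.h`; `tt` is additive, `c4_tt_add`), so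
the product of the factors is `∏ l, au P.z (m l) (N l) (t l + r l)` and its norm is still `exp (∑ (π N² Im z + 2 π N (t l).im))` because `norm_au` only contains the imaginary part. (`b9_WV`, `b9_lin`, `TH_shift` are used as they are.) -/
theorem NnU_shift (P : Par d) (hd : 2 ≤ d) (D : Dt d) (p : Fin d → ℂ) (hD : IsO P D p) (q : ℕ) (hq : ∀ l, ∃ m : ℤ, (q : ℚ) * P.b l = m) {E : ℕ}
    (c : Ir d E → ℂ) (n : Fin (d + 1) → ℤ) (v : Fin d → ℂ) :
    Nn P 1 (GP P D p c) (v + gam P (fun l => (q : ℝ) * n l)) = Nn P 1 (GP P D p c) v := by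
  choose β hβ using hq
  have hβR : ∀ l, (P.b l : ℝ) * q = β l := by
    intro l
    have h := congrArg (fun x : ℚ => (x : ℝ)) (hβ l)
    push_cast at h
    linarith
  -- the integer vectors
  obtain ⟨N, hN⟩ : ∃ N : Fin (d + 1) → ℤ, N = fun l => (q : ℤ) * n l := ⟨_, rfl⟩
  obtain ⟨m, hm⟩ : ∃ m : Fin (d + 1) → ℤ, ∀ l, mm P.b (fun l => (q : ℝ) * n l) l = (m l : ℝ) := by
    refine ⟨Fin.cons (-β 0 * n (Fin.last d)) (fun j => -(q * n j.castSucc) - β j.succ * n (Fin.last d)), fun l => ?_⟩
    refine Fin.cases ?_ (fun j => ?_) l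
    · simp only [mm, Fin.cons_zero]
      push_cast
      rw [← hβR 0]
      ring
    · simp only [mm, Fin.cons_succ]
      push_cast
      rw [← hβR j.succ]
      ring
  obtain ⟨g, hg⟩ : ∃ g : Fin d → ℂ, g = gam P (fun l => (q : ℝ) * n l) := ⟨_, rfl⟩
  have htg : ∀ l, tt P.z g l = m l + N l * P.z := by
    intro l
    rw [hg, tt_gam, hm l, hN]
    push_cast
    ring
  rw [← hg]
  obtain ⟨t, ht⟩ : ∃ t : Fin (d + 1) → ℂ, t = tt P.z v := ⟨_, rfl⟩
  have ht' : ∀ l, tt P.z (v + g) l = t l + m l + N l * P.z := by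
    intro l
    rw [c4_tt_add, htg, ht]
    ring
  have hz : 0 < P.z.im := P.im
  have hd1 : 1 ≤ d := by omega
  choose r hr using hD.h
  have harg : ∀ (u : Fin d → ℂ) (l : Fin (d + 1)), D.h l + tt P.z (fun j => u j - p j) l = tt P.z u l + r l := by
    intro u l
    have h1 : tt P.z u l = tt P.z (fun j => u j - p j) l + tt P.z p l := by
      rw [← c4_tt_add]
      congr 1
      funext j
      simp
    rw [hr, h1]
    ring
  have hs : D.s = 0 := by
    unfold Dt.s
    rw [hD.kap, hD.om, hD.τ, sub_self, mul_zero]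
  have hw : ∀ j : Fin d, (v + g) j - p j = (v j - p j) +
      (-(N j.castSucc + P.b j.succ * N (Fin.last d)) + N j.succ * P.z) := by
    intro j
    have h1 : g j = m j.succ + N j.succ * P.z := by
      have h2 := htg j.succ
      simp only [tt, Fin.cons_succ] at h2
      exact h2
    have h3 : ((m j.succ : ℤ) : ℂ) = -(N j.castSucc + P.b j.succ * N (Fin.last d)) := by
      have h4 := hm j.succ
      simp only [mm, Fin.cons_succ] at h4
      have h5 := congrArg (fun x : ℝ => (x : ℂ)) h4
      push_cast at h5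
      rw [← h5, hN]
      push_cast
      ring
    simp only [Pi.add_apply]
    rw [h1, h3]
    ring
  have hG : GP P D p c (v + g) = (∏ l, au P.z (m l) (N l) (t l + r l)) * GP P D p c v := by
    unfold GP GR
    have h1 : tt P.z (fun j => (v + g) j - p j) =
        fun l => tt P.z (fun j => v j - p j) l + (m l + N l * D.τ) := by
      funext l
      rw [hD.τ]
      have e1 := harg (v + g) l
      have e2 := harg v l
      have e3 := ht' l
      rw [ht] at e3
      linear_combination e1 - e2 + e3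
    rw [h1, TH_shift]
    have h2 : ∏ l, au D.τ (m l) (N l) (D.h l + tt P.z (fun j => v j - p j) l) = ∏ l, au P.z (m l) (N l) (t l + r l) := by
      refine Finset.prod_congr rfl fun l _ => ?_
      rw [harg, hD.τ, ← ht]
    rw [h2]
    congr 2
    have h3 : ∀ B : MvPolynomial (Fin d) ℂ, MvPolynomial.aeval (fun l => MvPolynomial.X l - MvPolynomial.C (2 * Real.pi * I * N l) :
        Fin (d + 1) → MvPolynomial (Fin (d + 1)) ℂ) (MvPolynomial.aeval (MSR.lin P D (WV P D fun j => (v + g) j - p j)) B) =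
        MvPolynomial.aeval (MSR.lin P D (WV P D fun j => v j - p j)) B := by
      intro B
      rw [MvPolynomial.comp_aeval_apply]
      congr 2
      funext j
      refine b9_lin P D hD.om _ _ N j ?_
      rw [b9_WV P D hs, b9_WV P D hs, hw j]
      ring
    exact h3 _
  -- the exponents
  have hnorm : ‖∏ l, au P.z (m l) (N l) (t l + r l)‖ = Real.exp (∑ l, (Real.pi * (N l : ℝ) ^ 2 * P.z.im + 2 * Real.pi * N l * (t l).im)) := by
    rw [norm_prod, Real.exp_sum]
    refine Finset.prod_congr rfl fun l _ => ?_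
    have h1 := norm_au P.z (m l) (N l) (t l + r l)
    rw [Complex.add_im, Complex.ofReal_im, add_zero] at h1
    exact h1
  have hP2 : P2 P (v + g) = P2 P v := by
    unfold P2
    refine Finset.sum_congr rfl fun l _ => ?_
    rw [ro_add, hg, ro_gam, add_zero]
  have hQ : Qf P (v + g) = Qf P v + ∑ l, (Real.pi * (N l : ℝ) ^ 2 * P.z.im + 2 * Real.pi * N l * (t l).im) := by
    unfold Qf
    rw [hP2]
    have h1 : ∑ l, (tt P.z (v + g) l).im ^ 2 / P.z.im = ∑ l, (tt P.z v l).im ^ 2 / P.z.im +
        ∑ l, ((N l : ℝ) ^ 2 * P.z.im + 2 * N l * (t l).im) := by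
      rw [← Finset.sum_add_distrib]
      refine Finset.sum_congr rfl fun l _ => ?_
      have h2 : (tt P.z (v + g) l).im = (t l).im + N l * P.z.im := by
        rw [ht' l]
        simp [Complex.add_im, Complex.mul_im]
      rw [h2, ← ht]
      field_simp
      ring
    rw [h1]
    have h3 : ∑ l, (Real.pi * (N l : ℝ) ^ 2 * P.z.im + 2 * Real.pi * N l * (t l).im) =
        Real.pi * ∑ l, ((N l : ℝ) ^ 2 * P.z.im + 2 * N l * (t l).im) := by
      rw [Finset.mul_sum]
      refine Finset.sum_congr rfl fun l _ => ?_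
      ring
    rw [h3]
    ring
  unfold Nn
  rw [hG, norm_mul, hnorm, hQ]
  have e : ∀ A B C : ℝ, Real.exp A * C * Real.exp (-((1 : ℕ) * (B + A))) = C * Real.exp (-((1 : ℕ) * B)) := by
    intro A B C
    have : Real.exp (-((1 : ℕ) * B)) = Real.exp A * Real.exp (-((1 : ℕ) * (B + A))) := by
      rw [← Real.exp_add]
      congr 1
      push_cast
      ring
    rw [this]
    ring
  exact e _ _ _

end Pool.Agent.MSU
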