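import Pool.Agent.Lib.MP_f58a57_nt.U.Defs

/-! # U/D4_Theta: lower bounds for the theta function at points where the Weierstrass function is not too large -/

open Complex

noncomputable section

namespace Pool.Agent.MSU

open MSD MSP MSK MSR

theorem d4_pos (τ : ℂ) (hτ : 0 < τ.im) (s h : ℂ) : 0 < max ‖N0 τ h‖ ‖N2 τ s h‖ := by
  by_cases h0 : N0 τ h = 0
  · refine lt_max_of_lt_right (norm_pos_iff.2 ?_)
    obtain ⟨m, n, hmn⟩ := (th_eq_zero_iff τ hτ h).1 h0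
    have h1 : N1 τ h ≠ 0 := by
      have e : h = 0 + m + n * τ := by rw [hmn, zero_add]
      rw [e, N1_shift τ hτ]
      have h2 : N0 τ 0 = 0 := by
        unfold N0 th
        simp
      rw [h2, mul_zero, sub_zero]
      exact mul_ne_zero (au_ne τ m n 0) (deriv_th_zero_ne τ hτ)
    have h3 : N2 τ s h = N1 τ h ^ 2 := by
      have h4 : th τ h = 0 := h0
      unfold N2 N1
      rw [h4]
      ring
    rw [h3]
    exact pow_ne_zero 2 h1
  · exact lt_max_of_lt_left (norm_pos_iff.2 h0)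

/-- D4. PROOF. `N0 = th`, `N1 = deriv th`, `N2 = N1² - N0 N0'' - s N0²` are continuous (t5_cont0, t5_cont1, t5_cont2), `ph = N1/N0`, `wp = N2/N0²`. `N0` and `N2` have no common zero: the zeros of `th` are the lattice points (`th_eq_zero_iff`) and are simple
(`deriv_th_zero_ne` and the functional equations `th_add_one`, `t3_shift`/`th_add_tau`, or K/P lemmas on `au`: `th (t + m + nτ) = au .. * th t`), so `N2 = (deriv th)² ≠ 0` there. Compactness of the ball `‖h‖ ≤ H`: `max ‖N0‖ ‖N2‖ ≥ c` with `0 < c ≤ 1`. If `‖wp‖ ≤ B`, `B ≥ 1`: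
either `‖N0‖ ≥ c ≥ c/B` or `‖N0‖² = ‖N2‖/‖wp‖ ≥ c/B` (if `wp = 0` then `N2 = 0`, so the first case), and then `‖N0‖ ≥ min 1 (c/B)`-ish: `‖N0‖ ≥ ‖N0‖²` if `‖N0‖ ≤ 1`. So `‖N0‖ ≥ c/B` always. `‖ph‖ ≤ sup ‖N1‖ * B / c`. -/
theorem base_bounds (τ : ℂ) (hτ : 0 < τ.im) (H : ℝ) : ∃ C : ℝ, 1 ≤ C ∧ ∀ h : ℂ, ‖h‖ ≤ H → th τ h ≠ 0 → ∀ B : ℝ, 1 ≤ B → ‖wp τ (sE τ) h‖ ≤ B →
    1 / (C * B) ≤ ‖th τ h‖ ∧ ‖ph τ h‖ ≤ C * B := by
  have hK : IsCompact (Metric.closedBall (0 : ℂ) H) := isCompact_closedBall 0 H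
  have hc : Continuous fun h : ℂ => (max ‖N0 τ h‖ ‖N2 τ (sE τ) h‖)⁻¹ :=
    ((t5_cont0 τ hτ).norm.max (t5_cont2 τ (sE τ) hτ).norm).inv₀
      fun h => (d4_pos τ hτ (sE τ) h).ne'
  obtain ⟨D1, hD1⟩ := hK.exists_bound_of_continuousOn hc.continuousOn
  obtain ⟨D2, hD2⟩ := hK.exists_bound_of_continuousOn (t5_cont1 τ hτ).continuousOn
  have hD : 1 ≤ max 1 D1 := le_max_left _ _
  have hE : 1 ≤ max 1 D2 := le_max_left _ _
  have hD0 : 0 < max 1 D1 := lt_of_lt_of_le one_pos hD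
  have hE0 : 0 < max 1 D2 := lt_of_lt_of_le one_pos hE
  refine ⟨max 1 D1 * max 1 D2, one_le_mul_of_one_le_of_one_le hD hE, ?_⟩
  intro h hh h0 B hB hwp
  have hB0 : 0 < B := lt_of_lt_of_le one_pos hB
  have hmem : h ∈ Metric.closedBall (0 : ℂ) H := by
    rw [mem_closedBall_zero_iff]; exact hh
  have hN0 : 0 < ‖N0 τ h‖ := norm_pos_iff.2 h0
  have hmax : 1 / max 1 D1 ≤ max ‖N0 τ h‖ ‖N2 τ (sE τ) h‖ := by
    have h1 := hD1 h hmem
    rw [Real.norm_of_nonneg (inv_nonneg.2 (d4_pos τ hτ (sE τ) h).le)] at h1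
    have h2 : (max ‖N0 τ h‖ ‖N2 τ (sE τ) h‖)⁻¹ ≤ max 1 D1 := h1.trans (le_max_right _ _)
    rw [one_div]
    exact inv_le_of_inv_le₀ (d4_pos τ hτ (sE τ) h) h2
  have hN2 : ‖N2 τ (sE τ) h‖ ≤ B * ‖N0 τ h‖ ^ 2 := by
    have h1 : N2 τ (sE τ) h = wp τ (sE τ) h * N0 τ h ^ 2 := by
      unfold wp
      rw [div_mul_cancel₀ _ (pow_ne_zero 2 (norm_pos_iff.1 hN0))]
    rw [h1, norm_mul, norm_pow]
    exact mul_le_mul_of_nonneg_right hwp (by positivity)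
  have hlow : 1 / (max 1 D1 * B) ≤ ‖N0 τ h‖ := by
    rcases le_total ‖N2 τ (sE τ) h‖ ‖N0 τ h‖ with hle | hle
    · rw [max_eq_left hle] at hmax
      refine le_trans ?_ hmax
      exact one_div_le_one_div_of_le hD0 (le_mul_of_one_le_right hD0.le hB)
    · rw [max_eq_right hle] at hmax
      have h3 : 1 / (max 1 D1 * B) ≤ ‖N0 τ h‖ ^ 2 := by
        rw [← div_div, div_le_iff₀ hB0, mul_comm]
        exact hmax.trans hN2
      rcases le_total 1 ‖N0 τ h‖ with h4 | h4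
      · refine le_trans ?_ h4
        rw [div_le_one (mul_pos hD0 hB0)]
        exact one_le_mul_of_one_le_of_one_le hD hB
      · refine h3.trans ?_
        nlinarith
  refine ⟨?_, ?_⟩
  · refine le_trans ?_ hlow
    refine one_div_le_one_div_of_le (mul_pos hD0 hB0) ?_
    have : max 1 D1 * B ≤ max 1 D1 * B * max 1 D2 :=
      le_mul_of_one_le_right (mul_pos hD0 hB0).le hE
    calc max 1 D1 * B ≤ max 1 D1 * B * max 1 D2 := this
      _ = max 1 D1 * max 1 D2 * B := by ring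
  · unfold ph
    rw [norm_div, div_le_iff₀ hN0]
    have h1 : ‖N1 τ h‖ ≤ max 1 D2 := (hD2 h hmem).trans (le_max_right _ _)
    have h2 : 1 ≤ max 1 D1 * B * ‖N0 τ h‖ := by
      rw [div_le_iff₀ (mul_pos hD0 hB0)] at hlow
      linarith
    calc ‖N1 τ h‖ ≤ max 1 D2 := h1
      _ ≤ max 1 D2 * (max 1 D1 * B * ‖N0 τ h‖) := le_mul_of_one_le_right hE0.le h2
      _ = max 1 D1 * max 1 D2 * B * ‖N0 τ h‖ := by ring

end Pool.Agent.MSU
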