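import Pool.Agent.Lib.MP_f58a57_nt.U.D4_Theta

/-! # U/D4b_Low: the product of the theta functions is not small near the base point -/

open Complex

noncomputable section

namespace Pool.Agent.MSU

open MSD MSP MSK MSR

variable {d : ℕ}

theorem d4b_tt_le (z : ℂ) (v : Fin d → ℂ) (l : Fin (d + 1)) :
    ‖tt z v l‖ ≤ (1 + ∑ j : Fin d, ‖z‖ ^ (j.val + 1)) * ‖v‖ := by
  have hs : 0 ≤ ∑ j : Fin d, ‖z‖ ^ (j.val + 1) := Finset.sum_nonneg fun j _ => by positivity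
  have hv : 0 ≤ ‖v‖ := norm_nonneg _
  refine Fin.cases ?_ (fun j => ?_) l
  · simp only [tt, Fin.cons_zero, norm_neg]
    calc ‖∑ j : Fin d, z ^ (j.val + 1) * v j‖ ≤ ∑ j : Fin d, ‖z ^ (j.val + 1) * v j‖ := norm_sum_le _ _
      _ ≤ ∑ j : Fin d, ‖z‖ ^ (j.val + 1) * ‖v‖ := by
          refine Finset.sum_le_sum fun j _ => ?_
          rw [norm_mul, norm_pow]
          exact mul_le_mul_of_nonneg_left (norm_le_pi_norm v j) (by positivity)
      _ = (∑ j : Fin d, ‖z‖ ^ (j.val + 1)) * ‖v‖ := by rw [Finset.sum_mul]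
      _ ≤ (1 + ∑ j : Fin d, ‖z‖ ^ (j.val + 1)) * ‖v‖ := by nlinarith
  · simp only [tt, Fin.cons_succ]
    have := norm_le_pi_norm v j
    nlinarith

theorem d4b_lip (τ : ℂ) (hτ : 0 < τ.im) (R : ℝ) : ∃ L : ℝ, 0 ≤ L ∧ ∀ x y : ℂ, ‖x‖ ≤ R → ‖y‖ ≤ R →
    ‖th τ y - th τ x‖ ≤ L * ‖y - x‖ := by
  have hd : Differentiable ℂ (th τ) := th_differentiable τ hτ
  have hc : Continuous (deriv (th τ)) := (hd.contDiff (n := 1)).continuous_deriv (by norm_num)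
  obtain ⟨L, hL⟩ := (isCompact_closedBall (0 : ℂ) R).exists_bound_of_continuousOn hc.continuousOn
  refine ⟨max L 0, le_max_right _ _, fun x y hx hy => ?_⟩
  refine Convex.norm_image_sub_le_of_norm_deriv_le (s := Metric.closedBall (0 : ℂ) R)
    (fun w _ => hd w) (fun w hw => (hL w hw).trans (le_max_left _ _)) (convex_closedBall _ _) ?_ ?_
  · simpa using hx
  · simpa using hy

/-- D4b. PROOF. `pp D (tt P.z v) = ∏ l, N0 P.z (D.h l + tt P.z v l)`. By `base_bounds` `‖th P.z (D.h l)‖ ≥ 1/(C₀ B)`. `th P.z` is differentiable, so Lipschitz with a constant `L` on the ball of radius `|H| + 1` (compactness of the derivative, `Convex.norm_image_sub_le_of_norm_deriv_le`),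
and `‖tt P.z v l‖ ≤ K ‖v‖` (`K = 1 + ∑ ‖z‖^(j+1)`). If `‖v‖ ≤ 1/(C B)` with `C ≥ 2 C₀ L K` and `C ≥ K`, then `‖th (h_l + t_l)‖ ≥ 1/(2 C₀ B)`. -/
theorem pp_low (P : Par d) (H : ℝ) : ∃ C : ℝ, 1 ≤ C ∧ ∀ D : Dt d, D.τ = P.z → (∀ l, ‖D.h l‖ ≤ H) → ∀ B : ℝ, 1 ≤ B →
    (∀ l, ‖wp P.z (sE P.z) (D.h l)‖ ≤ B) → ∀ v : Fin d → ℂ, ‖v‖ ≤ 1 / (C * B) → (1 / (C * B)) ^ (d + 1) ≤ ‖pp D (tt P.z v)‖ := by
  have him : 0 < P.z.im := P.im
  obtain ⟨C₀, hC₀, hb⟩ := base_bounds P.z him H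
  obtain ⟨L, hL0, hL⟩ := d4b_lip P.z him (|H| + 1)
  set K : ℝ := 1 + ∑ j : Fin d, ‖P.z‖ ^ (j.val + 1) with hK
  have hK1 : 1 ≤ K := by
    have : 0 ≤ ∑ j : Fin d, ‖P.z‖ ^ (j.val + 1) := Finset.sum_nonneg fun j _ => by positivity
    rw [hK]; linarith
  have hCpos : 0 < C₀ := by linarith
  have hKpos : 0 < K := by linarith
  have hLpos : 0 < L + 1 := by linarith
  have hC1 : 1 ≤ 2 * C₀ * (L + 1) * K := by
    have h1 : 1 ≤ C₀ * (L + 1) := by nlinarith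
    have h2 : 1 ≤ C₀ * (L + 1) * K := by nlinarith
    nlinarith
  refine ⟨2 * C₀ * (L + 1) * K, hC1, ?_⟩
  intro D hτ hH B hB hw v hv
  have hBpos : 0 < B := by linarith
  have hkey : ∀ l, 1 / (2 * C₀ * (L + 1) * K * B) ≤ ‖N0 D.τ (D.h l + tt P.z v l)‖ := by
    intro l
    have hne : th P.z (D.h l) ≠ 0 := by
      have := D.hh l
      rwa [hτ] at this
    obtain ⟨hlow, -⟩ := hb (D.h l) (hH l) hne B hB (hw l)
    have ht : ‖tt P.z v l‖ ≤ 1 / (2 * C₀ * (L + 1) * B) := by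
      refine (d4b_tt_le P.z v l).trans ?_
      calc K * ‖v‖ ≤ K * (1 / (2 * C₀ * (L + 1) * K * B)) := mul_le_mul_of_nonneg_left hv hKpos.le
        _ = 1 / (2 * C₀ * (L + 1) * B) := by field_simp
    have h2 : 1 ≤ 2 * C₀ * (L + 1) * B := by
      have h1 : 1 ≤ C₀ * (L + 1) := by nlinarith
      have h2 : 1 ≤ C₀ * (L + 1) * B := by nlinarith
      nlinarith
    have ht1 : ‖tt P.z v l‖ ≤ 1 := ht.trans (by rw [div_le_one (by positivity)]; exact h2)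
    have hx : ‖D.h l‖ ≤ |H| + 1 := (hH l).trans (by linarith [le_abs_self H])
    have hy : ‖D.h l + tt P.z v l‖ ≤ |H| + 1 :=
      (norm_add_le _ _).trans (add_le_add ((hH l).trans (le_abs_self H)) ht1)
    have h3 := hL _ _ hx hy
    rw [add_sub_cancel_left] at h3
    have h4 : L * ‖tt P.z v l‖ ≤ 1 / (2 * (C₀ * B)) := by
      calc L * ‖tt P.z v l‖ ≤ L * (1 / (2 * C₀ * (L + 1) * B)) := mul_le_mul_of_nonneg_left ht hL0
        _ = (L / (L + 1)) * (1 / (2 * (C₀ * B))) := by field_simp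
        _ ≤ 1 * (1 / (2 * (C₀ * B))) := by
            refine mul_le_mul_of_nonneg_right ?_ (by positivity)
            rw [div_le_one hLpos]; linarith
        _ = 1 / (2 * (C₀ * B)) := one_mul _
    have h5 : ‖th P.z (D.h l)‖ ≤ ‖th P.z (D.h l + tt P.z v l)‖ + 1 / (2 * (C₀ * B)) := by
      have : th P.z (D.h l) = th P.z (D.h l + tt P.z v l) - (th P.z (D.h l + tt P.z v l) - th P.z (D.h l)) := by ring
      calc ‖th P.z (D.h l)‖ = ‖th P.z (D.h l + tt P.z v l) - (th P.z (D.h l + tt P.z v l) - th P.z (D.h l))‖ := by rw [← this]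
        _ ≤ _ := (norm_sub_le _ _).trans (by linarith)
    have h6 : 1 / (C₀ * B) = 1 / (2 * (C₀ * B)) + 1 / (2 * (C₀ * B)) := by field_simp; norm_num
    have h7 : 1 / (2 * C₀ * (L + 1) * K * B) ≤ 1 / (2 * (C₀ * B)) := by
      apply one_div_le_one_div_of_le (by positivity)
      have : 1 ≤ (L + 1) * K := by nlinarith
      nlinarith [mul_pos hCpos hBpos]
    have h8 : N0 D.τ (D.h l + tt P.z v l) = th P.z (D.h l + tt P.z v l) := by rw [hτ]; rfl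
    rw [h8]
    linarith
  unfold MSK.pp
  rw [norm_prod]
  have hcard : (1 / (2 * C₀ * (L + 1) * K * B)) ^ (d + 1) = ∏ _l : Fin (d + 1), (1 / (2 * C₀ * (L + 1) * K * B)) := by
    simp
  rw [hcard]
  exact Finset.prod_le_prod (fun l _ => by positivity) (fun l _ => hkey l)

/-- D4b. PROOF. `lam P D j = 1 / D.om * ∑ l, rhv P l j * ph D.τ (D.h l)`, `‖D.om‖ ^ 2 = π ≥ 1`, `‖ph‖ ≤ C₀ B` by `base_bounds`. -/
theorem lam_le (P : Par d) (H : ℝ) : ∃ C : ℝ, 1 ≤ C ∧ ∀ D : Dt d, D.τ = P.z → D.om ^ 2 = Real.pi → (∀ l, ‖D.h l‖ ≤ H) → ∀ B : ℝ, 1 ≤ B →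
    (∀ l, ‖wp P.z (sE P.z) (D.h l)‖ ≤ B) → ∀ j, ‖lam P D j‖ ≤ C * B := by
  have him : 0 < P.z.im := P.im
  obtain ⟨C₀, hC₀, hb⟩ := base_bounds P.z him H
  have hCpos : 0 < C₀ := by linarith
  set S : ℝ := ∑ j : Fin d, ∑ l : Fin (d + 1), ‖rhv P l j‖ with hS
  have hS0 : 0 ≤ S := Finset.sum_nonneg fun j _ => Finset.sum_nonneg fun l _ => norm_nonneg _
  refine ⟨1 + S * C₀, by nlinarith, ?_⟩
  intro D hτ hom hH B hB hw j
  have hBpos : 0 < B := by linarith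
  have hph : ∀ l, ‖ph D.τ (D.h l)‖ ≤ C₀ * B := by
    intro l
    have hne : th P.z (D.h l) ≠ 0 := by
      have := D.hh l
      rwa [hτ] at this
    rw [hτ]
    exact (hb (D.h l) (hH l) hne B hB (hw l)).2
  have hom1 : 1 ≤ ‖D.om‖ := by
    have h1 : ‖D.om‖ ^ 2 = Real.pi := by
      rw [← norm_pow, hom, Complex.norm_real, Real.norm_of_nonneg Real.pi_pos.le]
    have h2 : (1 : ℝ) ≤ ‖D.om‖ ^ 2 := by rw [h1]; linarith [Real.pi_gt_three]
    by_contra h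
    push Not at h
    have := norm_nonneg D.om
    nlinarith
  unfold lam
  rw [norm_mul, norm_div, norm_one]
  have h1 : 1 / ‖D.om‖ ≤ 1 := by rw [div_le_one (by linarith)]; exact hom1
  have h2 : ‖∑ l, rhv P l j * ph D.τ (D.h l)‖ ≤ S * (C₀ * B) := by
    calc ‖∑ l, rhv P l j * ph D.τ (D.h l)‖ ≤ ∑ l, ‖rhv P l j * ph D.τ (D.h l)‖ := norm_sum_le _ _
      _ ≤ ∑ l, ‖rhv P l j‖ * (C₀ * B) := by
          refine Finset.sum_le_sum fun l _ => ?_
          rw [norm_mul]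
          exact mul_le_mul_of_nonneg_left (hph l) (norm_nonneg _)
      _ = (∑ l, ‖rhv P l j‖) * (C₀ * B) := by rw [Finset.sum_mul]
      _ ≤ S * (C₀ * B) := by
          refine mul_le_mul_of_nonneg_right ?_ (by positivity)
          exact Finset.single_le_sum (f := fun j => ∑ l : Fin (d + 1), ‖rhv P l j‖)
            (fun j _ => Finset.sum_nonneg fun l _ => norm_nonneg _) (Finset.mem_univ j)
  calc 1 / ‖D.om‖ * ‖∑ l, rhv P l j * ph D.τ (D.h l)‖ ≤ 1 * (S * (C₀ * B)) :=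
        mul_le_mul h1 h2 (norm_nonneg _) zero_le_one
    _ ≤ (1 + S * C₀) * B := by nlinarith

end Pool.Agent.MSU
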