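import Pool.Agent.Lib.MP_f58a57_nt.U.D4b_Low
import Pool.Agent.Lib.MP_f58a57_nt.K.C2c_Qf
import Pool.Agent.Lib.MP_f58a57_nt.R.B5_FG

/-! # U/D5_Deriv: small derivatives at the base point -/

open Complex

noncomputable section

namespace Pool.Agent.MSU

open MSD MSP MSK MSR

variable {d : ℕ}

theorem d5_FR (P : Par d) (D : Dt d) (p : Fin d → ℂ) {E : ℕ} (c : Ir d E → ℂ) (v : Fin d → ℂ) (h : pp D (tt P.z v) ≠ 0) :
    FR P D c v = GP P D p c (fun j => p j + v j) / pp D (tt P.z v) := by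
  rw [eq_div_iff h, FR_GR P D c v h]
  unfold GP
  congr 1
  funext j
  ring

theorem d5_om (P : Par d) (D : Dt d) (p : Fin d → ℂ) (hD : IsO P D p) : 1 ≤ ‖D.om‖ := by
  have h3 : ‖D.om‖ ^ 2 = Real.pi := by
    rw [← norm_pow, hD.om, Complex.norm_real, Real.norm_of_nonneg Real.pi_pos.le]
  have h4 : 1 ≤ ‖D.om‖ ^ 2 := by
    rw [h3]
    linarith [Real.pi_gt_three]
  by_contra h5
  push Not at h5
  have h6 := norm_nonneg D.om
  nlinarith

/-- D5. PROOF. Copy of `small_derivR` (R/C2_SmallDer) with `pp_low` instead of `c4c_low`. `FR P D c v = GP P D p c (p + v) / pp D (tt P.z v)` (`FR_GR`). For `‖v‖ ≤ r₀ = 1/(C₀ B)`: `‖pp‖ ≥ (1/(C₀B))^(d+1)`, `‖GP (p + v)‖ ≤ η exp (Qf (p + v)) ≤ η exp (C₁ (H+1)²)` (`Qf_le P`).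
Cauchy on `‖ζ‖ = r₀/T`: `‖iteratedDeriv k (ζ ↦ FR (ζ a)) 0‖ ≤ k! (T/r₀)^k η (C₀B)^(d+1) e^(..)`. By `iteratedDeriv_FR` this is `‖D.om‖^k ‖∑ ..‖` and `‖D.om‖ ≥ 1` (`‖D.om‖² = π`). `k! ≤ T^T`, `(T · T C₀ B)^T`. -/
theorem small_der_U (P : Par d) (hd : 2 ≤ d) (H : ℝ) : ∃ C : ℝ, 1 ≤ C ∧ ∀ (D : Dt d) (p : Fin d → ℂ), IsO P D p → ‖p‖ ≤ H → (∀ l, ‖D.h l‖ ≤ H) →
    ∀ B : ℝ, 1 ≤ B → (∀ l, ‖wp P.z (sE P.z) (D.h l)‖ ≤ B) → ∀ (E : ℕ) (c : Ir d E → ℂ) (η : ℝ), 0 ≤ η → (∀ v, Nn P 1 (GP P D p c) v ≤ η) →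
      ∀ T : ℕ, 1 ≤ T → ∀ a : Fin d → ℕ, (∀ j, a j ≤ T) → ∀ k ≤ T,
        ‖∑ κ, c κ * MvPolynomial.aeval (vals P D) ((der (fun j => (a j : ℤ)))^[k] (Rp (fun j => (κ j).val)))‖ ≤
          (C * B * T ^ 2) ^ T * (C * B) ^ (d + 1) * η := by
  obtain ⟨C₀, hC0, hlow⟩ := pp_low P H
  obtain ⟨C₁, hC1, hQ⟩ := Qf_le P
  set Q₀ : ℝ := C₁ * (|H| + 1) ^ 2 with hQ0
  have hQ0' : 0 ≤ Q₀ := by positivity
  have hexp1 : (1 : ℝ) ≤ Real.exp Q₀ := Real.one_le_exp hQ0'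
  have hC0' : 0 < C₀ := by linarith
  refine ⟨C₀ * Real.exp Q₀, by nlinarith, ?_⟩
  intro D p hD hp hh B hB hwp E c η hη hN T hT a ha k hk
  set C : ℝ := C₀ * Real.exp Q₀ with hC
  have hC0C : C₀ ≤ C := by
    rw [hC]
    exact le_mul_of_one_le_right hC0'.le hexp1
  have hTpos : (0 : ℝ) < T := by exact_mod_cast hT
  have hT1 : (1 : ℝ) ≤ T := by exact_mod_cast hT
  have hB0 : (0 : ℝ) < B := by linarith
  have hCB1 : 1 ≤ C₀ * B := by nlinarith
  have hCB0 : 0 < C₀ * B := by linarith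
  set r₀ : ℝ := 1 / (C₀ * B) with hr0
  have hr0p : 0 < r₀ := by positivity
  have hr1 : r₀ ≤ 1 := by
    rw [hr0, div_le_one hCB0]
    exact hCB1
  have hlow' := hlow D hD.τ hh B hB hwp
  have hc0 : 0 < (1 / (C₀ * B)) ^ (d + 1) := by positivity
  set M : ℝ := Real.exp Q₀ * (C₀ * B) ^ (d + 1) with hM
  have hM0 : 0 ≤ M := by positivity
  -- the bound on the ball
  have hball : ∀ v : Fin d → ℂ, ‖v‖ ≤ r₀ → ‖FR P D c v‖ ≤ M * η := by
    intro v hv
    have hl := hlow' v hv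
    have hne : pp D (tt P.z v) ≠ 0 := norm_pos_iff.1 (hc0.trans_le hl)
    rw [d5_FR P D p c v hne, norm_div]
    have h1 := hN (fun j => p j + v j)
    unfold Nn at h1
    rw [Real.exp_neg, ← div_eq_mul_inv, div_le_iff₀ (Real.exp_pos _)] at h1
    have h2 : Qf P (fun j => p j + v j) ≤ Q₀ := by
      refine (hQ _).trans ?_
      rw [hQ0]
      have h3 : ‖(fun j => p j + v j)‖ ≤ |H| + 1 := by
        have h4 : (fun j => p j + v j) = p + v := rfl
        rw [h4]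
        have h5 := le_abs_self H
        exact (norm_add_le _ _).trans (by linarith)
      have h5 : ‖(fun j => p j + v j)‖ ^ 2 ≤ (|H| + 1) ^ 2 :=
        pow_le_pow_left₀ (norm_nonneg _) h3 2
      exact mul_le_mul_of_nonneg_left h5 (by linarith)
    have h6 : Real.exp ((1 : ℕ) * Qf P (fun j => p j + v j)) ≤ Real.exp Q₀ := by
      refine Real.exp_le_exp.2 ?_
      push_cast
      linarith
    have h8 : ‖GP P D p c (fun j => p j + v j)‖ ≤ η * Real.exp Q₀ :=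
      h1.trans (mul_le_mul_of_nonneg_left h6 hη)
    calc ‖GP P D p c (fun j => p j + v j)‖ / ‖pp D (tt P.z v)‖
        ≤ (η * Real.exp Q₀) / (1 / (C₀ * B)) ^ (d + 1) := div_le_div₀ (by positivity) h8 hc0 hl
      _ = M * η := by
          rw [hM, one_div, inv_pow, div_inv_eq_mul]
          ring
  -- Cauchy
  set f : ℂ → ℂ := fun ζ : ℂ => FR P D c (fun j => ζ * a j) with hf
  set R : ℝ := r₀ / T with hR
  have hRpos : 0 < R := by positivity
  have hin : ∀ ζ : ℂ, ‖ζ‖ ≤ R → ‖(fun j => ζ * a j : Fin d → ℂ)‖ ≤ r₀ := by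
    intro ζ hζ
    rw [pi_norm_le_iff_of_nonneg hr0p.le]
    intro j
    rw [norm_mul, Complex.norm_natCast]
    have h1 : (a j : ℝ) ≤ T := by exact_mod_cast ha j
    calc ‖ζ‖ * (a j : ℝ) ≤ R * T := mul_le_mul hζ h1 (Nat.cast_nonneg _) hRpos.le
      _ = r₀ := by rw [hR]; field_simp
  have hline : Differentiable ℂ (fun ζ : ℂ => (fun j => ζ * a j : Fin d → ℂ)) := by
    rw [differentiable_pi]
    intro j
    fun_prop
  have hdiff : DifferentiableOn ℂ f (Metric.closedBall 0 R) := by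
    have h1 : DifferentiableOn ℂ (fun ζ : ℂ => GR P D c (fun j => ζ * a j : Fin d → ℂ) /
        pp D (tt P.z (fun j => ζ * a j))) (Metric.closedBall 0 R) := by
      refine DifferentiableOn.fun_div ?_ ?_ ?_
      · exact ((GR_diff P D c).comp hline).differentiableOn
      · exact ((pp_differentiable P D).comp hline).differentiableOn
      · intro ζ hζ
        have hζ' : ‖ζ‖ ≤ R := by simpa using hζ
        exact norm_pos_iff.1 (hc0.trans_le (hlow' _ (hin ζ hζ')))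
    refine h1.congr fun ζ hζ => ?_
    have hζ' : ‖ζ‖ ≤ R := by simpa using hζ
    have hne := norm_pos_iff.1 (hc0.trans_le (hlow' _ (hin ζ hζ')))
    exact (eq_div_iff hne).2 (FR_GR P D c _ hne)
  have hcl : DiffContOnCl ℂ f (Metric.ball 0 R) :=
    (hdiff.mono Metric.closure_ball_subset_closedBall).diffContOnCl
  have hcauchy := Complex.norm_iteratedDeriv_le_of_forall_mem_sphere_norm_le k hRpos hcl (C := M * η) (by
    intro ζ hζ
    have hζ' : ‖ζ‖ ≤ R := by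
      have : ‖ζ‖ = R := by simpa using hζ
      exact this.le
    exact hball _ (hin ζ hζ'))
  have h4 := iteratedDeriv_FR P D c (fun j => (a j : ℤ)) k
  simp only [Int.cast_natCast] at h4
  rw [hf, h4, norm_mul, norm_pow] at hcauchy
  have hom := d5_om P D p hD
  refine (le_mul_of_one_le_left (norm_nonneg _) (one_le_pow₀ hom)).trans (hcauchy.trans ?_)
  have hCr : C₀ * B ≤ C * B := mul_le_mul_of_nonneg_right hC0C hB0.le
  have hC1' : 1 ≤ C * B := hCB1.trans hCr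
  have e1 : (k.factorial : ℝ) ≤ (T : ℝ) ^ k := by
    have h1 : k.factorial ≤ k ^ k := Nat.factorial_le_pow k
    have h2 : k ^ k ≤ T ^ k := Nat.pow_le_pow_left hk k
    exact_mod_cast h1.trans h2
  have hbase : 1 ≤ C * B * (T : ℝ) ^ 2 := one_le_mul_of_one_le_of_one_le hC1' (one_le_pow₀ hT1)
  have e2 : (k.factorial : ℝ) / R ^ k ≤ (C * B * T ^ 2) ^ T := by
    have h1 : (k.factorial : ℝ) / R ^ k = k.factorial * (T * (C₀ * B)) ^ k := by
      have h2 : (T : ℝ) * (C₀ * B) = R⁻¹ := by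
        rw [hR, hr0, inv_div, one_div, div_inv_eq_mul]
      rw [h2, inv_pow, div_eq_mul_inv]
    rw [h1]
    have h2 : (T * (C₀ * B)) ^ k ≤ ((T : ℝ) * (C * B)) ^ k :=
      pow_le_pow_left₀ (by positivity) (mul_le_mul_of_nonneg_left hCr hTpos.le) k
    calc (k.factorial : ℝ) * (T * (C₀ * B)) ^ k ≤ (T : ℝ) ^ k * ((T : ℝ) * (C * B)) ^ k :=
          mul_le_mul e1 h2 (by positivity) (by positivity)
      _ = (C * B * T ^ 2) ^ k := by rw [← mul_pow]; ring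
      _ ≤ (C * B * T ^ 2) ^ T := pow_le_pow_right₀ hbase hk
  have e3 : M ≤ (C * B) ^ (d + 1) := by
    rw [hM]
    have h1 : (C * B) ^ (d + 1) = Real.exp Q₀ ^ (d + 1) * (C₀ * B) ^ (d + 1) := by
      rw [hC, ← mul_pow]
      ring
    rw [h1]
    refine mul_le_mul_of_nonneg_right ?_ (by positivity)
    exact le_self_pow₀ hexp1 (Nat.succ_ne_zero d)
  calc (k.factorial : ℝ) * (M * η) / R ^ k = ((k.factorial : ℝ) / R ^ k) * (M * η) := by ring
    _ ≤ (C * B * T ^ 2) ^ T * ((C * B) ^ (d + 1) * η) :=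
      mul_le_mul e2 (mul_le_mul_of_nonneg_right e3 hη) (by positivity) (by positivity)
    _ = (C * B * T ^ 2) ^ T * (C * B) ^ (d + 1) * η := by ring

end Pool.Agent.MSU
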