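import Pool.Agent.Lib.MP_f58a57_nt.U.D3_Bound
import Pool.Agent.Lib.MP_f58a57_nt.R.C3_Aux

/-! # U/D6_Flag: subspaces of small codimension on which the functions are small -/

open Complex

noncomputable section

namespace Pool.Agent.MSU

open MSD MSP MSK MSR

variable {d : ℕ}

theorem d6_GP (P : Par d) (D : Dt d) (p : Fin d → ℂ) {E : ℕ} (c : Ir d E → ℂ) (v : Fin d → ℂ) :
    GP P D p c v = ∑ κ, c κ * GP P D p (Pi.single κ 1) v := by
  unfold GP GR
  rw [c3_Cs, map_sum, TH_sum]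
  refine Finset.sum_congr rfl fun κ _ => ?_
  rw [map_mul, MvPolynomial.aeval_C, MvPolynomial.algebraMap_eq, TH_C_mul]

theorem d6_diff (P : Par d) (D : Dt d) (p : Fin d → ℂ) {E : ℕ} (c : Ir d E → ℂ) :
    Differentiable ℂ (GP P D p c) := by
  unfold GP
  have h0 : Differentiable ℂ (fun v : Fin d → ℂ => fun j => v j - p j) := by
    rw [differentiable_pi]
    intro j
    exact (differentiable_apply j).sub_const _
  exact (GR_diff P D c).comp h0

/-- the values at the points of a finite set -/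
def d6_phi (P : Par d) (D : Dt d) (p : Fin d → ℂ) (E : ℕ) (S : Finset (Fin d → ℂ)) :
    (Ir d E → ℂ) →ₗ[ℂ] (S → ℂ) where
  toFun c x := ∑ κ, c κ * GP P D p (Pi.single κ 1) (x : Fin d → ℂ)
  map_add' a b := by
    funext x
    simp only [Pi.add_apply]
    rw [← Finset.sum_add_distrib]
    exact Finset.sum_congr rfl fun κ _ => by ring
  map_smul' a b := by
    funext x
    simp only [Pi.smul_apply, smul_eq_mul, RingHom.id_apply]
    rw [Finset.mul_sum]
    exact Finset.sum_congr rfl fun κ _ => by ring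

theorem d6_card (E : ℕ) : Module.finrank ℂ (Ir d E → ℂ) = E ^ d := by
  rw [Module.finrank_pi, Fintype.card_fun, Fintype.card_fin, Fintype.card_fin]

theorem d6_ker (P : Par d) (D : Dt d) (p : Fin d → ℂ) (E : ℕ) (S : Finset (Fin d → ℂ)) :
    E ^ d ≤ Module.finrank ℂ (LinearMap.ker (d6_phi P D p E S)) + S.card := by
  have h1 := LinearMap.finrank_range_add_finrank_ker (d6_phi P D p E S)
  rw [d6_card] at h1
  have h2 : Module.finrank ℂ (LinearMap.range (d6_phi P D p E S)) ≤ S.card := by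
    refine (Submodule.finrank_le _).trans (le_of_eq ?_)
    rw [Module.finrank_pi, Fintype.card_coe]
  omega

theorem d6_Nn (P : Par d) (D : Dt d) (p : Fin d → ℂ) {E : ℕ} (c : Ir d E → ℂ)
    (hc : ∀ κ, ‖c κ‖ ≤ 1) (v : Fin d → ℂ) (A : ℝ)
    (hA : ∀ κ : Ir d E, Nn P 1 (GP P D p (Pi.single κ 1)) v ≤ A) :
    Nn P 1 (GP P D p c) v ≤ (E : ℝ) ^ d * A := by
  have h3 : ‖GP P D p c v‖ ≤ ∑ κ : Ir d E, ‖GP P D p (Pi.single κ 1) v‖ := by
    rw [d6_GP]
    refine (norm_sum_le _ _).trans (Finset.sum_le_sum fun κ _ => ?_)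
    rw [norm_mul]
    exact mul_le_of_le_one_left (norm_nonneg _) (hc κ)
  have h4 : Nn P 1 (GP P D p c) v ≤ ∑ κ : Ir d E, Nn P 1 (GP P D p (Pi.single κ 1)) v := by
    unfold Nn
    refine (mul_le_mul_of_nonneg_right h3 (Real.exp_pos _).le).trans (le_of_eq ?_)
    rw [Finset.sum_mul]
  refine (h4.trans (Finset.sum_le_sum fun κ _ => hA κ)).trans (le_of_eq ?_)
  have h6 : (Fintype.card (Ir d E) : ℝ) = (E : ℝ) ^ d := by
    rw [Fintype.card_fun, Fintype.card_fin, Fintype.card_fin]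
    push_cast
    ring
  rw [Finset.sum_const, Finset.card_univ, nsmul_eq_mul, h6]

/-- D6. PROOF. `G = GP P D p c = ∑ κ, c κ * GP P D p (single κ 1)` (as `c3_GA` in R/C3_Aux), differentiable (as `c3_diff`), `Nn P 1 G v ≤ ∑ κ, ‖c κ‖ Nn (single κ) ≤ E² (C₁ Λ E)^(2E) C₁ exp (-P2 P v)` for `‖c κ‖ ≤ 1` (`NnU_bound`, number of `κ` is `E²`). Let `C₂` be the constant of
`small_all P hd q hq` (`q` from `g2_den P` or `c4b_den P`). If `k < C₂` take `U = ⊤`: `exp (-P2) ≤ 1` and `exp (-k²/C) ≥ exp (-C₂²/C) ≥ e⁻¹` if `C ≥ C₂²`; the factor `e` goes into `C`. If `k ≥ C₂` take `M = 1`, `R = k / C₂ ≥ 1`: `Sp` has at most `C₂ R = k` points. `U` = kernel of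
`c ↦ (GP P D p c x)_(x ∈ Sp)` (linear): `E² = finrank ≤ finrank U + card Sp ≤ finrank U + k`. For `c ∈ U` `small_all` with `ε = 0`: `Nn P 1 G v ≤ C₂ B exp (-R²)`, `R² = k²/C₂²`. (`hd : 2 ≤ 2`.) -/
theorem flag (P : Par 2) (H : ℝ) : ∃ C : ℝ, 1 ≤ C ∧ ∀ (D : Dt 2) (p : Fin 2 → ℂ), IsO P D p → ‖p‖ ≤ H →
    ∀ Λ : ℝ, 1 ≤ Λ → (∀ j, ‖lam P D j‖ ≤ Λ) → ∀ E : ℕ, 1 ≤ E → ∀ k : ℕ, ∃ U : Submodule ℂ (Ir 2 E → ℂ),
      E ^ 2 ≤ Module.finrank ℂ U + k ∧ ∀ c ∈ U, (∀ κ, ‖c κ‖ ≤ 1) → ∀ v,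
        Nn P 1 (GP P D p c) v ≤ (C * Λ * E) ^ (2 * E) * C * E ^ 2 * Real.exp (-((k : ℝ) ^ 2 / C)) := by
  obtain ⟨q, hq, hqb⟩ := g2_den P
  obtain ⟨C1, hC1, hbd⟩ := NnU_bound P le_rfl H
  obtain ⟨C2, hC2, hsmall⟩ := small_all P le_rfl q hq
  have hC10 : 0 < C1 := by linarith
  have hC20 : 0 < C2 := by linarith
  have hC22 : 1 ≤ C2 ^ 2 := one_le_pow₀ hC2
  have hCC : 1 ≤ C1 * C2 ^ 2 := one_le_mul_of_one_le_of_one_le hC1 hC22
  obtain ⟨C, hC⟩ : ∃ C : ℝ, C = 3 * (C1 * C2 ^ 2) := ⟨_, rfl⟩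
  have hC0 : 1 ≤ C := by rw [hC]; linarith
  have hCpos : 0 < C := by linarith
  have hCa : C2 ^ 2 ≤ C := by
    have : C2 ^ 2 ≤ C1 * C2 ^ 2 := le_mul_of_one_le_left (by positivity) hC1
    rw [hC]
    nlinarith
  have hCb : 3 * C1 ≤ C := by
    have : C1 ≤ C1 * C2 ^ 2 := le_mul_of_one_le_right (by positivity) hC22
    rw [hC]
    linarith
  have hCc : C2 * C1 ≤ C := by
    have h1 : C2 ≤ C2 ^ 2 := by nlinarith
    have h2 : C1 * C2 ≤ C1 * C2 ^ 2 := mul_le_mul_of_nonneg_left h1 hC10.le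
    rw [hC]
    nlinarith
  refine ⟨C, hC0, ?_⟩
  intro D p hD hp Λ hΛ hlam E hE k
  have hE1 : (1 : ℝ) ≤ E := by exact_mod_cast hE
  have hb := hbd D p hD hp Λ hΛ hlam E hE
  obtain ⟨W, hW⟩ : ∃ W : ℝ, W = (C1 * Λ * E) ^ (2 * E) := ⟨_, rfl⟩
  obtain ⟨W', hW'⟩ : ∃ W' : ℝ, W' = (C * Λ * E) ^ (2 * E) := ⟨_, rfl⟩
  have hW0 : 0 ≤ W := by rw [hW]; positivity
  have hWW : W ≤ W' := by
    rw [hW, hW']
    refine pow_le_pow_left₀ (by positivity) ?_ _
    have : C1 ≤ C := by linarith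
    gcongr
  have hgen : ∀ c : Ir 2 E → ℂ, (∀ κ, ‖c κ‖ ≤ 1) → ∀ v, Nn P 1 (GP P D p c) v ≤
      ((E : ℝ) ^ 2 * (W * C1)) * Real.exp (-(((1 : ℕ) : ℝ) * P2 P v)) := by
    intro c hc v
    refine (d6_Nn P D p c hc v _ fun κ => hb κ v).trans (le_of_eq ?_)
    rw [hW]
    ring
  rw [← hW']
  rcases lt_or_ge (k : ℝ) C2 with hk | hk
  · refine ⟨⊤, ?_, ?_⟩
    · rw [finrank_top, d6_card]
      exact Nat.le_add_right _ _
    · intro c _ hc v
      have h1 := hgen c hc v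
      have h2 : Real.exp (-(((1 : ℕ) : ℝ) * P2 P v)) ≤ 1 := by
        refine Real.exp_le_one_iff.2 ?_
        have := g2_P2 P v
        rw [neg_nonpos]
        positivity
      have h3 : (E : ℝ) ^ 2 * (W * C1) * Real.exp (-(((1 : ℕ) : ℝ) * P2 P v)) ≤
          (E : ℝ) ^ 2 * (W * C1) := mul_le_of_le_one_right (by positivity) h2
      have h4 : (k : ℝ) ^ 2 / C ≤ 1 := by
        rw [div_le_one hCpos]
        have h5 : (k : ℝ) ^ 2 ≤ C2 ^ 2 := pow_le_pow_left₀ (Nat.cast_nonneg _) hk.le 2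
        exact h5.trans hCa
      have h5 : Real.exp (-1) ≤ Real.exp (-((k : ℝ) ^ 2 / C)) := Real.exp_le_exp.2 (by linarith)
      have h6 : 1 / 3 ≤ Real.exp (-1) := by
        rw [Real.exp_neg, one_div]
        refine inv_anti₀ (Real.exp_pos 1) ?_
        have := Real.exp_one_lt_d9
        linarith
      have h7 : C1 ≤ C * Real.exp (-((k : ℝ) ^ 2 / C)) := by
        have : C * (1 / 3) ≤ C * Real.exp (-((k : ℝ) ^ 2 / C)) :=
          mul_le_mul_of_nonneg_left (h6.trans h5) hCpos.le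
        linarith
      calc Nn P 1 (GP P D p c) v ≤ (E : ℝ) ^ 2 * (W * C1) := h1.trans h3
        _ ≤ (E : ℝ) ^ 2 * (W' * (C * Real.exp (-((k : ℝ) ^ 2 / C)))) := by
            refine mul_le_mul_of_nonneg_left ?_ (by positivity)
            exact mul_le_mul hWW h7 hC10.le (hW0.trans hWW)
        _ = W' * C * E ^ 2 * Real.exp (-((k : ℝ) ^ 2 / C)) := by ring
  · have hR : 1 ≤ (k : ℝ) / C2 := by
      rw [le_div_iff₀ hC20, one_mul]
      exact hk
    obtain ⟨Sp, hSp, hsm⟩ := hsmall 1 ((k : ℝ) / C2) le_rfl hR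
    have hcard : Sp.card ≤ k := by
      have h1 : (Sp.card : ℝ) ≤ k := by
        refine hSp.trans (le_of_eq ?_)
        simp only [Nat.cast_one, one_pow, mul_one, show 2 - 1 = 1 from rfl, pow_one]
        field_simp
      exact_mod_cast h1
    refine ⟨LinearMap.ker (d6_phi P D p E Sp), ?_, ?_⟩
    · have h1 := d6_ker P D p E Sp
      omega
    · intro c hcU hc v
      have h1 := hsm (GP P D p c) ((E : ℝ) ^ 2 * (W * C1)) (d6_diff P D p c)
        (fun m u => NnU_shift P le_rfl D p hD q hqb c m u) (hgen c hc) 0 le_rfl ?_ v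
      · rw [pow_one, zero_add] at h1
        have h2 : ((1 : ℕ) : ℝ) * ((k : ℝ) / C2) ^ 2 = (k : ℝ) ^ 2 / C2 ^ 2 := by
          rw [Nat.cast_one, one_mul, div_pow]
        rw [h2] at h1
        have h3 : Real.exp (-((k : ℝ) ^ 2 / C2 ^ 2)) ≤ Real.exp (-((k : ℝ) ^ 2 / C)) := by
          apply Real.exp_le_exp.2
          rw [neg_le_neg_iff]
          exact div_le_div_of_nonneg_left (by positivity) (by positivity) hCa
        calc Nn P 1 (GP P D p c) v
            ≤ C2 * ((E : ℝ) ^ 2 * (W * C1) * Real.exp (-((k : ℝ) ^ 2 / C2 ^ 2))) := h1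
          _ = (E : ℝ) ^ 2 * (W * (C2 * C1)) * Real.exp (-((k : ℝ) ^ 2 / C2 ^ 2)) := by ring
          _ ≤ (E : ℝ) ^ 2 * (W' * C) * Real.exp (-((k : ℝ) ^ 2 / C)) := by
              refine mul_le_mul ?_ h3 (Real.exp_pos _).le ?_
              · refine mul_le_mul_of_nonneg_left ?_ (by positivity)
                exact mul_le_mul hWW hCc (by positivity) (hW0.trans hWW)
              · have : 0 ≤ W' := hW0.trans hWW
                positivity
          _ = W' * C * E ^ 2 * Real.exp (-((k : ℝ) ^ 2 / C)) := by ring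
      · intro x hx
        have h2 : d6_phi P D p E Sp c = 0 := LinearMap.mem_ker.1 hcU
        have h3 := congrFun h2 ⟨x, hx⟩
        have h4 : GP P D p c x = 0 := by
          rw [d6_GP]
          exact h3
        unfold Nn
        rw [h4, norm_zero, zero_mul]

end Pool.Agent.MSU
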