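import Mathlib

/-! # U/D7_Det: a determinant estimate from subspaces on which the rows are small -/

noncomputable section

namespace Pool.Agent.MSU

/-- Insertion of a zero coordinate as a linear map. -/
def d7_ins {n : ℕ} (j : Fin (n + 1)) : (Fin n → ℂ) →ₗ[ℂ] (Fin (n + 1) → ℂ) where
  toFun c := fun κ => (Fin.insertNth (α := fun _ => ℂ) j (0 : ℂ) c) κ
  map_add' a b := by
    funext κ
    refine Fin.succAboveCases j ?_ (fun i => ?_) κ
    · simp
    · simp
  map_smul' r a := by
    funext κ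
    refine Fin.succAboveCases j ?_ (fun i => ?_) κ
    · simp
    · simp

theorem d7_ins_same {n : ℕ} (j : Fin (n + 1)) (c : Fin n → ℂ) : d7_ins j c j = 0 := by
  simp [d7_ins]

theorem d7_ins_succ {n : ℕ} (j : Fin (n + 1)) (c : Fin n → ℂ) (i : Fin n) :
    d7_ins j c (j.succAbove i) = c i := by
  simp [d7_ins]

theorem d7_ins_inj {n : ℕ} (j : Fin (n + 1)) : Function.Injective (d7_ins j) := by
  intro a b hab
  funext i
  rw [← d7_ins_succ j a i, ← d7_ins_succ j b i, hab]

theorem d7_finrank {n : ℕ} (j : Fin (n + 1)) (U : Submodule ℂ (Fin (n + 1) → ℂ)) :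
    Module.finrank ℂ U ≤ Module.finrank ℂ (U.comap (d7_ins j)) + 1 := by
  have h1 := (Submodule.equivMapOfInjective (d7_ins j) (d7_ins_inj j) (U.comap (d7_ins j))).finrank_eq
  rw [Submodule.map_comap_eq] at h1
  have h2 := Submodule.finrank_sup_add_finrank_inf_eq (LinearMap.range (d7_ins j)) U
  have h3 := LinearMap.finrank_range_of_inj (d7_ins_inj j)
  have h4 := Submodule.finrank_le (LinearMap.range (d7_ins j) ⊔ U)
  rw [Module.finrank_fin_fun] at h3 h4
  omega

/-- D7. PROOF. Induction on `n`. `n = 0`: `det = 1`. Step `n + 1`: the subspace `U` for `k = n` has dimension `≥ 1`; take `c ∈ U`, `c ≠ 0`, divide by the coordinate of maximal norm: `c j₀ = 1`, `‖c κ‖ ≤ 1`. `Matrix.det_updateCol_sum`: the matrix `A'` with column `j₀` replaced by `i ↦ ∑ κ, A i κ * c κ`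
has the determinant `c j₀ * det A = det A`. Expand along the column `j₀` (`Matrix.det_succ_column`): `‖det A‖ ≤ ∑ i, ε n * ‖det (A.submatrix i.succAbove j₀.succAbove)‖`. The minors satisfy the hypothesis for `n` and the same `ε`: for `k < n` take
`U' = {c' : Fin n → ℂ | insert 0 at j₀ is in U_k}` (comap of `U_k` under the linear map `Fin.insertNth j₀ 0` resp. `LinearMap`); it is isomorphic to `U_k ∩ {c : c j₀ = 0}`, of dimension `≥ (n + 1 - k) - 1`. So each minor is `≤ n! ∏_(k < n) ε k`. -/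
theorem det_flag (n : ℕ) (A : Matrix (Fin n) (Fin n) ℂ) (ε : ℕ → ℝ) (hε : ∀ k < n, 0 ≤ ε k)
    (h : ∀ k < n, ∃ U : Submodule ℂ (Fin n → ℂ), n ≤ Module.finrank ℂ U + k ∧ ∀ c ∈ U, (∀ κ, ‖c κ‖ ≤ 1) → ∀ i, ‖∑ κ, A i κ * c κ‖ ≤ ε k) :
    ‖A.det‖ ≤ n.factorial * ∏ k ∈ Finset.range n, ε k := by
  induction n with
  | zero => simp
  | succ n ih =>
    obtain ⟨U, hU1, hU2⟩ := h n (Nat.lt_succ_self n)
    have hpos : 0 < Module.finrank ℂ U := by omega
    have hne : U ≠ ⊥ := by
      rintro rfl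
      simp at hpos
    obtain ⟨c, hcU, hc0⟩ := Submodule.exists_mem_ne_zero_of_ne_bot hne
    obtain ⟨j, hj⟩ := Finite.exists_max fun κ => ‖c κ‖
    have hcj : c j ≠ 0 := by
      intro h0
      apply hc0
      funext κ
      have := hj κ
      rw [h0, norm_zero] at this
      exact norm_le_zero_iff.1 this
    set b : Fin (n + 1) → ℂ := (c j)⁻¹ • c with hb
    have hbU : b ∈ U := U.smul_mem _ hcU
    have hbj : b j = 1 := by
      rw [hb, Pi.smul_apply, smul_eq_mul, inv_mul_cancel₀ hcj]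
    have hb1 : ∀ κ, ‖b κ‖ ≤ 1 := by
      intro κ
      rw [hb, Pi.smul_apply, smul_eq_mul, norm_mul, norm_inv, inv_mul_eq_div]
      exact div_le_one_of_le₀ (hj κ) (norm_nonneg _)
    have hdet : A.det = (A.updateCol j (fun k => ∑ i, b i • A k i)).det := by
      rw [Matrix.det_updateCol_sum, hbj, one_smul]
    have hminor : ∀ i : Fin (n + 1), ‖(A.submatrix i.succAbove j.succAbove).det‖ ≤
        n.factorial * ∏ k ∈ Finset.range n, ε k := by
      intro i
      refine ih _ (fun k hk => hε k (by omega)) fun k hk => ?_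
      obtain ⟨U', hU'1, hU'2⟩ := h k (by omega)
      refine ⟨U'.comap (d7_ins j), ?_, fun c' hc' hc'1 i' => ?_⟩
      · have := d7_finrank j U'
        omega
      · have h1 := hU'2 (d7_ins j c') hc' (fun κ => ?_) (i.succAbove i')
        · rw [Fin.sum_univ_succAbove _ j, d7_ins_same, mul_zero, zero_add] at h1
          simp only [d7_ins_succ] at h1
          exact h1
        · refine Fin.succAboveCases j ?_ (fun i => ?_) κ
          · rw [d7_ins_same, norm_zero]
            exact zero_le_one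
          · rw [d7_ins_succ]
            exact hc'1 i
    have hεn : 0 ≤ ε n := hε n (Nat.lt_succ_self n)
    rw [hdet, Matrix.det_succ_column _ j]
    have hterm : ∀ i : Fin (n + 1), ‖(-1 : ℂ) ^ ((i : ℕ) + (j : ℕ)) *
        (A.updateCol j (fun k => ∑ i, b i • A k i)) i j *
        ((A.updateCol j (fun k => ∑ i, b i • A k i)).submatrix i.succAbove j.succAbove).det‖ ≤
        ε n * (n.factorial * ∏ k ∈ Finset.range n, ε k) := by
      intro i
      rw [norm_mul, norm_mul, norm_pow, norm_neg, norm_one, one_pow, one_mul,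
        Matrix.submatrix_updateCol_succAbove, Matrix.updateCol_self]
      refine mul_le_mul ?_ (hminor i) (norm_nonneg _) hεn
      have h1 := hU2 b hbU hb1 i
      have h2 : ∑ κ, A i κ * b κ = ∑ κ, b κ • A i κ :=
        Finset.sum_congr rfl fun κ _ => by rw [smul_eq_mul, mul_comm]
      rwa [h2] at h1
    refine (norm_sum_le _ _).trans ((Finset.sum_le_sum fun i _ => hterm i).trans ?_)
    rw [Finset.sum_const, Finset.card_univ, Fintype.card_fin, nsmul_eq_mul, Finset.prod_range_succ,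
      Nat.factorial_succ]
    push_cast
    exact le_of_eq (by ring)

/-- D7. PROOF. Reindex `det_flag` by an equivalence `ι ≃ Fin n` (`Matrix.det_reindex_self` / `Matrix.det_submatrix_equiv_self`, `Submodule.comap/map` along `LinearEquiv.funCongrLeft`). -/
theorem det_flag' {ι : Type} [Fintype ι] [DecidableEq ι] (n : ℕ) (hn : Fintype.card ι = n) (A : Matrix ι ι ℂ) (ε : ℕ → ℝ) (hε : ∀ k < n, 0 ≤ ε k)
    (h : ∀ k < n, ∃ U : Submodule ℂ (ι → ℂ), n ≤ Module.finrank ℂ U + k ∧ ∀ c ∈ U, (∀ κ, ‖c κ‖ ≤ 1) → ∀ i, ‖∑ κ, A i κ * c κ‖ ≤ ε k) :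
    ‖A.det‖ ≤ n.factorial * ∏ k ∈ Finset.range n, ε k := by
  obtain e : ι ≃ Fin n := Fintype.equivFinOfCardEq hn
  rw [← Matrix.det_submatrix_equiv_self e.symm A]
  refine det_flag n _ ε hε fun k hk => ?_
  obtain ⟨U, hU1, hU2⟩ := h k hk
  refine ⟨U.map (LinearEquiv.funCongrLeft ℂ ℂ e.symm).toLinearMap, ?_, ?_⟩
  · rw [LinearEquiv.finrank_map_eq]
    exact hU1
  · rintro c ⟨u, hu, rfl⟩ hc i
    have h1 : ∀ κ, ‖u κ‖ ≤ 1 := by
      intro κ
      have := hc (e κ)
      simpa [LinearEquiv.funCongrLeft_apply, LinearMap.funLeft_apply] using this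
    have h2 := hU2 u hu h1 (e.symm i)
    rw [← Equiv.sum_comp e.symm] at h2
    exact h2

end Pool.Agent.MSU
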