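import Pool.Agent.Lib.MP_f58a57_nt.P.Defs

/-! # U/D8_Lip: values of integer polynomials at close points -/

noncomputable section

namespace Pool.Agent.MSU

open MSP

theorem d8_norm_prod {σ : Type*} (x : σ → ℂ) (C : ℝ) (hx : ∀ v, ‖x v‖ ≤ C) (s : Multiset σ) :
    ‖(s.map x).prod‖ ≤ C ^ s.card := by
  induction s using Multiset.induction_on with
  | empty => simp
  | cons a s ih =>
    rw [Multiset.map_cons, Multiset.prod_cons, norm_mul, Multiset.card_cons, pow_succ, mul_comm]
    have hC : 0 ≤ C := (norm_nonneg _).trans (hx a)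
    exact mul_le_mul ih (hx a) (norm_nonneg _) (pow_nonneg hC _)

theorem d8_multiset {σ : Type*} (B δ : ℝ) (hB : 1 ≤ B) (hδ : 0 ≤ δ) (hδ1 : δ ≤ 1)
    (x y : σ → ℂ) (hx : ∀ v, ‖x v‖ ≤ B) (hy : ∀ v, ‖y v - x v‖ ≤ δ) (s : Multiset σ) :
    ‖(s.map y).prod - (s.map x).prod‖ ≤ s.card * (B + 1) ^ s.card * δ := by
  have hy' : ∀ v, ‖y v‖ ≤ B + 1 := fun v => by
    have : y v = (y v - x v) + x v := by ring
    rw [this]
    refine (norm_add_le _ _).trans ?_
    linarith [hx v, hy v]
  have hB1 : (1 : ℝ) ≤ B + 1 := by linarith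
  induction s using Multiset.induction_on with
  | empty => simp
  | cons a s ih =>
    simp only [Multiset.map_cons, Multiset.prod_cons, Multiset.card_cons]
    have e : y a * (s.map y).prod - x a * (s.map x).prod =
        (y a - x a) * (s.map y).prod + x a * ((s.map y).prod - (s.map x).prod) := by ring
    rw [e]
    have h1 : ‖(y a - x a) * (s.map y).prod‖ ≤ δ * (B + 1) ^ s.card := by
      rw [norm_mul]
      exact mul_le_mul (hy a) (d8_norm_prod y _ hy' s) (norm_nonneg _) hδ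
    have h2 : ‖x a * ((s.map y).prod - (s.map x).prod)‖ ≤ (B + 1) * (s.card * (B + 1) ^ s.card * δ) := by
      rw [norm_mul]
      exact mul_le_mul ((hx a).trans (by linarith)) ih (norm_nonneg _) (by linarith)
    have hp : (0 : ℝ) ≤ (B + 1) ^ s.card := by positivity
    have h3 : δ * (B + 1) ^ s.card ≤ (B + 1) * ((B + 1) ^ s.card * δ) := by
      have : 0 ≤ (B + 1) ^ s.card * δ := mul_nonneg hp hδ
      nlinarith
    calc _ ≤ _ := norm_add_le _ _
      _ ≤ δ * (B + 1) ^ s.card + (B + 1) * (s.card * (B + 1) ^ s.card * δ) := add_le_add h1 h2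
      _ ≤ (B + 1) * ((B + 1) ^ s.card * δ) + (B + 1) * (s.card * (B + 1) ^ s.card * δ) := by linarith
      _ = ((s.card + 1 : ℕ) : ℝ) * (B + 1) ^ (s.card + 1) * δ := by
        push_cast
        ring

theorem d8_prod_eq {σ : Type*} (x : σ → ℂ) (e : σ →₀ ℕ) :
    (e.toMultiset.map x).prod = ∏ v ∈ e.support, x v ^ e v := by
  classical
  rw [Finset.prod_multiset_map_count, Finsupp.toFinset_toMultiset]
  exact Finset.prod_congr rfl fun v _ => by rw [Finsupp.count_toMultiset]

/-- D8. PROOF. For a monomial with exponents `e`, `|e| ≤ m`: `|∏ y_v^(e_v) - ∏ x_v^(e_v)| ≤ m (B + 1)^m δ` (telescoping: change one factor at a time, all factors have norm `≤ B + 1`; e.g. write the difference with `Finset.prod` over a list of length `|e|`, or induction on the degree).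
Then sum over the support (`mlen`). -/
theorem aeval_lip {σ : Type*} (p : MvPolynomial σ ℤ) (m : ℕ) (hm : p.totalDegree ≤ m) (B δ : ℝ) (hB : 1 ≤ B) (hδ : 0 ≤ δ) (hδ1 : δ ≤ 1)
    (x y : σ → ℂ) (hx : ∀ v, ‖x v‖ ≤ B) (hy : ∀ v, ‖y v - x v‖ ≤ δ) :
    ‖MvPolynomial.aeval y p - MvPolynomial.aeval x p‖ ≤ mlen p * (m * (B + 1) ^ m * δ) := by
  rw [MvPolynomial.aeval_def, MvPolynomial.aeval_def, MvPolynomial.eval₂_eq, MvPolynomial.eval₂_eq,
    ← Finset.sum_sub_distrib]
  unfold mlen
  rw [Finset.sum_mul]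
  refine (norm_sum_le _ _).trans (Finset.sum_le_sum fun e he => ?_)
  rw [← mul_sub, norm_mul]
  have h1 : ‖(algebraMap ℤ ℂ) (p.coeff e)‖ = |((p.coeff e : ℤ) : ℝ)| := by
    simp only [algebraMap_int_eq, eq_intCast, Complex.norm_intCast]
  rw [h1]
  refine mul_le_mul_of_nonneg_left ?_ (abs_nonneg _)
  rw [← d8_prod_eq, ← d8_prod_eq]
  refine (d8_multiset B δ hB hδ hδ1 x y hx hy _).trans ?_
  have hc : e.toMultiset.card ≤ m := by
    rw [Finsupp.card_toMultiset]
    exact (MvPolynomial.le_totalDegree he).trans hm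
  have hc' : ((e.toMultiset.card : ℕ) : ℝ) ≤ m := by exact_mod_cast hc
  have hp : (B + 1) ^ e.toMultiset.card ≤ (B + 1) ^ m := pow_le_pow_right₀ (by linarith) hc
  refine mul_le_mul_of_nonneg_right ?_ hδ
  exact mul_le_mul hc' hp (by positivity) (by positivity)

end Pool.Agent.MSU
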