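import Pool.Agent.Lib.MP_f58a57_nt.U.D1_Geo
import Pool.Agent.Lib.MP_f58a57_nt.U.D5_Deriv
import Pool.Agent.Lib.MP_f58a57_nt.U.D6_Flag
import Pool.Agent.Lib.MP_f58a57_nt.U.D7_Det
import Pool.Agent.Lib.MP_f58a57_nt.U.D8_Lip
import Pool.Agent.Lib.MP_f58a57_nt.U.C5a_Rp

/-! # U/D9_Main: the interpolation determinant is small -/

open Complex

noncomputable section

namespace Pool.Agent.MSU

open MSD MSP MSK MSR

theorem d9_pow (x : ℝ) (hx : 2 ≤ x) (n : ℕ) (c : ℝ) (hc : c ≤ 2 ^ n) : c ≤ x ^ n :=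
  hc.trans (pow_le_pow_left₀ (by norm_num) hx n)

/-- the numerical inequality for the two constants -/
theorem d9_num (B : ℝ) (hB : 2 ≤ B) (E T : ℕ) (hE : 1 ≤ E) (hT : E ≤ T) (Cd Cf Cl : ℝ) (n : ℕ) (hd0 : 0 ≤ Cd) (hf0 : 0 ≤ Cf) (hl0 : 0 ≤ Cl)
    (hd : Cd ≤ 2 ^ n) (hf : Cf ≤ 2 ^ n) (hl : Cl ≤ 2 ^ n) :
    (E : ℝ) ^ 2 * ((Cd * (4 * B) * T ^ 2) ^ T * (Cd * (4 * B)) ^ (2 + 1) * ((Cf * (Cl * (4 * B)) * E) ^ (2 * E) * Cf * E ^ 2) +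
      E ^ 2 * (((8 * ((2 : ℕ) + 1) * T * ((4 * (2 * E) : ℕ) + ((2 : ℕ) + 3) * T)) ^ T * (88 * ((2 : ℕ) + 1) * ((2 * E : ℕ) + 1)) ^ (2 * E)) *
        ((4 * (2 * E) + (2 + 3) * T : ℕ) * (B + 1) ^ (4 * (2 * E) + (2 + 3) * T)))) ≤ (B * T) ^ ((9 * n + 120) * T) := by
  have hE1 : (1 : ℝ) ≤ E := by exact_mod_cast hE
  have hTE : (E : ℝ) ≤ T := by exact_mod_cast hT
  have hT1 : (1 : ℝ) ≤ T := hE1.trans hTE
  have hT1' : 1 ≤ T := hE.trans hT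
  obtain ⟨x, hx⟩ : ∃ x : ℝ, x = B * T := ⟨_, rfl⟩
  have hx2 : 2 ≤ x := by rw [hx]; nlinarith
  have hx1 : 1 ≤ x := by linarith
  have hBx : B ≤ x := by rw [hx]; nlinarith
  have hTx : (T : ℝ) ≤ x := by rw [hx]; nlinarith
  have hEx : (E : ℝ) ≤ x := hTE.trans hTx
  have hB0 : 0 ≤ B := by linarith
  have hx0 : 0 ≤ x := by linarith
  have hdx := d9_pow x hx2 n Cd hd
  have hfx := d9_pow x hx2 n Cf hf
  have hlx := d9_pow x hx2 n Cl hl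
  have h4x : (4 : ℝ) ≤ x ^ 2 := by nlinarith
  have hxn : ∀ m : ℕ, 0 ≤ x ^ m := fun m => pow_nonneg hx0 m
  have h1 : Cd * (4 * B) ≤ x ^ (n + 3) := by
    calc Cd * (4 * B) ≤ x ^ n * (x ^ 2 * x) := by gcongr
      _ = x ^ (n + 3) := by ring
  have e1 : (Cd * (4 * B) * (T : ℝ) ^ 2) ^ T ≤ x ^ ((n + 5) * T) := by
    calc (Cd * (4 * B) * (T : ℝ) ^ 2) ^ T ≤ (x ^ (n + 3) * x ^ 2) ^ T := by gcongr
      _ = x ^ ((n + 5) * T) := by rw [← pow_add, ← pow_mul]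
  have e2 : (Cd * (4 * B)) ^ (2 + 1) ≤ x ^ ((n + 3) * 3) := by
    calc (Cd * (4 * B)) ^ (2 + 1) ≤ (x ^ (n + 3)) ^ 3 := by gcongr
      _ = _ := by rw [← pow_mul]
  have e3 : (Cf * (Cl * (4 * B)) * E) ^ (2 * E) ≤ x ^ ((2 * n + 4) * (2 * T)) := by
    calc (Cf * (Cl * (4 * B)) * E) ^ (2 * E) ≤ (x ^ n * (x ^ n * (x ^ 2 * x)) * x) ^ (2 * E) := by gcongr
      _ = (x ^ (2 * n + 4)) ^ (2 * E) := by ring
      _ = x ^ ((2 * n + 4) * (2 * E)) := by rw [← pow_mul]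
      _ ≤ x ^ ((2 * n + 4) * (2 * T)) := pow_le_pow_right₀ hx1 (by gcongr)
  have e4 : (8 * ((2 : ℕ) + 1) * (T : ℝ) * ((4 * (2 * E) : ℕ) + ((2 : ℕ) + 3) * T)) ^ T ≤ x ^ (11 * T) := by
    have h5 : (8 * ((2 : ℕ) + 1) * (T : ℝ) * ((4 * (2 * E) : ℕ) + ((2 : ℕ) + 3) * T)) ≤ x ^ 11 := by
      push_cast
      have h6 : 8 * (2 + 1) * (T : ℝ) * (4 * (2 * E) + (2 + 3) * T) ≤ 512 * x ^ 2 := by nlinarith
      have h7 : (512 : ℝ) ≤ x ^ 9 := by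
        calc (512 : ℝ) = 2 ^ 9 := by norm_num
          _ ≤ x ^ 9 := pow_le_pow_left₀ (by norm_num) hx2 9
      calc 8 * (2 + 1) * (T : ℝ) * (4 * (2 * E) + (2 + 3) * T) ≤ 512 * x ^ 2 := h6
        _ ≤ x ^ 9 * x ^ 2 := by gcongr
        _ = x ^ 11 := by ring
    calc _ ≤ (x ^ 11) ^ T := pow_le_pow_left₀ (by positivity) h5 T
      _ = _ := by rw [← pow_mul]
  have e5 : (88 * ((2 : ℕ) + 1) * ((2 * E : ℕ) + 1) : ℝ) ^ (2 * E) ≤ x ^ (11 * (2 * T)) := by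
    have h5 : (88 * ((2 : ℕ) + 1) * ((2 * E : ℕ) + 1) : ℝ) ≤ x ^ 11 := by
      push_cast
      have h7 : (1024 : ℝ) ≤ x ^ 10 := by
        calc (1024 : ℝ) = 2 ^ 10 := by norm_num
          _ ≤ x ^ 10 := pow_le_pow_left₀ (by norm_num) hx2 10
      calc (88 : ℝ) * (2 + 1) * (2 * E + 1) ≤ 1024 * x := by nlinarith
        _ ≤ x ^ 10 * x := by gcongr
        _ = x ^ 11 := by ring
    calc _ ≤ (x ^ 11) ^ (2 * E) := pow_le_pow_left₀ (by positivity) h5 _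
      _ = x ^ (11 * (2 * E)) := by rw [← pow_mul]
      _ ≤ _ := pow_le_pow_right₀ hx1 (by gcongr)
  have e6 : ((4 * (2 * E) + (2 + 3) * T : ℕ) : ℝ) ≤ x ^ 5 := by
    push_cast
    have h7 : (16 : ℝ) ≤ x ^ 4 := by
      calc (16 : ℝ) = 2 ^ 4 := by norm_num
        _ ≤ x ^ 4 := pow_le_pow_left₀ (by norm_num) hx2 4
    have h8 : x ^ 5 = x ^ 4 * x := by ring
    have h9 : 16 * x ≤ x ^ 4 * x := by gcongr
    rw [h8]
    linarith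
  have e7 : (B + 1) ^ (4 * (2 * E) + (2 + 3) * T) ≤ x ^ (26 * T) := by
    have h5 : B + 1 ≤ x ^ 2 := by nlinarith
    calc (B + 1) ^ (4 * (2 * E) + (2 + 3) * T) ≤ (x ^ 2) ^ (4 * (2 * E) + (2 + 3) * T) := by gcongr
      _ = x ^ (2 * (4 * (2 * E) + (2 + 3) * T)) := by rw [← pow_mul]
      _ ≤ x ^ (26 * T) := pow_le_pow_right₀ hx1 (by omega)
  have hE2 : (E : ℝ) ^ 2 ≤ x ^ 2 := by gcongr
  have k1 : (Cd * (4 * B) * (T : ℝ) ^ 2) ^ T * (Cd * (4 * B)) ^ (2 + 1) * ((Cf * (Cl * (4 * B)) * E) ^ (2 * E) * Cf * E ^ 2) ≤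
      x ^ ((n + 5) * T) * x ^ ((n + 3) * 3) * (x ^ ((2 * n + 4) * (2 * T)) * x ^ n * x ^ 2) := by
    gcongr
  have k2 : (E : ℝ) ^ 2 * (((8 * ((2 : ℕ) + 1) * (T : ℝ) * ((4 * (2 * E) : ℕ) + ((2 : ℕ) + 3) * T)) ^ T * (88 * ((2 : ℕ) + 1) * ((2 * E : ℕ) + 1)) ^ (2 * E)) *
        ((4 * (2 * E) + (2 + 3) * T : ℕ) * (B + 1) ^ (4 * (2 * E) + (2 + 3) * T))) ≤ x ^ 2 * ((x ^ (11 * T) * x ^ (11 * (2 * T))) * (x ^ 5 * x ^ (26 * T))) := by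
    gcongr
  have m1 : x ^ ((n + 5) * T) * x ^ ((n + 3) * 3) * (x ^ ((2 * n + 4) * (2 * T)) * x ^ n * x ^ 2) ≤ x ^ ((9 * n + 100) * T) := by
    rw [← pow_add, ← pow_add, ← pow_add, ← pow_add]
    refine pow_le_pow_right₀ hx1 ?_
    have q0 : n ≤ n * T := Nat.le_mul_of_pos_right n (by omega)
    have q1 : (n + 5) * T + (n + 3) * 3 + ((2 * n + 4) * (2 * T) + n + 2) = 5 * (n * T) + 13 * T + 4 * n + 11 := by ring
    have q2 : (9 * n + 100) * T = 9 * (n * T) + 100 * T := by ring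
    rw [q1, q2]
    omega
  have m2 : x ^ 2 * ((x ^ (11 * T) * x ^ (11 * (2 * T))) * (x ^ 5 * x ^ (26 * T))) ≤ x ^ ((9 * n + 100) * T) := by
    rw [← pow_add, ← pow_add, ← pow_add, ← pow_add]
    refine pow_le_pow_right₀ hx1 ?_
    have q2 : (9 * n + 100) * T = 9 * (n * T) + 100 * T := by ring
    rw [q2]
    omega
  rw [← hx]
  calc _ ≤ x ^ 2 * (x ^ ((9 * n + 100) * T) + x ^ ((9 * n + 100) * T)) := by
        refine mul_le_mul hE2 (add_le_add (k1.trans m1) (k2.trans m2)) (by positivity) (by positivity)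
    _ ≤ x ^ 2 * (x * x ^ ((9 * n + 100) * T)) := by
        have := hxn ((9 * n + 100) * T)
        nlinarith [hxn 2, mul_nonneg (hxn 2) this]
    _ = x ^ (3 + (9 * n + 100) * T) := by ring
    _ ≤ x ^ ((9 * n + 120) * T) := pow_le_pow_right₀ hx1 (by
        have q2 : (9 * n + 120) * T = (9 * n + 100) * T + 20 * T := by ring
        rw [q2]
        omega)

/-- the matrix of the derivatives of the functions `Rp κ` at the point with the values `x` -/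
def Dm {E : ℕ} (x : Vr 2 → ℂ) (a : Ir 2 E → Fin 2 → ℕ) (k : Ir 2 E → ℕ) : Matrix (Ir 2 E) (Ir 2 E) ℂ :=
  Matrix.of fun i κ => MvPolynomial.aeval x ((der (fun j => (a i j : ℤ)))^[k i] (Rp (fun j => (κ j).val)))

/-- D9. PROOF. `exists_p`, `lam_le`, `flag` (`Λ = C B`), `small_der_U` (`η` = bound of `flag`), `aeval_lip` with `c5_Rp` (degree `≤ 8E + 5T`, length), `det_flag'` with
`ε k = (B T)^(C' T) (exp (-(k²/C')) + δ)` (`card (Ir 2 E) = E²`, the Lipschitz error is summed over `E² ≤ T²` columns), `(E²)! ≤ (E²)^(E²) ≤ T^(2E²)`. -/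
theorem det_small (P : Par 2) (H : ℝ) : ∃ C : ℕ, 1 ≤ C ∧ ∀ D : Dt 2, D.τ = P.z → D.om ^ 2 = Real.pi → D.kap = sE P.z / Real.pi → (∀ l, ‖D.h l‖ ≤ H) →
    ∀ B : ℝ, 2 ≤ B → (∀ v, ‖vals P D v‖ ≤ B) → ∀ E T : ℕ, 1 ≤ E → E ≤ T → ∀ (x : Vr 2 → ℂ) (δ : ℝ), 0 ≤ δ → δ ≤ 1 → (∀ v, ‖x v - vals P D v‖ ≤ δ) →
      ∀ (a : Ir 2 E → Fin 2 → ℕ) (k : Ir 2 E → ℕ), (∀ i j, a i j ≤ T) → (∀ i, k i ≤ T) →
        ‖(Dm x a k).det‖ ≤ (B * T) ^ (C * T * E ^ 2) * ∏ m ∈ Finset.range (E ^ 2), (Real.exp (-((m : ℝ) ^ 2 / C)) + δ) := by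
  obtain ⟨C0, hC0, hp⟩ := exists_p P (by norm_num : 1 ≤ 2)
  obtain ⟨H', hH'⟩ : ∃ H' : ℝ, H' = C0 * max H 1 := ⟨_, rfl⟩
  have hHH : H ≤ H' := by
    rw [hH']
    have h1 : H ≤ max H 1 := le_max_left _ _
    have h2 : (1 : ℝ) ≤ max H 1 := le_max_right _ _
    nlinarith
  obtain ⟨Cl, hCl, hlam⟩ := lam_le P H'
  obtain ⟨Cf, hCf, hflag⟩ := flag P H'
  obtain ⟨Cd, hCd, hder⟩ := small_der_U P le_rfl H'
  obtain ⟨n, hn⟩ : ∃ n : ℕ, Cd + Cf + Cl ≤ 2 ^ n := by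
    obtain ⟨n, hn⟩ := pow_unbounded_of_one_lt (Cd + Cf + Cl) (by norm_num : (1 : ℝ) < 2)
    exact ⟨n, hn.le⟩
  obtain ⟨m0, hm0⟩ := exists_nat_ge Cf
  refine ⟨max (9 * n + 120) m0, le_max_of_le_left (by omega), ?_⟩
  intro D hτ hom hkap hh B hB hv E T hE hT x δ hδ hδ1 hx a k ha hk
  obtain ⟨p, hpr, hpn⟩ := hp D.h (max H 1) (fun l => (hh l).trans (le_max_left _ _))
  rw [← hH'] at hpn
  have hIs : IsO P D p := ⟨hτ, hom, hkap, hpr⟩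
  have hh' : ∀ l, ‖D.h l‖ ≤ H' := fun l => (hh l).trans hHH
  have hom' : ‖D.om‖ ^ 2 = Real.pi := by
    rw [← norm_pow, hom, Complex.norm_real, Real.norm_of_nonneg Real.pi_pos.le]
  have hT1' : 1 ≤ T := hE.trans hT
  have hwp : ∀ l, ‖wp P.z (sE P.z) (D.h l)‖ ≤ 4 * B := by
    intro l
    have h1 := hv (Vr.X l)
    have h2 : vals P D (Vr.X l) = wp P.z (sE P.z) (D.h l) / D.om ^ 2 := by
      simp only [MSK.vals, Dt.X, add_zero, hτ]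
    rw [h2, norm_div, norm_pow, hom', div_le_iff₀ Real.pi_pos] at h1
    have h3 : Real.pi ≤ 4 := Real.pi_le_four
    nlinarith
  have hB4 : (1 : ℝ) ≤ 4 * B := by linarith
  have hΛ := hlam D hτ hom hh' (4 * B) hB4 hwp
  have hΛ1 : 1 ≤ Cl * (4 * B) := by nlinarith
  have hd0 : 0 ≤ Cd := by linarith
  have hf0 : 0 ≤ Cf := by linarith
  have hl0 : 0 ≤ Cl := by linarith
  obtain ⟨K1, hK1⟩ : ∃ K1 : ℝ, K1 = (Cd * (4 * B) * T ^ 2) ^ T * (Cd * (4 * B)) ^ (2 + 1) * ((Cf * (Cl * (4 * B)) * E) ^ (2 * E) * Cf * E ^ 2) := ⟨_, rfl⟩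
  obtain ⟨K2, hK2⟩ : ∃ K2 : ℝ, K2 = E ^ 2 * (((8 * ((2 : ℕ) + 1) * T * ((4 * (2 * E) : ℕ) + ((2 : ℕ) + 3) * T)) ^ T * (88 * ((2 : ℕ) + 1) * ((2 * E : ℕ) + 1)) ^ (2 * E)) *
        ((4 * (2 * E) + (2 + 3) * T : ℕ) * (B + 1) ^ (4 * (2 * E) + (2 + 3) * T))) := ⟨_, rfl⟩
  have hnum : (E : ℝ) ^ 2 * (K1 + K2) ≤ (B * T) ^ ((9 * n + 120) * T) := by
    rw [hK1, hK2]
    exact d9_num B hB E T hE hT Cd Cf Cl n hd0 hf0 hl0 (by linarith) (by linarith) (by linarith)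
  have hB0 : 0 ≤ B := by linarith
  have hK10 : 0 ≤ K1 := by rw [hK1]; positivity
  have hK20 : 0 ≤ K2 := by rw [hK2]; positivity
  have hcard : Fintype.card (Ir 2 E) = E ^ 2 := by simp [Ir]
  have hε0 : ∀ m : ℕ, 0 ≤ (K1 + K2) * (Real.exp (-((m : ℝ) ^ 2 / Cf)) + δ) := fun m =>
    mul_nonneg (add_nonneg hK10 hK20) (add_nonneg (Real.exp_pos _).le hδ)
  have hdet := det_flag' (E ^ 2) hcard (Dm x a k) (fun m => (K1 + K2) * (Real.exp (-((m : ℝ) ^ 2 / Cf)) + δ)) (fun m _ => hε0 m) (by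
    intro m _
    obtain ⟨U, hU1, hU2⟩ := hflag D p hIs hpn (Cl * (4 * B)) hΛ1 hΛ E hE m
    refine ⟨U, hU1, fun c hc hc1 i => ?_⟩
    have h1 := hder D p hIs hpn hh' (4 * B) hB4 hwp E c ((Cf * (Cl * (4 * B)) * E) ^ (2 * E) * Cf * E ^ 2 * Real.exp (-((m : ℝ) ^ 2 / Cf)))
      (by positivity) (hU2 c hc hc1) T hT1' (a i) (ha i) (k i) (hk i)
    have h2 : ∀ κ : Ir 2 E, ‖MvPolynomial.aeval x ((der (fun j => (a i j : ℤ)))^[k i] (Rp (fun j => (κ j).val))) -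
        MvPolynomial.aeval (vals P D) ((der (fun j => (a i j : ℤ)))^[k i] (Rp (fun j => (κ j).val)))‖ ≤
        ((8 * ((2 : ℕ) + 1) * T * ((4 * (2 * E) : ℕ) + ((2 : ℕ) + 3) * T)) ^ T * (88 * ((2 : ℕ) + 1) * ((2 * E : ℕ) + 1)) ^ (2 * E)) *
        ((4 * (2 * E) + (2 + 3) * T : ℕ) * (B + 1) ^ (4 * (2 * E) + (2 + 3) * T)) * δ := by
      intro κ
      obtain ⟨g1, g2⟩ := d0_Rp 2 T E hT1' hE (a i) (ha i) (k i) (hk i) κ
      have g3 := aeval_lip _ (4 * (2 * E) + (2 + 3) * T) g1 B δ (by linarith) hδ hδ1 (vals P D) x hv hx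
      refine g3.trans ?_
      rw [← mul_assoc]
      exact mul_le_mul_of_nonneg_right (mul_le_mul_of_nonneg_right g2 (by positivity)) hδ
    have h3 : ∑ κ, Dm x a k i κ * c κ = ∑ κ, c κ * MvPolynomial.aeval (vals P D) ((der (fun j => (a i j : ℤ)))^[k i] (Rp (fun j => (κ j).val))) +
        ∑ κ, c κ * (MvPolynomial.aeval x ((der (fun j => (a i j : ℤ)))^[k i] (Rp (fun j => (κ j).val))) -
          MvPolynomial.aeval (vals P D) ((der (fun j => (a i j : ℤ)))^[k i] (Rp (fun j => (κ j).val)))) := by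
      rw [← Finset.sum_add_distrib]
      refine Finset.sum_congr rfl fun κ _ => ?_
      simp only [Dm, Matrix.of_apply]
      ring
    rw [h3]
    refine (norm_add_le _ _).trans ?_
    have h4 : ‖∑ κ, c κ * (MvPolynomial.aeval x ((der (fun j => (a i j : ℤ)))^[k i] (Rp (fun j => (κ j).val))) -
          MvPolynomial.aeval (vals P D) ((der (fun j => (a i j : ℤ)))^[k i] (Rp (fun j => (κ j).val))))‖ ≤ K2 * δ := by
      refine (norm_sum_le _ _).trans ?_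
      have h5 : ∀ κ ∈ (Finset.univ : Finset (Ir 2 E)), ‖c κ * (MvPolynomial.aeval x ((der (fun j => (a i j : ℤ)))^[k i] (Rp (fun j => (κ j).val))) -
          MvPolynomial.aeval (vals P D) ((der (fun j => (a i j : ℤ)))^[k i] (Rp (fun j => (κ j).val))))‖ ≤
          ((8 * ((2 : ℕ) + 1) * T * ((4 * (2 * E) : ℕ) + ((2 : ℕ) + 3) * T)) ^ T * (88 * ((2 : ℕ) + 1) * ((2 * E : ℕ) + 1)) ^ (2 * E)) *
          ((4 * (2 * E) + (2 + 3) * T : ℕ) * (B + 1) ^ (4 * (2 * E) + (2 + 3) * T)) * δ := by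
        intro κ _
        rw [norm_mul]
        calc _ ≤ 1 * _ := mul_le_mul (hc1 κ) (h2 κ) (norm_nonneg _) zero_le_one
          _ = _ := one_mul _
      refine (Finset.sum_le_sum h5).trans (le_of_eq ?_)
      rw [Finset.sum_const, Finset.card_univ, hcard, nsmul_eq_mul, hK2]
      push_cast
      ring
    have h6 : ‖∑ κ, c κ * MvPolynomial.aeval (vals P D) ((der (fun j => (a i j : ℤ)))^[k i] (Rp (fun j => (κ j).val)))‖ ≤
        K1 * Real.exp (-((m : ℝ) ^ 2 / Cf)) := by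
      refine h1.trans (le_of_eq ?_)
      rw [hK1]
      ring
    have h7 : 0 ≤ Real.exp (-((m : ℝ) ^ 2 / Cf)) := (Real.exp_pos _).le
    nlinarith [mul_nonneg hK10 hδ, mul_nonneg hK20 h7])
  refine hdet.trans ?_
  rw [Finset.prod_mul_distrib, Finset.prod_const, Finset.card_range, ← mul_assoc]
  have hBT : 1 ≤ B * T := by
    have : (1 : ℝ) ≤ T := by exact_mod_cast hT1'
    nlinarith
  refine mul_le_mul ?_ ?_ (Finset.prod_nonneg fun m _ => add_nonneg (Real.exp_pos _).le hδ) (by positivity)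
  · have h1 : ((E ^ 2).factorial : ℝ) ≤ ((E : ℝ) ^ 2) ^ (E ^ 2) := by
      have := Nat.factorial_le_pow (E ^ 2)
      exact_mod_cast this
    calc ((E ^ 2).factorial : ℝ) * (K1 + K2) ^ (E ^ 2) ≤ ((E : ℝ) ^ 2) ^ (E ^ 2) * (K1 + K2) ^ (E ^ 2) :=
          mul_le_mul_of_nonneg_right h1 (pow_nonneg (add_nonneg hK10 hK20) _)
      _ = ((E : ℝ) ^ 2 * (K1 + K2)) ^ (E ^ 2) := by rw [mul_pow]
      _ ≤ ((B * T) ^ ((9 * n + 120) * T)) ^ (E ^ 2) := pow_le_pow_left₀ (mul_nonneg (by positivity) (add_nonneg hK10 hK20)) hnum _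
      _ = (B * T) ^ ((9 * n + 120) * T * E ^ 2) := by rw [← pow_mul]
      _ ≤ (B * T) ^ (max (9 * n + 120) m0 * T * E ^ 2) := by
        refine pow_le_pow_right₀ hBT ?_
        gcongr
        exact le_max_left _ _
  · refine Finset.prod_le_prod (fun m _ => add_nonneg (Real.exp_pos _).le hδ) fun m _ => ?_
    have h1 : Cf ≤ ((max (9 * n + 120) m0 : ℕ) : ℝ) := hm0.trans (by exact_mod_cast le_max_right _ _)
    have h2 : (m : ℝ) ^ 2 / ((max (9 * n + 120) m0 : ℕ) : ℝ) ≤ (m : ℝ) ^ 2 / Cf :=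
      div_le_div_of_nonneg_left (by positivity) (by linarith) h1
    have h3 : Real.exp (-((m : ℝ) ^ 2 / Cf)) ≤ Real.exp (-((m : ℝ) ^ 2 / ((max (9 * n + 120) m0 : ℕ) : ℝ))) :=
      Real.exp_le_exp.mpr (by linarith)
    linarith

end Pool.Agent.MSU
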