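import Pool.Agent.Lib.MP_f58a57_nt.R.Defs

/-!
# MP_f58a57_nt, cubic points: the interpolation determinant at a general base point, definitions
-/

open Complex

noncomputable section

namespace Pool.Agent.MSU

open MSD MSP MSK MSR

variable {d : ℕ}

/-- `D` is the curve with period ratio `z`, scaled by a square root of `π`, with the base points `tt z p + real` -/
structure IsO (P : Par d) (D : Dt d) (p : Fin d → ℂ) : Prop where
  τ : D.τ = P.z
  om : D.om ^ 2 = Real.pi
  kap : D.kap = sE P.z / Real.pi
  h : ∀ l, ∃ r : ℝ, D.h l = tt P.z p l + r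

/-- the entire function in absolute coordinates -/
def GP (P : Par d) (D : Dt d) (p : Fin d → ℂ) {E : ℕ} (c : Ir d E → ℂ) (v : Fin d → ℂ) : ℂ := GR P D c (fun j => v j - p j)

end Pool.Agent.MSU
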