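import Pool.Agent.Lib.MP_f58a57_nt.U.Z1_CD

/-! # U/Z2_Sh: Taylor shifts -/

open MvPolynomial

noncomputable section

namespace Pool.Agent.MSU

variable {M : Type} [Field M] [Algebra ℂ M]

/-- Z2a. PROOF. Induction on `P` (`MvPolynomial.induction_on`): the degree of `aeval` of a monomial of degree `n` at polynomials of degree `≤ 1` is `≤ n` (`totalDegree_mul_le`, `totalDegree_finsetProd`). -/
theorem sh_totalDegree (v : Fin 2 → ℂ) (P : Po M) : (sh v P).totalDegree ≤ P.totalDegree := by
  have h0 : sh v P = ∑ d ∈ P.support, C (P.coeff d) * ∏ i, ((X i : Po M) + cst (v i)) ^ d i := by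
    rw [sh, aeval_def, eval₂_eq']
    rfl
  rw [h0]
  apply totalDegree_finsetSum_le
  intro d hd
  have h1 : ∀ i : Fin 2, (((X i : Po M) + cst (v i)) ^ d i).totalDegree ≤ d i := by
    intro i
    refine (totalDegree_pow _ _).trans ?_
    have h2 : ((X i : Po M) + cst (v i)).totalDegree ≤ 1 := by
      refine (totalDegree_add _ _).trans ?_
      rw [totalDegree_X, cst, totalDegree_C]
      simp
    calc d i * ((X i : Po M) + cst (v i)).totalDegree ≤ d i * 1 := Nat.mul_le_mul_left _ h2
      _ = d i := mul_one _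
  have h3 : (C (P.coeff d) * ∏ i, ((X i : Po M) + cst (v i)) ^ d i).totalDegree ≤ ∑ i, d i := by
    refine (totalDegree_mul _ _).trans ?_
    rw [totalDegree_C, zero_add]
    refine (totalDegree_finsetProd _ _).trans ?_
    exact Finset.sum_le_sum fun i _ => h1 i
  refine h3.trans ?_
  have h4 := le_totalDegree hd
  rw [Finsupp.sum_fintype _ _ (by simp)] at h4
  exact h4

theorem Z2_sh_C (v : Fin 2 → ℂ) (a : M) : sh v (C a : Po M) = C a := by
  rw [sh, aeval_C]
  rfl

theorem Z2_sh_X (v : Fin 2 → ℂ) (i : Fin 2) : sh v (X i : Po M) = X i + cst (v i) := by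
  rw [sh, aeval_X]

theorem Z2_sh_add (v : Fin 2 → ℂ) (P Q : Po M) : sh v (P + Q) = sh v P + sh v Q := map_add _ _ _

theorem Z2_sh_mul (v : Fin 2 → ℂ) (P Q : Po M) : sh v (P * Q) = sh v P * sh v Q := map_mul _ _ _

theorem Z2_cst_neg (a : ℂ) : (cst (-a) : Po M) = -cst a := by
  rw [cst, cst, map_neg, map_neg]

/-- Z2b. PROOF. `algHom_ext`: both sides are algebra homomorphisms in `P`, on `X i` they agree. -/
theorem sh_neg_sh (v : Fin 2 → ℂ) (P : Po M) : sh (-v) (sh v P) = P := by
  induction P using MvPolynomial.induction_on with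
  | C a => rw [Z2_sh_C, Z2_sh_C]
  | add p q hp hq => rw [Z2_sh_add, Z2_sh_add, hp, hq]
  | mul_X p i hp =>
    have h1 : sh (-v) (cst (v i) : Po M) = cst (v i) := Z2_sh_C _ _
    rw [Z2_sh_mul, Z2_sh_mul, hp, Z2_sh_X, Z2_sh_add, Z2_sh_X, h1, Pi.neg_apply, Z2_cst_neg]
    ring

theorem sh_sh_neg (v : Fin 2 → ℂ) (P : Po M) : sh v (sh (-v) P) = P := by
  have h := sh_neg_sh (-v) P
  rwa [neg_neg] at h

theorem sh_add (v : Fin 2 → ℂ) (P Q : Po M) : sh v (P + Q) = sh v P + sh v Q := map_add _ _ _

theorem sh_mul (v : Fin 2 → ℂ) (P Q : Po M) : sh v (P * Q) = sh v P * sh v Q := map_mul _ _ _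

/-- Z2c. PROOF. Both sides are ring homomorphisms in `P`; use `ringHom_ext'` or induction on `P`; `T` fixes the complex numbers. -/
theorem map_sh (T : M →+* M) (hT : ∀ a : ℂ, T (algebraMap ℂ M a) = algebraMap ℂ M a) (v : Fin 2 → ℂ) (P : Po M) :
    map T (sh v P) = sh v (map T P) := by
  induction P using MvPolynomial.induction_on with
  | C a => rw [Z2_sh_C, map_C, Z2_sh_C]
  | add p q hp hq => rw [sh_add, map_add, map_add, sh_add, hp, hq]
  | mul_X p i hp =>
    rw [sh_mul, map_mul, map_mul, sh_mul, hp, Z2_sh_X, map_add, map_X, Z2_sh_X, cst, map_C, hT]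

omit [Algebra ℂ M] in
theorem Z2_hc_zero_X_mul (i : Fin 2) (P : Po M) : homogeneousComponent 0 (X i * P) = 0 := by
  rw [homogeneousComponent_zero]
  have : coeff 0 (X i * P) = 0 := by
    rw [mul_comm, coeff_mul_X']
    simp
  rw [this, map_zero]

theorem Z2_mono (v : Fin 2 → ℂ) (n : ℕ) : ∀ (m : Fin 2 →₀ ℕ) (c : M), m.degree = n + 1 →
    homogeneousComponent (n + 1) (sh v (monomial m c)) = monomial m c ∧
    homogeneousComponent n (sh v (monomial m c)) = ∑ i, cst (v i) * pderiv i (monomial m c) := by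
  have step : ∀ (n : ℕ) (m : Fin 2 →₀ ℕ) (c : M), m.degree = n + 1 →
      ∃ (i : Fin 2) (m' : Fin 2 →₀ ℕ), m'.degree = n ∧ monomial m c = X i * monomial m' c := by
    intro n m c hm
    have h1 : ∃ i, m i ≠ 0 := by
      by_contra h2
      push Not at h2
      have h3 : m = 0 := by
        ext i
        exact h2 i
      rw [h3] at hm
      simp at hm
    obtain ⟨i, hi⟩ := h1
    have h4 : m = Finsupp.single i 1 + (m - Finsupp.single i 1) := by
      rw [add_tsub_cancel_of_le]
      rw [Finsupp.single_le_iff]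
      omega
    refine ⟨i, m - Finsupp.single i 1, ?_, ?_⟩
    · have h5 := congrArg Finsupp.degree h4
      rw [map_add, Finsupp.degree_single, hm] at h5
      omega
    · conv_lhs => rw [h4]
      rw [X, monomial_mul, one_mul]
  have key : ∀ (n : ℕ) (i : Fin 2) (Q : Po M), (sh v Q).totalDegree ≤ n →
      homogeneousComponent n (sh v Q) = Q →
      homogeneousComponent (n + 1) (sh v (X i * Q)) = X i * Q := by
    intro n i Q hQ hQ1
    rw [sh_mul, Z2_sh_X, add_mul, map_add, hc_X_mul, hQ1, hc_cst_mul,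
      homogeneousComponent_eq_zero (n + 1) (sh v Q) (by omega), mul_zero, add_zero]
  have hder : ∀ (i : Fin 2) (Q : Po M), ∑ j, cst (v j) * pderiv j (X i * Q) =
      X i * (∑ j, cst (v j) * pderiv j Q) + cst (v i) * Q := by
    intro i Q
    have h6 : ∀ j : Fin 2, cst (v j) * pderiv j (X i * Q) =
        X i * (cst (v j) * pderiv j Q) + (if j = i then cst (v i) * Q else 0) := by
      intro j
      rw [pderiv_mul, pderiv_X]
      by_cases hj : j = i
      · subst hj
        simp
        ring
      · rw [if_neg hj, Pi.single_apply, if_neg (Ne.symm hj)]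
        ring
    rw [Finset.sum_congr rfl fun j _ => h6 j, Finset.sum_add_distrib, ← Finset.mul_sum]
    simp
  induction n with
  | zero =>
    intro m c hm
    obtain ⟨i, m', hm', he⟩ := step 0 m c hm
    have h7 : m' = 0 := (Finsupp.degree_eq_zero_iff m').1 hm'
    have h8 : monomial m' c = (C c : Po M) := by rw [h7]; rfl
    rw [he, h8]
    constructor
    · apply key
      · rw [Z2_sh_C, totalDegree_C]
      · rw [Z2_sh_C, homogeneousComponent_zero, coeff_C, if_pos rfl]
    · rw [hder, sh_mul, Z2_sh_X, Z2_sh_C, add_mul, map_add, Z2_hc_zero_X_mul, hc_cst_mul,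
        homogeneousComponent_zero, coeff_C, if_pos rfl]
      simp
  | succ n ih =>
    intro m c hm
    obtain ⟨i, m', hm', he⟩ := step (n + 1) m c hm
    obtain ⟨h9, h10⟩ := ih m' c hm'
    rw [he]
    have h11 : (sh v (monomial m' c : Po M)).totalDegree ≤ n + 1 := by
      refine (sh_totalDegree v _).trans ?_
      refine (totalDegree_monomial_le m' c).trans ?_
      rw [← hm']
      exact le_of_eq rfl
    constructor
    · exact key (n + 1) i _ h11 h9
    · rw [hder, sh_mul, Z2_sh_X, add_mul, map_add, hc_X_mul, hc_cst_mul, h9, h10]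

/-- Z2d. the second order expansion of the shift of a form. PROOF. `P` is a linear combination of monomials `X_0^a X_1^b`, `a + b = n + 1`; for these `(X_0 + v_0)^a (X_1 + v_1)^b` has the components `X_0^a X_1^b` and
`a v_0 X_0^(a-1) X_1^b + b v_1 X_0^a X_1^(b-1)`. Or: Taylor's formula by induction on `P`. -/
theorem hc_sh_homog (v : Fin 2 → ℂ) (n : ℕ) (P : Po M) (h : P.IsHomogeneous (n + 1)) :
    homogeneousComponent (n + 1) (sh v P) = P ∧ homogeneousComponent n (sh v P) = ∑ i, cst (v i) * pderiv i P := by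
  have hD : ∀ m ∈ P.support, homogeneousComponent (n + 1) (sh v (monomial m (P.coeff m))) =
      monomial m (P.coeff m) ∧ homogeneousComponent n (sh v (monomial m (P.coeff m))) =
      ∑ i, cst (v i) * pderiv i (monomial m (P.coeff m)) := by
    intro m hm
    apply Z2_mono
    have := h (mem_support_iff.1 hm)
    rw [← this]
    rw [Finsupp.degree_eq_weight_one]
    rfl
  have h1 : sh v P = ∑ m ∈ P.support, sh v (monomial m (P.coeff m)) := by
    conv_lhs => rw [P.as_sum]
    exact map_sum _ _ _
  rw [h1, map_sum, map_sum]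
  constructor
  · rw [Finset.sum_congr rfl fun m hm => (hD m hm).1]
    exact P.as_sum.symm
  · rw [Finset.sum_congr rfl fun m hm => (hD m hm).2, Finset.sum_comm]
    apply Finset.sum_congr rfl
    intro i _
    conv_rhs => rw [P.as_sum]
    rw [map_sum, Finset.mul_sum]

theorem hc_sh_homog_zero (v : Fin 2 → ℂ) (P : Po M) (h : P.IsHomogeneous 0) : sh v P = P := by
  have h1 : P.totalDegree ≤ 0 := h.totalDegree_le
  rw [eq_C_of_totalDegree_zero P h1, Z2_sh_C]

theorem Z2_split (n : ℕ) (P : Po M) (h : P.totalDegree ≤ n + 1) :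
    ∃ Q : Po M, P = homogeneousComponent (n + 1) P + Q ∧ Q.totalDegree ≤ n := by
  refine ⟨P - homogeneousComponent (n + 1) P, by ring, ?_⟩
  apply totalDegree_lt_of_hc
  · refine (totalDegree_sub _ _).trans ?_
    rw [max_le_iff]
    exact ⟨h, (homogeneousComponent_isHomogeneous (n + 1) P).totalDegree_le⟩
  · rw [map_sub]
    rw [homogeneousComponent_of_mem (homogeneousComponent_isHomogeneous (n + 1) P), if_pos rfl,
      sub_self]

theorem Z2_hc_sh_top (v : Fin 2 → ℂ) (n : ℕ) (P : Po M) (h : P.totalDegree ≤ n) :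
    homogeneousComponent n (sh v P) = homogeneousComponent n P := by
  cases n with
  | zero => rw [eq_C_of_totalDegree_zero P h, Z2_sh_C]
  | succ n =>
    obtain ⟨Q, hQ, hQd⟩ := Z2_split n P h
    have h1 := (hc_sh_homog v n _ (homogeneousComponent_isHomogeneous (n + 1) P)).1
    have h2 : homogeneousComponent (n + 1) (sh v Q) = 0 :=
      homogeneousComponent_eq_zero (n + 1) (sh v Q)
        (lt_of_le_of_lt ((sh_totalDegree v Q).trans hQd) (Nat.lt_succ_self n))
    conv_lhs => rw [hQ]
    rw [sh_add, map_add, h1, h2, add_zero]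

/-- Z2e. PROOF. Write `P = H + L + R`, `H`, `L` the components of degree `n + 1`, `n` and `R` of degree `< n` (`R = 0` if `n = 0`); `sh_totalDegree`, `hc_sh_homog`. -/
theorem hc_sh (v : Fin 2 → ℂ) (n : ℕ) (P : Po M) (h : P.totalDegree ≤ n + 1) :
    homogeneousComponent (n + 1) (sh v P) = homogeneousComponent (n + 1) P ∧
      homogeneousComponent n (sh v P) = homogeneousComponent n P + ∑ i, cst (v i) * pderiv i (homogeneousComponent (n + 1) P) := by
  refine ⟨Z2_hc_sh_top v (n + 1) P h, ?_⟩
  obtain ⟨Q, hQ, hQd⟩ := Z2_split n P h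
  have h1 := (hc_sh_homog v n _ (homogeneousComponent_isHomogeneous (n + 1) P)).2
  have h2 := Z2_hc_sh_top v n Q hQd
  have h3 : homogeneousComponent n Q = homogeneousComponent n P := by
    have h4 : homogeneousComponent n (homogeneousComponent (n + 1) P) = 0 := by
      rw [homogeneousComponent_of_mem (homogeneousComponent_isHomogeneous (n + 1) P),
        if_neg (by omega)]
    conv_rhs => rw [hQ]
    rw [map_add, h4, zero_add]
  conv_lhs => rw [hQ]
  rw [sh_add, map_add, h1, h2, h3, add_comm]

/-- Z2f. the map of a ring homomorphism on homogeneous components and degrees. -/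
theorem hc_map (T : M →+* M) (n : ℕ) (P : Po M) : homogeneousComponent n (map T P) = map T (homogeneousComponent n P) := by
  ext m
  rw [coeff_homogeneousComponent, coeff_map, coeff_map, coeff_homogeneousComponent]
  split_ifs
  · rfl
  · rw [map_zero]

theorem map_pderiv (T : M →+* M) (i : Fin 2) (P : Po M) : map T (pderiv i P) = pderiv i (map T P) := by
  exact pderiv_map.symm

theorem map_ofC (T : M →+* M) (hT : ∀ a : ℂ, T (algebraMap ℂ M a) = algebraMap ℂ M a) (g : Po ℂ) : map T (ofC g : Po M) = ofC g := by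
  have h1 : T.comp (algebraMap ℂ M) = algebraMap ℂ M := RingHom.ext hT
  rw [ofC, map_map, h1]

end Pool.Agent.MSU
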