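import Pool.Agent.Lib.MP_f58a57_nt.U.X2_TE
import Pool.Agent.Lib.MP_f58a57_nt.R.A4_Bp
import Pool.Agent.Lib.MP_f58a57_nt.U.Z2_Sh
import Pool.Agent.Lib.MP_f58a57_nt.K.A1_Deriv

/-! # U/V1_Link: the derivatives of the functions `GR` and the kernel -/

open Complex MvPolynomial

noncomputable section

namespace Pool.Agent.MSU

open MSD MSP MSK MSR

/-- the polynomial `q` attached to the auxiliary function with coefficients `c` -/
def qc (P : Par 2) (D : Dt 2) {E : ℕ} (c : Ir 2 E → ℂ) : Po ℂ := sh (lam P D) (Cs P D c)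

/-- V1a. PROOF. `Cs_ne` and `sh` is injective (`aeval` with the inverse shift; `sh_neg_sh`-like argument: `MvPolynomial.algHom_ext`). -/
theorem qc_ne (P : Par 2) (D : Dt 2) {E : ℕ} (c : Ir 2 E → ℂ) (hc : c ≠ 0) : qc P D c ≠ 0 := by
  intro h
  apply Cs_ne P D c hc
  have h1 := sh_neg_sh (lam P D) (Cs P D c)
  unfold qc at h
  rw [h] at h1
  rw [← h1]
  unfold sh
  exact map_zero _

/-- V1b. PROOF. `Bp_deg`, `∑ j, κ j ≤ 2 (E - 1)`; a shift does not increase the degree. -/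
theorem qc_deg (P : Par 2) (D : Dt 2) {E : ℕ} (c : Ir 2 E → ℂ) : (qc P D c).totalDegree ≤ 2 * (E - 1) := by
  unfold qc
  refine (sh_totalDegree _ _).trans ?_
  unfold Cs
  refine (totalDegree_finsetSum _ _).trans (Finset.sup_le fun κ _ => ?_)
  refine (totalDegree_mul _ _).trans ?_
  rw [totalDegree_C, zero_add]
  refine (Bp_deg _ _).trans ?_
  rw [Fin.sum_univ_two]
  have h0 := (κ 0).isLt
  have h1 := (κ 1).isLt
  omega

theorem va01_tt (z : ℂ) (a : Fin 2 → ℂ) (l : Fin 3) :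
    tt z a l = a 0 * tt z (Pi.single 0 1) l + a 1 * tt z (Pi.single 1 1) l := by
  have h : a = fun j => (fun j => a 0 * (Pi.single (M := fun _ => ℂ) 0 1 : Fin 2 → ℂ) j) j +
      (fun j => a 1 * (Pi.single (M := fun _ => ℂ) 1 1 : Fin 2 → ℂ) j) j := by
    funext j
    fin_cases j <;> simp
  conv_lhs => rw [h]
  rw [tt_add, tt_smul, tt_smul]

theorem va01_WV (P : Par 2) (D : Dt 2) (a : Fin 2 → ℂ) (j : Fin 2) :
    WV P D a j = a 0 * eK P D 0 j + a 1 * eK P D 1 j := by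
  unfold eK WV As
  rw [va01_tt P.z a j.succ, va01_tt P.z a j.castSucc, va01_tt P.z a (Fin.last 2)]
  ring

/-- V1c. PROOF. `Phi_X`, linearity: `Phi ((∑ a_i X_i) * p) q = lf A * Phi p q + ∑_j w_j Phi p (pderiv j q)`, `A = ∑ a_i Dv i = tt z a` and `w_j = ∑ a_i e_ij = WV a j` (linearity of `tt`, `WV`). -/
theorem Phi_lin (P : Par 2) (D : Dt 2) (a : Fin 2 → ℂ) (p q : Po ℂ) :
    Phi P D ((∑ i, C (a i) * X i) * p) q = lf (tt P.z a) * Phi P D p q + ∑ j, C (WV P D a j) * Phi P D p (pderiv j q) := by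
  have h1 : (∑ i : Fin 2, C (a i) * X i) * p = (a 0) • (X 0 * p) + (a 1) • (X 1 * p : Po ℂ) := by
    rw [Fin.sum_univ_two, MvPolynomial.smul_eq_C_mul, MvPolynomial.smul_eq_C_mul]
    ring
  rw [h1, map_add, LinearMap.add_apply, map_smul, map_smul, LinearMap.smul_apply, LinearMap.smul_apply, Phi_X, Phi_X]
  have h2 : lf (tt P.z a) = C (a 0) * lf (Dv P 0) + C (a 1) * lf (Dv P 1) := by
    unfold lf Dv
    rw [Finset.mul_sum, Finset.mul_sum, ← Finset.sum_add_distrib]
    refine Finset.sum_congr rfl fun l _ => ?_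
    rw [va01_tt, map_add, map_mul, map_mul]
    ring
  have h3 : ∀ j, (C (WV P D a j) : MvPolynomial (Fin 3) ℂ) = C (a 0) * C (eK P D 0 j) + C (a 1) * C (eK P D 1 j) := by
    intro j
    rw [va01_WV, map_add, map_mul, map_mul]
  rw [h2]
  simp only [h3, Fin.sum_univ_two, MvPolynomial.smul_eq_C_mul]
  ring

/-- the function of `link_deriv` -/
def v1_F (P : Par 2) (D : Dt 2) (a : Fin 2 → ℂ) (p0 : MvPolynomial (Fin 3) ℂ) (q : Po ℂ) (ζ : ℂ) : ℂ :=
  TH D (fun l => ζ * tt P.z a l) (p0 * aeval (fun j => C (ζ * WV P D a j) + lf (Zv P D j)) q)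

theorem v1_zero (P : Par 2) (D : Dt 2) (a : Fin 2 → ℂ) (p0 : MvPolynomial (Fin 3) ℂ) (ζ : ℂ) : v1_F P D a p0 0 ζ = 0 := by
  unfold v1_F TH
  rw [map_zero, mul_zero, support_zero, Finset.sum_empty]

theorem v1_add (P : Par 2) (D : Dt 2) (a : Fin 2 → ℂ) (p0 : MvPolynomial (Fin 3) ℂ) (p q : Po ℂ) (ζ : ℂ) :
    v1_F P D a p0 (p + q) ζ = v1_F P D a p0 p ζ + v1_F P D a p0 q ζ := by
  unfold v1_F
  rw [map_add, mul_add, TH_add]

theorem v1_mul (P : Par 2) (D : Dt 2) (a : Fin 2 → ℂ) (p0 : MvPolynomial (Fin 3) ℂ) (p : Po ℂ) (i : Fin 2) (ζ : ℂ) :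
    v1_F P D a p0 (p * X i) ζ = ζ * WV P D a i * v1_F P D a p0 p ζ + v1_F P D a (p0 * lf (Zv P D i)) p ζ := by
  unfold v1_F
  rw [map_mul, aeval_X, ← TH_C_mul, ← TH_add]
  have e : p0 * (aeval (fun j => C (ζ * WV P D a j) + lf (Zv P D j)) p * (C (ζ * WV P D a i) + lf (Zv P D i))) =
      C (ζ * WV P D a i) * (p0 * aeval (fun j => C (ζ * WV P D a j) + lf (Zv P D j)) p) +
        p0 * lf (Zv P D i) * aeval (fun j => C (ζ * WV P D a j) + lf (Zv P D j)) p := by
    ring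
  rw [e]

theorem v1_ite (P : Par 2) (D : Dt 2) (a : Fin 2 → ℂ) (p0 : MvPolynomial (Fin 3) ℂ) (p : Po ℂ) (i j : Fin 2) (ζ : ℂ) :
    v1_F P D a p0 (if j = i then p else 0) ζ = if j = i then v1_F P D a p0 p ζ else 0 := by
  by_cases hk : j = i
  · rw [if_pos hk, if_pos hk]
  · rw [if_neg hk, if_neg hk, v1_zero]

theorem v1_pd (P : Par 2) (D : Dt 2) (a : Fin 2 → ℂ) (p0 : MvPolynomial (Fin 3) ℂ) (p : Po ℂ) (i j : Fin 2) (ζ : ℂ) :
    v1_F P D a p0 (pderiv j (p * X i)) ζ =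
        (ζ * WV P D a i * v1_F P D a p0 (pderiv j p) ζ + v1_F P D a (p0 * lf (Zv P D i)) (pderiv j p) ζ) +
          if j = i then v1_F P D a p0 p ζ else 0 := by
  have e3 : pderiv j (p * X i) = pderiv j p * X i + if j = i then p else 0 := by
    rw [Derivation.leibniz, smul_eq_mul, smul_eq_mul, pderiv_X]
    by_cases hk : j = i
    · rw [if_pos hk, hk, Pi.single_eq_same]
      ring
    · rw [if_neg hk, Pi.single_eq_of_ne (Ne.symm hk)]
      ring
  rw [e3, v1_add, v1_mul, v1_ite]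

theorem v1_sum (P : Par 2) (D : Dt 2) (a : Fin 2 → ℂ) (p0 : MvPolynomial (Fin 3) ℂ) (p : Po ℂ) (i : Fin 2) (ζ : ℂ) :
    ∑ j, WV P D a j * v1_F P D a p0 (pderiv j (p * X i)) ζ =
        ζ * WV P D a i * (∑ j, WV P D a j * v1_F P D a p0 (pderiv j p) ζ) +
          (∑ j, WV P D a j * v1_F P D a (p0 * lf (Zv P D i)) (pderiv j p) ζ) + WV P D a i * v1_F P D a p0 p ζ := by
  have e7 : ∀ j, WV P D a j * v1_F P D a p0 (pderiv j (p * X i)) ζ =
      ζ * WV P D a i * (WV P D a j * v1_F P D a p0 (pderiv j p) ζ) +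
        WV P D a j * v1_F P D a (p0 * lf (Zv P D i)) (pderiv j p) ζ + if j = i then WV P D a j * v1_F P D a p0 p ζ else 0 := by
    intro j
    rw [v1_pd]
    by_cases hk : j = i
    · rw [if_pos hk, if_pos hk]
      ring
    · rw [if_neg hk, if_neg hk]
      ring
  rw [Finset.sum_congr rfl fun j _ => e7 j, Finset.sum_add_distrib, Finset.sum_add_distrib,
    Finset.sum_ite_eq' Finset.univ i, if_pos (Finset.mem_univ i), Finset.mul_sum]

theorem v1_gen (P : Par 2) (D : Dt 2) (a : Fin 2 → ℂ) (q : Po ℂ) (ζ : ℂ) : ∀ p0 : MvPolynomial (Fin 3) ℂ,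
    HasDerivAt (v1_F P D a p0 q) (v1_F P D a (lf (tt P.z a) * p0) q ζ + ∑ j, WV P D a j * v1_F P D a p0 (pderiv j q) ζ) ζ := by
  classical
  induction q using MvPolynomial.induction_on with
  | C c =>
    intro p0
    have h1 := TH_line D (fun _ => 0) (tt P.z a) (p0 * C c) ζ
    have e0 : ∀ s : ℂ, (fun l => (fun _ => (0 : ℂ)) l + s * tt P.z a l) = fun l => s * tt P.z a l := by
      intro s
      funext l
      exact zero_add _
    simp only [e0] at h1
    have e1 : ∀ p : MvPolynomial (Fin 3) ℂ, v1_F P D a p (C c) = fun s : ℂ => TH D (fun l => s * tt P.z a l) (p * C c) := by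
      intro p
      funext s
      unfold v1_F
      rw [aeval_C]
      rfl
    have e2 : ∑ j, WV P D a j * v1_F P D a p0 (pderiv j (C c)) ζ = 0 := by
      refine Finset.sum_eq_zero fun j _ => ?_
      unfold v1_F
      rw [pderiv_C, map_zero, mul_zero]
      unfold TH
      rw [support_zero, Finset.sum_empty, mul_zero]
    rw [e2, add_zero, e1, e1]
    have e3 : lf (tt P.z a) * p0 * C c = (∑ l, C (tt P.z a l) * X l) * (p0 * C c) := by
      unfold lf
      rw [mul_assoc]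
    simp only [e3]
    exact h1
  | add p q hp hq =>
    intro p0
    have h1 := (hp p0).fun_add (hq p0)
    have e1 : ∀ p', v1_F P D a p' (p + q) = fun t => v1_F P D a p' p t + v1_F P D a p' q t := by
      intro p'
      funext t
      exact v1_add P D a p' p q t
    have e2 : ∑ j, WV P D a j * v1_F P D a p0 (pderiv j (p + q)) ζ =
        (∑ j, WV P D a j * v1_F P D a p0 (pderiv j p) ζ) + ∑ j, WV P D a j * v1_F P D a p0 (pderiv j q) ζ := by
      rw [← Finset.sum_add_distrib]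
      refine Finset.sum_congr rfl fun j _ => ?_
      rw [map_add, v1_add, mul_add]
    rw [e2, e1, e1]
    have e3 : ∀ x y z w : ℂ, x + y + (z + w) = x + z + (y + w) := fun x y z w => by ring
    rw [e3]
    exact h1
  | mul_X p i hp =>
    intro p0
    have e1 : v1_F P D a p0 (p * X i) = fun t => t * WV P D a i * v1_F P D a p0 p t + v1_F P D a (p0 * lf (Zv P D i)) p t := by
      funext t
      exact v1_mul P D a p0 p i t
    have h3 : HasDerivAt (fun t : ℂ => t * WV P D a i) (WV P D a i) ζ := by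
      have h := (hasDerivAt_id ζ).mul_const (WV P D a i)
      rw [one_mul] at h
      exact h
    have h4 := (h3.fun_mul (hp p0)).fun_add (hp (p0 * lf (Zv P D i)))
    rw [v1_sum, v1_mul, e1, mul_assoc (lf (tt P.z a)) p0]
    refine h4.congr_deriv ?_
    ring

theorem v1_diff (P : Par 2) (D : Dt 2) (a : Fin 2 → ℂ) (p0 : MvPolynomial (Fin 3) ℂ) (q : Po ℂ) : Differentiable ℂ (v1_F P D a p0 q) :=
  fun ζ => (v1_gen P D a q ζ p0).differentiableAt

theorem v1_iter (P : Par 2) (D : Dt 2) (a : Fin 2 → ℂ) (k : ℕ) : ∀ (p0 : MvPolynomial (Fin 3) ℂ) (q : Po ℂ),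
    iteratedDeriv k (v1_F P D a p0 q) 0 = TH D (fun _ => 0) (p0 * Phi P D ((∑ i, C (a i) * X i) ^ k) q) := by
  induction k with
  | zero =>
    intro p0 q
    rw [iteratedDeriv_zero, pow_zero, Phi_one]
    unfold v1_F
    have e1 : (fun l => (0 : ℂ) * tt P.z a l) = fun _ => 0 := by
      funext l
      exact zero_mul _
    have e2 : (fun j => C (0 * WV P D a j) + lf (Zv P D j)) = fun j => lf (Zv P D j) := by
      funext j
      rw [zero_mul, C_0, zero_add]
    rw [e1, e2]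
  | succ k ih =>
    intro p0 q
    have e1 : deriv (v1_F P D a p0 q) =
        v1_F P D a (lf (tt P.z a) * p0) q + ∑ j, (fun t => WV P D a j * v1_F P D a p0 (pderiv j q) t) := by
      funext ζ
      rw [(v1_gen P D a q ζ p0).deriv, Pi.add_apply, Finset.sum_apply]
    have hc : ∀ (p : MvPolynomial (Fin 3) ℂ) (r : Po ℂ), ContDiff ℂ k (v1_F P D a p r) := fun p r => (v1_diff P D a p r).contDiff
    have hc2 : ∀ j, ContDiff ℂ k (fun t => WV P D a j * v1_F P D a p0 (pderiv j q) t) := fun j => contDiff_const.mul (hc _ _)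
    have hs : ∀ f g : ℂ → ℂ, ContDiff ℂ k f → ContDiff ℂ k g → iteratedDeriv k (f + g) 0 = iteratedDeriv k f 0 + iteratedDeriv k g 0 :=
      fun f g hf hg => iteratedDeriv_add hf.contDiffAt hg.contDiffAt
    have hm : ∀ j, iteratedDeriv k (fun t => WV P D a j * v1_F P D a p0 (pderiv j q) t) 0 =
        TH D (fun _ => 0) (C (WV P D a j) * (p0 * Phi P D ((∑ i, C (a i) * X i) ^ k) (pderiv j q))) := by
      intro j
      rw [TH_C_mul, ← ih]
      exact iteratedDeriv_const_mul _ (hc _ _).contDiffAt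
    have hadd : ContDiff ℂ k ((fun t => WV P D a 0 * v1_F P D a p0 (pderiv 0 q) t) + fun t => WV P D a 1 * v1_F P D a p0 (pderiv 1 q) t) :=
      (hc2 0).add (hc2 1)
    rw [iteratedDeriv_succ', e1, Fin.sum_univ_two, hs _ _ (hc _ _) hadd, hs _ _ (hc2 0) (hc2 1), hm, hm, ih, ← TH_add, ← TH_add, pow_succ',
      Phi_lin, Fin.sum_univ_two]
    have e2 : ∀ A B E F G H : MvPolynomial (Fin 3) ℂ, A * p0 * B + (E * (p0 * F) + G * (p0 * H)) = p0 * (A * B + (E * F + G * H)) := by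
      intro A B E F G H
      ring
    rw [e2]
    simp only [Fin.sum_univ_two]

theorem v1_tt (z ζ : ℂ) (v : Fin 2 → ℂ) (l : Fin 3) : tt z (fun j => ζ * v j) l = ζ * tt z v l := by
  unfold tt
  refine Fin.cases ?_ (fun j => ?_) l
  · rw [Fin.cons_zero, Fin.cons_zero, mul_neg, Finset.mul_sum]
    congr 1
    exact Finset.sum_congr rfl fun j _ => by ring
  · rw [Fin.cons_succ, Fin.cons_succ]

theorem v1_lin (P : Par 2) (D : Dt 2) (W : Fin 2 → ℂ) (j : Fin 2) : MSR.lin P D W j = C (W j + lam P D j) + lf (Zv P D j) := by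
  unfold MSR.lin lf Zv
  rw [sub_eq_add_neg, Finset.mul_sum, ← Finset.sum_neg_distrib]
  congr 1
  refine Finset.sum_congr rfl fun l _ => ?_
  rw [map_neg, map_mul]
  ring

/-- V1d. PROOF. `q(s) ↦ TH D (ζ A) (p0 * q(ζ w + Z(T)))`; derivative in `ζ`: `TH_line` for the argument of `TH` (it gives the factor `lf A`), and the chain rule for the coefficients `ζ w_j` (linearity of `TH`, e.g. by induction on `q`). -/
theorem link_deriv (P : Par 2) (D : Dt 2) (a : Fin 2 → ℂ) (p0 : MvPolynomial (Fin 3) ℂ) (q : Po ℂ) (ζ : ℂ) :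
    HasDerivAt (fun ζ : ℂ => TH D (fun l => ζ * tt P.z a l) (p0 * aeval (fun j => C (ζ * WV P D a j) + lf (Zv P D j)) q))
      (TH D (fun l => ζ * tt P.z a l) (lf (tt P.z a) * p0 * aeval (fun j => C (ζ * WV P D a j) + lf (Zv P D j)) q) +
        ∑ j, WV P D a j * TH D (fun l => ζ * tt P.z a l) (p0 * aeval (fun j => C (ζ * WV P D a j) + lf (Zv P D j)) (pderiv j q))) ζ := v1_gen P D a q ζ p0

/-- V1e. PROOF. Induction on `k`, for all `p0, q`, from `link_deriv`, `Phi_lin`, `Phi_one`. -/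
theorem link_iter (P : Par 2) (D : Dt 2) (a : Fin 2 → ℂ) (k : ℕ) (p0 : MvPolynomial (Fin 3) ℂ) (q : Po ℂ) :
    iteratedDeriv k (fun ζ : ℂ => TH D (fun l => ζ * tt P.z a l) (p0 * aeval (fun j => C (ζ * WV P D a j) + lf (Zv P D j)) q)) 0 =
      TH D (fun _ => 0) (p0 * Phi P D ((∑ i, C (a i) * X i) ^ k) q) := v1_iter P D a k p0 q

/-- V1f. PROOF. `GR P D c (ζ a) = TH D (ζ tt a) (aeval (lin P D (ζ WV a)) (Cs c))` (`tt`, `WV` are linear), `lin_j = C (ζ w_j + lam_j) + lf (Zv j)` and `aeval (.. + lam_j) (Cs c) = aeval (..) (qc c)`; `link_iter` with `p0 = 1`. -/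
theorem link (P : Par 2) (D : Dt 2) {E : ℕ} (c : Ir 2 E → ℂ) (a : Fin 2 → ℂ) (k : ℕ) :
    iteratedDeriv k (fun ζ : ℂ => GR P D c (fun j => ζ * a j)) 0 =
      TH D (fun _ => 0) (Phi P D ((∑ i, C (a i) * X i) ^ k) (qc P D c)) := by
  have h := link_iter P D a k 1 (qc P D c)
  rw [one_mul] at h
  rw [← h]
  congr 1
  funext ζ
  unfold GR
  have e1 : tt P.z (fun j => ζ * a j) = fun l => ζ * tt P.z a l := by
    funext l
    exact v1_tt _ _ _ _
  have e2 : ∀ j, WV P D (fun j => ζ * a j) j = ζ * WV P D a j := by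
    intro j
    unfold WV As
    rw [v1_tt, v1_tt, v1_tt]
    ring
  rw [e1, one_mul]
  congr 1
  have e3 : ∀ p : Po ℂ, aeval (MSR.lin P D (WV P D fun j => ζ * a j)) p =
      aeval (fun j => C (ζ * WV P D a j) + lf (Zv P D j)) (sh (lam P D) p) := by
    intro p
    have e4 : (aeval (MSR.lin P D (WV P D fun j => ζ * a j)) : Po ℂ →ₐ[ℂ] MvPolynomial (Fin 3) ℂ) =
        (aeval (fun j => C (ζ * WV P D a j) + lf (Zv P D j))).comp (aeval fun j => X j + C (lam P D j)) := by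
      refine algHom_ext fun j => ?_
      rw [AlgHom.comp_apply, aeval_X, aeval_X, map_add, aeval_X, aeval_C, v1_lin, e2]
      change _ = _ + C (lam P D j)
      rw [C_add]
      ring
    rw [e4]
    rfl
  exact e3 _

end Pool.Agent.MSU
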