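import Pool.Agent.Lib.MP_f58a57_nt.U.Z6_Rel

/-! # U/Z7_Rank: sums of the Hilbert function -/

open MvPolynomial

noncomputable section

namespace Pool.Agent.MSU

variable {M : Type} [Field M] [Algebra ℂ M] {Λ : Type}

/-- the polynomials of degree `< n` -/
def Lt (M : Type) [Field M] (n : ℕ) : Submodule M (Po M) := match n with
  | 0 => ⊥
  | n + 1 => restrictTotalDegree (Fin 2) M n

/-- Z7a. PROOF. `restrictTotalDegree`; for `n = 0`: `0` is the only element of `⊥`; state: -/
theorem mem_Lt (n : ℕ) (P : Po M) : P ∈ Lt M n ↔ P = 0 ∨ P.totalDegree < n := by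
  cases n with
  | zero =>
    show P ∈ (⊥ : Submodule M (Po M)) ↔ _
    simp
  | succ n =>
    show P ∈ restrictTotalDegree (Fin 2) M n ↔ _
    rw [mem_restrictTotalDegree]
    constructor
    · intro h
      exact Or.inr (Nat.lt_succ_of_le h)
    · rintro (rfl | h)
      · simp
      · exact Nat.lt_succ_iff.1 h

private theorem ZA07_rank {V W : Type} [AddCommGroup V] [Module M V] [AddCommGroup W] [Module M W]
    (g : V →ₗ[M] W) (S : Submodule M V) [FiniteDimensional M S] :
    Module.finrank M (S.map g) + Module.finrank M (S ⊓ LinearMap.ker g : Submodule M V) =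
      Module.finrank M S := by
  have h1 := LinearMap.finrank_range_add_finrank_ker (g ∘ₗ S.subtype)
  have h2 : LinearMap.range (g ∘ₗ S.subtype) = S.map g := by
    rw [LinearMap.range_comp, Submodule.range_subtype]
  have h3 : LinearMap.ker (g ∘ₗ S.subtype) = (LinearMap.ker g).comap S.subtype :=
    LinearMap.ker_comp _ _
  have h4 : Module.finrank M ((LinearMap.ker g).comap S.subtype) =
      Module.finrank M (S ⊓ LinearMap.ker g : Submodule M V) := by
    have h5 : ((LinearMap.ker g).comap S.subtype).map S.subtype = S ⊓ LinearMap.ker g :=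
      Submodule.map_comap_subtype _ _
    rw [← h5]
    exact (LinearEquiv.finrank_eq
      (Submodule.equivMapOfInjective S.subtype S.subtype_injective _))
  rw [h2, h3, h4] at h1
  exact h1

private theorem ZA07_dual {V : Type} [AddCommGroup V] [Module M V] (B : V →ₗ[M] V →ₗ[M] M)
    (S U T : Submodule M V) [FiniteDimensional M S] [FiniteDimensional M U]
    (h : ∀ P ∈ S, (∀ q ∈ U, B P q = 0) → P ∈ T) :
    Module.finrank M S ≤ Module.finrank M (S ⊓ T : Submodule M V) + Module.finrank M U := by
  let g : V →ₗ[M] (U →ₗ[M] M) := (LinearMap.lcomp M M U.subtype) ∘ₗ B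
  have hg : ∀ P (q : U), g P q = B P q := fun P q => rfl
  have h1 := ZA07_rank g S
  have h2 : Module.finrank M (S.map g) ≤ Module.finrank M U := by
    have h3 : Module.finrank M (U →ₗ[M] M) = Module.finrank M U := Subspace.dual_finrank_eq
    rw [← h3]
    exact Submodule.finrank_le _
  have h4 : S ⊓ LinearMap.ker g ≤ S ⊓ T := by
    rintro P ⟨hP, hk⟩
    refine ⟨hP, h P hP fun q hq => ?_⟩
    have h5 : g P = 0 := hk
    have h6 := hg P ⟨q, hq⟩
    rw [h5] at h6
    exact h6.symm
  have : FiniteDimensional M (S ⊓ T : Submodule M V) :=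
    Submodule.finiteDimensional_of_le (inf_le_left : S ⊓ T ≤ S)
  have h7 := Submodule.finrank_mono h4
  omega

private theorem ZA07_fin (n : ℕ) : FiniteDimensional M (Lt M n) := by
  have h : Lt M n ≤ (Finset.range n).sup (fun i => Hs M i) := by
    intro P hP
    rw [mem_Lt] at hP
    rcases hP with rfl | hP
    · exact Submodule.zero_mem _
    · rw [← sum_homogeneousComponent P]
      refine Submodule.sum_mem _ fun i hi => ?_
      have hi' : i ∈ Finset.range n := by
        rw [Finset.mem_range] at hi ⊢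
        omega
      exact (Finset.le_sup (f := fun i => Hs M i) hi') (homogeneousComponent_isHomogeneous i P)
  have : FiniteDimensional M ((Finset.range n).sup (fun i => Hs M i) : Submodule M (Po M)) :=
    Submodule.finiteDimensional_finset_sup _ _
  exact Submodule.finiteDimensional_of_le h

instance (n : ℕ) : FiniteDimensional M (Lt M n) := ZA07_fin n

private theorem ZA07_mono (n : ℕ) : Lt M n ≤ Lt M (n + 1) := by
  intro P hP
  rw [mem_Lt] at hP ⊢
  rcases hP with h | h
  · exact Or.inl h
  · exact Or.inr (Nat.lt_succ_of_lt h)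

private theorem ZA07_Hs (i n : ℕ) (h : i < n) : Hs M i ≤ Lt M n := by
  intro P hP
  rw [mem_Lt]
  exact Or.inr (lt_of_le_of_lt (IsHomogeneous.totalDegree_le hP) h)

private theorem ZA07_ker (k : ℕ) (P : Po M) (hP : P ∈ Lt M (k + 1)) :
    homogeneousComponent k P = 0 ↔ P ∈ Lt M k := by
  have h : P.totalDegree ≤ k := (mem_restrictTotalDegree _ _ _).1 hP
  constructor
  · intro h0
    rw [← sum_homogeneousComponent P]
    refine Submodule.sum_mem _ fun i hi => ?_
    rw [Finset.mem_range] at hi
    rcases Nat.lt_or_ge i k with hik | hik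
    · exact ZA07_Hs i k hik (homogeneousComponent_isHomogeneous i P)
    · have : i = k := by omega
      rw [this, h0]
      exact Submodule.zero_mem _
  · intro h0
    rw [mem_Lt] at h0
    rcases h0 with rfl | h0
    · exact map_zero _
    · exact homogeneousComponent_eq_zero k P h0

private theorem ZA07_split (S : Submodule M (Po M)) (k : ℕ) (hS : S ≤ Lt M (k + 1)) :
    Module.finrank M (S.map (homogeneousComponent k)) +
      Module.finrank M (Lt M k ⊓ S : Submodule M (Po M)) = Module.finrank M S := by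
  have : FiniteDimensional M S := Submodule.finiteDimensional_of_le hS
  have h1 := ZA07_rank (homogeneousComponent (R := M) k) S
  have h2 : S ⊓ LinearMap.ker (homogeneousComponent (R := M) k) = Lt M k ⊓ S := by
    ext P
    constructor
    · rintro ⟨h3, h4⟩
      exact ⟨(ZA07_ker k P (hS h3)).1 h4, h3⟩
    · rintro ⟨h3, h4⟩
      exact ⟨h4, (ZA07_ker k P (hS h4)).2 h3⟩
  rw [h2] at h1
  exact h1

private theorem ZA07_succ (k : ℕ) :
    Module.finrank M (Lt M (k + 1)) = Module.finrank M (Lt M k) + (k + 1) := by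
  have h1 := ZA07_split (Lt M (k + 1)) k le_rfl
  have h2 : (Lt M (k + 1)).map (homogeneousComponent k) = Hs M k := by
    apply le_antisymm
    · rintro _ ⟨P, _, rfl⟩
      exact homogeneousComponent_isHomogeneous k P
    · intro P hP
      exact ⟨P, ZA07_Hs k (k + 1) (Nat.lt_succ_self k) hP, by
        rw [homogeneousComponent_of_mem hP, if_pos rfl]⟩
  have h3 : Lt M k ⊓ Lt M (k + 1) = Lt M k := inf_eq_left.2 (ZA07_mono k)
  rw [h2, h3, finrank_Hs] at h1
  omega

/-- Z7b. PROOF. Induction: `Lt (n+1)` is the direct sum of `Lt n` and `Hs M n`, `finrank_Hs`. -/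
theorem finrank_Lt (n : ℕ) : Module.finrank M (Lt M n) = n * (n + 1) / 2 := by
  induction n with
  | zero =>
    show Module.finrank M (⊥ : Submodule M (Po M)) = _
    simp
  | succ n ih =>
    rw [ZA07_succ, ih]
    have h : (n + 1) * (n + 1 + 1) = n * (n + 1) + 2 * (n + 1) := by ring
    rw [h, Nat.add_mul_div_left _ _ (by norm_num)]

/-- Z7c. PROOF. Induction on `k`: the map `homogeneousComponent k` from `Lt (k+1) ⊓ Rn` onto `J K n k` has kernel `Lt k ⊓ Rn` (`Submodule.finrank_map_add_finrank_ker` or rank-nullity), so `finrank (Lt (k+1) ⊓ Rn) = finrank (Lt k ⊓ Rn) + finrank (J K n k)`;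
`finrank (Lt (k+1)) = finrank (Lt k) + (k + 1)`; subtract. -/
theorem sum_aa (K : Ker M Λ) (n k : ℕ) :
    ∑ j ∈ Finset.range k, aa K n j + Module.finrank M (Lt M k ⊓ Rn K n : Submodule M (Po M)) = Module.finrank M (Lt M k) := by
  induction k with
  | zero =>
    have h : (Lt M 0 ⊓ Rn K n : Submodule M (Po M)) = Lt M 0 := by
      show (⊥ ⊓ Rn K n : Submodule M (Po M)) = ⊥
      simp
    rw [h]
    simp
  | succ k ih =>
    have h1 := ZA07_split (Lt M (k + 1) ⊓ Rn K n) k inf_le_left
    have h2 : (Lt M (k + 1) ⊓ Rn K n).map (homogeneousComponent k) = J K n k := by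
      rw [inf_comm]
      rfl
    have h3 : Lt M k ⊓ (Lt M (k + 1) ⊓ Rn K n) = Lt M k ⊓ Rn K n := by
      rw [← inf_assoc, inf_eq_left.2 (ZA07_mono k)]
    rw [h2, h3] at h1
    have h4 := aa_add K n k
    have h5 := ZA07_succ (M := M) k
    rw [Finset.sum_range_succ, ← h1, h5, ← ih]
    have h6 : aa K n k + Module.finrank M (J K n k) = k + 1 := h4
    rw [← h6]
    ring

/-- Z7d. PROOF. The linear map `Lt k → Dual (Lt n)`, `P ↦ (q ↦ B P q)` has kernel `Lt k ⊓ Rn K n` (as a subspace of `Lt k`; `deg q < n` or `q = 0`), and the dimension of its range is `≤ dim Lt n`. Rank-nullity and `sum_aa`. -/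
theorem sum_aa_le (K : Ker M Λ) (n k : ℕ) : ∑ j ∈ Finset.range k, aa K n j ≤ n * (n + 1) / 2 := by
  have h1 := sum_aa K n k
  have h2 := ZA07_dual K.B (Lt M k) (Lt M n) (Rn K n) fun P _ h => by
    intro q hq
    exact h q ((mem_Lt n q).2 (Or.inr hq))
  rw [finrank_Lt n] at h2
  omega

/-- Z7e. PROOF. By `sum_aa` the claim is `finrank (Lt k ⊓ Rn n) ≤ finrank (Lt k ⊓ Rn (n+1)) + (n+1)`. The linear map `Lt k ⊓ Rn n → Dual (Hs M n)`, `P ↦ (q ↦ B P q)` has kernel `Lt k ⊓ Rn (n+1)` (every `q` of degree `< n + 1` is `q' + q''`, `deg q' < n` (or `q' = 0`), `q''` a form of degree `n`),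
its range has dimension `≤ n + 1`. -/
theorem sum_aa_succ (K : Ker M Λ) (n k : ℕ) :
    ∑ j ∈ Finset.range k, aa K (n + 1) j ≤ ∑ j ∈ Finset.range k, aa K n j + (n + 1) := by
  have h1 := sum_aa K n k
  have h2 := sum_aa K (n + 1) k
  have hfin : FiniteDimensional M (Lt M k ⊓ Rn K n : Submodule M (Po M)) :=
    Submodule.finiteDimensional_of_le inf_le_left
  have h3 := ZA07_dual K.B (Lt M k ⊓ Rn K n) (Hs M n) (Rn K (n + 1)) fun P hP h => by
    intro q hq
    rw [← sum_homogeneousComponent q, map_sum]
    refine Finset.sum_eq_zero fun i hi => ?_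
    rw [Finset.mem_range] at hi
    rcases Nat.lt_or_ge i n with hin | hin
    · exact hP.2 _ (lt_of_le_of_lt
        (IsHomogeneous.totalDegree_le (homogeneousComponent_isHomogeneous i q)) hin)
    · have : i = n := by omega
      rw [this]
      exact h _ (homogeneousComponent_isHomogeneous n q)
  have h4 : (Lt M k ⊓ Rn K n) ⊓ Rn K (n + 1) = Lt M k ⊓ Rn K (n + 1) := by
    rw [inf_assoc, inf_eq_right.2 (Rn_anti K n)]
  rw [h4, finrank_Hs] at h3
  omega

end Pool.Agent.MSU
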