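import Mathlib

/-! # U/Z8_Count: counting -/

namespace Pool.Agent.MSU

/-- Z8. PROOF. Let `ν` be the least `k` with `a k ≤ k` (it exists, and `ν ≤ n`: otherwise `a k = k + 1` for all `k ≤ n`, so `∑_{k ≤ n} a k = (n+1)(n+2)/2 > n(n+1)/2`, `h4`). `a` is nonincreasing on `[ν, ∞)` (`h3`: if `a k ≤ k` then `a (k+1) ≤ a k ≤ k ≤ k + 1`), `a ν ≤ ν ≤ n`.
Let `K ≥ 4n + 1` and suppose `a K ≥ 1`. For `k ∈ [ν+1, K]`: the number of `k` with `a k < a (k-1)` is `≤ a ν - a K ≤ n - 1` (telescoping); the number of `k` with `a' k ≠ a k` is `≤ n` by `h5`, `h2` (`∑ (a k - a' k) ≤ n`), and the same for `k - 1`.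
So at most `3n - 1 < K - ν` of the `K - ν` numbers are bad; for a good `k`: `h6` gives `a k = 0` (`a (k-1) ≤ k - 1` since `k - 1 ≥ ν`), but `a k ≥ a K ≥ 1`. -/
theorem count (n : ℕ) (a a' : ℕ → ℕ) (h1 : ∀ k, a k ≤ k + 1) (h2 : ∀ k, a' k ≤ a k) (h3 : ∀ k, a k ≤ k → a (k + 1) ≤ a k)
    (h4 : ∀ K, ∑ k ∈ Finset.range K, a k ≤ n * (n + 1) / 2)
    (h5 : ∀ K, ∑ k ∈ Finset.range K, a k ≤ ∑ k ∈ Finset.range K, a' k + n)
    (h6 : ∀ k, a (k + 1) = a k → a' k = a k → a' (k + 1) = a k → a k ≤ k → a k = 0) (k : ℕ) (hk : 4 * n + 1 ≤ k) : a k = 0 := by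
  -- an index with `a ν ≤ ν`
  obtain ⟨ν, hν, haν⟩ : ∃ ν, ν ≤ n ∧ a ν ≤ ν := by
    by_contra hcon
    push Not at hcon
    have e1 : ∀ i ∈ Finset.range (n + 1), a i = i + 1 := by
      intro i hi
      have h7 := hcon i (by have := Finset.mem_range.1 hi; omega)
      have h8 := h1 i
      omega
    have e2 := h4 (n + 1)
    rw [Finset.sum_congr rfl e1, Finset.sum_add_distrib, Finset.sum_range_id, Finset.sum_const,
      Finset.card_range, smul_eq_mul, mul_one] at e2
    have e3 : (n + 1) * (n + 1 - 1) = n * (n + 1) := by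
      rw [Nat.add_sub_cancel]
      ring
    rw [e3] at e2
    omega
  -- the differences
  have hd : ∀ K, ∑ i ∈ Finset.range K, (a i - a' i) ≤ n := by
    intro K
    have e1 : ∑ i ∈ Finset.range K, (a i - a' i) + ∑ i ∈ Finset.range K, a' i =
        ∑ i ∈ Finset.range K, a i := by
      rw [← Finset.sum_add_distrib]
      exact Finset.sum_congr rfl fun i _ => Nat.sub_add_cancel (h2 i)
    have e2 := h5 K
    omega
  -- monotonicity
  have hm : ∀ j, a (ν + j) ≤ ν ∧ a (ν + j) ≤ a ν := by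
    intro j
    induction j with
    | zero => exact ⟨haν, le_rfl⟩
    | succ j ih =>
      have e1 := h3 (ν + j) (by omega)
      have e2 : ν + (j + 1) = ν + j + 1 := by ring
      rw [e2]
      omega
  have key : ∀ j, a (ν + j) ≠ 0 →
      j + a (ν + j) ≤ a ν + ∑ m ∈ Finset.range j, (a (ν + m) - a' (ν + m)) +
        ∑ m ∈ Finset.range j, (a (ν + 1 + m) - a' (ν + 1 + m)) := by
    intro j
    induction j with
    | zero => intro _; simp
    | succ j ih =>
      intro hj
      have e0 := hm j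
      have e1 := h3 (ν + j) (by omega)
      have e2 : ν + (j + 1) = ν + j + 1 := by ring
      have e3 : ν + 1 + j = ν + j + 1 := by ring
      rw [e2] at hj
      have e4 : a (ν + j) ≠ 0 := by omega
      have e5 := ih e4
      rw [e2, Finset.sum_range_succ, Finset.sum_range_succ, e3]
      have e6 : a (ν + j + 1) + 1 ≤ a (ν + j) + (a (ν + j) - a' (ν + j)) +
          (a (ν + j + 1) - a' (ν + j + 1)) := by
        by_contra hcon
        have f1 := h2 (ν + j)
        have f2 := h2 (ν + j + 1)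
        have f3 : a (ν + j + 1) = a (ν + j) := by omega
        have f4 : a' (ν + j) = a (ν + j) := by omega
        have f5 : a' (ν + j + 1) = a (ν + j) := by omega
        exact e4 (h6 (ν + j) f3 f4 f5 (by omega))
      omega
  by_contra hne
  obtain ⟨j, rfl⟩ : ∃ j, k = ν + j := ⟨k - ν, by omega⟩
  have e1 := key j hne
  have e2 : ∑ m ∈ Finset.range j, (a (ν + m) - a' (ν + m)) ≤ n := by
    have f1 := hd (ν + j)
    rw [Finset.sum_range_add] at f1
    omega
  have e3 : ∑ m ∈ Finset.range j, (a (ν + 1 + m) - a' (ν + 1 + m)) ≤ n := by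
    have f1 := hd (ν + 1 + j)
    rw [Finset.sum_range_add] at f1
    omega
  omega

end Pool.Agent.MSU
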