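import Pool.Agent.Lib.MP_f58a57_nt.U.Z9a_Const
import Pool.Agent.Lib.MP_f58a57_nt.U.Z9b_Split

/-! # U/Z9c_NoBlock: there is no block of constant Hilbert function -/

open MvPolynomial

noncomputable section

namespace Pool.Agent.MSU

variable {M : Type} [Field M] [Algebra ℂ M] {Λ : Type}

theorem ZA11_ofC_mul (g g' : Po ℂ) : (ofC (g * g') : Po M) = ofC g * ofC g' := by
  simp [ofC]

theorem ZA11_ofC_homog (n : ℕ) (g : Po ℂ) (hg : g.IsHomogeneous n) : (ofC g : Po M).IsHomogeneous n := by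
  unfold ofC
  exact hg.map _

theorem ZA11_pderiv_ofC (i : Fin 2) (g : Po ℂ) : pderiv i (ofC g : Po M) = ofC (pderiv i g) := by
  unfold ofC
  exact pderiv_map

/-- Z9c1. -/
theorem pi_exists (K : Ker M Λ) (n m a r' : ℕ) (hm : r' + 1 + a = m) (h L : Po ℂ) (hh : h.IsHomogeneous (r' + 1)) (hL : L.IsHomogeneous 1)
    (hs : ∀ f ∈ Hs M (a + r' + 1), ∃ g ∈ Hs M a, ∃ p ∈ Hs M r', f = (ofC h : Po M) * g + ofC (L ^ (a + 1)) * p)
    (h1 : ∀ P, P ∈ J K (n + 1) m ↔ ∃ g ∈ Hs M a, P = ofC h * g)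
    (h2 : ∀ P, P ∈ J K (n + 1) (m + 1) ↔ ∃ g ∈ Hs M (a + 1), P = ofC h * g) :
    ∃ P ∈ Rn K (n + 1), ∃ p ∈ Hs M r', P.totalDegree ≤ m + 1 ∧ homogeneousComponent (m + 1) P = ofC (h * L ^ (a + 1)) ∧
      homogeneousComponent m P = ofC (L ^ (a + 1)) * p := by
  classical
  have hLp : (L ^ (a + 1)).IsHomogeneous (a + 1) := by
    have := hL.pow (a + 1)
    simpa using this
  have hmem : (ofC (h * L ^ (a + 1)) : Po M) ∈ J K (n + 1) (m + 1) := by
    rw [h2]
    refine ⟨ofC (L ^ (a + 1)), ?_, ZA11_ofC_mul _ _⟩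
    rw [mem_homogeneousSubmodule]
    exact ZA11_ofC_homog _ _ hLp
  obtain ⟨P0, hP0, hd0, hc0⟩ := (mem_J K (n + 1) (m + 1) _).1 hmem
  obtain ⟨g, hg, p, hp, hf⟩ := hs (homogeneousComponent m P0) (by
    rw [mem_homogeneousSubmodule]
    have := homogeneousComponent_isHomogeneous m P0
    have e : a + r' + 1 = m := by omega
    rw [e]
    exact this)
  have hm1 : (ofC h : Po M) * g ∈ J K (n + 1) m := (h1 _).2 ⟨g, hg, rfl⟩
  obtain ⟨P1, hP1, hd1, hc1⟩ := (mem_J K (n + 1) m _).1 hm1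
  refine ⟨P0 - P1, Submodule.sub_mem _ hP0 hP1, p, hp, ?_, ?_, ?_⟩
  · exact (totalDegree_sub P0 P1).trans (max_le hd0 (by omega))
  · rw [map_sub, hc0, homogeneousComponent_eq_zero _ _ (by omega), sub_zero]
  · rw [map_sub, hf, hc1]
    ring

/-- Z9c2. -/
theorem pi_Z (K : Ker M Λ) (n m a r' : ℕ) (hm : r' + 1 + a = m) (h L : Po ℂ) (hh : h.IsHomogeneous (r' + 1)) (hL : L.IsHomogeneous 1)
    (hu : ∀ g ∈ Hs M a, ∀ p ∈ Hs M r', (ofC h : Po M) * g + ofC (L ^ (a + 1)) * p = 0 → p = 0)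
    (hJ : J K (n + 1) m = J K n m) (h1 : ∀ P, P ∈ J K (n + 1) m ↔ ∃ g ∈ Hs M a, P = ofC h * g)
    (P : Po M) (hP : P ∈ Rn K (n + 1)) (p : Po M) (hp : p ∈ Hs M r') (hd : P.totalDegree ≤ m + 1)
    (hc1 : homogeneousComponent (m + 1) P = ofC (h * L ^ (a + 1))) (hc0 : homogeneousComponent m P = ofC (L ^ (a + 1)) * p) (j : Fin 2) :
    cD (K.Z j) p = ∑ i, cst (K.e i j) * ofC (pderiv i h) := by
  classical
  have hR := Rn_Z K n P hP j
  have hLa : (L ^ a).IsHomogeneous a := by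
    have := hL.pow a
    simpa using this
  have hcst : ∀ (c : ℂ) (Q : Po M) (N : ℕ), Q.IsHomogeneous N → (cst c * Q : Po M).IsHomogeneous N := by
    intro c Q N hQ
    have h0 : (cst c : Po M).IsHomogeneous 0 := by
      unfold cst
      exact isHomogeneous_C _ _
    have := h0.mul hQ
    simpa using this
  -- degrees
  have hsum_le : ∀ (N : ℕ) (f : Fin 2 → Po M), (∀ i, (f i).totalDegree ≤ N) → (∑ i, f i).totalDegree ≤ N := by
    intro N f hf
    rw [Fin.sum_univ_two]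
    exact (totalDegree_add _ _).trans (max_le (hf 0) (hf 1))
  have hcstdeg : ∀ (c : ℂ) (Q : Po M) (N : ℕ), Q.totalDegree ≤ N → (cst c * Q : Po M).totalDegree ≤ N := by
    intro c Q N hQ
    refine (totalDegree_mul _ _).trans ?_
    have h0 : (cst c : Po M).totalDegree = 0 := by
      unfold cst
      exact totalDegree_C _
    omega
  have hdP' : (cD (K.Z j) P - ∑ i, cst (K.e i j) * pderiv i P).totalDegree ≤ m + 1 := by
    refine (totalDegree_sub _ _).trans (max_le ((cD_totalDegree _ _).trans hd) ?_)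
    refine hsum_le _ _ (fun i => hcstdeg _ _ _ ?_)
    exact (totalDegree_pderiv_lt m i P hd).trans (by omega)
  have hz : homogeneousComponent (m + 1 + 1) P = 0 := homogeneousComponent_eq_zero _ _ (by omega)
  have hcomp1 : homogeneousComponent (m + 1) (cD (K.Z j) P - ∑ i, cst (K.e i j) * pderiv i P) = 0 := by
    rw [map_sub, map_sum, cD_hc, hc1, cD_ofC, zero_sub, neg_eq_zero]
    refine Finset.sum_eq_zero (fun i _ => ?_)
    rw [hc_cst_mul, hc_pderiv, hz, map_zero, mul_zero]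
  have hdm := totalDegree_lt_of_hc m _ hdP' hcomp1
  have hcomp0 : homogeneousComponent m (cD (K.Z j) P - ∑ i, cst (K.e i j) * pderiv i P) =
      ofC (L ^ (a + 1)) * cD (K.Z j) p - ∑ i, cst (K.e i j) * (ofC (pderiv i h) * ofC (L ^ (a + 1)) +
        ofC h * (((a + 1 : ℕ) : Po M) * (ofC (L ^ a) * ofC (pderiv i L)))) := by
    rw [map_sub, map_sum, cD_hc, hc0, mul_comm (ofC (L ^ (a + 1))) p, cD_mul_ofC, mul_comm (cD (K.Z j) p)]
    congr 1
    refine Finset.sum_congr rfl (fun i _ => ?_)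
    rw [hc_cst_mul, hc_pderiv, hc1, ZA11_pderiv_ofC]
    congr 1
    rw [pderiv_mul, pderiv_pow]
    simp only [ofC, map_add, map_mul, map_pow, map_natCast, Nat.add_sub_cancel]
    ring
  have hJm : homogeneousComponent m (cD (K.Z j) P - ∑ i, cst (K.e i j) * pderiv i P) ∈ J K (n + 1) m := by
    rw [hJ, mem_J]
    exact ⟨_, hR, hdm, rfl⟩
  obtain ⟨g, hg, hgE⟩ := (h1 _).1 hJm
  rw [hcomp0] at hgE
  have hpdL : ∀ i, (pderiv i L).IsHomogeneous 0 := by
    intro i
    have := hL.pderiv (i := i)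
    simpa using this
  have hpdh : ∀ i, (pderiv i h).IsHomogeneous r' := by
    intro i
    have := hh.pderiv (i := i)
    simpa using this
  have hq : cD (K.Z j) p - ∑ i, cst (K.e i j) * ofC (pderiv i h) = 0 := by
    refine hu (-(g + ∑ i, cst (K.e i j) * (((a + 1 : ℕ) : Po M) * (ofC (L ^ a) * ofC (pderiv i L))))) ?_ _ ?_ ?_
    · refine Submodule.neg_mem _ (Submodule.add_mem _ hg (Submodule.sum_mem _ (fun i _ => ?_)))
      rw [mem_homogeneousSubmodule]
      refine hcst _ _ _ ?_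
      have e1 := (ZA11_ofC_homog (M := M) _ _ hLa).mul (ZA11_ofC_homog (M := M) _ _ (hpdL i))
      have e2 : (((a + 1 : ℕ) : Po M)).IsHomogeneous 0 := by
        have : (((a + 1 : ℕ) : Po M)) = C ((a + 1 : ℕ) : M) := by simp
        rw [this]
        exact isHomogeneous_C _ _
      have := e2.mul e1
      simpa using this
    · refine Submodule.sub_mem _ ?_ (Submodule.sum_mem _ (fun i _ => ?_))
      · rw [mem_homogeneousSubmodule]
        exact cD_homog _ _ _ ((mem_homogeneousSubmodule _ _).1 hp)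
      · rw [mem_homogeneousSubmodule]
        exact hcst _ _ _ (ZA11_ofC_homog _ _ (hpdh i))
    · rw [Fin.sum_univ_two] at hgE ⊢
      rw [Fin.sum_univ_two]
      linear_combination hgE
  exact sub_eq_zero.1 hq

theorem z12_pd (r : ℕ) (h : Po ℂ) (hh : h.IsHomogeneous (r + 1)) (i : Fin 2) : (pderiv i h).IsHomogeneous r := by
  have h1 := hh.pderiv (i := i)
  rwa [Nat.add_sub_cancel] at h1

theorem z12_ofC (r : ℕ) (h : Po ℂ) (hh : h.IsHomogeneous r) : (ofC h : Po M) ∈ Hs M r := by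
  rw [mem_homogeneousSubmodule]
  exact hh.map _

theorem z12_cst (r : ℕ) (b : ℂ) (f : Po M) (hf : f ∈ Hs M r) : cst b * f ∈ Hs M r := by
  rw [mem_homogeneousSubmodule] at hf ⊢
  exact hf.C_mul _

theorem z12_pd_ofC (i : Fin 2) (h : Po ℂ) : pderiv i (ofC h : Po M) = ofC (pderiv i h) := by
  unfold ofC
  rw [pderiv_map]

theorem z12_ofC_mul (f g : Po ℂ) : (ofC (f * g) : Po M) = ofC f * ofC g := map_mul _ _ _

theorem z12_ofC_add (f g : Po ℂ) : (ofC (f + g) : Po M) = ofC f + ofC g := map_add _ _ _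

/-- the derivative of the leading form -/
theorem z12_lead (a : ℕ) (h L : Po ℂ) (i : Fin 2) :
    pderiv i (ofC (h * L ^ (a + 1)) : Po M) =
      ofC (L ^ (a + 1)) * ofC (pderiv i h) + ofC h * ofC (((a + 1 : ℕ) : Po ℂ) * L ^ a * pderiv i L) := by
  rw [z12_pd_ofC, pderiv_mul, pderiv_pow, z12_ofC_add, z12_ofC_mul, z12_ofC_mul, Nat.add_sub_cancel,
    mul_comm (ofC (pderiv i h)) _]

theorem z12_Ld (a : ℕ) (L : Po ℂ) (hL : L.IsHomogeneous 1) (i : Fin 2) :
    (ofC (((a + 1 : ℕ) : Po ℂ) * L ^ a * pderiv i L) : Po M) ∈ Hs M a := by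
  refine z12_ofC a _ ?_
  have h1 : (L ^ a).IsHomogeneous (1 * a) := hL.pow a
  have h2 : (pderiv i L).IsHomogeneous 0 := z12_pd 0 L hL i
  have h3 : (C ((a + 1 : ℕ) : ℂ) * (L ^ a * pderiv i L) : Po ℂ).IsHomogeneous (1 * a + 0) := (h1.mul h2).C_mul _
  have e : (((a + 1 : ℕ) : Po ℂ) * L ^ a * pderiv i L) = C ((a + 1 : ℕ) : ℂ) * (L ^ a * pderiv i L) := by
    rw [map_natCast, mul_assoc]
  rw [e]
  rwa [one_mul, add_zero] at h3

/-- Z9c3. PROOF. `Rn_T`: `P' = sh (lam w) (map (T w) P) ∈ Rn K (n+1)`, and `P' - P ∈ Rn K (n+1)`. By `hc_sh`, `hc_map`, `map_ofC`: the component of degree `m + 1` of `P'` is that of `P`, so `deg (P' - P) ≤ m`, its component of degree `m` is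
`ofC (L^(a+1)) * (map (T w) p - p) + ∑ i, cst (lam w i) * pderiv i (ofC (h L^(a+1)))`, in `J K (n+1) m`. As in Z9c2. -/
theorem pi_T (K : Ker M Λ) (n m a r' : ℕ) (hm : r' + 1 + a = m) (h L : Po ℂ) (hh : h.IsHomogeneous (r' + 1)) (hL : L.IsHomogeneous 1)
    (hu : ∀ g ∈ Hs M a, ∀ p ∈ Hs M r', (ofC h : Po M) * g + ofC (L ^ (a + 1)) * p = 0 → p = 0)
    (h1 : ∀ P, P ∈ J K (n + 1) m ↔ ∃ g ∈ Hs M a, P = ofC h * g)
    (P : Po M) (hP : P ∈ Rn K (n + 1)) (p : Po M) (hp : p ∈ Hs M r') (hd : P.totalDegree ≤ m + 1)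
    (hc1 : homogeneousComponent (m + 1) P = ofC (h * L ^ (a + 1))) (hc0 : homogeneousComponent m P = ofC (L ^ (a + 1)) * p) (w : Λ) :
    map (K.T w) p = p - ∑ i, cst (K.lam w i) * ofC (pderiv i h) := by
  have hTP : (map (K.T w) P).totalDegree ≤ m + 1 := by
    refine le_trans ?_ hd
    refine Finset.sup_mono ?_
    exact support_map_subset _ _
  obtain ⟨e1, e0⟩ := hc_sh (K.lam w) m (map (K.T w) P) hTP
  rw [hc_map, hc1, map_ofC _ (K.TC w)] at e1
  rw [hc_map, hc_map, hc1, hc0, map_ofC _ (K.TC w), map_mul, map_ofC _ (K.TC w)] at e0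
  have hdS : (sh (K.lam w) (map (K.T w) P)).totalDegree ≤ m + 1 := (sh_totalDegree _ _).trans hTP
  have hR : sh (K.lam w) (map (K.T w) P) - P ∈ Rn K (n + 1) := Submodule.sub_mem _ (Rn_T K (n + 1) P hP w) hP
  have hdR : (sh (K.lam w) (map (K.T w) P) - P).totalDegree ≤ m := by
    refine totalDegree_lt_of_hc m _ ?_ ?_
    · exact (totalDegree_sub _ _).trans (max_le hdS hd)
    · rw [map_sub, e1, hc1, sub_self]
  have hJ : homogeneousComponent m (sh (K.lam w) (map (K.T w) P) - P) ∈ J K (n + 1) m :=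
    (mem_J K (n + 1) m _).2 ⟨_, hR, hdR, rfl⟩
  obtain ⟨g, hg, eg⟩ := (h1 _).1 hJ
  rw [map_sub, e0, hc0] at eg
  have es : ∑ i, cst (K.lam w i) * pderiv i (ofC (h * L ^ (a + 1)) : Po M) =
      ofC (L ^ (a + 1)) * (∑ i, cst (K.lam w i) * ofC (pderiv i h)) +
        ofC h * (∑ i, cst (K.lam w i) * ofC (((a + 1 : ℕ) : Po ℂ) * L ^ a * pderiv i L)) := by
    rw [Finset.mul_sum, Finset.mul_sum, ← Finset.sum_add_distrib]
    refine Finset.sum_congr rfl fun i _ => ?_
    rw [z12_lead]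
    ring
  rw [es] at eg
  have hg' : ((∑ i, cst (K.lam w i) * ofC (((a + 1 : ℕ) : Po ℂ) * L ^ a * pderiv i L)) - g : Po M) ∈ Hs M a := by
    refine Submodule.sub_mem _ (Submodule.sum_mem _ fun i _ => ?_) hg
    exact z12_cst a _ _ (z12_Ld a L hL i)
  have hmp : (map (K.T w) p) ∈ Hs M r' := by
    rw [mem_homogeneousSubmodule] at hp ⊢
    exact hp.map _
  have hp' : (map (K.T w) p - p + ∑ i, cst (K.lam w i) * ofC (pderiv i h) : Po M) ∈ Hs M r' := by
    refine Submodule.add_mem _ (Submodule.sub_mem _ hmp hp) (Submodule.sum_mem _ fun i _ => ?_)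
    exact z12_cst r' _ _ (z12_ofC r' _ (z12_pd r' h hh i))
  have key := hu _ hg' _ hp' (by linear_combination eg)
  linear_combination key

theorem z12_pd_zero (r : ℕ) (h : Po ℂ) (hh : h.IsHomogeneous (r + 1)) (hz : ∀ i, pderiv i h = 0) : h = 0 := by
  have h1 := hh.sum_X_mul_pderiv
  rw [Finset.sum_eq_zero fun i _ => by rw [hz i, mul_zero]] at h1
  have h2 : ((r + 1 : ℕ) : ℂ) • h = 0 := by
    rw [Nat.cast_smul_eq_nsmul, ← h1]
  rcases smul_eq_zero.1 h2 with h3 | h3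
  · exact absurd h3 (by exact_mod_cast Nat.succ_ne_zero r)
  · exact h3

theorem z12_coeff (b : ℂ) (g : Po ℂ) (m1 : Fin 2 →₀ ℕ) :
    (cst b * ofC g : Po M).coeff m1 = algebraMap ℂ M (b * g.coeff m1) := by
  unfold cst ofC
  rw [coeff_C_mul, coeff_map, map_mul]

/-- Z9c4. PROOF. By contradiction and `symbol`: `a0 = finrank (J K (n+1) m) = a + 1 ≥ 1` as `aa K (n+1) m ≤ m`, and `finrank (J K (n+1) (m+1)) = m + 2 - aa = a + 2`. `r = aa K (n+1) m`; if `r = r' + 1`: `split_forms`, `pi_exists`, `pi_Z`, `pi_T`. For a monomial `m1` let `f = p.coeff m1` and `c i = -(pderiv i h).coeff m1`: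
`Z j f` and `T w f - f = ∑ c i lam w i` as in `rigZ`, so `c = 0`: `pderiv i h = 0` for `i = 0, 1`, and `h` is a form of degree `r' + 1 ≥ 1`: `h = 0` (Euler), contradiction. (`aa_add`; `J K n m` has the same dimension as `J K (n+1) m` and is larger, so they are equal: `Submodule.eq_of_le_of_finrank_eq`, `J_anti`.) -/
theorem no_block (K : Ker M Λ) (n m : ℕ) (h0 : aa K (n + 1) (m + 1) = aa K (n + 1) m) (h1 : aa K n m = aa K (n + 1) m)
    (h2 : aa K n (m + 1) = aa K (n + 1) m) (h3 : aa K (n + 1) m ≤ m) : aa K (n + 1) m = 0 := by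
  obtain ⟨a, ha⟩ := Nat.exists_eq_add_of_le h3
  have d0 := aa_add K (n + 1) m
  have d1 := aa_add K (n + 1) (m + 1)
  have d2 := aa_add K n m
  have d3 := aa_add K n (m + 1)
  have f0 : Module.finrank M (J K (n + 1) m) = a + 1 := by omega
  have f1 : Module.finrank M (J K (n + 1) (m + 1)) = a + 2 := by omega
  have hfin : ∀ n' k, FiniteDimensional M (J K n' k) := fun n' k =>
    Submodule.finiteDimensional_of_le (J_le K n' k)
  have e0 : J K (n + 1) m = J K n m := by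
    have := hfin n m
    exact Submodule.eq_of_le_of_finrank_eq (J_anti K n m) (by omega)
  have e1 : J K (n + 1) (m + 1) = J K n (m + 1) := by
    have := hfin n (m + 1)
    exact Submodule.eq_of_le_of_finrank_eq (J_anti K n (m + 1)) (by omega)
  obtain ⟨r, hr, h, hne, hh, k1, k2⟩ := symbol K n m a e0 e1 f0 f1
  have hra : aa K (n + 1) m = r := by omega
  rw [hra]
  rcases r with _ | r'
  · rfl
  exfalso
  obtain ⟨L, hL, -, hN⟩ := split_forms (M := M) r' h hne hh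
  obtain ⟨hu, hs⟩ := hN a
  obtain ⟨P, hP, p, hp, hd, c1, c0⟩ := pi_exists K n m a r' hr h L hh hL hs k1 k2
  have hZ := pi_Z K n m a r' hr h L hh hL hu e0 k1 P hP p hp hd c1 c0
  have hT := pi_T K n m a r' hr h L hh hL hu k1 P hP p hp hd c1 c0
  apply hne
  refine z12_pd_zero r' h hh fun i => ?_
  ext m1
  rw [coeff_zero]
  have hrig := K.rigZ (p.coeff m1) (fun j => ∑ i, K.e i j * (pderiv i h).coeff m1)
    (fun i => -(pderiv i h).coeff m1) ?_ ?_
  · have := congrFun hrig.1 i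
    simpa using this
  · intro j
    rw [← coeff_cD, hZ j, coeff_sum, map_sum]
    exact Finset.sum_congr rfl fun i _ => z12_coeff _ _ _
  · intro w
    rw [← coeff_map, hT w, coeff_sub, coeff_sum, map_sum, sub_eq_add_neg, ← Finset.sum_neg_distrib]
    congr 1
    refine Finset.sum_congr rfl fun i _ => ?_
    rw [z12_coeff, ← map_neg]
    congr 1
    ring

end Pool.Agent.MSU
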