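import Pool.Agent.Lib.MP_f58a57_nt.U.Z3_Step1
import Pool.Agent.Lib.MP_f58a57_nt.U.Z7_Rank
import Pool.Agent.Lib.MP_f58a57_nt.U.Z8_Count
import Pool.Agent.Lib.MP_f58a57_nt.U.Z9c_NoBlock

/-! # U/Z10_ThmZ: the abstract zero estimate -/

open MvPolynomial

noncomputable section

namespace Pool.Agent.MSU

variable {M : Type} [Field M] [Algebra ℂ M] {Λ : Type}

/-- Z10. PROOF. `count` with `n = b + 1`, `a = aa K (b+1)`, `a' = aa K b` (`aa_add`, `aa_anti`, `aa_step`, `sum_aa_le`, `sum_aa_succ`, `no_block`): `aa K (b+1) k = 0` for `k ≥ 4b + 5`. `all_of_low` and `step1`. -/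
theorem thmZ (K : Ker M Λ) (b : ℕ) (q : Po M) (hq : q.totalDegree ≤ b) (h : ∀ P : Po M, P.totalDegree ≤ 4 * b + 4 → K.B P q = 0) : q = 0 := by
  have ha : ∀ k, 4 * b + 5 ≤ k → aa K (b + 1) k = 0 := by
    intro k hk
    refine count (b + 1) (aa K (b + 1)) (aa K b) (fun k => by have := aa_add K (b + 1) k; omega) (aa_anti K b) (aa_step K (b + 1))
      (sum_aa_le K (b + 1)) (fun K' => sum_aa_succ K b K') (fun k h1 h2 h3 h4 => no_block K b k h1 h2 h3 h4) k (by omega)
  exact step1 K q (all_of_low K (b + 1) (4 * b + 5) ha q (by omega) (fun P hP => h P (by omega)))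

end Pool.Agent.MSU
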