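import Pool.Agent.Lib.MP_f58a57_nt.U.X5_Ker
import Pool.Agent.Lib.MP_f58a57_nt.U.Z10_ThmZ

/-! # U/X6_Point: the zero estimate at generic points -/

open Complex MvPolynomial

noncomputable section

namespace Pool.Agent.MSU

open MSD MSP MSK MSR

theorem xa08_rows {K : Type} [Field K] {ι ι' : Type} [Fintype ι] [DecidableEq ι] (A : ι' → ι → K)
    (h : ∀ c : ι → K, (∀ a, ∑ i, c i * A a i = 0) → c = 0) :
    ∃ r : ι → ι', (Matrix.of fun i j => A (r i) j).det ≠ 0 := by
  classical
  have hspan : Submodule.span K (Set.range A) = ⊤ := by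
    by_contra hne
    obtain ⟨f, hf0, hf⟩ := Submodule.exists_le_ker_of_lt_top _ (lt_top_iff_ne_top.2 hne)
    apply hf0
    have hc : (fun i => f (Pi.single i 1)) = 0 := by
      apply h
      intro a
      have h1 : f (A a) = 0 := hf (Submodule.subset_span ⟨a, rfl⟩)
      rw [← h1]
      conv_rhs => rw [show A a = ∑ i, A a i • (Pi.single i (1 : K) : ι → K) from by
        funext j
        simp [Finset.sum_apply, Pi.single_apply]]
      rw [map_sum]
      refine Finset.sum_congr rfl fun i _ => ?_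
      rw [map_smul, smul_eq_mul, mul_comm]
    refine LinearMap.pi_ext' fun i => LinearMap.ext_ring ?_
    exact congrFun hc i
  obtain ⟨κ, a, -, hs, hl⟩ := exists_linearIndependent' K A
  rw [hspan] at hs
  have b : Module.Basis κ K (ι → K) := Module.Basis.mk hl (by rw [hs])
  have e : ι ≃ κ := (Pi.basisFun K ι).indexEquiv b
  refine ⟨fun i => a (e i), ?_⟩
  have h2 : LinearIndependent K (Matrix.of fun i j => A (a (e i)) j).row :=
    hl.comp e e.injective
  rw [Matrix.linearIndependent_rows_iff_isUnit, Matrix.isUnit_iff_isUnit_det] at h2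
  exact h2.ne_zero

/-- evaluation at a point -/
def xa08_ev (t : Fin 3 → ℂ) : E3 →+* ℂ := (Pi.evalRingHom (fun _ : Fin 3 → ℂ => ℂ) t).comp
  (AnS.val : E3 →ₐ[ℂ] ((Fin 3 → ℂ) → ℂ)).toRingHom

/-- X6a. pure linear algebra. PROOF. The columns of the matrix are linearly independent over the field of fractions, so some square minor of size `card ι` is `≠ 0`; take `W` = this minor (an element of `E3`). At `t` with `W t ≠ 0` the minor of the evaluated matrix is `≠ 0` (evaluation at `t` is a ring homomorphism `E3 → ℂ`),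
so its columns are linearly independent. (Mathlib: `Matrix.rank`, `exists_submatrix...`; or: choose a subset `s` of the rows such that the restricted rows form a basis of the row space: `exists_linearIndependent` for the row vectors, which span `ι → M3`.) -/
theorem minor_exists {ι ι' : Type} [Fintype ι] [DecidableEq ι] [Fintype ι'] (m : ι' → ι → E3)
    (h : ∀ c : ι → M3, (∀ a, ∑ i, c i * em (m a i) = 0) → c = 0) :
    ∃ W : E3, W ≠ 0 ∧ ∀ t, (W : (Fin 3 → ℂ) → ℂ) t ≠ 0 → ∀ c : ι → ℂ, (∀ a, ∑ i, c i * (m a i : (Fin 3 → ℂ) → ℂ) t = 0) → c = 0 := by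
  obtain ⟨r, hr⟩ := xa08_rows (K := M3) (fun a i => em (m a i)) h
  refine ⟨(Matrix.of fun i j => m (r i) j).det, ?_, ?_⟩
  · intro h0
    apply hr
    have h1 : (Matrix.of fun i j => em (m (r i) j)) =
        (algebraMap E3 M3).mapMatrix (Matrix.of fun i j => m (r i) j) := by
      ext i j
      rfl
    rw [h1, ← RingHom.map_det, h0, map_zero]
  · intro t ht c hc
    have h2 : (xa08_ev t).mapMatrix (Matrix.of fun i j => m (r i) j) =
        Matrix.of fun i j => (m (r i) j : (Fin 3 → ℂ) → ℂ) t := by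
      ext i j
      rfl
    have h3 : (Matrix.of fun i j => (m (r i) j : (Fin 3 → ℂ) → ℂ) t).det ≠ 0 := by
      rw [← h2, ← RingHom.map_det]
      exact ht
    refine Matrix.eq_zero_of_mulVec_eq_zero h3 ?_
    funext i
    rw [Matrix.mulVec, dotProduct, Pi.zero_apply, ← hc (r i)]
    refine Finset.sum_congr rfl fun j _ => ?_
    rw [Matrix.of_apply, mul_comm]

/-- X6b. PROOF. `ι` = exponents `β` with `|β| ≤ b`, `ι'` = exponents `α` with `|α| ≤ 4b + 4` (finite types, e.g. subtypes of `Fin 2 →₀ ℕ` or pairs in `Fin _ × Fin _`), `m α β = TE D (Phi P D X^α X^β)`. `ker_exists` and `thmZ`: if `∑ c_β em (m α β) = 0` for all `|α| ≤ 4b + 4` then `q = ∑ c_β X^β ∈ Po M3` has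
`K.B (X^α) q = 0`, so `K.B P q = 0` for all `P` of degree `≤ 4b + 4`, `q = 0`. `minor_exists`. -/
theorem point (P : Par 2) (D : Dt 2) (b : ℕ) : ∃ W : E3, W ≠ 0 ∧ ∀ t, (W : (Fin 3 → ℂ) → ℂ) t ≠ 0 → ∀ q : Po ℂ, q.totalDegree ≤ b → q ≠ 0 →
    ∃ p : Po ℂ, p.totalDegree ≤ 4 * b + 4 ∧ (TE D (Phi P D p q) : (Fin 3 → ℂ) → ℂ) t ≠ 0 := by
  classical
  obtain ⟨K, hK⟩ := ker_exists P D
  have hfin : ∀ n : ℕ, Finite {β : Fin 2 →₀ ℕ // β.degree ≤ n} := fun n =>
    Set.finite_coe_iff.2 (Finsupp.finite_of_degree_le n)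
  have := Fintype.ofFinite {β : Fin 2 →₀ ℕ // β.degree ≤ b}
  have := Fintype.ofFinite {β : Fin 2 →₀ ℕ // β.degree ≤ 4 * b + 4}
  let m : {β : Fin 2 →₀ ℕ // β.degree ≤ 4 * b + 4} → {β : Fin 2 →₀ ℕ // β.degree ≤ b} → E3 :=
    fun α β => TE D (Phi P D (monomial α.1 1) (monomial β.1 1))
  have hm : ∀ α β, K.B (monomial α.1 1) (monomial β.1 1) = em (m α β) := by
    intro α β
    have h1 := hK (monomial α.1 1) (monomial β.1 1)
    rwa [ofC, ofC, map_monomial, map_monomial, map_one] at h1
  -- expansions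
  have hexp : ∀ (R : Type) [Field R] (n : ℕ) [Fintype {β : Fin 2 →₀ ℕ // β.degree ≤ n}] (q : Po R),
      q.totalDegree ≤ n → q = ∑ β : {β : Fin 2 →₀ ℕ // β.degree ≤ n}, q.coeff β.1 • monomial β.1 (1 : R) := by
    intro R _ n _ q hq
    ext s
    rw [coeff_sum]
    simp only [coeff_smul, coeff_monomial, smul_eq_mul]
    by_cases hs : s.degree ≤ n
    · rw [Finset.sum_eq_single ⟨s, hs⟩]
      · simp
      · intro β _ hβ
        rw [if_neg, mul_zero]
        intro h
        exact hβ (Subtype.ext h)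
      · intro h
        exact absurd (Finset.mem_univ _) h
    · rw [Finset.sum_eq_zero]
      · by_contra h
        have h2 := le_totalDegree (mem_support_iff.2 h)
        have h3 : s.degree ≤ q.totalDegree := h2
        omega
      · intro β _
        rw [if_neg, mul_zero]
        intro h
        exact hs (h ▸ β.2)
  have hdeg : ∀ (R : Type) [Field R] (n : ℕ) [Fintype {β : Fin 2 →₀ ℕ // β.degree ≤ n}]
      (c : {β : Fin 2 →₀ ℕ // β.degree ≤ n} → R),
      (∑ β, c β • monomial β.1 (1 : R) : Po R).totalDegree ≤ n := by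
    intro R _ n _ c
    refine totalDegree_finsetSum_le fun β _ => (totalDegree_smul_le _ _).trans ?_
    exact (totalDegree_monomial_le _ _).trans β.2
  have hcoeff : ∀ (R : Type) [Field R] (n : ℕ) [Fintype {β : Fin 2 →₀ ℕ // β.degree ≤ n}]
      (c : {β : Fin 2 →₀ ℕ // β.degree ≤ n} → R) (i : {β : Fin 2 →₀ ℕ // β.degree ≤ n}),
      (∑ β, c β • monomial β.1 (1 : R) : Po R).coeff i.1 = c i := by
    intro R _ n _ c i
    rw [coeff_sum, Finset.sum_eq_single i]
    · simp
    · intro β _ hβ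
      rw [coeff_smul, coeff_monomial, if_neg, smul_zero]
      intro h
      exact hβ (Subtype.ext h)
    · intro h
      exact absurd (Finset.mem_univ _) h
  obtain ⟨W, hW, hW2⟩ := minor_exists m (by
    intro c hc
    have hq : (∑ β, c β • monomial β.1 (1 : M3) : Po M3) = 0 := by
      refine thmZ K b _ (hdeg M3 b c) fun Q hQ => ?_
      have e1 : K.B Q = ∑ α : {β : Fin 2 →₀ ℕ // β.degree ≤ 4 * b + 4}, Q.coeff α.1 • K.B (monomial α.1 1) := by
        conv_lhs => rw [hexp M3 (4 * b + 4) Q hQ]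
        rw [map_sum K.B]
        exact Finset.sum_congr rfl fun α _ => map_smul K.B _ _
      rw [e1, LinearMap.sum_apply]
      refine Finset.sum_eq_zero fun α _ => ?_
      rw [LinearMap.smul_apply, map_sum]
      have h1 : ∑ β, K.B (monomial α.1 1) (c β • monomial β.1 (1 : M3)) = 0 := by
        rw [← hc α]
        refine Finset.sum_congr rfl fun β _ => ?_
        rw [map_smul, hm, smul_eq_mul]
      rw [h1, smul_zero]
    funext i
    have h2 := hcoeff M3 b c i
    rw [hq, coeff_zero] at h2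
    exact h2.symm)
  refine ⟨W, hW, fun t ht q hqd hq0 => ?_⟩
  by_contra hcon
  push Not at hcon
  refine hq0 ?_
  have hc0 : (fun β : {β : Fin 2 →₀ ℕ // β.degree ≤ b} => q.coeff β.1) = 0 := by
    refine hW2 t ht _ fun α => ?_
    have h1 := hcon (monomial α.1 1) ((totalDegree_monomial_le _ _).trans α.2)
    have h2 : TE D (Phi P D (monomial α.1 1) q) = ∑ β : {β : Fin 2 →₀ ℕ // β.degree ≤ b}, q.coeff β.1 • m α β := by
      apply em_inj
      rw [← hK]
      have h3 : ofC q = ∑ β : {β : Fin 2 →₀ ℕ // β.degree ≤ b}, algebraMap ℂ M3 (q.coeff β.1) • monomial β.1 (1 : M3) := by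
        conv_lhs => rw [hexp ℂ b q hqd]
        rw [ofC, map_sum]
        refine Finset.sum_congr rfl fun β _ => ?_
        rw [smul_eq_C_mul, smul_eq_C_mul, map_mul, map_C, map_monomial, map_one]
      rw [h3, map_sum]
      have h4 : em (∑ β : {β : Fin 2 →₀ ℕ // β.degree ≤ b}, q.coeff β.1 • m α β) =
          ∑ β : {β : Fin 2 →₀ ℕ // β.degree ≤ b}, em (q.coeff β.1 • m α β) := map_sum (algebraMap E3 M3) _ _
      rw [h4]
      refine Finset.sum_congr rfl fun β _ => ?_
      have h5 : ofC (monomial α.1 (1 : ℂ)) = monomial α.1 (1 : M3) := by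
        rw [ofC, map_monomial, map_one]
      rw [map_smul, h5, hm, smul_eq_mul, Algebra.smul_def, ← em_C]
      exact (map_mul (algebraMap E3 M3) _ _).symm
    rw [h2] at h1
    rw [← h1]
    have h6 : ∀ (s : Finset {β : Fin 2 →₀ ℕ // β.degree ≤ b}) (f : {β : Fin 2 →₀ ℕ // β.degree ≤ b} → E3),
        ((∑ β ∈ s, f β : E3) : (Fin 3 → ℂ) → ℂ) t = ∑ β ∈ s, (f β : (Fin 3 → ℂ) → ℂ) t := by
      intro s f
      induction s using Finset.induction_on with
      | empty => rfl
      | insert a s ha ih =>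
        rw [Finset.sum_insert ha, Finset.sum_insert ha, ← ih]
        rfl
    rw [h6]
    rfl
  rw [hexp ℂ b q hqd]
  refine Finset.sum_eq_zero fun β _ => ?_
  have h7 := congrFun hc0 β
  rw [show q.coeff β.1 = 0 from h7, zero_smul]

end Pool.Agent.MSU
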