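import Pool.Agent.Lib.MP_f58a57_nt.U.V1_Link
import Pool.Agent.Lib.MP_f58a57_nt.U.V2_Pow
import Pool.Agent.Lib.MP_f58a57_nt.U.X6_Point
import Pool.Agent.Lib.MP_f58a57_nt.R.B5_FG
import Pool.Agent.Lib.MP_f58a57_nt.R.C1_Iter

/-! # U/V3_Inj: the zero estimate for the functions `FR` at generic base points -/

open Complex MvPolynomial

noncomputable section

namespace Pool.Agent.MSU

open MSD MSP MSK MSR

theorem va04_choose (dv : Fin 2 → MvPolynomial (Fin 3) ℂ) {zv zv' : Fin 2 → MvPolynomial (Fin 3) ℂ} {e e' : Fin 2 → Fin 2 → ℂ}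
    (hz : zv = zv') (he : e = e') : Classical.choose (phi_exists dv zv e) = Classical.choose (phi_exists dv zv' e') := by
  subst hz
  subst he
  rfl

/-- V3a. PROOF. `WV`, `rhv`, `lin` depend on `D` only through `om` and `s`, and `s` only through `τ, om, kap`. -/
theorem Phi_indep (P : Par 2) (D D' : Dt 2) (h1 : D.τ = D'.τ) (h2 : D.om = D'.om) (h3 : D.kap = D'.kap) : Phi P D = Phi P D' := by
  have hs : D.s = D'.s := by
    unfold Dt.s
    rw [h1, h2, h3]
  have hZ : Zv P D = Zv P D' := by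
    funext j l
    unfold Zv
    rw [h2]
  have he : eK P D = eK P D' := by
    funext i j
    unfold eK WV
    rw [h2, hs]
  have hz : (fun j => lf (Zv P D j)) = fun j => lf (Zv P D' j) := by
    funext j
    exact congrArg lf (congrFun hZ j)
  exact va04_choose _ hz he

/-- V3b. PROOF. `W` from `point P D (2 (E-1))`. Let `D'` have base point `t = D'.h`, `W t ≠ 0`, `c ≠ 0`, and suppose that all the sums vanish for `a j ≤ 8E`, `k ≤ 8E`. Then the derivatives of order `≤ 8E` of `FR P D' c` along `a` vanish (`iteratedDeriv_FR`), so those of `GR` (`GR_vanish` with `T = 8E + 1`); by `link`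
`TH D' 0 (Phi ((a.X)^k) q) = 0`, `q = qc P D' c`. `pow_span` (`K = 8E - 4 ≥ 1`, `max 1 K ≤ 8E`) for the linear functional `p ↦ TH D' 0 (Phi p q)` (`TH_add`, `TH_C_mul`): it vanishes for `deg p ≤ 8E - 4 = 4 * (2(E-1)) + 4`. But `TH D' 0 r = (TE D' r) (D'.h) = (TE D r) t` (`TE_apply`, `TE_indep`), `Phi_indep`, `qc_ne`, `qc_deg`:
contradiction with `point`. -/
theorem inj_generic (P : Par 2) (D : Dt 2) (E : ℕ) (hE : 1 ≤ E) : ∃ W : E3, W ≠ 0 ∧ ∀ D' : Dt 2, D'.τ = D.τ → D'.om = D.om → D'.kap = D.kap →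
    (W : (Fin 3 → ℂ) → ℂ) D'.h ≠ 0 → ∀ c : Ir 2 E → ℂ, c ≠ 0 → ∃ (a : Fin 2 → ℕ) (k : ℕ), (∀ j, a j ≤ 8 * E) ∧ k ≤ 8 * E ∧
      ∑ κ, c κ * aeval (MSK.vals P D') ((der (fun j => (a j : ℤ)))^[k] (Rp (fun j => (κ j).val))) ≠ 0 := by
  obtain ⟨W, hW0, hW⟩ := point P D (2 * (E - 1))
  refine ⟨W, hW0, ?_⟩
  intro D' h1 h2 h3 hWt c hc
  by_contra hcon
  push Not at hcon
  have hF : ∀ a : Fin 2 → ℕ, (∀ j, a j ≤ 8 * E) → ∀ k < 8 * E + 1,
      iteratedDeriv k (fun ζ : ℂ => FR P D' c (fun j => ζ * a j)) 0 = 0 := by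
    intro a ha k hk
    have e1 := iteratedDeriv_FR P D' c (fun j => (a j : ℤ)) k
    rw [hcon a k ha (by omega), mul_zero] at e1
    simpa only [Int.cast_natCast] using e1
  have hL : ∀ a : Fin 2 → ℕ, (∀ j, a j ≤ 8 * E) → ∀ k < 8 * E + 1,
      TH D' (fun _ => 0) (Phi P D' ((∑ i, C (a i : ℂ) * X i) ^ k) (qc P D' c)) = 0 := by
    intro a ha k hk
    rw [← link P D' c (fun i => (a i : ℂ)) k]
    exact GR_vanish P D' c a (8 * E + 1) (hF a ha) k hk
  let L : MvPolynomial (Fin 2) ℂ →ₗ[ℂ] ℂ :=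
    { toFun := fun p => ((TE D' (Phi P D' p (qc P D' c)) : E3) : (Fin 3 → ℂ) → ℂ) D'.h
      map_add' := fun p p' => by
        rw [map_add, LinearMap.add_apply, map_add]
        rfl
      map_smul' := fun r p => by
        rw [map_smul, LinearMap.smul_apply, map_smul]
        rfl }
  have hLa : ∀ p, L p = TH D' (fun _ => 0) (Phi P D' p (qc P D' c)) := by
    intro p
    show ((TE D' (Phi P D' p (qc P D' c)) : E3) : (Fin 3 → ℂ) → ℂ) D'.h = _
    rw [TE_apply]
    simp only [sub_self]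
  have hspan := pow_span (8 * E - 4) L (fun k hk a ha => by
    rw [hLa]
    refine hL a (fun j => (ha j).trans ?_) k (by omega)
    rw [max_le_iff]
    omega)
  obtain ⟨p, hp, hne⟩ := hW D'.h hWt (qc P D' c) (qc_deg P D' c) (qc_ne P D' c hc)
  apply hne
  have e2 := hspan p (by omega)
  rw [TE_indep D D' h1.symm, Phi_indep P D D' h1.symm h2.symm h3.symm]
  exact e2

end Pool.Agent.MSU
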