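import Pool.Agent.Lib.MP_f58a57_nt.U.V3_Inj
import Pool.Agent.Lib.MP_f58a57_nt.U.V4_Sign
import Pool.Agent.Lib.MP_f58a57_nt.U.D9_Main

/-! # U/V5_Rows: the determinant as a polynomial in the values at the base points -/

open Complex MvPolynomial

noncomputable section

namespace Pool.Agent.MSU

open MSD MSP MSK MSR

/-- V5a. linear algebra. PROOF. The vectors `v_r ∈ ℂ^ι`, `r ∈ R`, have no common nonzero `c` with `∑ c_i v_r i = 0`, so they span `ℂ^ι`; choose `card ι` linearly independent ones. -/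
theorem rows_exist {ι R : Type} [Fintype ι] [DecidableEq ι] (S : Set R) (v : R → ι → ℂ) (h : ∀ c : ι → ℂ, c ≠ 0 → ∃ r ∈ S, ∑ i, c i * v r i ≠ 0) :
    ∃ f : ι → R, (∀ i, f i ∈ S) ∧ (Matrix.of fun i j => v (f i) j).det ≠ 0 := by
  have hspan : Submodule.span ℂ (v '' S) = ⊤ := by
    by_contra hne
    obtain ⟨f, hf, hf'⟩ := Submodule.exists_le_ker_of_lt_top _ (lt_top_iff_ne_top.2 hne)
    have hfv : ∀ w : ι → ℂ, f w = ∑ i, f (Pi.single i 1) * w i := by
      intro w
      conv_lhs => rw [← Finset.univ_sum_single w]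
      rw [map_sum]
      apply Finset.sum_congr rfl
      intro i _
      have h1 : (Pi.single i (w i) : ι → ℂ) = w i • Pi.single i 1 := by
        rw [← Pi.single_smul, smul_eq_mul, mul_one]
      rw [h1, map_smul, smul_eq_mul, mul_comm]
    have hc : (fun i => f (Pi.single i 1)) ≠ 0 := by
      intro h0
      apply hf
      apply LinearMap.ext
      intro w
      rw [hfv w]
      have h2 : ∀ i, f (Pi.single i 1) = 0 := fun i => congrFun h0 i
      simp [h2]
    obtain ⟨r, hr, hr'⟩ := h _ hc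
    apply hr'
    have h3 : v r ∈ LinearMap.ker f := hf' (Submodule.subset_span ⟨r, hr, rfl⟩)
    rw [LinearMap.mem_ker, hfv] at h3
    exact h3
  obtain ⟨b, hb, hbs, hbi⟩ := exists_linearIndependent ℂ (v '' S)
  rw [hspan] at hbs
  have hB : ⊤ ≤ Submodule.span ℂ (Set.range ((↑) : b → ι → ℂ)) := by
    rw [Subtype.range_coe, hbs]
  let B := Module.Basis.mk hbi hB
  let e : ι ≃ b := (Pi.basisFun ℂ ι).indexEquiv B
  have hf : ∀ i : ι, ∃ r ∈ S, v r = (e i : ι → ℂ) := by
    intro i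
    obtain ⟨r, hr, hr'⟩ := hb (e i).2
    exact ⟨r, hr, hr'⟩
  choose f hfS hfv using hf
  refine ⟨f, hfS, ?_⟩
  have h4 : LinearIndependent ℂ (fun i => (e i : ι → ℂ)) := hbi.comp e e.injective
  have h5 : LinearIndependent ℂ (Matrix.of fun i j => v (f i) j).row := by
    have h6 : (Matrix.of fun i j => v (f i) j).row = fun i => (e i : ι → ℂ) := by
      funext i
      exact hfv i
    rw [h6]
    exact h4
  have h7 := Matrix.linearIndependent_rows_iff_isUnit.1 h5
  rw [Matrix.isUnit_iff_isUnit_det] at h7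
  exact h7.ne_zero

/-- the determinant as a polynomial -/
def Dp {E : ℕ} (a : Ir 2 E → Fin 2 → ℕ) (k : Ir 2 E → ℕ) : MvPolynomial (Vr 2) ℤ :=
  (Matrix.of fun i κ : Ir 2 E => (der (fun j => (a i j : ℤ)))^[k i] (Rp (fun j => (κ j).val))).det

/-- V5b. PROOF. `aeval` is a ring homomorphism: `RingHom.map_det`. -/
theorem aeval_Dp {E : ℕ} (a : Ir 2 E → Fin 2 → ℕ) (k : Ir 2 E → ℕ) (x : Vr 2 → ℂ) : aeval x (Dp a k) = (Dm x a k).det := by
  rw [Dp, AlgHom.map_det]
  rfl

/-- V5c. PROOF. `c5_Rp` (`d = 2`, `T = 8E`): every entry has total degree `≤ 8E + 40E = 48E`; the determinant is a sum of products of `E^2` entries. -/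
theorem Dp_deg {E : ℕ} (hE : 1 ≤ E) (a : Ir 2 E → Fin 2 → ℕ) (k : Ir 2 E → ℕ) (ha : ∀ i j, a i j ≤ 8 * E) (hk : ∀ i, k i ≤ 8 * E) :
    (Dp a k).totalDegree ≤ 48 * E ^ 3 := by
  have hent : ∀ i κ : Ir 2 E, ((der (fun j => (a i j : ℤ)))^[k i] (Rp (fun j => (κ j).val))).totalDegree ≤ 48 * E := by
    intro i κ
    have h := (d0_Rp 2 (8 * E) E (by omega) hE (a i) (ha i) (k i) (hk i) κ).1
    omega
  have hcard : Fintype.card (Ir 2 E) = E ^ 2 := by simp
  rw [Dp, Matrix.det_apply]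
  apply totalDegree_finsetSum_le
  intro σ _
  have h1 : (∏ i : Ir 2 E, (Matrix.of fun i κ : Ir 2 E => (der (fun j => (a i j : ℤ)))^[k i]
      (Rp (fun j => (κ j).val))) (σ i) i).totalDegree ≤ 48 * E ^ 3 := by
    refine (totalDegree_finsetProd _ _).trans ?_
    refine (Finset.sum_le_sum fun i _ => hent (σ i) i).trans ?_
    rw [Finset.sum_const, Finset.card_univ, hcard, smul_eq_mul]
    apply le_of_eq
    ring
  rcases Int.units_eq_one_or (Equiv.Perm.sign σ) with h2 | h2
  · rw [h2, one_smul]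
    exact h1
  · rw [h2, Units.neg_smul, one_smul, totalDegree_neg]
    exact h1

/-- the values with given `x_l`, `y_l` -/
def vxy (P : Par 2) (τ om kap : ℂ) (x y : Fin 3 → ℂ) : Vr 2 → ℂ
  | .X l => x l
  | .Y l => y l
  | .Q _ => 0
  | .b l => P.b l
  | .g => 2 / 3 * Real.pi ^ 4 * e4 τ / om ^ 4
  | .k => kap
  | .z => P.z
  | .r => rh

theorem vals_eq (P : Par 2) (D : Dt 2) : MSK.vals P D = vxy P D.τ D.om D.kap (fun l => D.X l 0) (fun l => D.Y l 0) := by
  funext v
  cases v <;> rfl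

/-- the substitution of the values of the other variables -/
def va08s (P : Par 2) (τ om kap : ℂ) : Vr 2 → MvPolynomial (Fin 3 ⊕ Fin 3) ℂ
  | .X l => X (Sum.inl l)
  | .Y l => X (Sum.inr l)
  | .Q _ => C 0
  | .b l => C (P.b l : ℂ)
  | .g => C (2 / 3 * Real.pi ^ 4 * e4 τ / om ^ 4)
  | .k => C kap
  | .z => C P.z
  | .r => C rh

/-- V5d. PROOF. `δ = aeval (X l ↦ X (inl l), Y l ↦ X (inr l), the other variables ↦ C (value)) (Dp)`; the total degree does not increase. -/
theorem delta_exists (P : Par 2) (τ om kap : ℂ) (Q : MvPolynomial (Vr 2) ℤ) (n : ℕ) (hn : Q.totalDegree ≤ n) :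
    ∃ δ : MvPolynomial (Fin 3 ⊕ Fin 3) ℂ, δ.totalDegree ≤ n ∧ ∀ x y : Fin 3 → ℂ, aeval (Sum.elim x y) δ = aeval (vxy P τ om kap x y) Q := by
  have hs : ∀ v, (va08s P τ om kap v).totalDegree ≤ 1 := by
    intro v
    cases v <;> simp [va08s]
  refine ⟨aeval (va08s P τ om kap) Q, le_trans ?_ hn, fun x y => ?_⟩
  · rw [aeval_def, eval₂_eq]
    refine (totalDegree_finsetSum _ _).trans (Finset.sup_le fun m hm => ?_)
    refine (totalDegree_mul _ _).trans ?_
    have h1 : ((algebraMap ℤ (MvPolynomial (Fin 3 ⊕ Fin 3) ℂ)) (coeff m Q)).totalDegree = 0 := by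
      have h2 : (algebraMap ℤ (MvPolynomial (Fin 3 ⊕ Fin 3) ℂ)) (coeff m Q) = C ((coeff m Q : ℤ) : ℂ) := by
        simp
      rw [h2]
      exact totalDegree_C _
    rw [h1, zero_add]
    refine (totalDegree_finsetProd _ _).trans ?_
    refine le_trans (Finset.sum_le_sum fun i _ => ?_) (le_totalDegree hm)
    calc (va08s P τ om kap i ^ m i).totalDegree ≤ m i * (va08s P τ om kap i).totalDegree := totalDegree_pow _ _
      _ ≤ m i * 1 := Nat.mul_le_mul_left _ (hs i)
      _ = m i := mul_one _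
  · have hv : ∀ v, aeval (Sum.elim x y) (va08s P τ om kap v) = vxy P τ om kap x y v := by
      intro v
      cases v <;> simp [va08s, vxy]
    have key : ∀ R : MvPolynomial (Vr 2) ℤ,
        aeval (Sum.elim x y) (aeval (va08s P τ om kap) R) = aeval (vxy P τ om kap x y) R := by
      intro R
      induction R using MvPolynomial.induction_on with
      | C a => simp
      | add p q hp hq => rw [map_add, map_add, map_add, hp, hq]
      | mul_X p i hp => rw [map_mul, map_mul, map_mul, aeval_X, aeval_X, hp, hv]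
    exact key Q

/-- V5e. the equation of the curve. PROOF. `wp_ode` divided by `om^6`. -/
theorem curve_eq (D : Dt 2) (l : Fin 3) :
    D.Y l 0 ^ 2 = 4 * D.X l 0 ^ 3 - 2 * (2 / 3 * Real.pi ^ 4 * e4 D.τ / D.om ^ 4) * D.X l 0 - 8 / 27 * Real.pi ^ 6 * e6 D.τ / D.om ^ 6 := by
  have h1 := wp_ode D.τ D.im (D.h l) (D.hh l)
  have h2 := D.ne
  unfold Dt.Y Dt.X
  rw [add_zero, div_pow, h1]
  field_simp
  ring

end Pool.Agent.MSU
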