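import Pool.Agent.Lib.MP_f58a57_nt.U.V5_Rows
import Pool.Agent.Lib.MP_f58a57_nt.P.T8c_ODE

/-! # U/V6_Dense: a base point where all sign changes are nonzero -/

open Complex MvPolynomial

noncomputable section

namespace Pool.Agent.MSU

open MSD MSP MSK MSR

/-- V6a. `D` with another base point -/
def rebase (D : Dt 2) (h : Fin 3 → ℂ) (hh : ∀ l, th D.τ (h l) ≠ 0) : Dt 2 := ⟨D.τ, D.im, D.om, D.ne, D.kap, h, hh⟩

theorem v6_N1_neg (τ t : ℂ) : deriv (th τ) (-t) = deriv (th τ) t := by
  have h : (fun u : ℂ => th τ (-u)) = fun u => -th τ u := by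
    funext u; exact th_neg τ u
  have h1 : deriv (fun u : ℂ => th τ (-u)) t = deriv (fun u => -th τ u) t := by rw [h]
  rw [deriv_comp_neg, deriv.fun_neg] at h1
  exact neg_injective h1

theorem v6_d2_neg (τ t : ℂ) : deriv (deriv (th τ)) (-t) = -deriv (deriv (th τ)) t := by
  have h : (fun u : ℂ => deriv (th τ) (-u)) = fun u => deriv (th τ) u := by
    funext u; exact v6_N1_neg τ u
  have h1 : deriv (fun u : ℂ => deriv (th τ) (-u)) t = deriv (fun u => deriv (th τ) u) t := by rw [h]
  rw [deriv_comp_neg] at h1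
  change -deriv (deriv (th τ)) (-t) = deriv (deriv (th τ)) t at h1
  rw [← h1, neg_neg]

theorem v6_wp_neg (τ s t : ℂ) : wp τ s (-t) = wp τ s t := by
  simp only [wp, N2, N0, v6_N1_neg, v6_d2_neg, th_neg]
  ring

/-- V6b. PROOF. `wp` is even (`th` is odd: `N2` is even, `N0^2` is even), its derivative is odd. -/
theorem wp_even (τ : ℂ) (hτ : 0 < τ.im) (t : ℂ) : wp τ (sE τ) (-t) = wp τ (sE τ) t ∧
    deriv (wp τ (sE τ)) (-t) = -deriv (wp τ (sE τ)) t := by
  refine ⟨v6_wp_neg τ _ t, ?_⟩
  have h : (fun u : ℂ => wp τ (sE τ) (-u)) = fun u => wp τ (sE τ) u := by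
    funext u; exact v6_wp_neg τ _ u
  have h1 : deriv (fun u : ℂ => wp τ (sE τ) (-u)) t = deriv (fun u => wp τ (sE τ) u) t := by rw [h]
  rw [deriv_comp_neg] at h1
  rw [← h1, neg_neg]

/-- finitely many analytic functions, none identically zero, on a preconnected set have a common point where they do not vanish -/
theorem v6_common {E : Type*} [NormedAddCommGroup E] [NormedSpace ℂ E] {ι : Type*} [DecidableEq ι] (U : Set E)
    (hU : IsOpen U) (hP : IsPreconnected U) (f : ι → E → ℂ) (hf : ∀ i, AnalyticOnNhd ℂ (f i) U) (hne : U.Nonempty)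
    (ha : ∀ i, ∃ a ∈ U, f i a ≠ 0) (s : Finset ι) : ∃ h ∈ U, ∀ i ∈ s, f i h ≠ 0 := by
  induction s using Finset.induction_on with
  | empty =>
    obtain ⟨a, haU⟩ := hne
    exact ⟨a, haU, by simp⟩
  | insert j s hj ih =>
    obtain ⟨a, haU, has⟩ := ih
    by_contra hcon
    push Not at hcon
    have hev : ∀ᶠ x in nhds a, ∀ i ∈ s, f i x ≠ 0 := by
      rw [Filter.eventually_all_finset]
      intro i hi
      exact (hf i a haU).continuousAt.eventually_ne (has i hi)
    have hUa : ∀ᶠ x in nhds a, x ∈ U := hU.mem_nhds haU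
    have hz : f j =ᶠ[nhds a] 0 := by
      filter_upwards [hev, hUa] with x hx hxU
      by_contra hne0
      obtain ⟨i, hi, hi0⟩ := hcon x hxU
      rcases Finset.mem_insert.1 hi with rfl | hi'
      · exact hne0 hi0
      · exact hx i hi' hi0
    have h0 := (hf j).eqOn_zero_of_preconnected_of_eventuallyEq_zero hP haU hz
    obtain ⟨b, hbU, hb⟩ := ha j
    exact hb (h0 hbU)

/-- the values as functions of the base point, with signs -/
theorem v6_an (P : Par 2) (D : Dt 2) (Q : MvPolynomial (Vr 2) ℤ) (ε : Fin 3 → Bool) :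
    AnalyticOnNhd ℂ (fun h : Fin 3 → ℂ => aeval (vxy P D.τ D.om D.kap (fun l => wp D.τ (sE D.τ) (h l) / D.om ^ 2)
      (sg3 ε (fun l => deriv (wp D.τ (sE D.τ)) (h l) / D.om ^ 3))) Q) {h | ∀ l, th D.τ (h l) ≠ 0} := by
  intro h hh
  have hX : ∀ l, AnalyticAt ℂ (fun h : Fin 3 → ℂ => wp D.τ (sE D.τ) (h l) / D.om ^ 2) h := by
    intro l
    have h1 : AnalyticAt ℂ (fun h : Fin 3 → ℂ => h l) h :=
      (ContinuousLinearMap.proj (R := ℂ) (φ := fun _ : Fin 3 => ℂ) l).analyticAt h
    have h2 : AnalyticAt ℂ (wp D.τ (sE D.τ)) (h l) := wp_analyticAt D.τ _ D.im (h l) (hh l)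
    have h3 : AnalyticAt ℂ (fun h : Fin 3 → ℂ => wp D.τ (sE D.τ) (h l)) h :=
      AnalyticAt.fun_comp (f := fun h : Fin 3 → ℂ => h l) (g := wp D.τ (sE D.τ)) h2 h1
    simpa only [div_eq_mul_inv] using h3.fun_mul (analyticAt_const (v := (D.om ^ 2)⁻¹))
  have hY : ∀ l, AnalyticAt ℂ (fun h : Fin 3 → ℂ => deriv (wp D.τ (sE D.τ)) (h l) / D.om ^ 3) h := by
    intro l
    have h1 : AnalyticAt ℂ (fun h : Fin 3 → ℂ => h l) h :=
      (ContinuousLinearMap.proj (R := ℂ) (φ := fun _ : Fin 3 => ℂ) l).analyticAt h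
    have h2 : AnalyticAt ℂ (deriv (wp D.τ (sE D.τ))) (h l) := (wp_analyticAt D.τ _ D.im (h l) (hh l)).deriv
    have h3 : AnalyticAt ℂ (fun h : Fin 3 → ℂ => deriv (wp D.τ (sE D.τ)) (h l)) h :=
      AnalyticAt.fun_comp (f := fun h : Fin 3 → ℂ => h l) (g := deriv (wp D.τ (sE D.τ))) h2 h1
    simpa only [div_eq_mul_inv] using h3.fun_mul (analyticAt_const (v := (D.om ^ 3)⁻¹))
  have hv : ∀ v : Vr 2, AnalyticAt ℂ (fun h : Fin 3 → ℂ => vxy P D.τ D.om D.kap (fun l => wp D.τ (sE D.τ) (h l) / D.om ^ 2)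
      (sg3 ε (fun l => deriv (wp D.τ (sE D.τ)) (h l) / D.om ^ 3)) v) h := by
    intro v
    cases v with
    | X l => exact hX l
    | Y l =>
      by_cases hε : ε l = true
      · simpa only [vxy, sg3, hε, if_true] using hY l
      · have hε' : ε l = false := by simpa using hε
        simpa only [vxy, sg3, hε', if_false, Bool.false_eq_true] using (hY l).fun_neg
    | Q _ => exact analyticAt_const
    | b l => exact analyticAt_const
    | g => exact analyticAt_const
    | k => exact analyticAt_const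
    | z => exact analyticAt_const
    | r => exact analyticAt_const
  induction Q using MvPolynomial.induction_on with
  | C a =>
    simp only [aeval_C]
    exact analyticAt_const
  | add p q hp hq =>
    simp only [map_add]
    exact hp.add hq
  | mul_X p v hp =>
    simp only [map_mul, aeval_X]
    exact hp.mul (hv v)

/-- V6c. PROOF. `Ω = {h : ∀ l, th τ (h l) ≠ 0}` is open and connected (a product of the connected sets of `t8c_preconn`), symmetric under sign changes. `F(h) = aeval (vals P (rebase D h)) Q` is analytic on `Ω` (`wp_analyticAt`, its derivative), and `F(ε h)` is `aeval (vxy .. x (ε y))` by `wp_even`. `F` is not identically `0` on `Ω`,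
so by the identity theorem none of the `8` functions `h ↦ F(ε h)` vanishes on a nonempty open subset of `Ω`; their zero sets are closed with empty interior in `Ω`, so there is `h ∈ Ω` where all are `≠ 0`. -/
theorem all_signs (P : Par 2) (D : Dt 2) (Q : MvPolynomial (Vr 2) ℤ) (h0 : aeval (MSK.vals P D) Q ≠ 0) :
    ∃ D' : Dt 2, D'.τ = D.τ ∧ D'.om = D.om ∧ D'.kap = D.kap ∧
      ∀ ε : Fin 3 → Bool, aeval (vxy P D.τ D.om D.kap (fun l => D'.X l 0) (sg3 ε (fun l => D'.Y l 0))) Q ≠ 0 := by
  have hset : {h : Fin 3 → ℂ | ∀ l, th D.τ (h l) ≠ 0} = Set.pi Set.univ (fun _ : Fin 3 => {t : ℂ | th D.τ t ≠ 0}) := by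
    ext h
    simp [Set.mem_pi]
  have hU : IsOpen {h : Fin 3 → ℂ | ∀ l, th D.τ (h l) ≠ 0} := by
    rw [hset]
    exact isOpen_set_pi Set.finite_univ fun _ _ => t8c_open D.τ D.im
  have hP : IsPreconnected {h : Fin 3 → ℂ | ∀ l, th D.τ (h l) ≠ 0} := by
    rw [hset]
    exact isPreconnected_univ_pi fun _ => t8c_preconn D.τ D.im
  obtain ⟨h, hh, hs⟩ := v6_common {h : Fin 3 → ℂ | ∀ l, th D.τ (h l) ≠ 0} hU hP
    (fun (ε : Fin 3 → Bool) (h : Fin 3 → ℂ) => aeval (vxy P D.τ D.om D.kap (fun l => wp D.τ (sE D.τ) (h l) / D.om ^ 2)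
      (sg3 ε (fun l => deriv (wp D.τ (sE D.τ)) (h l) / D.om ^ 3))) Q) (fun ε => v6_an P D Q ε) ⟨D.h, D.hh⟩
    (by
      intro ε
      refine ⟨fun l => if ε l then D.h l else -D.h l, ?_, ?_⟩
      · intro l
        by_cases hε : ε l = true
        · simpa only [hε, if_true] using D.hh l
        · have hε' : ε l = false := by simpa using hε
          simp only [hε', if_false, Bool.false_eq_true]
          rw [th_neg]
          exact neg_ne_zero.2 (D.hh l)
      · have hx : (fun l => wp D.τ (sE D.τ) ((fun l => if ε l then D.h l else -D.h l) l) / D.om ^ 2) = fun l => D.X l 0 := by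
          funext l
          by_cases hε : ε l = true
          · simp only [hε, if_true, Dt.X, add_zero]
          · have hε' : ε l = false := by simpa using hε
            simp only [hε', if_false, Bool.false_eq_true, Dt.X, add_zero, (wp_even D.τ D.im (D.h l)).1]
        have hy : (sg3 ε (fun l => deriv (wp D.τ (sE D.τ)) ((fun l => if ε l then D.h l else -D.h l) l) / D.om ^ 3)) = fun l => D.Y l 0 := by
          funext l
          by_cases hε : ε l = true
          · simp only [sg3, hε, if_true, Dt.Y, add_zero]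
          · have hε' : ε l = false := by simpa using hε
            simp only [sg3, hε', if_false, Bool.false_eq_true, Dt.Y, add_zero, (wp_even D.τ D.im (D.h l)).2]
            ring
        intro hcon
        apply h0
        rw [vals_eq]
        rw [hx, hy] at hcon
        exact hcon)
    Finset.univ
  refine ⟨rebase D h hh, rfl, rfl, rfl, ?_⟩
  intro ε
  have h1 := hs ε (Finset.mem_univ _)
  have hx : (fun l => (rebase D h hh).X l 0) = fun l => wp D.τ (sE D.τ) (h l) / D.om ^ 2 := by
    funext l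
    simp only [Dt.X, rebase, add_zero]
  have hy : (fun l => (rebase D h hh).Y l 0) = fun l => deriv (wp D.τ (sE D.τ)) (h l) / D.om ^ 3 := by
    funext l
    simp only [Dt.Y, rebase, add_zero]
  rw [hx, hy]
  exact h1

end Pool.Agent.MSU
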