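import Pool.Agent.Lib.MP_f58a57_nt.U.Y0_Ring

/-! # U/Y1_Frac: the field of fractions -/

open Complex Filter Topology

noncomputable section

namespace Pool.Agent.MSU

/-- Y1a. PROOF. `δ'(a/s) = (δ a s - a δ s)/s^2`. Well defined, additive, `ℂ`-linear, Leibniz. (If Mathlib has a lift of derivations to localisations use it.) For example: the ring homomorphism `A → FractionRing A [ε]` (`TrivSqZeroExt` or `DualNumber`), `a ↦ a + δ(a) ε`, sends nonzero elements to units, so it
extends to `FractionRing A` (`IsLocalization.lift`); the second component is the derivation. -/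
theorem der_lift (A : Type) [CommRing A] [IsDomain A] [Algebra ℂ A] (δ : Derivation ℂ A A) :
    ∃ δ' : Derivation ℂ (FractionRing A) (FractionRing A), ∀ a : A, δ' (algebraMap A (FractionRing A) a) = algebraMap A (FractionRing A) (δ a) := by
  have hfe : Algebra.FormallyEtale A (FractionRing A) :=
    Algebra.FormallyEtale.of_isLocalization (Rₘ := FractionRing A) (nonZeroDivisors A)
  let δ₁ : Derivation ℂ A (FractionRing A) := (Algebra.linearMap A (FractionRing A)).compDer δ
  let l : Ω[A⁄ℂ] →ₗ[A] FractionRing A := δ₁.liftKaehlerDifferential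
  let L : TensorProduct A (FractionRing A) (Ω[A⁄ℂ]) →ₗ[FractionRing A] FractionRing A := l.liftBaseChange (FractionRing A)
  let L2 : Ω[(FractionRing A)⁄ℂ] →ₗ[FractionRing A] FractionRing A :=
    L ∘ₗ (KaehlerDifferential.tensorKaehlerEquivOfFormallyEtale ℂ A (FractionRing A)).symm.toLinearMap
  refine ⟨L2.compDer (KaehlerDifferential.D ℂ (FractionRing A)), fun a => ?_⟩
  have h1 : (L2.compDer (KaehlerDifferential.D ℂ (FractionRing A))) (algebraMap A (FractionRing A) a)
      = L ((KaehlerDifferential.tensorKaehlerEquivOfFormallyEtale ℂ A (FractionRing A)).symm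
          (KaehlerDifferential.D ℂ (FractionRing A) (algebraMap A (FractionRing A) a))) := rfl
  rw [h1, KaehlerDifferential.tensorKaehlerEquivOfFormallyEtale_symm_D_algebraMap]
  have h2 : L ((1 : FractionRing A) ⊗ₜ[A] (KaehlerDifferential.D ℂ A a)) = (1 : FractionRing A) • l (KaehlerDifferential.D ℂ A a) :=
    LinearMap.liftBaseChange_tmul (FractionRing A) l (1 : FractionRing A) (KaehlerDifferential.D ℂ A a)
  rw [h2, one_smul]
  exact Derivation.liftKaehlerDifferential_comp_D δ₁ a

/-- the field of fractions of the ring of entire functions -/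
abbrev M3 : Type := FractionRing E3

/-- an entire function as an element of the field of fractions -/
def em (f : E3) : M3 := algebraMap E3 M3 f

/-- the derivative in the direction `v` -/
def dM (v : Fin 3 → ℂ) : Derivation ℂ M3 M3 := Classical.choose (der_lift E3 (dE v))

theorem dM_em (v : Fin 3 → ℂ) (f : E3) : dM v (em f) = em (dE v f) := Classical.choose_spec (der_lift E3 (dE v)) f

/-- the translation by `w` -/
def trM (w : Fin 3 → ℂ) : M3 →+* M3 := (IsFractionRing.ringEquivOfRingEquiv (trE w).toRingEquiv : M3 ≃+* M3).toRingHom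

/-- Y1b. -/
theorem trM_em (w : Fin 3 → ℂ) (f : E3) : trM w (em f) = em (trE w f) := by
  exact IsFractionRing.ringEquivOfRingEquiv_algebraMap (trE w).toRingEquiv f

theorem trM_surj (w : Fin 3 → ℂ) : Function.Surjective (trM w) := by
  exact (IsFractionRing.ringEquivOfRingEquiv (trE w).toRingEquiv : M3 ≃+* M3).surjective

theorem em_C (a : ℂ) : em (algebraMap ℂ E3 a) = algebraMap ℂ M3 a := by
  exact (IsScalarTower.algebraMap_apply ℂ E3 M3 a).symm

theorem trM_C (w : Fin 3 → ℂ) (a : ℂ) : trM w (algebraMap ℂ M3 a) = algebraMap ℂ M3 a := by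
  rw [← em_C, trM_em, AlgEquiv.commutes]

theorem em_inj (f g : E3) (h : em f = em g) : f = g := by
  exact IsFractionRing.injective E3 M3 h

theorem em_ne (f : E3) (h : f ≠ 0) : em f ≠ 0 := by
  intro h0
  apply h
  apply em_inj
  rw [h0]
  exact (map_zero (algebraMap E3 M3)).symm

/-- Y1c. -/
theorem exists_frac (f : M3) : ∃ g h : E3, h ≠ 0 ∧ f = em g / em h := by
  obtain ⟨g, h, hh, hf⟩ := IsFractionRing.div_surjective (A := E3) f
  exact ⟨g, h, nonZeroDivisors.ne_zero hh, hf.symm⟩

theorem ya03_em_mul (f g : E3) : em (f * g) = em f * em g := map_mul _ _ _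

theorem ya03_em_add (f g : E3) : em (f + g) = em f + em g := map_add _ _ _

theorem ya03_em_sub (f g : E3) : em (f - g) = em f - em g := map_sub _ _ _

theorem ya03_em_smul (a : ℂ) (f : E3) : em (a • f) = a • em f := by
  rw [Algebra.smul_def, Algebra.smul_def, ya03_em_mul, em_C]

/-- a derivation which vanishes on the entire functions vanishes -/
theorem ya03_der_zero (D : Derivation ℂ M3 M3) (h0 : ∀ g : E3, D (em g) = 0) (f : M3) :
    D f = 0 := by
  obtain ⟨g, h, hh, hf⟩ := exists_frac f
  have he := em_ne h hh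
  have h1 : f * em h = em g := by
    rw [hf]
    exact div_mul_cancel₀ _ he
  have h2 := congrArg D h1
  rw [Derivation.leibniz, h0, h0, smul_zero, zero_add, smul_eq_mul] at h2
  exact (mul_eq_zero.1 h2).resolve_left he

/-- Y1d. PROOF. `f em h = em g`; apply `dM v`: `dM v f em h + f em (dE v h) = em (dE v g)`; multiply by `em h`. -/
theorem dM_frac (v : Fin 3 → ℂ) (f : M3) (g h : E3) (hh : h ≠ 0) (hf : f = em g / em h) :
    dM v f = em (dE v g * h - g * dE v h) / em (h * h) := by
  have he := em_ne h hh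
  have h1 : f * em h = em g := by
    rw [hf]
    exact div_mul_cancel₀ _ he
  have h2 := congrArg (dM v) h1
  rw [Derivation.leibniz, dM_em, dM_em, smul_eq_mul, smul_eq_mul] at h2
  rw [ya03_em_sub, ya03_em_mul, ya03_em_mul, ya03_em_mul, eq_div_iff (mul_ne_zero he he), ← h1]
  linear_combination (em h) * h2

/-- Y1e. PROOF. On `em` by `dE_add` etc., in general `dM_frac`. -/
theorem dM_add (v w : Fin 3 → ℂ) (f : M3) : dM (v + w) f = dM v f + dM w f := by
  have h := ya03_der_zero (dM (v + w) - (dM v + dM w)) (fun g => by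
    rw [Derivation.sub_apply, Derivation.add_apply, dM_em, dM_em, dM_em, dE_add, ya03_em_add,
      sub_self]) f
  rw [Derivation.sub_apply, Derivation.add_apply] at h
  exact sub_eq_zero.1 h

theorem dM_smul (a : ℂ) (v : Fin 3 → ℂ) (f : M3) : dM (a • v) f = a • dM v f := by
  have h := ya03_der_zero (dM (a • v) - a • dM v) (fun g => by
    rw [Derivation.sub_apply, Derivation.smul_apply, dM_em, dM_em, dE_smul, ya03_em_smul,
      sub_self]) f
  rw [Derivation.sub_apply, Derivation.smul_apply] at h
  exact sub_eq_zero.1 h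

/-- Y1f. PROOF. The commutator of two derivations is a derivation, it vanishes on `em` (`dE_comm`), so on fractions. -/
theorem dM_comm (v w : Fin 3 → ℂ) (f : M3) : dM v (dM w f) = dM w (dM v f) := by
  have h := ya03_der_zero ⁅dM v, dM w⁆ (fun g => by
    rw [Derivation.commutator_apply, dM_em, dM_em, dM_em, dM_em, dE_comm, sub_self]) f
  rw [Derivation.commutator_apply] at h
  exact sub_eq_zero.1 h

/-- Y1g. PROOF. `dM_frac` and `em_inj`. -/
theorem dM_const (v : Fin 3 → ℂ) (κ : ℂ) (f : M3) (g h : E3) (hh : h ≠ 0) (hf : f = em g / em h) (hd : dM v f = algebraMap ℂ M3 κ) :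
    dE v g * h - g * dE v h = κ • (h * h) := by
  have he := em_ne (h * h) (mul_ne_zero hh hh)
  rw [dM_frac v f g h hh hf, div_eq_iff he, ← em_C, ← ya03_em_mul] at hd
  rw [Algebra.smul_def]
  exact em_inj _ _ hd

/-- Y1h. PROOF. `trM_em`, clear denominators, `em_inj`, evaluate. -/
theorem trM_const (w : Fin 3 → ℂ) (ν : ℂ) (f : M3) (g h : E3) (hh : h ≠ 0) (hf : f = em g / em h) (ht : trM w f = f + algebraMap ℂ M3 ν)
    (t : Fin 3 → ℂ) : (g : (Fin 3 → ℂ) → ℂ) (t + w) * (h : (Fin 3 → ℂ) → ℂ) t =
      ((g : (Fin 3 → ℂ) → ℂ) t + ν * (h : (Fin 3 → ℂ) → ℂ) t) * (h : (Fin 3 → ℂ) → ℂ) (t + w) := by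
  have he := em_ne h hh
  have h1 : f * em h = em g := by
    rw [hf]
    exact div_mul_cancel₀ _ he
  have h2 := congrArg (trM w) h1
  rw [map_mul, trM_em, trM_em, ht, ← em_C] at h2
  have h3 : em (trE w g * h) = em ((g + algebraMap ℂ E3 ν * h) * trE w h) := by
    rw [ya03_em_mul, ya03_em_mul, ya03_em_add, ya03_em_mul, ← h2, ← h1]
    ring
  have h4 := em_inj _ _ h3
  have h5 := congrFun (congrArg (fun x : E3 => (x : (Fin 3 → ℂ) → ℂ)) h4) t
  exact h5

end Pool.Agent.MSU
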