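import Pool.Agent.Lib.MP_f58a57_nt.U.Z0_Defs
import Pool.Agent.Lib.MP_f58a57_nt.U.Y1_Frac
import Pool.Agent.Lib.MP_f58a57_nt.R.Defs

/-!
# U/X0_Defs: the kernel of the theta functions

`P : Par 2`, `D : Dt 2`. The functions `GR P D c` are `TH D (tt v) (q (W(v) + lam + Z(T)))`, where `W(v)_j = ∑_i v_i e_ij`,
`Z(T)_j = ∑_l Zv_j,l T_l`.
-/

open Complex MvPolynomial

noncomputable section

namespace Pool.Agent.MSU

open MSD MSP MSK MSR

/-- the basis vectors of `V` -/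
def Dv (P : Par 2) (i : Fin 2) : Fin 3 → ℂ := tt P.z (Pi.single i 1)

/-- the vectors `Z_j` -/
def Zv (P : Par 2) (D : Dt 2) (j : Fin 2) : Fin 3 → ℂ := fun l => -(1 / D.om * rhv P l j)

/-- the bilinear form `e` -/
def eK (P : Par 2) (D : Dt 2) (i j : Fin 2) : ℂ := WV P D (Pi.single i 1) j

/-- linear forms -/
def lf (v : Fin 3 → ℂ) : MvPolynomial (Fin 3) ℂ := ∑ l, C (v l) * X l

/-- normals of the planes -/
def rD (P : Par 2) : Fin 3 → ℂ := ![1, P.z, P.z ^ 2]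

def rZ (P : Par 2) : Fin 3 → ℂ := ![P.z ^ 2 - P.b 2 * P.z - P.b 1, P.z - P.b 2, 1]

/-- the index set of the translations: pairs of integer vectors `(m, n)`, the translation by `m + n τ` -/
abbrev Lz : Type := (Fin 3 → ℤ) × (Fin 3 → ℤ)

/-- the translation vector -/
def wz (τ : ℂ) (w : Lz) : Fin 3 → ℂ := fun l => (w.1 l : ℂ) + w.2 l * τ

/-- the quasi period -/
def hz (w : Lz) (l : Fin 3) : ℂ := -(2 * Real.pi * I * w.2 l)

end Pool.Agent.MSU
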