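import Pool.Agent.Lib.MP_f58a57_nt.U.X0_Defs

/-! # U/X1_Phi: the algebraic part of the kernel -/

open Complex MvPolynomial

noncomputable section

namespace Pool.Agent.MSU

open MSD MSP MSK MSR

/-- the operators on the linear maps -/
def xa01_T (dv : Fin 2 → MvPolynomial (Fin 3) ℂ) (e : Fin 2 → Fin 2 → ℂ) (i : Fin 2) :
    (Po ℂ →ₗ[ℂ] MvPolynomial (Fin 3) ℂ) →ₗ[ℂ] (Po ℂ →ₗ[ℂ] MvPolynomial (Fin 3) ℂ) where
  toFun f := (LinearMap.mulLeft ℂ (dv i)) ∘ₗ f + ∑ j, (e i j) • (f ∘ₗ (pderiv j : Derivation ℂ (Po ℂ) (Po ℂ)).toLinearMap)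
  map_add' f g := by
    refine LinearMap.ext fun q => ?_
    simp only [LinearMap.add_apply, LinearMap.comp_apply, LinearMap.sum_apply, LinearMap.smul_apply,
      LinearMap.mulLeft_apply, mul_add, smul_add, Finset.sum_add_distrib]
    abel
  map_smul' c f := by
    refine LinearMap.ext fun q => ?_
    simp only [LinearMap.add_apply, LinearMap.comp_apply, LinearMap.sum_apply, LinearMap.smul_apply,
      LinearMap.mulLeft_apply, smul_add, Finset.smul_sum, RingHom.id_apply, mul_smul_comm]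
    congr 1
    apply Finset.sum_congr rfl
    intro j _
    rw [smul_comm]

theorem xa01_T_apply (dv : Fin 2 → MvPolynomial (Fin 3) ℂ) (e : Fin 2 → Fin 2 → ℂ) (i : Fin 2)
    (f : Po ℂ →ₗ[ℂ] MvPolynomial (Fin 3) ℂ) (q : Po ℂ) :
    xa01_T dv e i f q = dv i * f q + ∑ j, (e i j) • f (pderiv j q) := by
  simp only [xa01_T, LinearMap.coe_mk, AddHom.coe_mk, LinearMap.add_apply, LinearMap.comp_apply,
    LinearMap.sum_apply, LinearMap.smul_apply, LinearMap.mulLeft_apply]
  rfl

theorem xa01_pd (i j : Fin 2) (q : Po ℂ) : pderiv i (pderiv j q) = pderiv j (pderiv i q) := by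
  have h : ⁅(pderiv i : Derivation ℂ (Po ℂ) (Po ℂ)), (pderiv j : Derivation ℂ (Po ℂ) (Po ℂ))⁆ = 0 := by
    apply MvPolynomial.derivation_ext
    intro k
    rw [Derivation.commutator_apply, pderiv_X, pderiv_X, Derivation.zero_apply]
    by_cases hi : i = k <;> by_cases hj : j = k <;> simp [Pi.single_apply, hi, hj]
  have h2 := Derivation.congr_fun h q
  rw [Derivation.commutator_apply, Derivation.zero_apply] at h2
  exact sub_eq_zero.1 h2

theorem xa01_comm (dv : Fin 2 → MvPolynomial (Fin 3) ℂ) (e : Fin 2 → Fin 2 → ℂ) :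
    Commute (xa01_T dv e 0 : Module.End ℂ (Po ℂ →ₗ[ℂ] MvPolynomial (Fin 3) ℂ)) (xa01_T dv e 1) := by
  show xa01_T dv e 0 * xa01_T dv e 1 = xa01_T dv e 1 * xa01_T dv e 0
  refine LinearMap.ext fun f => LinearMap.ext fun q => ?_
  rw [Module.End.mul_apply, Module.End.mul_apply]
  simp only [xa01_T_apply, Fin.sum_univ_two]
  rw [xa01_pd 0 1 q]
  simp only [smul_eq_C_mul, mul_add]
  ring

/-- the bilinear map -/
def xa01_Phi (dv zv : Fin 2 → MvPolynomial (Fin 3) ℂ) (e : Fin 2 → Fin 2 → ℂ) :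
    Po ℂ →ₗ[ℂ] Po ℂ →ₗ[ℂ] MvPolynomial (Fin 3) ℂ :=
  (basisMonomials (Fin 2) ℂ).constr ℂ fun α =>
    ((xa01_T dv e 0 : Module.End ℂ (Po ℂ →ₗ[ℂ] MvPolynomial (Fin 3) ℂ)) ^ (α 0) * (xa01_T dv e 1) ^ (α 1))
      (aeval zv : Po ℂ →ₐ[ℂ] MvPolynomial (Fin 3) ℂ).toLinearMap

theorem xa01_Phi_X (dv zv : Fin 2 → MvPolynomial (Fin 3) ℂ) (e : Fin 2 → Fin 2 → ℂ) (i : Fin 2) (P : Po ℂ) :
    xa01_Phi dv zv e (X i * P) = xa01_T dv e i (xa01_Phi dv zv e P) := by
  have h : (xa01_Phi dv zv e) ∘ₗ (LinearMap.mulLeft ℂ (X i)) = (xa01_T dv e i) ∘ₗ (xa01_Phi dv zv e) := by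
    apply (basisMonomials (Fin 2) ℂ).ext
    intro α
    rw [LinearMap.comp_apply, LinearMap.comp_apply, LinearMap.mulLeft_apply]
    have h1 : (X i : Po ℂ) * basisMonomials (Fin 2) ℂ α = basisMonomials (Fin 2) ℂ (Finsupp.single i 1 + α) := by
      rw [coe_basisMonomials]
      simp only [X, monomial_mul, one_mul]
    rw [h1, xa01_Phi, Module.Basis.constr_basis, Module.Basis.constr_basis, ← Module.End.mul_apply]
    congr 1
    fin_cases i
    · simp [pow_add, mul_assoc]
    · have hc := xa01_comm dv e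
      have hc2 := (hc.pow_left (α 0)).eq
      simp only [Fin.mk_one, Finsupp.coe_add, Pi.add_apply, Finsupp.single_eq_same, pow_add, pow_one]
      rw [Finsupp.single_eq_of_ne (by decide), pow_zero, one_mul, ← mul_assoc, hc2, mul_assoc]
  exact LinearMap.congr_fun h P

/-- X1a. PROOF. Let `S = MvPolynomial (Fin 2) (MvPolynomial (Fin 3) ℂ)` and `op i : S → S`, `op i q = C (dv i) * q + ∑ j, C (C (e i j)) * pderiv j q`; these are linear over `MvPolynomial (Fin 3) ℂ` and commute (`pderiv` commute). For a monomial `X^α` put `Φ(X^α, q) = aeval zv` (i.e. `s_j ↦ zv j`, coefficients to themselves: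
`MvPolynomial.aeval (R := MvPolynomial (Fin 3) ℂ) zv` or `eval zv`) of `(op 0)^[α 0] ((op 1)^[α 1] (map C q))`, and extend linearly in `P` (`basisMonomials.constr` or `Finsupp.lsum`). The second property: on monomials, `op i` moved inside (commutation), and `op i (map C q) = C (dv i) * map C q + ∑ C (C e) * map C (pderiv j q)`,
linearity over `MvPolynomial (Fin 3) ℂ`. In general by linearity in `P`. -/
theorem phi_exists (dv zv : Fin 2 → MvPolynomial (Fin 3) ℂ) (e : Fin 2 → Fin 2 → ℂ) :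
    ∃ Φ : Po ℂ →ₗ[ℂ] Po ℂ →ₗ[ℂ] MvPolynomial (Fin 3) ℂ, (∀ q, Φ 1 q = aeval zv q) ∧
      ∀ i P q, Φ (X i * P) q = dv i * Φ P q + ∑ j, C (e i j) * Φ P (pderiv j q) := by
  have hone : ∀ q, xa01_Phi dv zv e 1 q = aeval zv q := by
    intro q
    have h1 : (1 : Po ℂ) = basisMonomials (Fin 2) ℂ 0 := by
      rw [coe_basisMonomials]
      rfl
    rw [h1, xa01_Phi, Module.Basis.constr_basis]
    simp
  refine ⟨xa01_Phi dv zv e, hone, fun i P q => ?_⟩
  have h := xa01_Phi_X dv zv e i P
  rw [h, xa01_T_apply]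
  congr 1
  apply Finset.sum_congr rfl
  intro j _
  rw [smul_eq_C_mul]

/-- the polynomials `Φ(P, q)` -/
def Phi (P : Par 2) (D : Dt 2) : Po ℂ →ₗ[ℂ] Po ℂ →ₗ[ℂ] MvPolynomial (Fin 3) ℂ :=
  Classical.choose (phi_exists (fun i => lf (Dv P i)) (fun j => lf (Zv P D j)) (eK P D))

theorem Phi_one (P : Par 2) (D : Dt 2) (q : Po ℂ) : Phi P D 1 q = aeval (fun j => lf (Zv P D j)) q :=
  (Classical.choose_spec (phi_exists (fun i => lf (Dv P i)) (fun j => lf (Zv P D j)) (eK P D))).1 q

theorem Phi_X (P : Par 2) (D : Dt 2) (i : Fin 2) (p q : Po ℂ) :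
    Phi P D (X i * p) q = lf (Dv P i) * Phi P D p q + ∑ j, C (eK P D i j) * Phi P D p (pderiv j q) :=
  (Classical.choose_spec (phi_exists (fun i => lf (Dv P i)) (fun j => lf (Zv P D j)) (eK P D))).2 i p q

theorem XA02_C (P : Par 2) (D : Dt 2) (a : ℂ) (q : Po ℂ) :
    Phi P D (C a) q = C a * aeval (fun j => lf (Zv P D j)) q := by
  have h1 : (C a : Po ℂ) = a • (1 : Po ℂ) := by rw [smul_eq_C_mul, mul_one]
  rw [h1, map_smul, LinearMap.smul_apply, Phi_one, smul_eq_C_mul]

theorem XA02_Csmul (P : Par 2) (D : Dt 2) (a : ℂ) (p q : Po ℂ) :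
    Phi P D (C a * p) q = C a * Phi P D p q := by
  rw [← smul_eq_C_mul, map_smul, LinearMap.smul_apply, smul_eq_C_mul]

theorem XA02_pX (l j : Fin 2) (q : Po ℂ) :
    pderiv l (X j * q) = (if l = j then q else 0) + X j * pderiv l q := by
  rw [Derivation.leibniz, pderiv_X, smul_eq_mul, smul_eq_mul, add_comm]
  congr 1
  by_cases h : l = j
  · subst h
    simp
  · rw [if_neg h, Pi.single_apply, if_neg (Ne.symm h), mul_zero]

/-- X1b. -/
theorem Phi_Xs (P : Par 2) (D : Dt 2) (j : Fin 2) (p q : Po ℂ) :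
    Phi P D p (X j * q) = lf (Zv P D j) * Phi P D p q + ∑ i, C (eK P D i j) * Phi P D (pderiv i p) q := by
  induction p using MvPolynomial.induction_on generalizing q with
  | C a =>
    rw [XA02_C, XA02_C, map_mul, aeval_X]
    simp only [pderiv_C, map_zero, LinearMap.zero_apply, mul_zero, Finset.sum_const_zero, add_zero]
    ring
  | add p1 p2 h1 h2 =>
    simp only [map_add, LinearMap.add_apply]
    rw [h1, h2]
    simp only [mul_add, Finset.sum_add_distrib]
    ring
  | mul_X p k ih =>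
    rw [mul_comm p (X k)]
    have hL : Phi P D (X k * p) (X j * q) =
        lf (Dv P k) * (lf (Zv P D j) * Phi P D p q + ∑ i, C (eK P D i j) * Phi P D (pderiv i p) q) +
        (C (eK P D k j) * Phi P D p q + ∑ l, C (eK P D k l) *
          (lf (Zv P D j) * Phi P D p (pderiv l q) +
            ∑ i, C (eK P D i j) * Phi P D (pderiv i p) (pderiv l q))) := by
      rw [Phi_X, ih q]
      congr 1
      have h3 : ∀ l : Fin 2, C (eK P D k l) * Phi P D p (pderiv l (X j * q)) =
          (if l = j then C (eK P D k l) * Phi P D p q else 0) + C (eK P D k l) *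
          (lf (Zv P D j) * Phi P D p (pderiv l q) +
            ∑ i, C (eK P D i j) * Phi P D (pderiv i p) (pderiv l q)) := by
        intro l
        rw [XA02_pX, map_add, ih (pderiv l q), mul_add]
        congr 1
        by_cases h : l = j
        · rw [if_pos h, if_pos h]
        · rw [if_neg h, if_neg h, map_zero, mul_zero]
      rw [Finset.sum_congr rfl fun l _ => h3 l, Finset.sum_add_distrib, Finset.sum_ite_eq' Finset.univ j,
        if_pos (Finset.mem_univ j)]
    have hR : ∀ i : Fin 2, C (eK P D i j) * Phi P D (pderiv i (X k * p)) q =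
        (if i = k then C (eK P D i j) * Phi P D p q else 0) + C (eK P D i j) *
          (lf (Dv P k) * Phi P D (pderiv i p) q + ∑ l, C (eK P D k l) * Phi P D (pderiv i p) (pderiv l q)) := by
      intro i
      rw [XA02_pX, map_add, LinearMap.add_apply, Phi_X, mul_add]
      congr 1
      by_cases h : i = k
      · rw [if_pos h, if_pos h]
      · rw [if_neg h, if_neg h, map_zero, LinearMap.zero_apply, mul_zero]
    rw [hL, Phi_X, Finset.sum_congr rfl fun i _ => hR i, Finset.sum_add_distrib, Finset.sum_ite_eq' Finset.univ k,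
        if_pos (Finset.mem_univ k)]
    simp only [Fin.sum_univ_two]
    ring

theorem XA02_pderiv_sh (j : Fin 2) (v : Fin 2 → ℂ) (q : Po ℂ) :
    pderiv j (sh v q) = sh v (pderiv j q) := by
  induction q using MvPolynomial.induction_on with
  | C a =>
    rw [pderiv_C]
    unfold sh
    rw [map_zero, aeval_C]
    exact pderiv_C
  | add p1 p2 h1 h2 =>
    unfold sh at *
    rw [map_add, map_add, map_add, h1, h2, map_add]
  | mul_X p k ih =>
    unfold sh at *
    rw [map_mul, Derivation.leibniz, Derivation.leibniz, aeval_X, map_add, map_add, ih, pderiv_X]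
    simp only [smul_eq_mul, map_mul, aeval_X]
    have h1 : pderiv j (cst (v k) : Po ℂ) = 0 := pderiv_C
    rw [h1, add_zero]
    congr 2
    by_cases h : k = j
    · subst h
      simp
    · rw [Pi.single_apply, if_neg h, map_zero]

theorem XA02_lf (η v : Fin 3 → ℂ) :
    aeval (fun l => (X l : MvPolynomial (Fin 3) ℂ) + C (η l)) (lf v) = lf v + C (∑ l, v l * η l) := by
  unfold lf
  rw [map_sum, map_sum, ← Finset.sum_add_distrib]
  apply Finset.sum_congr rfl
  intro l _
  rw [map_mul, aeval_X, aeval_C, C_mul, mul_add]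
  rfl

/-- X1c. -/
theorem Phi_shift (P : Par 2) (D : Dt 2) (η : Fin 3 → ℂ) (p q : Po ℂ) :
    aeval (fun l => (X l : MvPolynomial (Fin 3) ℂ) + C (η l)) (Phi P D p q) =
      Phi P D (sh (fun i => ∑ l, Dv P i l * η l) p) (sh (fun j => ∑ l, Zv P D j l * η l) q) := by
  induction p using MvPolynomial.induction_on generalizing q with
  | C a =>
    have h1 : sh (fun i => ∑ l, Dv P i l * η l) (C a : Po ℂ) = C a := by
      unfold sh
      rw [aeval_C]
      rfl
    rw [h1, XA02_C, XA02_C, map_mul, aeval_C]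
    have h2 : (algebraMap ℂ (MvPolynomial (Fin 3) ℂ)) a = C a := rfl
    rw [h2]
    congr 1
    have h3 : (aeval (fun l => (X l : MvPolynomial (Fin 3) ℂ) + C (η l))).comp
        (aeval (fun j => lf (Zv P D j)) : Po ℂ →ₐ[ℂ] MvPolynomial (Fin 3) ℂ) =
        (aeval (fun j => lf (Zv P D j)) : Po ℂ →ₐ[ℂ] MvPolynomial (Fin 3) ℂ).comp
          (aeval (fun i => (X i : Po ℂ) + cst (∑ l, Zv P D i l * η l))) := by
      apply MvPolynomial.algHom_ext
      intro i
      rw [AlgHom.comp_apply, AlgHom.comp_apply, aeval_X, aeval_X, XA02_lf, map_add, aeval_X]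
      congr 1
      unfold cst
      rw [aeval_C]
      rfl
    have h4 := congrArg (fun f : Po ℂ →ₐ[ℂ] MvPolynomial (Fin 3) ℂ => f q) h3
    exact h4
  | add p1 p2 h1 h2 =>
    have h3 : sh (fun i => ∑ l, Dv P i l * η l) (p1 + p2) =
      sh (fun i => ∑ l, Dv P i l * η l) p1 + sh (fun i => ∑ l, Dv P i l * η l) p2 := map_add _ _ _
    rw [h3, map_add, map_add, LinearMap.add_apply, LinearMap.add_apply, map_add, h1, h2]
  | mul_X p k ih =>
    rw [mul_comm p (X k)]
    have h3 : sh (fun i => ∑ l, Dv P i l * η l) (X k * p) =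
      X k * sh (fun i => ∑ l, Dv P i l * η l) p +
        C (∑ l, Dv P k l * η l) * sh (fun i => ∑ l, Dv P i l * η l) p := by
      unfold sh
      rw [map_mul, aeval_X, add_mul]
      rfl
    rw [h3, Phi_X, map_add, map_add, LinearMap.add_apply, Phi_X, XA02_Csmul, map_mul, XA02_lf, ih q]
    have h4 : ∀ j : Fin 2, aeval (fun l => (X l : MvPolynomial (Fin 3) ℂ) + C (η l))
        (C (eK P D k j) * Phi P D p (pderiv j q)) =
        C (eK P D k j) * Phi P D (sh (fun i => ∑ l, Dv P i l * η l) p)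
          (pderiv j (sh (fun j => ∑ l, Zv P D j l * η l) q)) := by
      intro j
      rw [map_mul, aeval_C, ih (pderiv j q), XA02_pderiv_sh]
      rfl
    have h5 : aeval (fun l => (X l : MvPolynomial (Fin 3) ℂ) + C (η l))
        (∑ j, C (eK P D k j) * Phi P D p (pderiv j q)) =
        ∑ j, C (eK P D k j) * Phi P D (sh (fun i => ∑ l, Dv P i l * η l) p)
          (pderiv j (sh (fun j => ∑ l, Zv P D j l * η l) q)) := by
      rw [map_sum]
      exact Finset.sum_congr rfl fun j _ => h4 j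
    rw [h5]
    ring

end Pool.Agent.MSU
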