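import Pool.Agent.Lib.MP_f58a57_nt.U.X1_Phi
import Pool.Agent.Lib.MP_f58a57_nt.R.B2_TH
import Pool.Agent.Lib.MP_f58a57_nt.R.B8_Shift

/-! # U/X2_TE: derivatives of the product of theta functions as entire functions -/

open Complex MvPolynomial

noncomputable section

namespace Pool.Agent.MSU

open MSD MSP MSK MSR

theorem xa03_iter (τ : ℂ) (hτ : 0 < τ.im) (k : ℕ) (u : ℂ) : AnalyticAt ℂ (iteratedDeriv k (th τ)) u := by
  have h1 : ContDiff ℂ ((k + 1 : ℕ) : WithTop ℕ∞) (th τ) := (th_differentiable τ hτ).contDiff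
  have h2 : Differentiable ℂ (iteratedDeriv k (th τ)) :=
    h1.differentiable_iteratedDeriv k (by exact_mod_cast Nat.lt_succ_self k)
  exact h2.analyticAt u

theorem xa03_au_an (τ : ℂ) (m n : ℤ) (u : ℂ) : AnalyticAt ℂ (fun t => au τ m n t) u := by
  have h : Differentiable ℂ (fun t => au τ m n t) := by
    unfold au
    fun_prop
  exact h.analyticAt u

theorem xa03_au_ne (τ : ℂ) (m n : ℤ) (t : ℂ) : au τ m n t ≠ 0 := by
  unfold au
  exact mul_ne_zero (zpow_ne_zero _ (by norm_num)) (Complex.exp_ne_zero _)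

theorem xa03_co (l : Fin 3) (t : Fin 3 → ℂ) : AnalyticAt ℂ (fun t : Fin 3 → ℂ => t l) t :=
  (ContinuousLinearMap.proj (R := ℂ) (φ := fun _ : Fin 3 => ℂ) l).analyticAt t

/-- X2a. PROOF. A finite sum of products of one variable functions `iteratedDeriv m (th τ)` (entire: `th_differentiable`, `Differentiable.analyticAt`, iterated derivatives of entire functions) composed with coordinates. -/
theorem te_an (D : Dt 2) (q : MvPolynomial (Fin 3) ℂ) :
    AnalyticOnNhd ℂ (fun t : Fin 3 → ℂ => TH D (fun l => t l - D.h l) q) Set.univ := by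
  intro t _
  unfold TH
  refine Finset.analyticAt_fun_sum _ fun m _ => ?_
  refine AnalyticAt.mul analyticAt_const ?_
  refine Finset.analyticAt_fun_prod _ fun l _ => ?_
  refine AnalyticAt.fun_comp (xa03_iter D.τ D.im (m l) _) ?_
  exact analyticAt_const.add ((xa03_co l t).sub analyticAt_const)

/-- the function `q(∂) Θ`, in absolute coordinates -/
def TE (D : Dt 2) : MvPolynomial (Fin 3) ℂ →ₗ[ℂ] E3 where
  toFun q := ⟨fun t => TH D (fun l => t l - D.h l) q, te_an D q⟩
  map_add' p q := by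
    apply Subtype.ext
    funext t
    exact TH_add D _ p q
  map_smul' a q := by
    apply Subtype.ext
    funext t
    have := TH_C_mul D (fun l => t l - D.h l) a q
    rw [← MvPolynomial.smul_eq_C_mul] at this
    exact this

theorem TE_apply (D : Dt 2) (q : MvPolynomial (Fin 3) ℂ) (t : Fin 3 → ℂ) :
    (TE D q : (Fin 3 → ℂ) → ℂ) t = TH D (fun l => t l - D.h l) q := rfl

/-- X2b. PROOF. `HasFDerivAt` along the line (`dE_line` at `y = 0` and uniqueness of derivatives) with `TH_line`. -/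
theorem TE_D (D : Dt 2) (v : Fin 3 → ℂ) (q : MvPolynomial (Fin 3) ℂ) : dE v (TE D q) = TE D (lf v * q) := by
  apply Subtype.ext
  funext t
  have h1 := dE_line v (TE D q) t 0
  have h2 := TH_line D (fun l => t l - D.h l) v q 0
  have e1 : (fun y : ℂ => (TE D q : (Fin 3 → ℂ) → ℂ) (t + y • v)) =
      fun s : ℂ => TH D (fun l => t l - D.h l + s * v l) q := by
    funext y
    rw [TE_apply]
    congr 1
    funext l
    simp only [Pi.add_apply, Pi.smul_apply, smul_eq_mul]
    ring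
  rw [e1] at h1
  have h3 := h1.unique h2
  have e2 : t + (0 : ℂ) • v = t := by simp
  rw [e2] at h3
  refine h3.trans ?_
  rw [TE_apply]
  congr 1
  funext l
  ring

/-- X2c. PROOF. `au` is an exponential of an affine function (and a sign), never `0`. -/
theorem aut_exists (D : Dt 2) (w : Lz) : ∃ f : E3, f ≠ 0 ∧ ∀ t, (f : (Fin 3 → ℂ) → ℂ) t = ∏ l, au D.τ (w.1 l) (w.2 l) (t l) := by
  refine ⟨⟨fun t => ∏ l, au D.τ (w.1 l) (w.2 l) (t l), ?_⟩, ?_, fun t => rfl⟩
  · intro t _
    refine Finset.analyticAt_fun_prod _ fun l _ => ?_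
    exact AnalyticAt.fun_comp (xa03_au_an D.τ (w.1 l) (w.2 l) _) (xa03_co l t)
  · intro h
    have h1 := congrArg (fun f : E3 => (f : (Fin 3 → ℂ) → ℂ) 0) h
    have h2 : (∏ l : Fin 3, au D.τ (w.1 l) (w.2 l) ((0 : Fin 3 → ℂ) l)) = 0 := h1
    exact (Finset.prod_ne_zero_iff.2 fun l _ => xa03_au_ne _ _ _ _) h2

/-- X2d. PROOF. `TH_shift` (with `t - D.h`). -/
theorem TE_tr (D : Dt 2) (w : Lz) (q : MvPolynomial (Fin 3) ℂ) (f : E3) (hf : ∀ t, (f : (Fin 3 → ℂ) → ℂ) t = ∏ l, au D.τ (w.1 l) (w.2 l) (t l)) :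
    trE (wz D.τ w) (TE D q) = f * TE D (aeval (fun l => (X l : MvPolynomial (Fin 3) ℂ) + C (hz w l)) q) := by
  apply Subtype.ext
  funext t
  have h1 := TH_shift D (fun l => t l - D.h l) w.1 w.2 q
  have e1 : (trE (wz D.τ w) (TE D q) : (Fin 3 → ℂ) → ℂ) t =
      TH D (fun l => t l - D.h l + (w.1 l + w.2 l * D.τ)) q := by
    rw [trE_apply, TE_apply]
    congr 1
    funext l
    simp only [Pi.add_apply, wz]
    ring
  have e2 : (f * TE D (aeval (fun l => (X l : MvPolynomial (Fin 3) ℂ) + C (hz w l)) q) : E3).1 t =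
      (f : (Fin 3 → ℂ) → ℂ) t * TH D (fun l => t l - D.h l) (aeval (fun l => (X l : MvPolynomial (Fin 3) ℂ) + C (hz w l)) q) := rfl
  have e3 : (fun l => (X l : MvPolynomial (Fin 3) ℂ) + C (hz w l)) =
      fun l => X l - C (2 * Real.pi * I * w.2 l) := by
    funext l
    rw [hz, C_neg, sub_eq_add_neg]
  have e4 : (∏ l, au D.τ (w.1 l) (w.2 l) (D.h l + (t l - D.h l))) = ∏ l, au D.τ (w.1 l) (w.2 l) (t l) := by
    refine Finset.prod_congr rfl fun l _ => ?_
    rw [add_sub_cancel]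
  refine e1.trans (h1.trans ?_)
  refine Eq.trans ?_ e2.symm
  rw [hf t, e3, e4]

/-- X2e. PROOF. The value at `D.h` is `∏ th (h l) ≠ 0` (`TH_one`, `D.hh`). -/
theorem TE_one_ne (D : Dt 2) : TE D 1 ≠ 0 := by
  intro h
  have h1 := congrArg (fun f : E3 => (f : (Fin 3 → ℂ) → ℂ) D.h) h
  have h2 : TH D (fun l => D.h l - D.h l) 1 = 0 := h1
  rw [TH_one] at h2
  unfold MSK.pp at h2
  refine (Finset.prod_ne_zero_iff.2 fun l _ => ?_) h2
  show N0 D.τ (D.h l + (D.h l - D.h l)) ≠ 0
  rw [sub_self, add_zero]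
  exact D.hh l

/-- X2f. the function does not depend on the base point. -/
theorem TE_indep (D D' : Dt 2) (h : D.τ = D'.τ) : TE D = TE D' := by
  apply LinearMap.ext
  intro q
  apply Subtype.ext
  funext t
  show TH D (fun l => t l - D.h l) q = TH D' (fun l => t l - D'.h l) q
  unfold TH
  rw [h]
  simp only [add_sub_cancel]

end Pool.Agent.MSU
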