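import Pool.Agent.Lib.MP_f58a57_nt.U.Z2_Sh

/-! # U/X3_Ext: extension of scalars of a bilinear form -/

open MvPolynomial

noncomputable section

namespace Pool.Agent.MSU

variable {M : Type} [Field M] [Algebra ℂ M]

/-- X3a. PROOF. `B P q = ∑ over monomials P_α q_β b(X^α, X^β)` (e.g. `basisMonomials.constr` twice, or `Finsupp.lsum`). -/
theorem ext_exists (b : Po ℂ →ₗ[ℂ] Po ℂ →ₗ[ℂ] M) : ∃ B : Po M →ₗ[M] Po M →ₗ[M] M, ∀ p q : Po ℂ, B (ofC p) (ofC q) = b p q := by
  let bs := basisMonomials (Fin 2) M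
  let B : Po M →ₗ[M] Po M →ₗ[M] M :=
    bs.constr M fun α => bs.constr M fun β => b (monomial α 1) (monomial β 1)
  have hbs : ∀ α, bs α = monomial α (1 : M) := fun α => by
    simp [bs]
  have hB : ∀ α β, B (monomial α 1) (monomial β 1) = b (monomial α 1) (monomial β 1) := by
    intro α β
    rw [← hbs α, ← hbs β]
    simp only [B]
    rw [Module.Basis.constr_basis, Module.Basis.constr_basis]
  have hm : ∀ (α : Fin 2 →₀ ℕ) (a : ℂ), (ofC (monomial α a) : Po M) =
      algebraMap ℂ M a • monomial α (1 : M) := by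
    intro α a
    unfold ofC
    rw [map_monomial, smul_monomial, smul_eq_mul, mul_one]
  have hm' : ∀ (α : Fin 2 →₀ ℕ) (a : ℂ), (monomial α a : Po ℂ) = a • monomial α (1 : ℂ) := by
    intro α a
    rw [smul_monomial, smul_eq_mul, mul_one]
  refine ⟨B, fun p q => ?_⟩
  induction p using MvPolynomial.induction_on' with
  | monomial α a =>
    induction q using MvPolynomial.induction_on' with
    | monomial β c =>
      rw [hm, hm, hm' α a, hm' β c]
      simp only [map_smul, LinearMap.smul_apply, hB]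
      simp only [Algebra.smul_def]
      rfl
    | add q q' h h' =>
      have e : (ofC (q + q') : Po M) = ofC q + ofC q' := map_add _ _ _
      rw [e, map_add, map_add, h, h']
  | add p p' h h' =>
    have e : (ofC (p + p') : Po M) = ofC p + ofC p' := map_add _ _ _
    rw [e, map_add, map_add, LinearMap.add_apply, LinearMap.add_apply, h, h']

/-- X3b. two additive expressions agree if they agree on `C a * ofC p`. PROOF. `P = ∑ C (coeff) * ofC (monomial m 1)`. -/
theorem add_ext {N : Type} [AddCommGroup N] (F G : Po M → N) (hF : ∀ P Q, F (P + Q) = F P + F Q) (hG : ∀ P Q, G (P + Q) = G P + G Q)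
    (h : ∀ (a : M) (p : Po ℂ), F (C a * ofC p) = G (C a * ofC p)) (P : Po M) : F P = G P := by
  induction P using MvPolynomial.induction_on' with
  | monomial α a =>
    have e : (monomial α a : Po M) = C a * ofC (monomial α (1 : ℂ)) := by
      unfold ofC
      rw [map_monomial, map_one, C_mul_monomial, mul_one]
    rw [e]
    exact h _ _
  | add P Q h1 h2 => rw [hF, hG, h1, h2]

private theorem XA04_cD_C (δ : Derivation ℂ M M) (a : M) (p : Po ℂ) :
    cD δ (C a * ofC p) = C (δ a) * ofC p := by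
  rw [cD_mul_ofC]
  congr 1
  ext m
  rw [coeff_cD, coeff_C, coeff_C]
  split_ifs
  · rfl
  · exact map_zero _

private theorem XA04_X (a : M) (p : Po ℂ) (i : Fin 2) :
    (X i : Po M) * (C a * ofC p) = C a * ofC (X i * p) := by
  unfold ofC
  rw [map_mul, map_X]
  ring

private theorem XA04_pd (a : M) (p : Po ℂ) (e : ℂ) (i : Fin 2) :
    (cst e : Po M) * pderiv i (C a * ofC p) = C (algebraMap ℂ M e * a) * ofC (pderiv i p) := by
  unfold ofC cst
  rw [pderiv_C_mul, ← pderiv_map, C_mul]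
  ring

private theorem XA04_pds (a : M) (p : Po ℂ) (e : Fin 2 → ℂ) :
    ∑ i, (cst (e i) : Po M) * pderiv i (C a * ofC p) =
      ∑ i, C (algebraMap ℂ M (e i) * a) * ofC (pderiv i p) :=
  Finset.sum_congr rfl fun i _ => XA04_pd a p (e i) i

private theorem XA04_B (B : Po M →ₗ[M] Po M →ₗ[M] M) (b : Po ℂ →ₗ[ℂ] Po ℂ →ₗ[ℂ] M)
    (hB : ∀ p q : Po ℂ, B (ofC p) (ofC q) = b p q) (a c : M) (p q : Po ℂ) :
    B (C a * ofC p) (C c * ofC q) = a * c * b p q := by
  rw [← smul_eq_C_mul, ← smul_eq_C_mul, map_smul, map_smul, LinearMap.smul_apply, hB]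
  simp only [smul_eq_mul]
  ring

/-- X3c. PROOF. Both sides are additive in `P` and in `q`: by `add_ext` twice we may take `P = C a * ofC p`, `q = C c * ofC r`; `cD δ (C a * ofC p) = C (δ a) * ofC p` (`cD_mul_ofC`), `B (C a * ..) = a B ..`, `δ (a c b(p,r)) = δ a c b + a δ c b + a c δ b`. -/
theorem ext_D (B : Po M →ₗ[M] Po M →ₗ[M] M) (b : Po ℂ →ₗ[ℂ] Po ℂ →ₗ[ℂ] M) (hB : ∀ p q : Po ℂ, B (ofC p) (ofC q) = b p q)
    (δ : Derivation ℂ M M) (i : Fin 2) (e : Fin 2 → ℂ)
    (h : ∀ p q : Po ℂ, δ (b p q) = b (X i * p) q - ∑ j, algebraMap ℂ M (e j) * b p (pderiv j q)) (P q : Po M) :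
    δ (B P q) = B (cD δ P + X i * P) q + B P (cD δ q - ∑ j, cst (e j) * pderiv j q) := by
  refine add_ext (fun P => δ (B P q))
    (fun P => B (cD δ P + X i * P) q + B P (cD δ q - ∑ j, cst (e j) * pderiv j q)) ?_ ?_ ?_ P
  · intro P Q
    simp only [map_add, LinearMap.add_apply]
  · intro P Q
    simp only [cD_add, mul_add, map_add, LinearMap.add_apply]
    abel
  intro a p
  refine add_ext (fun q => δ (B (C a * ofC p) q))
    (fun q => B (cD δ (C a * ofC p) + X i * (C a * ofC p)) q +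
      B (C a * ofC p) (cD δ q - ∑ j, cst (e j) * pderiv j q)) ?_ ?_ ?_ q
  · intro P Q
    simp only [map_add]
  · intro P Q
    simp only [cD_add, map_add, mul_add, Finset.sum_add_distrib, map_sub]
    abel
  intro c r
  show δ (B (C a * ofC p) (C c * ofC r)) = B (cD δ (C a * ofC p) + X i * (C a * ofC p)) (C c * ofC r) +
      B (C a * ofC p) (cD δ (C c * ofC r) - ∑ j, cst (e j) * pderiv j (C c * ofC r))
  rw [XA04_pds, XA04_X, XA04_cD_C, XA04_cD_C, map_add, LinearMap.add_apply, map_sub, map_sum]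
  simp only [XA04_B B b hB]
  rw [Derivation.leibniz, Derivation.leibniz, h]
  simp only [smul_eq_mul]
  rw [mul_sub, Finset.mul_sum]
  have e1 : ∑ j, a * c * (algebraMap ℂ M (e j) * b p (pderiv j r)) =
      ∑ j, a * (algebraMap ℂ M (e j) * c) * b p (pderiv j r) :=
    Finset.sum_congr rfl fun j _ => by ring
  rw [e1]
  ring

/-- X3d. PROOF. As X3c. -/
theorem ext_Z (B : Po M →ₗ[M] Po M →ₗ[M] M) (b : Po ℂ →ₗ[ℂ] Po ℂ →ₗ[ℂ] M) (hB : ∀ p q : Po ℂ, B (ofC p) (ofC q) = b p q)
    (δ : Derivation ℂ M M) (j : Fin 2) (e : Fin 2 → ℂ)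
    (h : ∀ p q : Po ℂ, δ (b p q) = b p (X j * q) - ∑ i, algebraMap ℂ M (e i) * b (pderiv i p) q) (P q : Po M) :
    δ (B P q) = B (cD δ P - ∑ i, cst (e i) * pderiv i P) q + B P (cD δ q + X j * q) := by
  refine add_ext (fun P => δ (B P q))
    (fun P => B (cD δ P - ∑ i, cst (e i) * pderiv i P) q + B P (cD δ q + X j * q)) ?_ ?_ ?_ P
  · intro P Q
    simp only [map_add, LinearMap.add_apply]
  · intro P Q
    simp only [cD_add, mul_add, map_add, LinearMap.add_apply, Finset.sum_add_distrib, map_sub,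
      LinearMap.sub_apply]
    abel
  intro a p
  refine add_ext (fun q => δ (B (C a * ofC p) q))
    (fun q => B (cD δ (C a * ofC p) - ∑ i, cst (e i) * pderiv i (C a * ofC p)) q +
      B (C a * ofC p) (cD δ q + X j * q)) ?_ ?_ ?_ q
  · intro P Q
    simp only [map_add]
  · intro P Q
    simp only [cD_add, map_add, mul_add]
    abel
  intro c r
  show δ (B (C a * ofC p) (C c * ofC r)) =
    B (cD δ (C a * ofC p) - ∑ i, cst (e i) * pderiv i (C a * ofC p)) (C c * ofC r) +
      B (C a * ofC p) (cD δ (C c * ofC r) + X j * (C c * ofC r))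
  rw [XA04_pds, XA04_X, XA04_cD_C, XA04_cD_C, map_add, map_sub, map_sum, LinearMap.sub_apply,
    LinearMap.sum_apply]
  simp only [XA04_B B b hB]
  rw [Derivation.leibniz, Derivation.leibniz, h]
  simp only [smul_eq_mul]
  rw [mul_sub, Finset.mul_sum]
  have e1 : ∑ i, a * c * (algebraMap ℂ M (e i) * b (pderiv i p) r) =
      ∑ i, algebraMap ℂ M (e i) * a * c * b (pderiv i p) r :=
    Finset.sum_congr rfl fun j _ => by ring
  rw [e1]
  ring

private theorem XA04_sh (v : Fin 2 → ℂ) (a : M) (p : Po ℂ) :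
    sh v (C a * ofC p) = C a * ofC (sh v p) := by
  have h1 : sh v (C a : Po M) = C a := by
    unfold sh
    rw [aeval_C]
    rfl
  have h2 : sh v (ofC p : Po M) = ofC (sh v p) := by
    induction p using MvPolynomial.induction_on with
    | C a =>
      unfold sh ofC
      rw [map_C, aeval_C, aeval_C, algebraMap_eq, algebraMap_eq, map_C]
    | add p q hp hq =>
      have e1 : (ofC (p + q) : Po M) = ofC p + ofC q := map_add _ _ _
      have e2 : (ofC (sh v p + sh v q) : Po M) = ofC (sh v p) + ofC (sh v q) := map_add _ _ _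
      rw [e1, sh_add, sh_add, e2, hp, hq]
    | mul_X p i hp =>
      have e1 : (ofC (p * X i) : Po M) = ofC p * X i := by
        unfold ofC
        rw [map_mul, map_X]
      have e2 : sh v (X i : Po M) = X i + cst (v i) := by
        unfold sh
        rw [aeval_X]
      have e3 : sh v (X i : Po ℂ) = X i + cst (v i) := by
        unfold sh
        rw [aeval_X]
      have e4 : (ofC (sh v p * (X i + cst (v i))) : Po M) = ofC (sh v p) * (X i + cst (v i)) := by
        unfold ofC cst
        rw [map_mul, map_add, map_X, map_C]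
        rfl
      rw [e1, sh_mul, sh_mul, e2, e3, e4, hp]
  rw [sh_mul, h1, h2]

/-- X3e. PROOF. As X3c; `map T (C a * ofC p) = C (T a) * ofC p` (`map_ofC`), `sh v (C a * ofC p) = C a * ofC (sh v p)`. -/
theorem ext_T (B : Po M →ₗ[M] Po M →ₗ[M] M) (b : Po ℂ →ₗ[ℂ] Po ℂ →ₗ[ℂ] M) (hB : ∀ p q : Po ℂ, B (ofC p) (ofC q) = b p q)
    (T : M →+* M) (hT : ∀ a : ℂ, T (algebraMap ℂ M a) = algebraMap ℂ M a) (c : M) (lam chi : Fin 2 → ℂ)
    (h : ∀ p q : Po ℂ, T (b p q) = c * b (sh lam p) (sh chi q)) (P q : Po M) :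
    T (B P q) = c * B (sh lam (map T P)) (sh chi (map T q)) := by
  have hm : ∀ (a : M) (p : Po ℂ), map T (C a * ofC p) = C (T a) * ofC p := by
    intro a p
    rw [map_mul, map_C, map_ofC T hT]
  refine add_ext (fun P => T (B P q))
    (fun P => c * B (sh lam (map T P)) (sh chi (map T q))) ?_ ?_ ?_ P
  · intro P Q
    simp only [map_add, LinearMap.add_apply]
  · intro P Q
    simp only [map_add, sh_add, LinearMap.add_apply, mul_add]
  intro a p
  refine add_ext (fun q => T (B (C a * ofC p) q))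
    (fun q => c * B (sh lam (map T (C a * ofC p))) (sh chi (map T q))) ?_ ?_ ?_ q
  · intro P Q
    simp only [map_add]
  · intro P Q
    simp only [map_add, sh_add, mul_add]
  intro d r
  show T (B (C a * ofC p) (C d * ofC r)) = c * B (sh lam (map T (C a * ofC p))) (sh chi (map T (C d * ofC r)))
  rw [hm, hm, XA04_sh, XA04_sh, XA04_B B b hB, XA04_B B b hB, map_mul, map_mul, h]
  ring

end Pool.Agent.MSU
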