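import Pool.Agent.Lib.MP_f58a57_nt.U.X0_Defs

/-! # U/X4_Geo: the two planes -/

open Complex MvPolynomial

noncomputable section

namespace Pool.Agent.MSU

open MSD MSP MSK MSR

/-- X4a. PROOF. `Dv P 0 = (-z, 1, 0)`, `Dv P 1 = (-z^2, 0, 1)` (`tt`, `Fin.cons`, `Pi.single`). -/
theorem Dv_zero (P : Par 2) : Dv P 0 = ![-P.z, 1, 0] := by
  funext l
  fin_cases l
  · simp [Dv, tt, Pi.single_apply]
  · show (Pi.single 0 1 : Fin 2 → ℂ) 0 = 1
    simp
  · show (Pi.single 0 1 : Fin 2 → ℂ) 1 = 0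
    simp

theorem Dv_one (P : Par 2) : Dv P 1 = ![-P.z ^ 2, 0, 1] := by
  funext l
  fin_cases l
  · simp [Dv, tt, Pi.single_apply]
  · show (Pi.single 1 1 : Fin 2 → ℂ) 0 = 0
    simp
  · show (Pi.single 1 1 : Fin 2 → ℂ) 1 = 1
    simp

/-- X4b. PROOF. `rhv`, `rh = -I/2`. -/
theorem Zv_zero (P : Par 2) (D : Dt 2) : Zv P D 0 = fun l => -(rh / D.om) * (![1, -P.z, (P.b 1 : ℂ)] : Fin 3 → ℂ) l := by
  funext l
  fin_cases l <;> simp [Zv, rhv, Fin.last, Fin.ext_iff] <;> ring

theorem Zv_one (P : Par 2) (D : Dt 2) : Zv P D 1 = fun l => -(rh / D.om) * (![0, 1, (P.b 2 : ℂ) - P.z] : Fin 3 → ℂ) l := by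
  funext l
  fin_cases l <;> simp [Zv, rhv, Fin.last, Fin.ext_iff] <;> ring

/-- X4c. -/
theorem rD_Dv (P : Par 2) (i : Fin 2) : ∑ l, rD P l * Dv P i l = 0 := by
  fin_cases i
  · show ∑ l, rD P l * Dv P 0 l = 0
    rw [Dv_zero]
    simp [rD, Fin.sum_univ_three]
  · show ∑ l, rD P l * Dv P 1 l = 0
    rw [Dv_one]
    simp [rD, Fin.sum_univ_three]

theorem rZ_Zv (P : Par 2) (D : Dt 2) (j : Fin 2) : ∑ l, rZ P l * Zv P D j l = 0 := by
  fin_cases j
  · show ∑ l, rZ P l * Zv P D 0 l = 0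
    rw [Zv_zero]
    simp only [rZ, Fin.sum_univ_three, Matrix.cons_val_zero, Matrix.cons_val_one, Matrix.cons_val]
    ring
  · show ∑ l, rZ P l * Zv P D 1 l = 0
    rw [Zv_one]
    simp only [rZ, Fin.sum_univ_three, Matrix.cons_val_zero, Matrix.cons_val_one, Matrix.cons_val]
    ring

/-- X4d. -/
theorem Dv_li (P : Par 2) : LinearIndependent ℂ (Dv P) := by
  rw [Fintype.linearIndependent_iff]
  intro g hg
  rw [Fin.sum_univ_two, Dv_zero, Dv_one] at hg
  have h1 := congrFun hg 1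
  have h2 := congrFun hg 2
  simp at h1 h2
  intro i
  fin_cases i
  · exact h1
  · exact h2

theorem Zv_li (P : Par 2) (D : Dt 2) : LinearIndependent ℂ (Zv P D) := by
  have hr : rh / D.om ≠ 0 := by
    refine div_ne_zero ?_ D.ne
    rw [rh]
    exact div_ne_zero (neg_ne_zero.2 I_ne_zero) two_ne_zero
  rw [Fintype.linearIndependent_iff]
  intro g hg
  rw [Fin.sum_univ_two, Zv_zero, Zv_one] at hg
  have h0 := congrFun hg 0
  have h1 := congrFun hg 1
  simp only [Pi.add_apply, Pi.smul_apply, smul_eq_mul, Matrix.cons_val_zero, Matrix.cons_val_one,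
    Pi.zero_apply] at h0 h1
  have e0 : g 0 = 0 := by
    have h2 : g 0 * (rh / D.om) = 0 := by linear_combination -h0
    exact (mul_eq_zero.1 h2).resolve_right hr
  have e1 : g 1 = 0 := by
    rw [e0] at h1
    have h2 : g 1 * (rh / D.om) = 0 := by linear_combination -h1
    exact (mul_eq_zero.1 h2).resolve_right hr
  intro i
  fin_cases i
  · exact e0
  · exact e1

/-- X4e. PROOF. `P.li`: `1, z, z^2` are linearly independent over `ℚ`. -/
theorem rD_int (P : Par 2) (n : Fin 3 → ℤ) (h : ∑ l, rD P l * (n l : ℂ) = 0) : n = 0 := by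
  have h1 := P.li (fun l => (n l : ℚ)) (by
    rw [Fin.sum_univ_three] at h ⊢
    simp only [rD, Matrix.cons_val_zero, Matrix.cons_val_one, Matrix.cons_val] at h
    simp only [Par.z] at h
    push_cast
    simp only [Fin.val_zero, Fin.val_one, Fin.val_two, pow_zero, pow_one]
    linear_combination h)
  funext l
  have h2 := congrFun h1 l
  simp only [Pi.zero_apply] at h2
  exact_mod_cast h2

theorem rZ_int (P : Par 2) (n : Fin 3 → ℤ) (h : ∑ l, rZ P l * (n l : ℂ) = 0) : n = 0 := by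
  have h1 := P.li ![(n 2 : ℚ) - P.b 1 * n 0 - P.b 2 * n 1, (n 1 : ℚ) - P.b 2 * n 0, (n 0 : ℚ)] (by
    rw [Fin.sum_univ_three] at h ⊢
    simp only [rZ, Matrix.cons_val_zero, Matrix.cons_val_one, Matrix.cons_val] at h ⊢
    simp only [Par.z] at h
    push_cast
    simp only [Fin.val_zero, Fin.val_one, Fin.val_two, pow_zero, pow_one]
    linear_combination h)
  have e2 := congrFun h1 2
  have e1 := congrFun h1 1
  have e0 := congrFun h1 0
  simp only [Matrix.cons_val_zero, Matrix.cons_val_one, Matrix.cons_val, Pi.zero_apply] at e0 e1 e2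
  have n0 : n 0 = 0 := by exact_mod_cast e2
  have n1 : n 1 = 0 := by
    rw [n0, Int.cast_zero, mul_zero, sub_zero] at e1
    exact_mod_cast e1
  have n2 : n 2 = 0 := by
    rw [n0, n1, Int.cast_zero, mul_zero, mul_zero, sub_zero, sub_zero] at e0
    exact_mod_cast e0
  funext l
  fin_cases l
  · exact n0
  · exact n1
  · exact n2

end Pool.Agent.MSU
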