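import Pool.Agent.Lib.MP_f58a57_nt.U.Y2_Line

/-! # U/Y3_Rig: rigidity -/

open Complex Filter Topology

noncomputable section

namespace Pool.Agent.MSU

lemma y3_ker (A : Fin 2 → Fin 3 → ℂ) (ρ : Fin 3 → ℂ) (hρA : ∀ j, ∑ l, ρ l * A j l = 0) (hA : LinearIndependent ℂ A) (l0 : Fin 3) (h0 : ρ l0 ≠ 0)
    (w : Fin 3 → ℂ) (hw : ∑ l, ρ l * w l = 0) : ∃ α β : ℂ, w = α • A 0 + β • A 1 := by
  let φ : (Fin 3 → ℂ) →ₗ[ℂ] ℂ := ∑ l, ρ l • LinearMap.proj (R := ℂ) (φ := fun _ : Fin 3 => ℂ) l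
  have hφ : ∀ v, φ v = ∑ l, ρ l * v l := by
    intro v
    simp [φ]
  have hsurj : Function.Surjective φ := by
    intro c
    refine ⟨(c / ρ l0) • (Pi.single l0 1 : Fin 3 → ℂ), ?_⟩
    rw [hφ, Finset.sum_eq_single l0]
    · simp only [Pi.smul_apply, Pi.single_eq_same, smul_eq_mul, mul_one]
      field_simp
    · intro l _ hl
      simp [hl]
    · intro hl
      exact absurd (Finset.mem_univ _) hl
  have hfr : Module.finrank ℂ (LinearMap.ker φ) = 2 := by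
    have h1 := φ.finrank_range_add_finrank_ker
    rw [LinearMap.range_eq_top.mpr hsurj, finrank_top, Module.finrank_self, Module.finrank_fin_fun] at h1
    omega
  let A' : Fin 2 → LinearMap.ker φ := fun j => ⟨A j, by rw [LinearMap.mem_ker, hφ]; exact hρA j⟩
  have hA' : LinearIndependent ℂ A' := by
    have h1 : LinearIndependent ℂ ((LinearMap.ker φ).subtype ∘ A') := hA
    exact LinearIndependent.of_comp _ h1
  have hspan := hA'.span_eq_top_of_card_eq_finrank' (by rw [hfr]; simp)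
  have hw' : (⟨w, by rw [LinearMap.mem_ker, hφ]; exact hw⟩ : LinearMap.ker φ) ∈ Submodule.span ℂ (Set.range A') := by
    rw [hspan]
    trivial
  obtain ⟨c, hc⟩ := (Submodule.mem_span_range_iff_exists_fun ℂ).mp hw'
  refine ⟨c 0, c 1, ?_⟩
  rw [Fin.sum_univ_two] at hc
  have h2 := congrArg Subtype.val hc
  exact h2.symm

/-- Y3a. PROOF. The orthogonal complement of `ρ ≠ 0` (`ρ l0 ≠ 0`) has dimension `2` and contains the independent vectors `A 0, A 1`; `n - x ε`, `x = ∑ ρ n / ρ l0`, `ε = Pi.single l0 1`, is orthogonal to `ρ`. -/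
theorem span_A (A : Fin 2 → Fin 3 → ℂ) (ρ : Fin 3 → ℂ) (hρA : ∀ j, ∑ l, ρ l * A j l = 0) (hA : LinearIndependent ℂ A) (l0 : Fin 3) (h0 : ρ l0 ≠ 0)
    (n : Fin 3 → ℂ) : ∃ α β : ℂ, n = ((∑ l, ρ l * n l) / ρ l0) • (Pi.single l0 1 : Fin 3 → ℂ) + (α • A 0 + β • A 1) := by
  have h1 : ∑ l, ρ l * (n - ((∑ l, ρ l * n l) / ρ l0) • (Pi.single l0 1 : Fin 3 → ℂ)) l = 0 := by
    have h2 : ∀ l, ρ l * (n - ((∑ l, ρ l * n l) / ρ l0) • (Pi.single l0 1 : Fin 3 → ℂ)) l =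
        ρ l * n l - ρ l * (((∑ l, ρ l * n l) / ρ l0) * (Pi.single l0 1 : Fin 3 → ℂ) l) := by
      intro l
      rw [Pi.sub_apply, Pi.smul_apply, smul_eq_mul, mul_sub]
    rw [Finset.sum_congr rfl fun l _ => h2 l, Finset.sum_sub_distrib]
    have h3 : ∑ l, ρ l * (((∑ l, ρ l * n l) / ρ l0) * (Pi.single l0 1 : Fin 3 → ℂ) l) = ∑ l, ρ l * n l := by
      rw [Finset.sum_eq_single l0]
      · rw [Pi.single_eq_same]
        field_simp
      · intro l _ hl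
        simp [hl]
      · intro hl
        exact absurd (Finset.mem_univ _) hl
    rw [h3, sub_self]
  obtain ⟨α, β, hαβ⟩ := y3_ker A ρ hρA hA l0 h0 _ h1
  exact ⟨α, β, by rw [← hαβ]; abel⟩

/-- Y3b. PROOF. `dE` is additive in `v`. -/
theorem dE_comb (g h : E3) (A : Fin 2 → Fin 3 → ℂ) (κ : Fin 2 → ℂ) (hq : ∀ j, dE (A j) g * h - g * dE (A j) h = κ j • (h * h)) (α β : ℂ) :
    dE (α • A 0 + β • A 1) g * h - g * dE (α • A 0 + β • A 1) h = (α * κ 0 + β * κ 1) • (h * h) := by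
  have h0 := hq 0
  have h1 := hq 1
  rw [dE_add, dE_add, dE_smul, dE_smul, dE_smul, dE_smul]
  simp only [Algebra.smul_def, map_add, map_mul] at h0 h1 ⊢
  linear_combination (algebraMap ℂ E3 α) * h0 + (algebraMap ℂ E3 β) * h1

/-- Y3c. PROOF. Let `n` be an integer vector, `x = ∑ ρ_l n_l / ρ l0`, `n = x ε + v` (`span_A`), `κ_v` from `dE_comb`. By hypothesis `h(t + n) ≠ 0`, `h(t + x ε) ≠ 0`, `h(t) ≠ 0`. For `y` near `0` the same holds for `s = t + y ε`: (1) `g(s + n) h(s) = g(s) h(s + n)` (translation with `ν = 0`);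
(2) `line_const` at the point `s + x ε`, direction `v`, `y = 1`: `g(s + n) h(s + xε) - g(s + xε) h(s + n) = κ_v h(s + xε) h(s + n)`. So `g(s)/h(s) = g(s + xε)/h(s + xε) + κ_v`, i.e. the identity of `hx` in `one_var_periods` with `ν = -κ_v`, `G(y) = g(t + yε)`, `H(y) = h(t + yε)`, for `y` near `0`, so for all `y`
(identity theorem). Small `x`: `small_comb` for `ε |ρ l0|`. -/
theorem line_kappa (g h : E3) (A : Fin 2 → Fin 3 → ℂ) (κ : Fin 2 → ℂ) (hq : ∀ j, dE (A j) g * h - g * dE (A j) h = κ j • (h * h))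
    (ρ : Fin 3 → ℂ) (hρA : ∀ j, ∑ l, ρ l * A j l = 0) (hA : LinearIndependent ℂ A) (l0 : Fin 3) (h0 : ρ l0 ≠ 0)
    (hρ : ∀ n : Fin 3 → ℤ, ∑ l, ρ l * (n l : ℂ) = 0 → n = 0)
    (htr : ∀ (n : Fin 3 → ℤ) (s : Fin 3 → ℂ), (g : (Fin 3 → ℂ) → ℂ) (s + fun l => (n l : ℂ)) * (h : (Fin 3 → ℂ) → ℂ) s =
      (g : (Fin 3 → ℂ) → ℂ) s * (h : (Fin 3 → ℂ) → ℂ) (s + fun l => (n l : ℂ)))
    (t : Fin 3 → ℂ) (ht0 : (h : (Fin 3 → ℂ) → ℂ) t ≠ 0) (ht1 : ∀ n : Fin 3 → ℤ, (h : (Fin 3 → ℂ) → ℂ) (t + fun l => (n l : ℂ)) ≠ 0)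
    (ht2 : ∀ n : Fin 3 → ℤ, (h : (Fin 3 → ℂ) → ℂ) (t + ((∑ l, ρ l * (n l : ℂ)) / ρ l0) • (Pi.single l0 1 : Fin 3 → ℂ)) ≠ 0) :
    ∃ κ' : ℂ, ∀ y : ℂ, (dE (Pi.single l0 1) g * h - g * dE (Pi.single l0 1) h : E3).1 (t + y • (Pi.single l0 1 : Fin 3 → ℂ)) =
      κ' * (h : (Fin 3 → ℂ) → ℂ) (t + y • (Pi.single l0 1 : Fin 3 → ℂ)) ^ 2 := by
  set ε : Fin 3 → ℂ := Pi.single l0 1 with hε
  have hdG : ∀ y, HasDerivAt (fun y : ℂ => (g : (Fin 3 → ℂ) → ℂ) (t + y • ε)) ((dE ε g : (Fin 3 → ℂ) → ℂ) (t + y • ε)) y :=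
    fun y => dE_line ε g t y
  have hdH : ∀ y, HasDerivAt (fun y : ℂ => (h : (Fin 3 → ℂ) → ℂ) (t + y • ε)) ((dE ε h : (Fin 3 → ℂ) → ℂ) (t + y • ε)) y :=
    fun y => dE_line ε h t y
  have hG : Differentiable ℂ (fun y : ℂ => (g : (Fin 3 → ℂ) → ℂ) (t + y • ε)) := fun y => (hdG y).differentiableAt
  have hH : Differentiable ℂ (fun y : ℂ => (h : (Fin 3 → ℂ) → ℂ) (t + y • ε)) := fun y => (hdH y).differentiableAt
  have hcont : Continuous (h : (Fin 3 → ℂ) → ℂ) := by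
    rw [← continuousOn_univ]
    exact (E3.an h).continuousOn
  have key : ∀ n : Fin 3 → ℤ, ∃ ν : ℂ, ∀ y : ℂ,
      (g : (Fin 3 → ℂ) → ℂ) (t + (y + (∑ l, ρ l * (n l : ℂ)) / ρ l0) • ε) * (h : (Fin 3 → ℂ) → ℂ) (t + y • ε) -
        (g : (Fin 3 → ℂ) → ℂ) (t + y • ε) * (h : (Fin 3 → ℂ) → ℂ) (t + (y + (∑ l, ρ l * (n l : ℂ)) / ρ l0) • ε) =
      ν * (h : (Fin 3 → ℂ) → ℂ) (t + y • ε) * (h : (Fin 3 → ℂ) → ℂ) (t + (y + (∑ l, ρ l * (n l : ℂ)) / ρ l0) • ε) := by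
    intro n
    obtain ⟨α, β, hn⟩ := span_A A ρ hρA hA l0 h0 (fun l => (n l : ℂ))
    set x : ℂ := (∑ l, ρ l * (n l : ℂ)) / ρ l0 with hx
    set v : Fin 3 → ℂ := α • A 0 + β • A 1 with hv
    set κv : ℂ := α * κ 0 + β * κ 1 with hκv
    have hcomb := dE_comb g h A κ hq α β
    rw [← hv, ← hκv] at hcomb
    refine ⟨-κv, ?_⟩
    have hloc : ∀ y : ℂ, (h : (Fin 3 → ℂ) → ℂ) (t + y • ε + fun l => (n l : ℂ)) ≠ 0 → (h : (Fin 3 → ℂ) → ℂ) (t + y • ε + x • ε) ≠ 0 →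
        (g : (Fin 3 → ℂ) → ℂ) (t + (y + x) • ε) * (h : (Fin 3 → ℂ) → ℂ) (t + y • ε) -
          (g : (Fin 3 → ℂ) → ℂ) (t + y • ε) * (h : (Fin 3 → ℂ) → ℂ) (t + (y + x) • ε) +
        κv * (h : (Fin 3 → ℂ) → ℂ) (t + y • ε) * (h : (Fin 3 → ℂ) → ℂ) (t + (y + x) • ε) = 0 := by
      intro y hy1 hy2
      have h1 := htr n (t + y • ε)
      have h2 := line_const g h v κv hcomb (t + y • ε + x • ε) hy2 1
      have h3 : t + y • ε + x • ε + (1 : ℂ) • v = t + y • ε + fun l => (n l : ℂ) := by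
        rw [one_smul, hn]
        abel
      rw [h3] at h2
      have h4 : t + (y + x) • ε = t + y • ε + x • ε := by
        rw [add_smul]
        abel
      rw [h4]
      refine (mul_eq_zero.mp ?_).resolve_left hy1
      linear_combination (-(h : (Fin 3 → ℂ) → ℂ) (t + y • ε)) * h2 + ((h : (Fin 3 → ℂ) → ℂ) (t + y • ε + x • ε)) * h1
    have hD : Differentiable ℂ (fun y : ℂ => (g : (Fin 3 → ℂ) → ℂ) (t + (y + x) • ε) * (h : (Fin 3 → ℂ) → ℂ) (t + y • ε) -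
          (g : (Fin 3 → ℂ) → ℂ) (t + y • ε) * (h : (Fin 3 → ℂ) → ℂ) (t + (y + x) • ε) +
        κv * (h : (Fin 3 → ℂ) → ℂ) (t + y • ε) * (h : (Fin 3 → ℂ) → ℂ) (t + (y + x) • ε)) := by
      have hGx : Differentiable ℂ (fun y : ℂ => (g : (Fin 3 → ℂ) → ℂ) (t + (y + x) • ε)) :=
        hG.comp (differentiable_id.add_const x)
      have hHx : Differentiable ℂ (fun y : ℂ => (h : (Fin 3 → ℂ) → ℂ) (t + (y + x) • ε)) :=
        hH.comp (differentiable_id.add_const x)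
      exact ((hGx.mul hH).sub (hG.mul hHx)).add (((hH.const_mul κv)).mul hHx)
    have hev : ∀ᶠ y in 𝓝 (0 : ℂ), (g : (Fin 3 → ℂ) → ℂ) (t + (y + x) • ε) * (h : (Fin 3 → ℂ) → ℂ) (t + y • ε) -
          (g : (Fin 3 → ℂ) → ℂ) (t + y • ε) * (h : (Fin 3 → ℂ) → ℂ) (t + (y + x) • ε) +
        κv * (h : (Fin 3 → ℂ) → ℂ) (t + y • ε) * (h : (Fin 3 → ℂ) → ℂ) (t + (y + x) • ε) = 0 := by
      have c1 : Continuous (fun y : ℂ => (h : (Fin 3 → ℂ) → ℂ) (t + y • ε + fun l => (n l : ℂ))) :=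
        hcont.comp (by fun_prop)
      have c2 : Continuous (fun y : ℂ => (h : (Fin 3 → ℂ) → ℂ) (t + y • ε + x • ε)) :=
        hcont.comp (by fun_prop)
      have e1 : ∀ᶠ y in 𝓝 (0 : ℂ), (h : (Fin 3 → ℂ) → ℂ) (t + y • ε + fun l => (n l : ℂ)) ≠ 0 := by
        refine c1.continuousAt.eventually_ne ?_
        rw [zero_smul, add_zero]
        exact ht1 n
      have e2 : ∀ᶠ y in 𝓝 (0 : ℂ), (h : (Fin 3 → ℂ) → ℂ) (t + y • ε + x • ε) ≠ 0 := by
        refine c2.continuousAt.eventually_ne ?_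
        rw [zero_smul, add_zero]
        exact ht2 n
      filter_upwards [e1, e2] with y hy1 hy2
      exact hloc y hy1 hy2
    have hzero := (hD.differentiableOn.analyticOnNhd isOpen_univ).eqOn_zero_of_preconnected_of_eventuallyEq_zero
      isPreconnected_univ (Set.mem_univ (0 : ℂ)) hev
    intro y
    have h5 := hzero (Set.mem_univ y)
    simp only [Pi.zero_apply] at h5
    linear_combination h5
  obtain ⟨κ', hκ'⟩ := one_var_periods _ _ hG hH 0 (by rw [zero_smul, add_zero]; exact ht0) (by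
    intro e he
    obtain ⟨n, hn1, hn2⟩ := small_comb ρ hρ (e * ‖ρ l0‖) (mul_pos he (norm_pos_iff.mpr h0))
    obtain ⟨ν, hν⟩ := key n
    refine ⟨(∑ l, ρ l * (n l : ℂ)) / ρ l0, div_ne_zero hn1 h0, ?_, ν, hν⟩
    rw [norm_div, div_lt_iff₀ (norm_pos_iff.mpr h0)]
    exact hn2)
  refine ⟨κ', fun y => ?_⟩
  have h6 := hκ' y
  rw [(hdG y).deriv, (hdH y).deriv] at h6
  exact h6

theorem YA08_zero (F : E3) (h : Dense {t : Fin 3 → ℂ | (F : (Fin 3 → ℂ) → ℂ) t = 0}) : F = 0 := by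
  have hc : Continuous (F : (Fin 3 → ℂ) → ℂ) := by
    rw [← continuousOn_univ]
    exact F.an.continuousOn
  have h1 : IsClosed {t : Fin 3 → ℂ | (F : (Fin 3 → ℂ) → ℂ) t = 0} := isClosed_singleton.preimage hc
  have h2 := h.closure_eq
  rw [h1.closure_eq] at h2
  apply Subtype.ext
  funext t
  have h3 : t ∈ {t : Fin 3 → ℂ | (F : (Fin 3 → ℂ) → ℂ) t = 0} := by rw [h2]; exact Set.mem_univ t
  exact h3

theorem YA08_dense (ρ : Fin 3 → ℂ) (l0 : Fin 3) (h : E3) (hh : h ≠ 0) :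
    Dense {t : Fin 3 → ℂ | (h : (Fin 3 → ℂ) → ℂ) t ≠ 0 ∧
      (∀ n : Fin 3 → ℤ, (h : (Fin 3 → ℂ) → ℂ) (t + fun l => (n l : ℂ)) ≠ 0) ∧
      (∀ n : Fin 3 → ℤ, (h : (Fin 3 → ℂ) → ℂ) (t + ((∑ l, ρ l * (n l : ℂ)) / ρ l0) • (Pi.single l0 1 : Fin 3 → ℂ)) ≠ 0)} := by
  obtain ⟨e, he⟩ := exists_surjective_nat ((Fin 3 → ℤ) ⊕ (Fin 3 → ℤ))
  let w : (Fin 3 → ℤ) ⊕ (Fin 3 → ℤ) → (Fin 3 → ℂ) := fun s =>
    match s with
    | Sum.inl n => fun l => (n l : ℂ)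
    | Sum.inr n => ((∑ l, ρ l * (n l : ℂ)) / ρ l0) • (Pi.single l0 1 : Fin 3 → ℂ)
  have hne : ∀ k : ℕ, trE (w (e k)) h ≠ 0 := by
    intro k h0
    apply hh
    apply (trE (w (e k))).injective
    rw [h0, map_zero]
  apply (E3.exists_ne (fun k => trE (w (e k)) h) hne).mono
  intro t ht
  have h1 : ∀ n : Fin 3 → ℤ, (h : (Fin 3 → ℂ) → ℂ) (t + fun l => (n l : ℂ)) ≠ 0 := by
    intro n
    obtain ⟨k, hk⟩ := he (Sum.inl n)
    have h2 := ht k
    rw [trE_apply, hk] at h2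
    exact h2
  refine ⟨?_, h1, ?_⟩
  · have h2 := h1 0
    have h3 : (t + fun l : Fin 3 => (((0 : Fin 3 → ℤ) l : ℤ) : ℂ)) = t := by
      funext l
      simp
    rw [h3] at h2
    exact h2
  · intro n
    obtain ⟨k, hk⟩ := he (Sum.inr n)
    have h2 := ht k
    rw [trE_apply, hk] at h2
    exact h2

theorem YA08_pt (v : Fin 3 → ℂ) (G h : E3) (t : Fin 3 → ℂ) (κ' : ℂ)
    (hk : ∀ y : ℂ, G.1 (t + y • v) = κ' * (h : (Fin 3 → ℂ) → ℂ) (t + y • v) ^ 2) :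
    ((dE v G * (h * h) - G * dE v (h * h) : E3) : (Fin 3 → ℂ) → ℂ) t = 0 := by
  have h1 := dE_line v G t 0
  have h2 := dE_line v (h * h) t 0
  have h3 : (fun y : ℂ => (G : (Fin 3 → ℂ) → ℂ) (t + y • v)) =
      fun y : ℂ => κ' * ((h * h : E3) : (Fin 3 → ℂ) → ℂ) (t + y • v) := by
    funext y
    rw [hk y]
    show κ' * (h : (Fin 3 → ℂ) → ℂ) (t + y • v) ^ 2 =
      κ' * ((h : (Fin 3 → ℂ) → ℂ) (t + y • v) * (h : (Fin 3 → ℂ) → ℂ) (t + y • v))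
    ring
  rw [h3] at h1
  have h4 := h1.unique (h2.const_mul κ')
  have h5 := hk 0
  rw [zero_smul, add_zero] at h4 h5
  show (dE v G : (Fin 3 → ℂ) → ℂ) t * ((h : (Fin 3 → ℂ) → ℂ) t * (h : (Fin 3 → ℂ) → ℂ) t) -
      (G : (Fin 3 → ℂ) → ℂ) t * (dE v (h * h) : (Fin 3 → ℂ) → ℂ) t = 0
  have h6 : (G : (Fin 3 → ℂ) → ℂ) t = κ' * (h : (Fin 3 → ℂ) → ℂ) t ^ 2 := h5
  rw [h4, h6]
  ring

/-- Y3d. PROOF. `u = dM ε f = em g2 / em h2`, `g2 = dE ε g * h - g * dE ε h`, `h2 = h * h` (`dM_frac`). `dM ε u = em (dE ε g2 * h2 - g2 * dE ε h2) / ..`; the entire function `dE ε g2 * h2 - g2 * dE ε h2` vanishes at all `t` as in `line_kappa` (there `g2 = κ' h2` along the line), a dense set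
(`E3.exists_ne` for the countable family of translates of `h`), so it is `0` (continuity). -/
theorem second_zero (A : Fin 2 → Fin 3 → ℂ) (κ : Fin 2 → ℂ) (ρ : Fin 3 → ℂ) (hρA : ∀ j, ∑ l, ρ l * A j l = 0) (hA : LinearIndependent ℂ A)
    (l0 : Fin 3) (h0 : ρ l0 ≠ 0) (hρ : ∀ n : Fin 3 → ℤ, ∑ l, ρ l * (n l : ℂ) = 0 → n = 0) (f : M3)
    (h1 : ∀ j, dM (A j) f = algebraMap ℂ M3 (κ j)) (h2 : ∀ n : Fin 3 → ℤ, trM (fun l => (n l : ℂ)) f = f) :
    dM (Pi.single l0 1) (dM (Pi.single l0 1) f) = 0 := by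
  obtain ⟨g, h, hh, hf⟩ := exists_frac f
  have hq : ∀ j, dE (A j) g * h - g * dE (A j) h = κ j • (h * h) := fun j =>
    dM_const (A j) (κ j) f g h hh hf (h1 j)
  have htr : ∀ (n : Fin 3 → ℤ) (s : Fin 3 → ℂ), (g : (Fin 3 → ℂ) → ℂ) (s + fun l => (n l : ℂ)) * (h : (Fin 3 → ℂ) → ℂ) s =
      (g : (Fin 3 → ℂ) → ℂ) s * (h : (Fin 3 → ℂ) → ℂ) (s + fun l => (n l : ℂ)) := by
    intro n s
    have h3 : trM (fun l => (n l : ℂ)) f = f + algebraMap ℂ M3 0 := by rw [h2 n, map_zero, add_zero]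
    have h4 := trM_const (fun l => (n l : ℂ)) 0 f g h hh hf h3 s
    rw [h4]; ring
  have hhh : h * h ≠ 0 := mul_ne_zero hh hh
  have hd1 := dM_frac (Pi.single l0 1) f g h hh hf
  have hd2 := dM_frac (Pi.single l0 1) (dM (Pi.single l0 1) f)
    (dE (Pi.single l0 1) g * h - g * dE (Pi.single l0 1) h) (h * h) hhh hd1
  rw [hd2]
  have hF : dE (Pi.single l0 1) (dE (Pi.single l0 1) g * h - g * dE (Pi.single l0 1) h) * (h * h) -
      (dE (Pi.single l0 1) g * h - g * dE (Pi.single l0 1) h) * dE (Pi.single l0 1) (h * h) = 0 := by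
    apply YA08_zero
    apply (YA08_dense ρ l0 h hh).mono
    intro t ht
    obtain ⟨ht0, ht1, ht2⟩ := ht
    obtain ⟨κ', hk⟩ := line_kappa g h A κ hq ρ hρA hA l0 h0 hρ htr t ht0 ht1 ht2
    exact YA08_pt (Pi.single l0 1) _ h t κ' hk
  rw [hF]
  unfold em
  rw [map_zero, zero_div]

/-- Y3e. RIGIDITY. PROOF. `ρ l0 ≠ 0` for some `l0` (`hρ` with `n = Pi.single 0 1`). `u = dM ε f`, `ε = Pi.single l0 1`: `dM ε u = 0` (`second_zero`, `h2` with the second vector `0`), `dM (A j) u = dM ε (κ j) = 0` (`dM_comm`). Every vector is a combination of `ε, A 0, A 1` (`span_A`), so `dM v u = 0` for all `v`, `u = a` constant (`const_of_dM`).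
So there is `a' : Fin 3 → ℂ` with `dM v f = ∑ l, a' l * v l` for all `v` (linear in `v`: `a' l = dM (single l) f` is a complex number). `f - ∑ a' l em (co l)` has all derivatives `0`: `f = em (∑ a' l co l) + b`. `trM w f - f = ∑ a' l w l` (`em_inj`). With `w = m + n τ`: `∑ a' l (m l + n l τ) = ∑ C l n l` for all integer `m, n`:
`n = 0`: `a' = 0`; then `C = 0`. -/
theorem rigidity (A : Fin 2 → Fin 3 → ℂ) (ρ : Fin 3 → ℂ) (hρA : ∀ j, ∑ l, ρ l * A j l = 0) (hA : LinearIndependent ℂ A)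
    (hρ : ∀ n : Fin 3 → ℤ, ∑ l, ρ l * (n l : ℂ) = 0 → n = 0) (τ : ℂ) (f : M3) (κ : Fin 2 → ℂ) (C : Fin 3 → ℂ)
    (h1 : ∀ j, dM (A j) f = algebraMap ℂ M3 (κ j))
    (h2 : ∀ m n : Fin 3 → ℤ, trM (fun l => (m l : ℂ) + n l * τ) f = f + algebraMap ℂ M3 (∑ l, C l * (n l : ℂ))) :
    C = 0 ∧ ∃ a : ℂ, f = algebraMap ℂ M3 a := by
  have h0 : ρ 0 ≠ 0 := by
    intro h0
    have h3 := hρ (Pi.single 0 1) (by rw [Fin.sum_univ_three]; simp [h0])
    have h4 := congrFun h3 0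
    simp at h4
  have hper : ∀ n : Fin 3 → ℤ, trM (fun l => (n l : ℂ)) f = f := by
    intro n
    have h3 := h2 n 0
    simpa using h3
  have hu0 := second_zero A κ ρ hρA hA 0 h0 hρ f h1 hper
  have huA : ∀ j, dM (A j) (dM (Pi.single 0 1) f) = 0 := by
    intro j
    rw [dM_comm, h1, Derivation.map_algebraMap]
  obtain ⟨a, ha⟩ := const_of_dM (dM (Pi.single 0 1) f) (fun v => by
    obtain ⟨α, β, hv⟩ := span_A A ρ hρA hA 0 h0 v
    rw [hv, dM_add, dM_add, dM_smul, dM_smul, dM_smul, hu0, huA, huA, smul_zero, smul_zero,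
      smul_zero, add_zero, add_zero])
  have hval : ∀ v : Fin 3 → ℂ, ∃ c : ℂ, dM v f = algebraMap ℂ M3 c := by
    intro v
    obtain ⟨α, β, hv⟩ := span_A A ρ hρA hA 0 h0 v
    refine ⟨(∑ l, ρ l * v l) / ρ 0 * a + (α * κ 0 + β * κ 1), ?_⟩
    rw [hv, dM_add, dM_add, dM_smul, dM_smul, dM_smul, ha, h1, h1, ← hv]
    simp only [Algebra.smul_def, map_add, map_mul]
  choose a' ha' using fun l : Fin 3 => hval (Pi.single l 1)
  have hlin : ∀ v : Fin 3 → ℂ, dM v f = algebraMap ℂ M3 (∑ l, a' l * v l) := by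
    intro v
    have hv : v = v 0 • (Pi.single 0 1 : Fin 3 → ℂ) + (v 1 • (Pi.single 1 1 : Fin 3 → ℂ) +
        v 2 • (Pi.single 2 1 : Fin 3 → ℂ)) := by
      funext i
      fin_cases i <;> simp
    rw [hv, dM_add, dM_add, dM_smul, dM_smul, dM_smul, ha', ha', ha', ← hv, Fin.sum_univ_three]
    simp only [Algebra.smul_def, map_add, map_mul]
    ring
  set L : E3 := ∑ l, a' l • co l with hL
  have hdL : ∀ v : Fin 3 → ℂ, dE v L = algebraMap ℂ E3 (∑ l, a' l * v l) := by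
    intro v
    rw [hL, map_sum, map_sum]
    refine Finset.sum_congr rfl fun l _ => ?_
    rw [Derivation.map_smul, dE_co, map_mul, Algebra.smul_def]
  have htL : ∀ w : Fin 3 → ℂ, trE w L = L + algebraMap ℂ E3 (∑ l, a' l * w l) := by
    intro w
    rw [hL, map_sum, map_sum, ← Finset.sum_add_distrib]
    refine Finset.sum_congr rfl fun l _ => ?_
    have hco : trE w (co l) = co l + algebraMap ℂ E3 (w l) := by
      apply Subtype.ext
      funext t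
      rfl
    rw [map_smul, hco, smul_add, map_mul, Algebra.smul_def (a' l) (algebraMap ℂ E3 (w l))]
  obtain ⟨b, hb⟩ := const_of_dM (f - em L) (fun v => by
    rw [map_sub, dM_em, hdL, em_C, hlin, sub_self])
  have hf : f = em L + algebraMap ℂ M3 b := by
    rw [← hb]
    ring
  have hem : ∀ x y : E3, em (x + y) = em x + em y := fun x y => map_add (algebraMap E3 M3) x y
  have htr : ∀ w : Fin 3 → ℂ, trM w f = f + algebraMap ℂ M3 (∑ l, a' l * w l) := by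
    intro w
    rw [hf, map_add, trM_em, trM_C, htL, hem, em_C]
    ring
  have hmain : ∀ m n : Fin 3 → ℤ, ∑ l, a' l * ((m l : ℂ) + n l * τ) = ∑ l, C l * (n l : ℂ) := by
    intro m n
    have h3 := h2 m n
    rw [htr] at h3
    exact (algebraMap ℂ M3).injective (add_left_cancel h3)
  have ha0 : ∀ l, a' l = 0 := by
    intro l
    have h3 := hmain (Pi.single l 1) 0
    rw [Finset.sum_eq_single l, Finset.sum_eq_zero] at h3
    · simpa using h3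
    · intro i _
      simp
    · intro i _ hi
      simp [hi]
    · intro h
      exact absurd (Finset.mem_univ l) h
  have hC : ∀ l, C l = 0 := by
    intro l
    have h3 := hmain 0 (Pi.single l 1)
    rw [Finset.sum_eq_zero (fun i _ => by rw [ha0, zero_mul]), Finset.sum_eq_single l] at h3
    · simpa using h3.symm
    · intro i _ hi
      simp [hi]
    · intro h
      exact absurd (Finset.mem_univ l) h
  refine ⟨funext hC, b, ?_⟩
  have hL0 : L = 0 := by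
    rw [hL]
    exact Finset.sum_eq_zero fun l _ => by rw [ha0, zero_smul]
  rw [hf, hL0]
  have he0 : em 0 = 0 := map_zero (algebraMap E3 M3)
  rw [he0, zero_add]

end Pool.Agent.MSU
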