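import Pool.Agent.Lib.MP_f58a57_nt.U.X2_TE
import Pool.Agent.Lib.MP_f58a57_nt.U.X3_Ext
import Pool.Agent.Lib.MP_f58a57_nt.U.X4_Geo
import Pool.Agent.Lib.MP_f58a57_nt.U.Y3_Rig

/-! # U/X5_Ker: the kernel of the theta functions is a kernel -/

open Complex MvPolynomial

noncomputable section

namespace Pool.Agent.MSU

open MSD MSP MSK MSR

theorem XA06_em_smul (a : ℂ) (f : E3) : em (a • f) = a • em f := by
  rw [Algebra.smul_def, Algebra.smul_def, ← em_C, em, em, em, map_mul]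

theorem XA06_em_add (f g : E3) : em (f + g) = em f + em g := by
  rw [em, em, em, map_add]

theorem XA06_em_mul (f g : E3) : em (f * g) = em f * em g := by
  rw [em, em, em, map_mul]

theorem XA06_TE_C (D : Dt 2) (a : ℂ) (q : MvPolynomial (Fin 3) ℂ) : TE D (C a * q) = a • TE D q := by
  rw [← MvPolynomial.smul_eq_C_mul, map_smul]

/-- the bilinear form over `ℂ` -/
def bK (P : Par 2) (D : Dt 2) : Po ℂ →ₗ[ℂ] Po ℂ →ₗ[ℂ] M3 :=
  LinearMap.mk₂ ℂ (fun p q => em (TE D (Phi P D p q)))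
    (by
      intro m₁ m₂ n
      rw [map_add, LinearMap.add_apply, map_add, XA06_em_add])
    (by
      intro c m n
      rw [map_smul, LinearMap.smul_apply, map_smul, XA06_em_smul])
    (by
      intro m n₁ n₂
      rw [map_add, map_add, XA06_em_add])
    (by
      intro c m n
      rw [map_smul, map_smul, XA06_em_smul])

theorem bK_apply (P : Par 2) (D : Dt 2) (p q : Po ℂ) : bK P D p q = em (TE D (Phi P D p q)) := rfl

/-- X5a. PROOF. `dM_em`, `TE_D`, `Phi_X`. -/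
theorem bK_D (P : Par 2) (D : Dt 2) (i : Fin 2) (p q : Po ℂ) :
    dM (Dv P i) (bK P D p q) = bK P D (X i * p) q - ∑ j, algebraMap ℂ M3 (eK P D i j) * bK P D p (pderiv j q) := by
  simp only [bK_apply]
  rw [dM_em, TE_D, Phi_X, map_add, map_sum, XA06_em_add]
  rw [eq_sub_iff_add_eq]
  congr 1
  rw [em, map_sum]
  apply Finset.sum_congr rfl
  intro j _
  rw [XA06_TE_C, ← Algebra.smul_def, ← XA06_em_smul]
  rfl

/-- X5b. PROOF. `dM_em`, `TE_D`, `Phi_Xs`. -/
theorem bK_Z (P : Par 2) (D : Dt 2) (j : Fin 2) (p q : Po ℂ) :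
    dM (Zv P D j) (bK P D p q) = bK P D p (X j * q) - ∑ i, algebraMap ℂ M3 (eK P D i j) * bK P D (pderiv i p) q := by
  simp only [bK_apply]
  rw [dM_em, TE_D, Phi_Xs, map_add, map_sum, XA06_em_add]
  rw [eq_sub_iff_add_eq]
  congr 1
  rw [em, map_sum]
  apply Finset.sum_congr rfl
  intro i _
  rw [XA06_TE_C, ← Algebra.smul_def, ← XA06_em_smul]
  rfl

/-- X5c. PROOF. `trM_em`, `TE_tr`, `Phi_shift`. -/
theorem bK_T (P : Par 2) (D : Dt 2) (w : Lz) : ∃ c : M3, c ≠ 0 ∧ ∀ p q : Po ℂ, trM (wz D.τ w) (bK P D p q) =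
    c * bK P D (sh (fun i => ∑ l, Dv P i l * hz w l) p) (sh (fun j => ∑ l, Zv P D j l * hz w l) q) := by
  obtain ⟨f, hf0, hf⟩ := aut_exists D w
  refine ⟨em f, em_ne f hf0, fun p q => ?_⟩
  simp only [bK_apply]
  rw [trM_em, TE_tr D w _ f hf, Phi_shift, XA06_em_mul]

/-- XA07 helper: the two rigidity statements at once -/
theorem XA07_rig (A Bv : Fin 2 → Fin 3 → ℂ) (ρ : Fin 3 → ℂ) (hρA : ∀ j, ∑ l, ρ l * A j l = 0) (hA : LinearIndependent ℂ A)
    (hρ : ∀ n : Fin 3 → ℤ, ∑ l, ρ l * (n l : ℂ) = 0 → n = 0) (hB : LinearIndependent ℂ Bv) (τ : ℂ) (f : M3) (κ c : Fin 2 → ℂ)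
    (h1 : ∀ i, dM (A i) f = algebraMap ℂ M3 (κ i))
    (h2 : ∀ w : Lz, trM (wz τ w) f = f + algebraMap ℂ M3 (∑ j, c j * ∑ l, Bv j l * hz w l)) :
    c = 0 ∧ ∃ a : ℂ, f = algebraMap ℂ M3 a := by
  have key := rigidity A ρ hρA hA hρ τ f κ (fun l => (∑ j, c j * Bv j l) * (-(2 * Real.pi * I))) h1 (by
    intro m n
    have h := h2 (m, n)
    have e1 : wz τ ((m, n) : Lz) = fun l => (m l : ℂ) + n l * τ := rfl
    rw [e1] at h
    rw [h]
    congr 2
    simp only [hz, Fin.sum_univ_two, Fin.sum_univ_three]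
    ring)
  obtain ⟨hC, ha⟩ := key
  refine ⟨?_, ha⟩
  have hpi : (-(2 * Real.pi * I) : ℂ) ≠ 0 := by
    rw [neg_ne_zero]
    exact mul_ne_zero (mul_ne_zero two_ne_zero (by exact_mod_cast Real.pi_ne_zero)) I_ne_zero
  have hs : ∑ j, c j • Bv j = 0 := by
    funext l
    have h := congrFun hC l
    simp only [Pi.zero_apply] at h
    rcases mul_eq_zero.mp h with h' | h'
    · rw [Finset.sum_apply]
      simp only [Pi.smul_apply, smul_eq_mul, Pi.zero_apply]
      exact h'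
    · exact absurd h' hpi
  have hz0 := Fintype.linearIndependent_iff.mp hB c hs
  funext j
  exact hz0 j

/-- X5d. PROOF. `rigidity` for `A = Dv P`, `ρ = rD P`, `C l = ∑ j, c j * Zv P D j l * (-2πi)`; `C = 0` and `Zv_li` give `c = 0`. -/
theorem bK_rigD (P : Par 2) (D : Dt 2) (f : M3) (κ c : Fin 2 → ℂ) (h1 : ∀ i, dM (Dv P i) f = algebraMap ℂ M3 (κ i))
    (h2 : ∀ w : Lz, trM (wz D.τ w) f = f + algebraMap ℂ M3 (∑ j, c j * ∑ l, Zv P D j l * hz w l)) : c = 0 ∧ ∃ a : ℂ, f = algebraMap ℂ M3 a :=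
  XA07_rig (Dv P) (Zv P D) (rD P) (rD_Dv P) (Dv_li P) (rD_int P) (Zv_li P D) D.τ f κ c h1 h2

/-- X5e. -/
theorem bK_rigZ (P : Par 2) (D : Dt 2) (f : M3) (κ c : Fin 2 → ℂ) (h1 : ∀ j, dM (Zv P D j) f = algebraMap ℂ M3 (κ j))
    (h2 : ∀ w : Lz, trM (wz D.τ w) f = f + algebraMap ℂ M3 (∑ i, c i * ∑ l, Dv P i l * hz w l)) : c = 0 ∧ ∃ a : ℂ, f = algebraMap ℂ M3 a :=
  XA07_rig (Zv P D) (Dv P) (rZ P) (rZ_Zv P D) (Zv_li P D) (rZ_int P) (Dv_li P) D.τ f κ c h1 h2

/-- X5f. PROOF. Assemble: `B` from `ext_exists (bK P D)`, `hD, hZ, hT` from `ext_D, ext_Z, ext_T`, `B 1 1 = em (TE D 1) ≠ 0` (`Phi_one`, `TE_one_ne`, `em_ne`). -/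
theorem ker_exists (P : Par 2) (D : Dt 2) : ∃ K : Ker M3 Lz, ∀ p q : Po ℂ, K.B (ofC p) (ofC q) = em (TE D (Phi P D p q)) := by
  obtain ⟨B, hB⟩ := ext_exists (bK P D)
  choose cc hc0 hcT using bK_T P D
  have hB1 : B 1 1 ≠ 0 := by
    have h1 : (1 : Po M3) = ofC (1 : Po ℂ) := by
      unfold ofC
      rw [map_one]
    rw [h1, hB, bK_apply, Phi_one, map_one]
    exact em_ne _ (TE_one_ne D)
  exact ⟨{ D := fun i => dM (Dv P i)
           Z := fun j => dM (Zv P D j)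
           T := fun w => trM (wz D.τ w)
           Tsurj := fun w => trM_surj _
           TC := fun w a => trM_C _ a
           e := eK P D
           lam := fun w i => ∑ l, Dv P i l * hz w l
           chi := fun w j => ∑ l, Zv P D j l * hz w l
           c := cc
           c0 := hc0
           B := B
           B1 := hB1
           hD := fun i p q => ext_D B (bK P D) hB (dM (Dv P i)) i (fun j => eK P D i j) (fun p q => bK_D P D i p q) p q
           hZ := fun j p q => ext_Z B (bK P D) hB (dM (Zv P D j)) j (fun i => eK P D i j) (fun p q => bK_Z P D j p q) p q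
           hT := fun w p q => ext_T B (bK P D) hB (trM (wz D.τ w)) (trM_C _) (cc w) _ _ (hcT w) p q
           rigD := fun f κ c h1 h2 => bK_rigD P D f κ c h1 h2
           rigZ := fun f κ c h1 h2 => bK_rigZ P D f κ c h1 h2 }, fun p q => (hB p q).trans (bK_apply P D p q)⟩

end Pool.Agent.MSU
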