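import Mathlib

/-!
# U/Y0_Ring: the ring of entire functions of three variables and its field of fractions
-/

open Complex Filter Topology

noncomputable section

namespace Pool.Agent.MSU

/-- the entire functions on `ℂ^3` -/
def AnS : Subalgebra ℂ ((Fin 3 → ℂ) → ℂ) where
  carrier := {f | AnalyticOnNhd ℂ f Set.univ}
  mul_mem' := fun {a b} ha hb => (show AnalyticOnNhd ℂ (fun t => a t * b t) Set.univ from fun t ht => (ha t ht).mul (hb t ht))
  add_mem' := fun {a b} ha hb => (show AnalyticOnNhd ℂ (fun t => a t + b t) Set.univ from fun t ht => (ha t ht).add (hb t ht))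
  algebraMap_mem' := fun c => (show AnalyticOnNhd ℂ (fun _ => c) Set.univ from fun _ _ => analyticAt_const)

/-- the ring of entire functions on `ℂ^3` -/
abbrev E3 : Type := ↥AnS

theorem E3.an (f : E3) : AnalyticOnNhd ℂ (f : (Fin 3 → ℂ) → ℂ) Set.univ := f.2

theorem YA01_eq_zero (f : E3) (t : Fin 3 → ℂ)
    (h : ∀ᶠ u in 𝓝 t, (f : (Fin 3 → ℂ) → ℂ) u = 0) : f = 0 := by
  have h5 : (f : (Fin 3 → ℂ) → ℂ) = fun _ => (0 : ℂ) :=
    AnalyticOnNhd.eq_of_eventuallyEq f.2 (fun _ _ => analyticAt_const) h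
  exact Subtype.ext h5

/-- Y0a. PROOF. Identity theorem on the connected space `Fin 3 → ℂ`: if `f g = 0` and `f ≠ 0`, then `f ≠ 0` on a nonempty open set (continuity), so `g = 0` there, so `g = 0` everywhere (`AnalyticOnNhd.eq_of_eventuallyEq`).
(`E3` is nontrivial: constants.) -/
instance : IsDomain E3 := by
  have hnt : Nontrivial E3 := by
    refine ⟨⟨0, 1, fun h => ?_⟩⟩
    have h1 := congrArg (fun f : E3 => (f : (Fin 3 → ℂ) → ℂ) 0) h
    exact zero_ne_one h1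
  have hnz : NoZeroDivisors E3 := by
    refine ⟨fun {a b} hab => ?_⟩
    by_contra hcon
    rw [not_or] at hcon
    obtain ⟨ha, hb⟩ := hcon
    have ha' : ∃ t, (a : (Fin 3 → ℂ) → ℂ) t ≠ 0 := by
      by_contra h1
      push Not at h1
      exact ha (Subtype.ext (funext h1))
    obtain ⟨t, ht⟩ := ha'
    apply hb
    apply YA01_eq_zero b t
    filter_upwards [(a.2 t (Set.mem_univ t)).continuousAt.eventually_ne ht] with u hu
    have h3 := congrArg (fun f : E3 => (f : (Fin 3 → ℂ) → ℂ) u) hab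
    have h4 : (a : (Fin 3 → ℂ) → ℂ) u * (b : (Fin 3 → ℂ) → ℂ) u = 0 := h3
    exact (mul_eq_zero.mp h4).resolve_left hu
  exact NoZeroDivisors.to_isDomain E3

/-- Y0b. the zero set of a nonzero entire function has empty interior. PROOF. Identity theorem. -/
theorem E3.dense_ne (f : E3) (h : f ≠ 0) : Dense {t : Fin 3 → ℂ | (f : (Fin 3 → ℂ) → ℂ) t ≠ 0} := by
  intro t
  rw [mem_closure_iff_frequently]
  by_contra hcon
  rw [Filter.not_frequently] at hcon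
  apply h
  apply YA01_eq_zero f t
  filter_upwards [hcon] with u hu
  by_contra h3
  exact hu h3

theorem YA01_cont (f : E3) : Continuous (f : (Fin 3 → ℂ) → ℂ) :=
  continuous_iff_continuousAt.mpr (fun t => (f.2 t (Set.mem_univ t)).continuousAt)

theorem E3.open_ne (f : E3) : IsOpen {t : Fin 3 → ℂ | (f : (Fin 3 → ℂ) → ℂ) t ≠ 0} :=
  isOpen_ne_fun (YA01_cont f) continuous_const

/-- Y0c. PROOF. Baire: a countable intersection of dense open sets is dense (`dense_iInter_of_isOpen`). -/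
theorem E3.exists_ne (f : ℕ → E3) (h : ∀ n, f n ≠ 0) : Dense {t : Fin 3 → ℂ | ∀ n, (f n : (Fin 3 → ℂ) → ℂ) t ≠ 0} := by
  have h1 := dense_iInter_of_isOpen (fun n => E3.open_ne (f n)) (fun n => E3.dense_ne (f n) (h n))
  have h2 : {t : Fin 3 → ℂ | ∀ n, (f n : (Fin 3 → ℂ) → ℂ) t ≠ 0} =
      ⋂ n, {t : Fin 3 → ℂ | (f n : (Fin 3 → ℂ) → ℂ) t ≠ 0} := by
    ext t
    simp only [Set.mem_ofPred_eq, Set.mem_iInter]
  rw [h2]
  exact h1

theorem YA01_diff (f : E3) (t : Fin 3 → ℂ) : DifferentiableAt ℂ (f : (Fin 3 → ℂ) → ℂ) t :=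
  (f.2 t (Set.mem_univ t)).differentiableAt

/-- the derivative in the direction `v` -/
def dE (v : Fin 3 → ℂ) : Derivation ℂ E3 E3 where
  toFun f := ⟨fun t => fderiv ℂ (f : (Fin 3 → ℂ) → ℂ) t v, by
    have h1 : AnalyticOnNhd ℂ (fderiv ℂ (f : (Fin 3 → ℂ) → ℂ)) Set.univ := f.2.fderiv
    have h2 := (ContinuousLinearMap.apply ℂ ℂ v).comp_analyticOnNhd h1
    exact h2⟩
  map_add' := by
    intro f g
    apply Subtype.ext
    funext t
    show fderiv ℂ (fun t => (f : (Fin 3 → ℂ) → ℂ) t + (g : (Fin 3 → ℂ) → ℂ) t) t v =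
      fderiv ℂ (f : (Fin 3 → ℂ) → ℂ) t v + fderiv ℂ (g : (Fin 3 → ℂ) → ℂ) t v
    rw [fderiv_fun_add (YA01_diff f t) (YA01_diff g t)]
    rfl
  map_smul' := by
    intro c f
    apply Subtype.ext
    funext t
    show fderiv ℂ (fun t => c * (f : (Fin 3 → ℂ) → ℂ) t) t v =
      c * fderiv ℂ (f : (Fin 3 → ℂ) → ℂ) t v
    rw [fderiv_const_mul (YA01_diff f t) c]
    rfl
  map_one_eq_zero' := by
    apply Subtype.ext
    funext t
    show fderiv ℂ (fun _ : Fin 3 → ℂ => (1 : ℂ)) t v = 0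
    rw [fderiv_const_apply]
    rfl
  leibniz' := by
    intro f g
    apply Subtype.ext
    funext t
    show fderiv ℂ (fun t => (f : (Fin 3 → ℂ) → ℂ) t * (g : (Fin 3 → ℂ) → ℂ) t) t v =
      (f : (Fin 3 → ℂ) → ℂ) t * fderiv ℂ (g : (Fin 3 → ℂ) → ℂ) t v +
        (g : (Fin 3 → ℂ) → ℂ) t * fderiv ℂ (f : (Fin 3 → ℂ) → ℂ) t v
    rw [fderiv_fun_mul (YA01_diff f t) (YA01_diff g t)]
    rfl

theorem dE_apply (v : Fin 3 → ℂ) (f : E3) (t : Fin 3 → ℂ) : (dE v f : (Fin 3 → ℂ) → ℂ) t = fderiv ℂ (f : (Fin 3 → ℂ) → ℂ) t v := rfl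

/-- Y0d. -/
theorem dE_add (v w : Fin 3 → ℂ) (f : E3) : dE (v + w) f = dE v f + dE w f := by
  apply Subtype.ext
  funext t
  show fderiv ℂ (f : (Fin 3 → ℂ) → ℂ) t (v + w) =
    fderiv ℂ (f : (Fin 3 → ℂ) → ℂ) t v + fderiv ℂ (f : (Fin 3 → ℂ) → ℂ) t w
  rw [map_add]

theorem dE_smul (a : ℂ) (v : Fin 3 → ℂ) (f : E3) : dE (a • v) f = a • dE v f := by
  apply Subtype.ext
  funext t
  show fderiv ℂ (f : (Fin 3 → ℂ) → ℂ) t (a • v) = a * fderiv ℂ (f : (Fin 3 → ℂ) → ℂ) t v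
  rw [map_smul, smul_eq_mul]

theorem YA01_snd (v w : Fin 3 → ℂ) (f : E3) (t : Fin 3 → ℂ) :
    (dE v (dE w f) : (Fin 3 → ℂ) → ℂ) t =
      fderiv ℂ (fderiv ℂ (f : (Fin 3 → ℂ) → ℂ)) t v w := by
  have h1 : AnalyticOnNhd ℂ (fderiv ℂ (f : (Fin 3 → ℂ) → ℂ)) Set.univ := f.2.fderiv
  have h2 : DifferentiableAt ℂ (fderiv ℂ (f : (Fin 3 → ℂ) → ℂ)) t :=
    (h1 t (Set.mem_univ t)).differentiableAt
  show fderiv ℂ (fun t => fderiv ℂ (f : (Fin 3 → ℂ) → ℂ) t w) t v = _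
  have h3 : HasFDerivAt (fun t => fderiv ℂ (f : (Fin 3 → ℂ) → ℂ) t w)
      ((ContinuousLinearMap.apply ℂ ℂ w).comp
        (fderiv ℂ (fderiv ℂ (f : (Fin 3 → ℂ) → ℂ)) t)) t :=
    (ContinuousLinearMap.apply ℂ ℂ w).hasFDerivAt.comp t h2.hasFDerivAt
  rw [h3.fderiv]
  rfl

/-- Y0e. PROOF. Symmetry of the second derivative (`ContDiffAt.isSymmSndFDerivAt` or `second_derivative_symmetric`; an analytic function is smooth). -/
theorem dE_comm (v w : Fin 3 → ℂ) (f : E3) : dE v (dE w f) = dE w (dE v f) := by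
  apply Subtype.ext
  funext t
  rw [YA01_snd, YA01_snd]
  have h1 : ContDiffAt ℂ ⊤ (f : (Fin 3 → ℂ) → ℂ) t := (f.2 t (Set.mem_univ t)).contDiffAt
  exact (h1.isSymmSndFDerivAt le_top).eq v w

/-- Y0f. along a line. -/
theorem dE_line (v : Fin 3 → ℂ) (f : E3) (t : Fin 3 → ℂ) (y : ℂ) :
    HasDerivAt (fun y : ℂ => (f : (Fin 3 → ℂ) → ℂ) (t + y • v)) ((dE v f : (Fin 3 → ℂ) → ℂ) (t + y • v)) y := by
  have h1 : HasDerivAt (fun y : ℂ => t + y • v) v y := by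
    have h2 := ((hasDerivAt_id y).smul_const v).const_add t
    rwa [one_smul] at h2
  exact (YA01_diff f (t + y • v)).hasFDerivAt.comp_hasDerivAt y h1

theorem YA01_shift (w : Fin 3 → ℂ) (f : E3) :
    AnalyticOnNhd ℂ (fun t => (f : (Fin 3 → ℂ) → ℂ) (t + w)) Set.univ := by
  intro t _
  have h1 : AnalyticAt ℂ (fun t : Fin 3 → ℂ => t + w) t := analyticAt_id.add analyticAt_const
  exact AnalyticAt.comp (g := (f : (Fin 3 → ℂ) → ℂ)) (f := fun t : Fin 3 → ℂ => t + w) (x := t)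
    (f.2 (t + w) (Set.mem_univ _)) h1

/-- the translation `f ↦ f(· + w)` -/
def trE (w : Fin 3 → ℂ) : E3 ≃ₐ[ℂ] E3 where
  toFun f := ⟨fun t => (f : (Fin 3 → ℂ) → ℂ) (t + w), by
    exact YA01_shift w f⟩
  invFun f := ⟨fun t => (f : (Fin 3 → ℂ) → ℂ) (t - w), by
    have := YA01_shift (-w) f
    simp only [← sub_eq_add_neg] at this
    exact this⟩
  left_inv := by
    intro f
    apply Subtype.ext
    funext t
    show (f : (Fin 3 → ℂ) → ℂ) (t - w + w) = _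
    rw [sub_add_cancel]
  right_inv := by
    intro f
    apply Subtype.ext
    funext t
    show (f : (Fin 3 → ℂ) → ℂ) (t + w - w) = _
    rw [add_sub_cancel_right]
  map_mul' := by
    intro f g
    rfl
  map_add' := by
    intro f g
    rfl
  commutes' := by
    intro c
    rfl

theorem trE_apply (w : Fin 3 → ℂ) (f : E3) (t : Fin 3 → ℂ) : (trE w f : (Fin 3 → ℂ) → ℂ) t = (f : (Fin 3 → ℂ) → ℂ) (t + w) := rfl

/-- the coordinate functions -/
def co (l : Fin 3) : E3 := ⟨fun t => t l, by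
  intro t _
  exact (ContinuousLinearMap.proj (R := ℂ) (φ := fun _ : Fin 3 => ℂ) l).analyticAt t⟩

theorem co_apply (l : Fin 3) (t : Fin 3 → ℂ) : (co l : (Fin 3 → ℂ) → ℂ) t = t l := rfl

theorem dE_co (v : Fin 3 → ℂ) (l : Fin 3) : dE v (co l) = algebraMap ℂ E3 (v l) := by
  apply Subtype.ext
  funext t
  show fderiv ℂ (fun t : Fin 3 → ℂ => t l) t v = v l
  have h1 : HasFDerivAt (fun t : Fin 3 → ℂ => t l)
      (ContinuousLinearMap.proj (R := ℂ) (φ := fun _ : Fin 3 => ℂ) l) t :=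
    (ContinuousLinearMap.proj (R := ℂ) (φ := fun _ : Fin 3 => ℂ) l).hasFDerivAt
  rw [h1.fderiv]
  rfl

end Pool.Agent.MSU
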