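import Pool.Agent.Lib.MP_f58a57_nt.U.Y1_Frac

/-! # U/Y2_Line: functions with constant derivatives -/

open Complex Filter Topology

noncomputable section

namespace Pool.Agent.MSU

theorem YA04_one (G H G' H' : ℂ → ℂ) (hG : ∀ z, HasDerivAt G (G' z) z) (hH : ∀ z, HasDerivAt H (H' z) z)
    (κ : ℂ) (hW : ∀ z, G' z * H z - G z * H' z = κ * (H z * H z)) {G0 H0 : ℂ} (h0 : H 0 ≠ 0)
    (eG : G 0 = G0) (eH : H 0 = H0) (y : ℂ) :
    G y * H0 - G0 * H y = κ * y * H0 * H y := by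
  subst eG
  subst eH
  have hGd : Differentiable ℂ G := fun z => (hG z).differentiableAt
  have hHd : Differentiable ℂ H := fun z => (hH z).differentiableAt
  -- the quotient is affine near zero
  have hne : ∀ᶠ z in 𝓝 (0 : ℂ), H z ≠ 0 := hHd.continuous.continuousAt.eventually_ne h0
  obtain ⟨ε, hε, hball⟩ := Metric.eventually_nhds_iff_ball.1 hne
  have hF : ∀ z ∈ Metric.ball (0 : ℂ) ε, HasDerivWithinAt (fun z => G z / H z - κ * z) 0 (Metric.ball (0 : ℂ) ε) z := by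
    intro z hz
    have hz0 := hball z hz
    have h1 := ((hG z).div (hH z) hz0).sub ((hasDerivAt_id z).const_mul κ)
    have h2 : (G' z * H z - G z * H' z) / H z ^ 2 - κ * 1 = 0 := by
      rw [hW z]
      field_simp
      ring
    rw [h2] at h1
    exact h1.hasDerivWithinAt
  have hconst : ∀ z ∈ Metric.ball (0 : ℂ) ε, G z / H z - κ * z = G 0 / H 0 := by
    intro z hz
    have hd : DifferentiableOn ℂ (fun z => G z / H z - κ * z) (Metric.ball (0 : ℂ) ε) :=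
      fun w hw => (hF w hw).differentiableWithinAt
    have hf : ∀ w ∈ Metric.ball (0 : ℂ) ε, fderivWithin ℂ (fun z => G z / H z - κ * z) (Metric.ball (0 : ℂ) ε) w = 0 := by
      intro w hw
      have h3 := (hF w hw).hasFDerivWithinAt
      have h4 := h3.fderivWithin (Metric.isOpen_ball.uniqueDiffWithinAt hw)
      rw [h4]
      ext
      simp
    have h5 := (convex_ball (0 : ℂ) ε).is_const_of_fderivWithin_eq_zero hd hf hz (Metric.mem_ball_self hε)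
    simpa using h5
  have hE : AnalyticOnNhd ℂ (fun y => G y * H 0 - G 0 * H y - κ * y * H 0 * H y) Set.univ := by
    have hd : Differentiable ℂ (fun y => G y * H 0 - G 0 * H y - κ * y * H 0 * H y) := by
      fun_prop
    exact fun z _ => (hd.analyticAt z)
  have hev : (fun y => G y * H 0 - G 0 * H y - κ * y * H 0 * H y) =ᶠ[𝓝 (0 : ℂ)] 0 := by
    filter_upwards [Metric.ball_mem_nhds (0 : ℂ) hε] with z hz
    have h6 := hconst z hz
    have h7 := hball z hz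
    have h8 : G z / H z = G 0 / H 0 + κ * z := by linear_combination h6
    rw [div_eq_iff h7] at h8
    rw [h8]
    simp only [Pi.zero_apply]
    field_simp
    ring
  have h9 := hE.eqOn_zero_of_preconnected_of_eventuallyEq_zero isPreconnected_univ (Set.mem_univ (0 : ℂ)) hev
  have h10 := h9 (Set.mem_univ y)
  simp only [Pi.zero_apply] at h10
  linear_combination h10

/-- Y2a. PROOF. `G(y) = g(t + y v)`, `H(y) = h(t + y v)` are entire functions of `y` with `G' H - G H' = κ H^2` (`dE_line`). Near `y = 0` `H ≠ 0` and `G/H - κ y` has derivative `0`, so it is constant on a small ball: `E(y) = H(0) G(y) - G(0) H(y) - κ y H(0) H(y)` vanishes near `0`, so everywhere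
(identity theorem). -/
theorem line_const (g h : E3) (v : Fin 3 → ℂ) (κ : ℂ) (hq : dE v g * h - g * dE v h = κ • (h * h)) (t : Fin 3 → ℂ)
    (ht : (h : (Fin 3 → ℂ) → ℂ) t ≠ 0) (y : ℂ) :
    (g : (Fin 3 → ℂ) → ℂ) (t + y • v) * (h : (Fin 3 → ℂ) → ℂ) t - (g : (Fin 3 → ℂ) → ℂ) t * (h : (Fin 3 → ℂ) → ℂ) (t + y • v) =
      κ * y * (h : (Fin 3 → ℂ) → ℂ) t * (h : (Fin 3 → ℂ) → ℂ) (t + y • v) := by
  have hG : ∀ z : ℂ, HasDerivAt (fun y : ℂ => (g : (Fin 3 → ℂ) → ℂ) (t + y • v))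
      ((dE v g : (Fin 3 → ℂ) → ℂ) (t + z • v)) z := fun z => dE_line v g t z
  have hH : ∀ z : ℂ, HasDerivAt (fun y : ℂ => (h : (Fin 3 → ℂ) → ℂ) (t + y • v))
      ((dE v h : (Fin 3 → ℂ) → ℂ) (t + z • v)) z := fun z => dE_line v h t z
  have hW : ∀ z : ℂ, (dE v g : (Fin 3 → ℂ) → ℂ) (t + z • v) * (h : (Fin 3 → ℂ) → ℂ) (t + z • v) -
      (g : (Fin 3 → ℂ) → ℂ) (t + z • v) * (dE v h : (Fin 3 → ℂ) → ℂ) (t + z • v) =
      κ * ((h : (Fin 3 → ℂ) → ℂ) (t + z • v) * (h : (Fin 3 → ℂ) → ℂ) (t + z • v)) := by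
    intro z
    have := congrArg (fun F : E3 => (F : (Fin 3 → ℂ) → ℂ) (t + z • v)) hq
    exact this
  exact YA04_one (fun y => (g : (Fin 3 → ℂ) → ℂ) (t + y • v)) (fun y => (h : (Fin 3 → ℂ) → ℂ) (t + y • v))
    _ _ hG hH κ hW (by simpa using ht) (by simp) (by simp) y

/-- Y2b. PROOF. `exists_frac`, `dM_const` (κ = 0), `line_const` at a point `t` with `h t ≠ 0`, `y = 1`, all `v`: `g = (g t / h t) h`. -/
theorem const_of_dM (f : M3) (h : ∀ v : Fin 3 → ℂ, dM v f = 0) : ∃ a : ℂ, f = algebraMap ℂ M3 a := by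
  obtain ⟨g, k, hk, hf⟩ := exists_frac f
  obtain ⟨t, ht⟩ := (E3.dense_ne k hk).nonempty
  have ht' : (k : (Fin 3 → ℂ) → ℂ) t ≠ 0 := ht
  have hline : ∀ s : Fin 3 → ℂ, (g : (Fin 3 → ℂ) → ℂ) s * (k : (Fin 3 → ℂ) → ℂ) t =
      (g : (Fin 3 → ℂ) → ℂ) t * (k : (Fin 3 → ℂ) → ℂ) s := by
    intro s
    have h1 := dM_const (s - t) 0 f g k hk hf (by rw [h, map_zero])
    have h2 := line_const g k (s - t) 0 h1 t ht' 1
    rw [one_smul, add_sub_cancel] at h2
    linear_combination h2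
  refine ⟨(g : (Fin 3 → ℂ) → ℂ) t / (k : (Fin 3 → ℂ) → ℂ) t, ?_⟩
  have hg : g = algebraMap ℂ E3 ((g : (Fin 3 → ℂ) → ℂ) t / (k : (Fin 3 → ℂ) → ℂ) t) * k := by
    apply Subtype.ext
    funext s
    have h3 := hline s
    change (g : (Fin 3 → ℂ) → ℂ) s =
      ((g : (Fin 3 → ℂ) → ℂ) t / (k : (Fin 3 → ℂ) → ℂ) t) * (k : (Fin 3 → ℂ) → ℂ) s
    rw [div_mul_eq_mul_div, eq_div_iff ht', h3]
  have hek : em k ≠ 0 := em_ne k hk
  rw [hf, div_eq_iff hek, ← em_C]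
  conv_lhs => rw [hg]
  unfold em
  rw [map_mul]

/-- Y2c. one variable. PROOF. `W = (G' H - G H')/H^2` is analytic near `y0`. For `x` as in the hypothesis, small, with `H(y0 + x) ≠ 0`: near `y0` `G(y+x)/H(y+x) = G(y)/H(y) + ν`, so the derivatives agree: `W(y0 + x) = W(y0)`. So `W = W(y0) =: κ` at points `≠ y0` accumulating at `y0`, so near `y0`
(`AnalyticAt.frequently_eq_iff_eventually_eq`), and `G' H - G H' - κ H^2` vanishes near `y0`, so everywhere. -/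
theorem one_var_periods (G H : ℂ → ℂ) (hG : Differentiable ℂ G) (hH : Differentiable ℂ H) (y0 : ℂ) (h0 : H y0 ≠ 0)
    (hx : ∀ ε : ℝ, 0 < ε → ∃ x : ℂ, x ≠ 0 ∧ ‖x‖ < ε ∧ ∃ ν : ℂ, ∀ y, G (y + x) * H y - G y * H (y + x) = ν * H y * H (y + x)) :
    ∃ κ : ℂ, ∀ y, deriv G y * H y - G y * deriv H y = κ * H y ^ 2 := by
  set κ : ℂ := (deriv G y0 * H y0 - G y0 * deriv H y0) / H y0 ^ 2 with hκ
  have hκ' : κ * H y0 ^ 2 = deriv G y0 * H y0 - G y0 * deriv H y0 := by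
    rw [hκ]
    field_simp
  have key : ∀ x ν : ℂ, (∀ y, G (y + x) * H y - G y * H (y + x) = ν * H y * H (y + x)) →
      deriv G (y0 + x) * H (y0 + x) - G (y0 + x) * deriv H (y0 + x) = κ * H (y0 + x) ^ 2 := by
    intro x ν h
    have dG := (hG y0).hasDerivAt
    have dH := (hH y0).hasDerivAt
    have dGx := (hG (y0 + x)).hasDerivAt.comp_add_const y0 x
    have dHx := (hH (y0 + x)).hasDerivAt.comp_add_const y0 x
    have d1 := ((dGx.mul dH).sub (dG.mul dHx)).sub ((dH.const_mul ν).mul dHx)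
    have d2 : HasDerivAt (fun _ : ℂ => (0 : ℂ)) 0 y0 := hasDerivAt_const _ _
    have e1 := d1.unique (d2.congr_of_eventuallyEq (Filter.Eventually.of_forall fun y => by
      have := h y
      simp only [Pi.sub_apply, Pi.mul_apply]
      linear_combination this))
    have e2 := h y0
    have e3 : (deriv G (y0 + x) * H (y0 + x) - G (y0 + x) * deriv H (y0 + x)) * H y0 ^ 2 =
        (deriv G y0 * H y0 - G y0 * deriv H y0) * H (y0 + x) ^ 2 := by
      linear_combination (H y0 * H (y0 + x)) * e1 -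
        (deriv H y0 * H (y0 + x) + H y0 * deriv H (y0 + x)) * e2
    rw [← hκ'] at e3
    have h2 : H y0 ^ 2 ≠ 0 := pow_ne_zero _ h0
    apply mul_right_cancel₀ h2
    rw [e3]
    ring
  refine ⟨κ, ?_⟩
  have hGa : ∀ z, AnalyticAt ℂ G z := fun z => hG.analyticAt z
  have hHa : ∀ z, AnalyticAt ℂ H z := fun z => hH.analyticAt z
  have hEa : AnalyticOnNhd ℂ (fun y => deriv G y * H y - G y * deriv H y) Set.univ := fun z _ =>
    ((hGa z).deriv.mul (hHa z)).sub ((hGa z).mul (hHa z).deriv)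
  have hKa : AnalyticOnNhd ℂ (fun y => κ * H y ^ 2) Set.univ := fun z _ =>
    analyticAt_const.mul ((hHa z).pow 2)
  have hfreq : ∃ᶠ y in 𝓝[≠] y0, deriv G y * H y - G y * deriv H y = κ * H y ^ 2 := by
    rw [Filter.frequently_iff]
    intro U hU
    obtain ⟨ε, hε, hU'⟩ := Metric.mem_nhdsWithin_iff.1 hU
    obtain ⟨x, hx0, hxε, ν, hν⟩ := hx ε hε
    refine ⟨y0 + x, hU' ⟨?_, ?_⟩, key x ν hν⟩
    · rw [Metric.mem_ball, dist_eq_norm, add_sub_cancel_left]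
      exact hxε
    · simpa using hx0
  have := hEa.eq_of_frequently_eq hKa hfreq
  intro y
  exact congrFun this y

/-- Y2d. PROOF. Pigeonhole: the `(N+1)^3` points `∑ ρ_l n_l`, `0 ≤ n_l ≤ N`, lie in a square of side `≤ C N` in `ℂ`; divide it into `N^2` squares of side `≤ C` ... with `N^2 · K^2 < (N+1)^3` squares of side `C N/(N K)`, `K` fixed large, `N > K^2`: two different `n` in the same square, their difference `n ≠ 0` has
`‖∑ ρ_l n_l‖ ≤ 2 C/K`. It is `≠ 0` by `hρ`. -/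
theorem small_comb (ρ : Fin 3 → ℂ) (hρ : ∀ n : Fin 3 → ℤ, ∑ l, ρ l * (n l : ℂ) = 0 → n = 0) (ε : ℝ) (hε : 0 < ε) :
    ∃ n : Fin 3 → ℤ, ∑ l, ρ l * (n l : ℂ) ≠ 0 ∧ ‖∑ l, ρ l * (n l : ℂ)‖ < ε := by
  classical
  have hδ : (0 : ℝ) < ε / 2 := by positivity
  obtain ⟨K, hK⟩ := exists_nat_ge ((∑ l, ‖ρ l‖) / (ε / 2))
  have hK' : (∑ l, ‖ρ l‖) ≤ K * (ε / 2) := by rwa [div_le_iff₀ hδ] at hK
  obtain ⟨N, hN⟩ : ∃ N : ℕ, N = (2 * K + 1) ^ 2 := ⟨_, rfl⟩
  let z : (Fin 3 → Fin (N + 1)) → ℂ := fun x => ∑ l, ρ l * ((x l : ℕ) : ℂ)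
  have hz : ∀ x, ‖z x‖ ≤ K * N * (ε / 2) := by
    intro x
    calc ‖z x‖ ≤ ∑ l, ‖ρ l * ((x l : ℕ) : ℂ)‖ := norm_sum_le _ _
      _ ≤ ∑ l, ‖ρ l‖ * N := by
          refine Finset.sum_le_sum fun l _ => ?_
          rw [norm_mul, Complex.norm_natCast]
          have h1 : ((x l : ℕ) : ℝ) ≤ N := by exact_mod_cast Nat.lt_succ_iff.mp (x l).2
          exact mul_le_mul_of_nonneg_left h1 (norm_nonneg _)
      _ = (∑ l, ‖ρ l‖) * N := by rw [Finset.sum_mul]
      _ ≤ (K * (ε / 2)) * N := mul_le_mul_of_nonneg_right hK' (Nat.cast_nonneg _)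
      _ = K * N * (ε / 2) := by ring
  let f : (Fin 3 → Fin (N + 1)) → ℤ × ℤ := fun x => (⌊(z x).re / (ε / 2)⌋, ⌊(z x).im / (ε / 2)⌋)
  have hfl : ∀ a : ℝ, |a| ≤ K * N * (ε / 2) → ⌊a / (ε / 2)⌋ ∈ Finset.Icc (-((K * N : ℕ) : ℤ)) ((K * N : ℕ) : ℤ) := by
    intro a ha
    have h1 : |a / (ε / 2)| ≤ K * N := by
      rw [abs_div, abs_of_pos hδ, div_le_iff₀ hδ]
      exact ha
    rw [abs_le] at h1
    rw [Finset.mem_Icc]
    refine ⟨Int.le_floor.mpr ?_, ?_⟩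
    · push_cast
      exact h1.1
    · have h2 : (⌊a / (ε / 2)⌋ : ℝ) ≤ ((K * N : ℕ) : ℤ) := (Int.floor_le _).trans (by push_cast; exact h1.2)
      exact_mod_cast h2
  have hcard : (Finset.Icc (-((K * N : ℕ) : ℤ)) ((K * N : ℕ) : ℤ) ×ˢ Finset.Icc (-((K * N : ℕ) : ℤ)) ((K * N : ℕ) : ℤ)).card
      < (Finset.univ : Finset (Fin 3 → Fin (N + 1))).card := by
    rw [Finset.card_product, Int.card_Icc, Finset.card_univ, Fintype.card_fun, Fintype.card_fin, Fintype.card_fin]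
    have h1 : (((K * N : ℕ) : ℤ) + 1 - -((K * N : ℕ) : ℤ)).toNat = 2 * (K * N) + 1 := by omega
    rw [h1]
    have hN1 : 1 ≤ N := by
      rw [hN]
      exact Nat.one_le_pow _ _ (by omega)
    have h2 : 2 * (K * N) + 1 ≤ (2 * K + 1) * N := by nlinarith
    calc (2 * (K * N) + 1) * (2 * (K * N) + 1) ≤ ((2 * K + 1) * N) * ((2 * K + 1) * N) := Nat.mul_le_mul h2 h2
      _ = (2 * K + 1) ^ 2 * N ^ 2 := by ring
      _ = N ^ 3 := by rw [← hN]; ring
      _ < (N + 1) ^ 3 := Nat.pow_lt_pow_left (Nat.lt_succ_self N) (by norm_num)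
  obtain ⟨x, -, y, -, hxy, hf⟩ := Finset.exists_ne_map_eq_of_card_lt_of_maps_to (f := f) hcard
    (fun x _ => Finset.mem_coe.mpr (Finset.mem_product.mpr
      ⟨hfl _ ((Complex.abs_re_le_norm _).trans (hz x)), hfl _ ((Complex.abs_im_le_norm _).trans (hz x))⟩))
  have hf1 : ⌊(z x).re / (ε / 2)⌋ = ⌊(z y).re / (ε / 2)⌋ := congrArg Prod.fst hf
  have hf2 : ⌊(z x).im / (ε / 2)⌋ = ⌊(z y).im / (ε / 2)⌋ := congrArg Prod.snd hf
  have hd : ∀ a b : ℝ, ⌊a / (ε / 2)⌋ = ⌊b / (ε / 2)⌋ → |a - b| < ε / 2 := by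
    intro a b hab
    have h1 := Int.abs_sub_lt_one_of_floor_eq_floor hab
    rw [← sub_div, abs_div, abs_of_pos hδ, div_lt_one hδ] at h1
    exact h1
  refine ⟨fun l => ((x l : ℕ) : ℤ) - ((y l : ℕ) : ℤ), ?_, ?_⟩
  · intro h0
    have h1 := hρ _ h0
    apply hxy
    funext l
    have h2 := congrFun h1 l
    simp only [Pi.zero_apply] at h2
    apply Fin.ext
    omega
  · have h1 : ∑ l, ρ l * ((((x l : ℕ) : ℤ) - ((y l : ℕ) : ℤ) : ℤ) : ℂ) = z x - z y := by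
      show _ = (∑ l, ρ l * ((x l : ℕ) : ℂ)) - ∑ l, ρ l * ((y l : ℕ) : ℂ)
      rw [← Finset.sum_sub_distrib]
      refine Finset.sum_congr rfl fun l _ => ?_
      push_cast
      ring
    rw [h1]
    calc ‖z x - z y‖ ≤ |(z x - z y).re| + |(z x - z y).im| := Complex.norm_le_abs_re_add_abs_im _
      _ < ε / 2 + ε / 2 := by
          rw [Complex.sub_re, Complex.sub_im]
          exact add_lt_add (hd _ _ hf1) (hd _ _ hf2)
      _ = ε := by ring

end Pool.Agent.MSU
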