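import Mathlib

/-!
# MP_f58a57_nt, cubic points: abstract kernels

A kernel is a bilinear form `B` on `M[X_1, X_2] × M[s_1, s_2]`, `M` a field with derivations and automorphisms, which behaves like
`B(P, q) = P(∂_u) q(∂_s) K(t; u, s)` at `u = s = 0` for `K = exp(u^T e s) Θ(t + ∑ u_i D_i + ∑ s_j Z_j)`, as a function of `t`.
-/

open MvPolynomial

noncomputable section

namespace Pool.Agent.MSU

/-- polynomials in two variables -/
abbrev Po (M : Type) [CommSemiring M] : Type := MvPolynomial (Fin 2) M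

/-- the forms of degree `n` -/
abbrev Hs (M : Type) [CommSemiring M] (n : ℕ) : Submodule M (Po M) := homogeneousSubmodule (Fin 2) M n

variable {M : Type} [Field M] [Algebra ℂ M]

/-- a derivation applied to the coefficients -/
def cD (δ : Derivation ℂ M M) (P : Po M) : Po M := ∑ m ∈ P.support, monomial m (δ (P.coeff m))

/-- a complex constant in `M[X_1, X_2]` -/
def cst (a : ℂ) : Po M := C (algebraMap ℂ M a)

/-- Taylor shift by a constant vector -/
def sh (v : Fin 2 → ℂ) (P : Po M) : Po M := aeval (fun i => (X i : Po M) + cst (v i)) P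

/-- complex polynomials in `M[X_1, X_2]` -/
def ofC (g : Po ℂ) : Po M := map (algebraMap ℂ M) g

/-- abstract kernels -/
structure Ker (M : Type) [Field M] [Algebra ℂ M] (Λ : Type) where
  D : Fin 2 → Derivation ℂ M M
  Z : Fin 2 → Derivation ℂ M M
  T : Λ → M →+* M
  Tsurj : ∀ w, Function.Surjective (T w)
  TC : ∀ w (a : ℂ), T w (algebraMap ℂ M a) = algebraMap ℂ M a
  e : Fin 2 → Fin 2 → ℂ
  lam : Λ → Fin 2 → ℂ
  chi : Λ → Fin 2 → ℂ
  c : Λ → M
  c0 : ∀ w, c w ≠ 0
  B : Po M →ₗ[M] Po M →ₗ[M] M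
  B1 : B 1 1 ≠ 0
  hD : ∀ i P q, D i (B P q) = B (cD (D i) P + X i * P) q + B P (cD (D i) q - ∑ j, cst (e i j) * pderiv j q)
  hZ : ∀ j P q, Z j (B P q) = B (cD (Z j) P - ∑ i, cst (e i j) * pderiv i P) q + B P (cD (Z j) q + X j * q)
  hT : ∀ w P q, T w (B P q) = c w * B (sh (lam w) (map (T w) P)) (sh (chi w) (map (T w) q))
  rigD : ∀ (f : M) (κ c : Fin 2 → ℂ), (∀ i, D i f = algebraMap ℂ M (κ i)) →
    (∀ w, T w f = f + algebraMap ℂ M (∑ j, c j * chi w j)) → c = 0 ∧ ∃ a : ℂ, f = algebraMap ℂ M a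
  rigZ : ∀ (f : M) (κ c : Fin 2 → ℂ), (∀ i, Z i f = algebraMap ℂ M (κ i)) →
    (∀ w, T w f = f + algebraMap ℂ M (∑ j, c j * lam w j)) → c = 0 ∧ ∃ a : ℂ, f = algebraMap ℂ M a

variable {Λ : Type}

/-- the polynomials orthogonal to all polynomials of degree `< n` -/
def Rn (K : Ker M Λ) (n : ℕ) : Submodule M (Po M) where
  carrier := {P | ∀ q : Po M, q.totalDegree < n → K.B P q = 0}
  add_mem' := by
    intro a b ha hb q hq
    rw [map_add, LinearMap.add_apply, ha q hq, hb q hq, add_zero]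
  zero_mem' := by
    intro q _
    rw [map_zero, LinearMap.zero_apply]
  smul_mem' := by
    intro c x hx q hq
    rw [map_smul, LinearMap.smul_apply, hx q hq, smul_zero]

/-- the leading forms of degree `k` of the elements of `Rn K n` -/
def J (K : Ker M Λ) (n k : ℕ) : Submodule M (Po M) :=
  (Rn K n ⊓ restrictTotalDegree (Fin 2) M k).map (homogeneousComponent k)

/-- the codimension of `J K n k` in the space of forms of degree `k` -/
def aa (K : Ker M Λ) (n k : ℕ) : ℕ := k + 1 - Module.finrank M (J K n k)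

end Pool.Agent.MSU
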