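import Pool.Agent.Lib.MP_f58a57_nt.U.Z0_Defs

/-! # U/Z1_CD: derivations on coefficients -/

open MvPolynomial

noncomputable section

namespace Pool.Agent.MSU

variable {M : Type} [Field M] [Algebra ℂ M]

/-- Z1a. PROOF. `coeff_sum`, `coeff_monomial`, `Finset.sum_ite_eq`; outside the support `coeff = 0` and `δ 0 = 0`. -/
theorem coeff_cD (δ : Derivation ℂ M M) (P : Po M) (m : Fin 2 →₀ ℕ) : (cD δ P).coeff m = δ (P.coeff m) := by
  classical
  unfold cD
  rw [coeff_sum]
  simp only [coeff_monomial]
  rw [Finset.sum_ite_eq']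
  split_ifs with h
  · rfl
  · rw [notMem_support_iff.1 h, map_zero]

/-- Z1b. PROOF. `coeff_cD`, `ext`. -/
theorem cD_add (δ : Derivation ℂ M M) (P Q : Po M) : cD δ (P + Q) = cD δ P + cD δ Q := by
  ext m
  rw [coeff_add, coeff_cD, coeff_cD, coeff_cD, coeff_add, map_add]

theorem cD_sub (δ : Derivation ℂ M M) (P Q : Po M) : cD δ (P - Q) = cD δ P - cD δ Q := by
  ext m
  rw [coeff_sub, coeff_cD, coeff_cD, coeff_cD, coeff_sub, map_sub]

theorem cD_zero (δ : Derivation ℂ M M) : cD δ (0 : Po M) = 0 := by
  ext m
  rw [coeff_cD, coeff_zero, map_zero]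

/-- Z1c. Leibniz with a complex polynomial. PROOF. `coeff_mul` (sum over the antidiagonal), `δ (a * algebraMap b) = δ a * algebraMap b` (`Derivation.leibniz`, `Derivation.map_algebraMap`). -/
theorem cD_mul_ofC (δ : Derivation ℂ M M) (P : Po M) (g : Po ℂ) : cD δ (P * ofC g) = cD δ P * ofC g := by
  classical
  ext m
  rw [coeff_cD, coeff_mul, coeff_mul, map_sum]
  apply Finset.sum_congr rfl
  intro x _
  rw [coeff_cD]
  unfold ofC
  rw [coeff_map, Derivation.leibniz, Derivation.map_algebraMap, smul_zero, zero_add, smul_eq_mul,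
    mul_comm]

/-- Z1d. -/
theorem cD_ofC (δ : Derivation ℂ M M) (g : Po ℂ) : cD δ (ofC g) = 0 := by
  ext m
  rw [coeff_cD, coeff_zero]
  unfold ofC
  rw [coeff_map, Derivation.map_algebraMap]

theorem za01_support (δ : Derivation ℂ M M) (P : Po M) : (cD δ P).support ⊆ P.support := by
  intro m hm
  rw [mem_support_iff] at hm ⊢
  intro h
  rw [coeff_cD, h, map_zero] at hm
  exact hm rfl

/-- Z1e. PROOF. The support of `cD δ P` is contained in the support of `P`. -/
theorem cD_totalDegree (δ : Derivation ℂ M M) (P : Po M) : (cD δ P).totalDegree ≤ P.totalDegree := by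
  unfold totalDegree
  exact Finset.sup_mono (za01_support δ P)

theorem cD_support (δ : Derivation ℂ M M) (P : Po M) : (cD δ P).support ⊆ P.support :=
  za01_support δ P

/-- Z1f. PROOF. `coeff_homogeneousComponent` on both sides. -/
theorem cD_hc (δ : Derivation ℂ M M) (n : ℕ) (P : Po M) : homogeneousComponent n (cD δ P) = cD δ (homogeneousComponent n P) := by
  ext m
  rw [coeff_homogeneousComponent, coeff_cD, coeff_cD, coeff_homogeneousComponent]
  split_ifs
  · rfl
  · rw [map_zero]

/-- Z1g. -/
theorem cD_homog (δ : Derivation ℂ M M) (n : ℕ) (P : Po M) (h : P.IsHomogeneous n) : (cD δ P).IsHomogeneous n := by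
  intro d hd
  apply h
  intro h0
  rw [coeff_cD, h0, map_zero] at hd
  exact hd rfl

/-- Z1h. PROOF. Partial derivatives: `coeff_pderiv` and `δ` is `ℕ`-linear. -/
theorem cD_pderiv (δ : Derivation ℂ M M) (i : Fin 2) (P : Po M) : cD δ (pderiv i P) = pderiv i (cD δ P) := by
  ext m
  rw [coeff_cD, coeff_pderiv, coeff_pderiv, coeff_cD, Derivation.leibniz]
  have h : δ ((m i : M) + 1) = 0 := by
    rw [map_add, Derivation.map_natCast, Derivation.map_one_eq_zero, add_zero]
  rw [h, smul_zero, zero_add, smul_eq_mul, mul_comm]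

theorem za01_deg (m : Fin 2 →₀ ℕ) (i : Fin 2) : (m + Finsupp.single i 1).degree = m.degree + 1 := by
  rw [map_add, Finsupp.degree_single]

/-- Z1i. the partial derivative of a form. -/
theorem hc_pderiv (n : ℕ) (i : Fin 2) (P : Po M) : homogeneousComponent n (pderiv i P) = pderiv i (homogeneousComponent (n + 1) P) := by
  ext m
  rw [coeff_homogeneousComponent, coeff_pderiv, coeff_pderiv, coeff_homogeneousComponent, za01_deg]
  by_cases h : m.degree = n
  · rw [if_pos h, if_pos (by omega)]
  · rw [if_neg h, if_neg (by omega), zero_mul]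

/-- Z1j. PROOF. `X i * P` shifts the degrees by one. -/
theorem hc_X_mul (n : ℕ) (i : Fin 2) (P : Po M) : homogeneousComponent (n + 1) (X i * P) = X i * homogeneousComponent n P := by
  classical
  ext m
  rw [coeff_homogeneousComponent, coeff_X_mul', coeff_X_mul', coeff_homogeneousComponent]
  by_cases hi : i ∈ m.support
  · rw [if_pos hi, if_pos hi]
    have h1 : m - Finsupp.single i 1 + Finsupp.single i 1 = m := by
      apply tsub_add_cancel_of_le
      rw [Finsupp.single_le_iff]
      exact Nat.one_le_iff_ne_zero.2 (Finsupp.mem_support_iff.1 hi)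
    have h2 : m.degree = (m - Finsupp.single i 1).degree + 1 := by
      rw [← za01_deg, h1]
    by_cases h : m.degree = n + 1
    · rw [if_pos h, if_pos (by omega)]
    · rw [if_neg h, if_neg (by omega)]
  · rw [if_neg hi, if_neg hi, ite_self]

/-- Z1k. -/
theorem hc_cst_mul (n : ℕ) (a : ℂ) (P : Po M) : homogeneousComponent n (cst a * P) = cst a * homogeneousComponent n P := by
  unfold cst
  exact homogeneousComponent_C_mul _ n _

theorem za01_le {n : ℕ} {P : Po M} : P.totalDegree ≤ n ↔ ∀ d ∈ P.support, d.degree ≤ n := by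
  unfold totalDegree
  rw [Finset.sup_le_iff]
  rfl

/-- Z1l. PROOF. `P` is the sum of its homogeneous components of degree `≤ P.totalDegree`. -/
theorem totalDegree_lt_of_hc (n : ℕ) (P : Po M) (h : P.totalDegree ≤ n + 1) (h0 : homogeneousComponent (n + 1) P = 0) : P.totalDegree ≤ n := by
  rw [za01_le] at h ⊢
  intro d hd
  have h1 := h d hd
  by_contra hc
  have h2 : d.degree = n + 1 := by omega
  have h3 := congrArg (coeff d) h0
  rw [coeff_homogeneousComponent, if_pos h2, coeff_zero] at h3
  exact mem_support_iff.1 hd h3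

theorem eq_C_of_totalDegree_zero (P : Po M) (h : P.totalDegree ≤ 0) : P = C (P.coeff 0) :=
  totalDegree_eq_zero_iff_eq_C.1 (Nat.le_zero.1 h)

/-- Z1m. PROOF. `totalDegree_pderiv_le` or directly from the supports. -/
theorem totalDegree_pderiv_lt (n : ℕ) (i : Fin 2) (P : Po M) (h : P.totalDegree ≤ n + 1) : (pderiv i P).totalDegree ≤ n := by
  rw [za01_le] at h ⊢
  intro d hd
  rw [mem_support_iff, coeff_pderiv] at hd
  have h1 : (d + Finsupp.single i 1) ∈ P.support := by
    rw [mem_support_iff]
    intro h2
    rw [h2, zero_mul] at hd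
    exact hd rfl
  have h2 := h _ h1
  rw [za01_deg] at h2
  omega

/-- Z1n. the top component of a product with a form `g` of degree `N`. -/
theorem hc_mul_homog (n N : ℕ) (P g : Po M) (hg : g.IsHomogeneous N) : homogeneousComponent (n + N) (P * g) = homogeneousComponent n P * g := by
  classical
  have h1 : P * g = ∑ i ∈ Finset.range (P.totalDegree + 1), homogeneousComponent i P * g := by
    rw [← Finset.sum_mul, sum_homogeneousComponent]
  have h2 : ∀ i, homogeneousComponent (n + N) (homogeneousComponent i P * g)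
      = if n = i then homogeneousComponent i P * g else 0 := by
    intro i
    have h3 : (homogeneousComponent i P * g) ∈ homogeneousSubmodule (Fin 2) M (i + N) :=
      (homogeneousComponent_isHomogeneous i P).mul hg
    rw [homogeneousComponent_of_mem h3]
    by_cases h : n = i
    · rw [if_pos h, if_pos (by omega)]
    · rw [if_neg h, if_neg (by omega)]
  rw [h1, map_sum]
  simp only [h2]
  rw [Finset.sum_ite_eq]
  split_ifs with h
  · rfl
  · rw [homogeneousComponent_eq_zero n P (by
      rw [Finset.mem_range] at h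
      omega), zero_mul]

end Pool.Agent.MSU
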