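import Pool.Agent.Lib.MP_f58a57_nt.U.Z2_Sh

/-! # U/Z3_Step1: the form `B` has no right kernel -/

open MvPolynomial

noncomputable section

namespace Pool.Agent.MSU

variable {M : Type} [Field M] [Algebra ℂ M] {Λ : Type}

/-- Z3a. PROOF. `K.hD` with `B P q = 0`, `B (..) q = 0`. -/
theorem ker_D (K : Ker M Λ) (q : Po M) (h : ∀ P, K.B P q = 0) (i : Fin 2) (P : Po M) :
    K.B P (cD (K.D i) q - ∑ j, cst (K.e i j) * pderiv j q) = 0 := by
  have h1 := K.hD i P q
  rw [h P, h, map_zero, zero_add] at h1
  exact h1.symm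

/-- Z3b. PROOF. Given `P`, put `P' = sh (-lam w) P` and choose `P''` with `map (T w) P'' = P'` (`map_surjective`, `K.Tsurj`). `K.hT w P'' q`: `0 = c_w B P (sh (chi w) (map (T w) q))` (`sh_sh_neg`), `c_w ≠ 0`. -/
theorem ker_T (K : Ker M Λ) (q : Po M) (h : ∀ P, K.B P q = 0) (w : Λ) (P : Po M) :
    K.B P (sh (K.chi w) (map (K.T w) q)) = 0 := by
  obtain ⟨P', hP'⟩ := map_surjective (K.T w) (K.Tsurj w) (sh (-K.lam w) P)
  have h1 := K.hT w P' q
  rw [h P', map_zero, hP', sh_sh_neg] at h1
  exact (mul_eq_zero.1 h1.symm).resolve_left (K.c0 w)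

theorem ZA03_map_totalDegree (T : M →+* M) (P : Po M) :
    (map T P).totalDegree ≤ P.totalDegree :=
  Finset.sup_mono (support_map_subset T P)

theorem ZA03_pderiv_totalDegree (i : Fin 2) (P : Po M) (b : ℕ) (h : P.totalDegree ≤ b) :
    (pderiv i P).totalDegree ≤ b :=
  totalDegree_pderiv_lt b i P (h.trans (Nat.le_succ b))

theorem ZA03_hc_succ (P : Po M) (b : ℕ) (h : P.totalDegree ≤ b) :
    homogeneousComponent (b + 1) P = 0 :=
  homogeneousComponent_eq_zero _ _ (Nat.lt_succ_of_le h)

theorem ZA03_hc_sum (n : ℕ) (i : Fin 2 → ℂ) (P : Po M) :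
    homogeneousComponent n (∑ j, cst (i j) * pderiv j P) =
      ∑ j, cst (i j) * pderiv j (homogeneousComponent (n + 1) P) := by
  rw [map_sum]
  refine Finset.sum_congr rfl (fun j _ => ?_)
  rw [hc_cst_mul, hc_pderiv]

theorem ZA03_sum_totalDegree (i : Fin 2 → ℂ) (P : Po M) (b : ℕ) (h : P.totalDegree ≤ b) :
    (∑ j, cst (i j) * pderiv j P).totalDegree ≤ b := by
  refine totalDegree_finsetSum_le (fun j _ => ?_)
  refine (totalDegree_mul _ _).trans ?_
  rw [cst, totalDegree_C, zero_add]
  exact ZA03_pderiv_totalDegree j P b h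

/-- the leading form is not zero -/
theorem ZA03_lead (q : Po M) (hq : q ≠ 0) : homogeneousComponent q.totalDegree q ≠ 0 := by
  intro h
  rcases Nat.eq_zero_or_eq_succ_pred q.totalDegree with h0 | h0
  · rw [h0, homogeneousComponent_zero] at h
    exact hq ((eq_C_of_totalDegree_zero q h0.le).trans h)
  · rw [h0] at h
    have h1 := totalDegree_lt_of_hc (q.totalDegree.pred) q h0.le h
    omega

/-- part (ii)-(vi) of the proof: a normalised minimal element of the kernel gives a
contradiction -/
theorem ZA03_core (K : Ker M Λ) (q : Po M) (hq : q ≠ 0) (h : ∀ P, K.B P q = 0)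
    (hD0 : ∀ i, cD (K.D i) q = ∑ j, cst (K.e i j) * pderiv j q)
    (hT0 : ∀ w, sh (K.chi w) (map (K.T w) q) = q) : False := by
  obtain ⟨b, hb⟩ : ∃ b, q.totalDegree = b := ⟨_, rfl⟩
  have hq0 : homogeneousComponent b q ≠ 0 := hb ▸ ZA03_lead q hq
  have hbs : homogeneousComponent (b + 1) q = 0 := ZA03_hc_succ q b hb.le
  have hDq : ∀ i, cD (K.D i) (homogeneousComponent b q) = 0 := by
    intro i
    rw [← cD_hc, hD0, ZA03_hc_sum, hbs]
    simp
  have hmT : ∀ w, homogeneousComponent b (sh (K.chi w) (map (K.T w) q)) =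
      map (K.T w) (homogeneousComponent b q) := by
    intro w
    have h1 := (hc_sh (K.chi w) b (map (K.T w) q)
      ((ZA03_map_totalDegree _ _).trans (hb.le.trans (Nat.le_succ b)))).2
    rw [h1, hc_map, hc_map, hbs]
    simp
  have hTq : ∀ w, map (K.T w) (homogeneousComponent b q) = homogeneousComponent b q := by
    intro w
    rw [← hmT w, hT0 w]
  have hco : ∀ m, ∃ a : ℂ, (homogeneousComponent b q).coeff m = algebraMap ℂ M a := by
    intro m
    refine (K.rigD _ 0 0 (fun i => ?_) (fun w => ?_)).2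
    · rw [← coeff_cD, hDq i]
      simp
    · rw [← coeff_map, hTq w]
      simp
  choose a ha using hco
  obtain ⟨g, hg⟩ : ∃ g : Po ℂ, ofC g = homogeneousComponent b q := by
    refine ⟨∑ m ∈ (homogeneousComponent b q).support, monomial m (a m), ?_⟩
    rw [ofC, map_sum]
    conv_rhs => rw [← support_sum_monomial_coeff (homogeneousComponent b q)]
    refine Finset.sum_congr rfl (fun m _ => ?_)
    rw [map_monomial, ha m]
  rcases Nat.eq_zero_or_eq_succ_pred b with h0 | h0
  · have h1 := eq_C_of_totalDegree_zero q (hb.trans h0).le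
    have h2 := h 1
    rw [h1, ← mul_one (C (coeff 0 q)), ← smul_eq_C_mul, map_smul, smul_eq_mul] at h2
    rcases mul_eq_zero.1 h2 with h3 | h3
    · rw [h3, map_zero] at h1
      exact hq h1
    · exact K.B1 h3
  · obtain ⟨n, rfl⟩ : ∃ n, b = n + 1 := ⟨b.pred, h0⟩
    have hpd : ∀ j m, coeff m (pderiv j g) = 0 := by
      intro j m
      have h1 := (K.rigD ((homogeneousComponent n q).coeff m)
        (fun i => ∑ j, K.e i j * coeff m (pderiv j g))
        (fun j => -coeff m (pderiv j g)) (fun i => ?_) (fun w => ?_)).1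
      · have h2 := congrFun h1 j
        simpa using h2
      · rw [← coeff_cD, ← cD_hc, hD0, ZA03_hc_sum, ← hg, coeff_sum, map_sum]
        refine Finset.sum_congr rfl (fun j _ => ?_)
        rw [cst, coeff_C_mul, ofC, pderiv_map, coeff_map, map_mul]
      · have h2 := (hc_sh (K.chi w) n (map (K.T w) q) ((ZA03_map_totalDegree _ _).trans hb.le)).2
        rw [hT0 w, hc_map, hc_map, hTq w, ← hg] at h2
        have h3 := congrArg (coeff m) h2
        rw [coeff_add, coeff_map, coeff_sum] at h3
        have h4 : ∀ j : Fin 2, coeff m (cst (K.chi w j) * pderiv j (ofC g : Po M)) =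
            algebraMap ℂ M (K.chi w j * coeff m (pderiv j g)) := by
          intro j
          rw [cst, coeff_C_mul, ofC, pderiv_map, coeff_map, map_mul]
        simp only [h4] at h3
        rw [← map_sum] at h3
        rw [eq_comm, ← eq_sub_iff_add_eq] at h3
        rw [h3, sub_eq_add_neg, ← map_neg, ← Finset.sum_neg_distrib]
        congr 2
        refine Finset.sum_congr rfl (fun j _ => ?_)
        ring
    have hpd' : ∀ j, pderiv j (homogeneousComponent (n + 1) q) = 0 := by
      intro j
      rw [← hg, ofC, pderiv_map]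
      have h1 : pderiv j g = 0 := by
        ext m
        rw [hpd j m, coeff_zero]
      rw [h1, map_zero]
    have hE := (homogeneousComponent_isHomogeneous (n + 1) q).sum_X_mul_pderiv
    have hz : (n + 1) • homogeneousComponent (n + 1) q = 0 := by
      rw [← hE]
      refine Finset.sum_eq_zero (fun j _ => ?_)
      rw [hpd' j, mul_zero]
    apply hq0
    have : CharZero M := charZero_of_injective_algebraMap (algebraMap ℂ M).injective
    ext m
    have h1 := congrArg (coeff m) hz
    rw [coeff_smul, coeff_zero, nsmul_eq_mul] at h1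
    rcases mul_eq_zero.1 h1 with h2 | h2
    · exact absurd (Nat.cast_eq_zero.1 h2) (Nat.succ_ne_zero n)
    · rw [h2, coeff_zero]

/-- Z3c. PROOF. Let `Q = {q : ∀ P, B P q = 0}` (a submodule). Suppose `Q` has a nonzero element. Let `b0` be the minimal degree of the nonzero elements of `Q`, and among the nonzero `q ∈ Q` of degree `b0` take one whose leading form `q0 = homogeneousComponent b0 q`
has the minimal number of monomials (`support.card`); multiply by a constant so that one coefficient of `q0` is `1`.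
(i) If `q' ∈ Q` has degree `≤ b0` and `homogeneousComponent b0 q'` has support strictly contained in that of `q0` then `q' = 0`: the leading form vanishes by minimality of the support (if it is not `0` then `q'` has degree `b0` and a smaller support) so (`b0 = 0`: `q'` is constant `= 0`)
the degree of `q'` is `< b0` and `q' = 0` by minimality of `b0`.
(ii) Apply (i) to `q' = cD (D i) q - ∑ j, cst (e i j) * pderiv j q` (`ker_D`): its component of degree `b0` is `cD (D i) q0` (`cD_hc`, `pderiv` lowers the degree), its support is contained in that of `q0` and misses the monomial with coefficient `1` (`δ 1 = 0`). So `q' = 0`.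
(iii) Apply (i) to `q' = sh (chi w) (map (T w) q) - q` (`ker_T`): component `map (T w) q0 - q0` (`hc_sh`, `hc_map`). So `q' = 0`.
(iv) So all coefficients `f` of `q0` satisfy `D i f = 0`, `T w f = f`, so by `rigD` with `κ = 0, c = 0` they are complex numbers: `q0 = ofC g`.
(v) If `b0 = 0` then `q = C f`, `f ≠ 0`, and `B 1 q = f B 1 1 ≠ 0`: contradiction with `q ∈ Q`.
(vi) `b0 = n + 1`: let `q1 = homogeneousComponent n q`. (ii) in degree `n`: `cD (D i) q1 = ∑ j, cst (e i j) * pderiv j q0` (`hc_pderiv`); (iii) in degree `n` (`hc_sh`): `map (T w) q1 + ∑ j, cst (chi w j) * pderiv j (map (T w) q0) = q1` and `map (T w) q0 = q0`.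
Let `m` be a monomial, `f = q1.coeff m`, `c j` = minus the coefficient of `m` in `pderiv j g`: `D i f` is a complex number, `T w f = f + ∑ c j chi w j`. By `rigD`: `c = 0`. So `pderiv j g = 0` for both `j` and `g` homogeneous of degree `n + 1 ≥ 1`: `g = 0` (Euler: `∑ X j * pderiv j g = (n+1) g`,
`IsHomogeneous.sum_X_mul_pderiv` or coefficientwise). Contradiction with `q0 ≠ 0`. -/
theorem step1 (K : Ker M Λ) (q : Po M) (h : ∀ P, K.B P q = 0) : q = 0 := by
  classical
  by_contra hne
  -- minimal degree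
  have hex : ∃ b, ∃ q : Po M, q ≠ 0 ∧ (∀ P, K.B P q = 0) ∧ q.totalDegree = b :=
    ⟨_, q, hne, h, rfl⟩
  obtain ⟨b, hb, hmin⟩ : ∃ b, (∃ q : Po M, q ≠ 0 ∧ (∀ P, K.B P q = 0) ∧ q.totalDegree = b) ∧
      ∀ q' : Po M, (∀ P, K.B P q' = 0) → q'.totalDegree < b → q' = 0 := by
    refine ⟨Nat.find hex, Nat.find_spec hex, fun q' h1 h2 => ?_⟩
    by_contra h3
    exact Nat.find_min hex h2 ⟨q', h3, h1, rfl⟩
  have hex2 : ∃ c, ∃ q : Po M, (q ≠ 0 ∧ (∀ P, K.B P q = 0) ∧ q.totalDegree = b) ∧
      (homogeneousComponent b q).support.card = c := by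
    obtain ⟨q, hq⟩ := hb
    exact ⟨_, q, hq, rfl⟩
  obtain ⟨q1, ⟨hq1, hK1, hd1⟩, hm1⟩ : ∃ q : Po M, (q ≠ 0 ∧ (∀ P, K.B P q = 0) ∧
      q.totalDegree = b) ∧ ∀ q' : Po M, q' ≠ 0 → (∀ P, K.B P q' = 0) → q'.totalDegree = b →
        (homogeneousComponent b q).support.card ≤ (homogeneousComponent b q').support.card := by
    obtain ⟨q, hq, hc⟩ := Nat.find_spec hex2
    refine ⟨q, hq, fun q' h1 h2 h3 => ?_⟩
    rw [hc]
    exact Nat.find_min' hex2 ⟨q', ⟨h1, h2, h3⟩, rfl⟩
  -- normalise
  have hl1 : homogeneousComponent b q1 ≠ 0 := hd1 ▸ ZA03_lead q1 hq1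
  obtain ⟨m0, hm0⟩ := ne_zero_iff.1 hl1
  have ha : ((homogeneousComponent b q1).coeff m0)⁻¹ ≠ 0 := inv_ne_zero hm0
  obtain ⟨q2, hq2, hK2, hd2, hs2, hc2⟩ : ∃ q2 : Po M, q2 ≠ 0 ∧ (∀ P, K.B P q2 = 0) ∧
      q2.totalDegree ≤ b ∧ (homogeneousComponent b q2).support =
        (homogeneousComponent b q1).support ∧ (homogeneousComponent b q2).coeff m0 = 1 := by
    refine ⟨((homogeneousComponent b q1).coeff m0)⁻¹ • q1, smul_ne_zero ha hq1, fun P => ?_,
      (totalDegree_smul_le _ _).trans hd1.le, ?_, ?_⟩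
    · rw [map_smul, hK1 P, smul_zero]
    · rw [map_smul, support_smul_eq ha]
    · rw [map_smul, coeff_smul, smul_eq_mul, inv_mul_cancel₀ hm0]
  have key : ∀ q' : Po M, (∀ P, K.B P q' = 0) → q'.totalDegree ≤ b →
      (∀ m, (homogeneousComponent b q2).coeff m = 0 → (homogeneousComponent b q').coeff m = 0) →
      (homogeneousComponent b q').coeff m0 = 0 → q' = 0 := by
    intro q' h1 h2 h3 h4
    by_contra h5
    have h6 : q'.totalDegree = b := by
      by_contra h7
      exact h5 (hmin q' h1 (lt_of_le_of_ne h2 h7))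
    have h8 := hm1 q' h5 h1 h6
    rw [← hs2] at h8
    refine absurd h8 (not_le.2 (Finset.card_lt_card ?_))
    rw [Finset.ssubset_iff_of_subset]
    · refine ⟨m0, ?_, ?_⟩
      · rw [mem_support_iff, hc2]
        exact one_ne_zero
      · rw [notMem_support_iff]
        exact h4
    · intro m hm
      rw [mem_support_iff] at hm ⊢
      exact fun h9 => hm (h3 m h9)
  have hbs : homogeneousComponent (b + 1) q2 = 0 := ZA03_hc_succ q2 b hd2
  refine ZA03_core K q2 hq2 hK2 (fun i => ?_) (fun w => ?_)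
  · rw [← sub_eq_zero]
    have e1 : homogeneousComponent b (cD (K.D i) q2 - ∑ j, cst (K.e i j) * pderiv j q2) =
        cD (K.D i) (homogeneousComponent b q2) := by
      rw [map_sub, cD_hc, ZA03_hc_sum, hbs]
      simp
    refine key _ (fun P => ker_D K q2 hK2 i P) ?_ ?_ ?_
    · exact (totalDegree_sub _ _).trans (max_le ((cD_totalDegree _ _).trans hd2)
        (ZA03_sum_totalDegree _ _ b hd2))
    · intro m hm
      rw [e1, coeff_cD, hm, map_zero]
    · rw [e1, coeff_cD, hc2]
      exact (K.D i).map_one_eq_zero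
  · rw [← sub_eq_zero]
    have e1 : homogeneousComponent b (sh (K.chi w) (map (K.T w) q2) - q2) =
        map (K.T w) (homogeneousComponent b q2) - homogeneousComponent b q2 := by
      have h1 := (hc_sh (K.chi w) b (map (K.T w) q2)
        ((ZA03_map_totalDegree _ _).trans (hd2.trans (Nat.le_succ b)))).2
      rw [map_sub, h1, hc_map, hc_map, hbs]
      simp
    refine key _ (fun P => ?_) ?_ ?_ ?_
    · rw [map_sub, ker_T K q2 hK2 w P, hK2 P, sub_zero]
    · exact (totalDegree_sub _ _).trans (max_le ((sh_totalDegree _ _).trans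
        ((ZA03_map_totalDegree _ _).trans hd2)) hd2)
    · intro m hm
      rw [e1, coeff_sub, coeff_map, hm, map_zero, sub_zero]
    · rw [e1, coeff_sub, coeff_map, hc2, map_one, sub_self]

end Pool.Agent.MSU
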