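import Mathlib

/-! # U/Z4_OneVar: subspaces of polynomials with slow growth -/

open Polynomial

noncomputable section

namespace Pool.Agent.MSU

lemma ZA04_inj {F : Type} [Field F] {h : F[X]} (hh : h ≠ 0) :
    Function.Injective (LinearMap.mulLeft F h) := by
  intro a b hab
  simp only [LinearMap.mulLeft_apply] at hab
  exact mul_left_cancel₀ hh hab

lemma ZA04_finrank_map {F : Type} [Field F] {h : F[X]} (hh : h ≠ 0) (A : Submodule F F[X]) :
    Module.finrank F (A.map (LinearMap.mulLeft F h)) = Module.finrank F A :=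
  (LinearEquiv.finrank_eq (Submodule.equivMapOfInjective _ (ZA04_inj hh) A)).symm

lemma ZA04_finrank_degreeLT {F : Type} [Field F] (n : ℕ) :
    Module.finrank F (degreeLT F n) = n := by
  rw [LinearEquiv.finrank_eq (degreeLTEquiv F n)]
  simp

lemma ZA04_fd {F : Type} [Field F] (n : ℕ) : FiniteDimensional F (degreeLT F n) :=
  Module.Finite.equiv (degreeLTEquiv F n).symm

lemma ZA04_bdd {F : Type} [Field F] (A : Submodule F F[X]) [FiniteDimensional F A] :
    ∃ n : ℕ, ∀ f ∈ A, f.natDegree ≤ n := by
  have hfg : A.FG := (Submodule.fg_iff_finiteDimensional A).mpr inferInstance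
  obtain ⟨s, hs⟩ := hfg
  obtain ⟨n, hn⟩ := Polynomial.span_le_degreeLE_of_finite (R := F) s.finite_toSet
  refine ⟨n, fun f hf => ?_⟩
  have : f ∈ degreeLE F n := hn (by rw [hs]; exact hf)
  rw [mem_degreeLE] at this
  exact natDegree_le_of_degree_le this

/-- Z4a. a subspace `A ≠ 0` of finite dimension is properly contained in `A + X A`. PROOF. An element of maximal degree of `A` (finite dimension) times `X` is not in `A`. -/
theorem one_var_lt {F : Type} [Field F] (A : Submodule F F[X]) [FiniteDimensional F A] (h1 : 1 ≤ Module.finrank F A) :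
    Module.finrank F A + 1 ≤ Module.finrank F (A ⊔ A.map (LinearMap.mulLeft F (X : F[X])) : Submodule F F[X]) := by
  by_contra hcon
  have hle : A ≤ A ⊔ A.map (LinearMap.mulLeft F (X : F[X])) := le_sup_left
  have heq : A = A ⊔ A.map (LinearMap.mulLeft F (X : F[X])) := by
    apply Submodule.eq_of_le_of_finrank_le hle
    omega
  have hX : ∀ f ∈ A, X * f ∈ A := by
    intro f hf
    have : X * f ∈ A ⊔ A.map (LinearMap.mulLeft F (X : F[X])) :=
      Submodule.mem_sup_right ⟨f, hf, rfl⟩
    rw [← heq] at this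
    exact this
  have hXn : ∀ f ∈ A, ∀ n : ℕ, X ^ n * f ∈ A := by
    intro f hf n
    induction n with
    | zero => simpa using hf
    | succ n ih =>
      have := hX _ ih
      rwa [← mul_assoc, ← pow_succ'] at this
  obtain ⟨n, hn⟩ := ZA04_bdd A
  have hne : A ≠ ⊥ := by
    rintro rfl
    simp at h1
  obtain ⟨f, hf, hf0⟩ := Submodule.exists_mem_ne_zero_of_ne_bot hne
  have h2 := hn _ (hXn f hf (n + 1))
  rw [natDegree_X_pow_mul _ hf0] at h2
  omega

lemma ZA04_aux {F : Type} [Field F] (a : ℕ) : ∀ (A : Submodule F F[X]) [FiniteDimensional F A],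
    Module.finrank F A = a + 1 →
    Module.finrank F (A ⊔ A.map (LinearMap.mulLeft F (X : F[X])) : Submodule F F[X]) ≤ a + 1 + 1 →
    ∃ h : F[X], h ≠ 0 ∧ A = (degreeLT F (a + 1)).map (LinearMap.mulLeft F h) := by
  induction a with
  | zero =>
    intro A _ hA _
    have hne : A ≠ ⊥ := by
      rintro rfl
      simp at hA
    obtain ⟨h, hh, h0⟩ := Submodule.exists_mem_ne_zero_of_ne_bot hne
    refine ⟨h, h0, ?_⟩
    symm
    apply Submodule.eq_of_le_of_finrank_eq
    · rintro _ ⟨p, hp, rfl⟩
      have hp1 : p.degree < ((0 + 1 : ℕ) : WithBot ℕ) := mem_degreeLT.mp hp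
      have hp2 : p.degree ≤ 0 := by
        by_cases hp0 : p = 0
        · rw [hp0, degree_zero]; exact bot_le
        · rw [degree_eq_natDegree hp0] at hp1 ⊢
          have : p.natDegree < 0 + 1 := by exact_mod_cast hp1
          exact_mod_cast (by omega : p.natDegree ≤ 0)
      rw [eq_C_of_degree_le_zero hp2]
      have : (LinearMap.mulLeft F h) (C (p.coeff 0)) = (p.coeff 0) • h := by
        rw [LinearMap.mulLeft_apply, mul_comm, smul_eq_C_mul]
      rw [this]
      exact A.smul_mem _ hh
    · rw [ZA04_finrank_map h0, ZA04_finrank_degreeLT, hA]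
  | succ a ih =>
    intro A _ hA h2
    have hinj := ZA04_inj (F := F) (h := X) X_ne_zero
    let A1 : Submodule F F[X] := A ⊓ A.comap (LinearMap.mulLeft F (X : F[X]))
    have hA1le : A1 ≤ A := inf_le_left
    have : FiniteDimensional F A1 := Submodule.finiteDimensional_of_le hA1le
    have hmap : A ⊓ A.map (LinearMap.mulLeft F (X : F[X])) =
        A1.map (LinearMap.mulLeft F (X : F[X])) := by
      ext f
      constructor
      · rintro ⟨hf, g, hg, rfl⟩
        exact ⟨g, ⟨hg, hf⟩, rfl⟩
      · rintro ⟨g, ⟨hg, hg2⟩, rfl⟩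
        exact ⟨hg2, g, hg, rfl⟩
    have hdim := Submodule.finrank_sup_add_finrank_inf_eq A
      (A.map (LinearMap.mulLeft F (X : F[X])))
    rw [hmap, ZA04_finrank_map X_ne_zero, ZA04_finrank_map X_ne_zero, hA] at hdim
    have hA1 : a + 1 ≤ Module.finrank F A1 := by omega
    have hlt := one_var_lt A1 (by omega)
    have hle2 : A1 ⊔ A1.map (LinearMap.mulLeft F (X : F[X])) ≤ A := by
      apply sup_le hA1le
      rintro _ ⟨g, ⟨hg, hg2⟩, rfl⟩
      exact hg2
    have hfr := Submodule.finrank_mono hle2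
    rw [hA] at hfr
    have hA1' : Module.finrank F A1 = a + 1 := by omega
    have heq : A1 ⊔ A1.map (LinearMap.mulLeft F (X : F[X])) = A := by
      apply Submodule.eq_of_le_of_finrank_le hle2
      omega
    obtain ⟨h, h0, hh⟩ := ih A1 hA1' (by omega)
    refine ⟨h, h0, ?_⟩
    have : FiniteDimensional F (degreeLT F (a + 1 + 1)) := ZA04_fd _
    apply Submodule.eq_of_le_of_finrank_eq
    · rw [← heq]
      apply sup_le
      · rw [hh]
        exact Submodule.map_mono (degreeLT_mono (by omega))
      · rw [hh]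
        rintro _ ⟨_, ⟨p, hp, rfl⟩, rfl⟩
        refine ⟨X * p, ?_, ?_⟩
        · have hp1 : p.degree < ((a + 1 : ℕ) : WithBot ℕ) := mem_degreeLT.mp hp
          show X * p ∈ degreeLT F (a + 1 + 1)
          rw [mem_degreeLT]
          by_cases hp0 : p = 0
          · rw [hp0, mul_zero, degree_zero]
            exact WithBot.bot_lt_coe _
          · rw [degree_eq_natDegree (mul_ne_zero X_ne_zero hp0), natDegree_X_mul hp0]
            rw [degree_eq_natDegree hp0] at hp1
            have : p.natDegree < a + 1 := by exact_mod_cast hp1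
            exact_mod_cast (by omega : p.natDegree + 1 < a + 1 + 1)
        · simp only [LinearMap.mulLeft_apply]
          ring
    · rw [ZA04_finrank_map h0, ZA04_finrank_degreeLT, hA]

/-- Z4b. PROOF. Induction on `a = finrank A`. `a = 1`: `A` is spanned by `h`. `a ≥ 2`: let `A1 = {f ∈ A : X f ∈ A}`. As multiplication by `X` is injective, `A ∩ X A = X A1` and `dim (A + X A) = 2a - dim A1` (`Submodule.finrank_sup_add_finrank_inf_eq`), so `dim A1 ≥ a - 1`, and `dim A1 ≤ a - 1` since
`A1 + X A1 ⊆ A` and `one_var_lt` (`dim A1 ≥ 1`). Also `dim (A1 + X A1) ≤ a = dim A1 + 1`. By induction `A1 = h · degreeLT (a-1)`. Then `A ⊇ A1 + X A1 = h · degreeLT a` which has dimension `a`, so equality. -/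
theorem one_var {F : Type} [Field F] (A : Submodule F F[X]) [FiniteDimensional F A] (h1 : 1 ≤ Module.finrank F A)
    (h2 : Module.finrank F (A ⊔ A.map (LinearMap.mulLeft F (X : F[X])) : Submodule F F[X]) ≤ Module.finrank F A + 1) :
    ∃ h : F[X], h ≠ 0 ∧ A = (degreeLT F (Module.finrank F A)).map (LinearMap.mulLeft F h) := by
  obtain ⟨a, ha⟩ : ∃ a, Module.finrank F A = a + 1 := ⟨Module.finrank F A - 1, by omega⟩
  rw [ha] at h2 ⊢
  exact ZA04_aux a A ha h2

end Pool.Agent.MSU
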