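import Pool.Agent.Lib.MP_f58a57_nt.U.Z0_Defs
import Pool.Agent.Lib.MP_f58a57_nt.U.Z4_OneVar

/-! # U/Z5_TwoVar: subspaces of binary forms with slow growth -/

open MvPolynomial

noncomputable section

namespace Pool.Agent.MSU

variable {M : Type} [Field M]

/-- the exponent `X_0^(n-b) X_1^b` -/
def z5_mb (n b : ℕ) : Fin 2 →₀ ℕ := Finsupp.single 0 (n - b) + Finsupp.single 1 b

lemma z5_mb_one (n b : ℕ) : z5_mb n b 1 = b := by simp [z5_mb]

lemma z5_mb_zero (n b : ℕ) : z5_mb n b 0 = n - b := by simp [z5_mb]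

lemma z5_eq_mb (n : ℕ) (m : Fin 2 →₀ ℕ) (h : m 0 + m 1 = n) : m = z5_mb n (m 1) := by
  ext i
  fin_cases i
  · show m 0 = z5_mb n (m 1) 0
    rw [z5_mb_zero]
    omega
  · show m 1 = z5_mb n (m 1) 1
    rw [z5_mb_one]

lemma z5_deg (P : Po M) (n : ℕ) (hP : P.IsHomogeneous n) (m : Fin 2 →₀ ℕ) (h : P.coeff m ≠ 0) : m 0 + m 1 = n := by
  have h1 := hP h
  rw [Finsupp.weight_apply, Finsupp.sum_fintype _ _ (by simp)] at h1
  simpa using h1

/-- the dehomogenisation -/
def z5_F : Po M →ₐ[M] Polynomial M := aeval ![1, Polynomial.X]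

lemma z5_F_monomial (m : Fin 2 →₀ ℕ) (c : M) : z5_F (monomial m c) = Polynomial.C c * Polynomial.X ^ (m 1) := by
  unfold z5_F
  rw [aeval_monomial, Finsupp.prod_fintype _ _ (by simp)]
  simp

lemma z5_F_zero (P : Po M) : z5_F (X 0 * P) = z5_F P := by
  rw [map_mul]
  simp [z5_F]

lemma z5_F_one (P : Po M) : z5_F (X 1 * P) = Polynomial.X * z5_F P := by
  rw [map_mul]
  simp [z5_F]

lemma z5_coeff (n : ℕ) (P : Po M) (hP : P.IsHomogeneous n) (b : ℕ) :
    (z5_F P).coeff b = if b ≤ n then P.coeff (z5_mb n b) else 0 := by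
  conv_lhs => rw [P.as_sum]
  rw [map_sum, Polynomial.finsetSum_coeff]
  have h1 : ∀ m ∈ P.support, (z5_F (monomial m (P.coeff m))).coeff b = if m = z5_mb n b ∧ b ≤ n then P.coeff m else 0 := by
    intro m hm
    rw [mem_support_iff] at hm
    have h2 := z5_deg P n hP m hm
    rw [z5_F_monomial, Polynomial.coeff_C_mul, Polynomial.coeff_X_pow]
    by_cases hb : b = m 1
    · have h3 : m = z5_mb n b ∧ b ≤ n := ⟨by rw [hb]; exact z5_eq_mb n m h2, by omega⟩
      rw [if_pos hb, if_pos h3, mul_one]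
    · have h3 : ¬ (m = z5_mb n b ∧ b ≤ n) := by
        rintro ⟨h4, -⟩
        apply hb
        rw [h4, z5_mb_one]
      rw [if_neg hb, if_neg h3, mul_zero]
  rw [Finset.sum_congr rfl h1]
  by_cases hb : b ≤ n
  · rw [if_pos hb]
    rw [Finset.sum_eq_single (z5_mb n b)]
    · simp [hb]
    · intro m _ hm
      simp [hm]
    · intro hm
      rw [notMem_support_iff] at hm
      simp [hm]
  · rw [if_neg hb]
    refine Finset.sum_eq_zero fun m _ => ?_
    simp [hb]

lemma z5_inj (n : ℕ) (P Q : Po M) (hP : P.IsHomogeneous n) (hQ : Q.IsHomogeneous n) (h : z5_F P = z5_F Q) : P = Q := by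
  have h0 : (P - Q).IsHomogeneous n := hP.sub hQ
  have h1 : z5_F (P - Q) = 0 := by rw [map_sub, h, sub_self]
  have h2 : P - Q = 0 := by
    ext m
    by_contra hne
    rw [coeff_zero] at hne
    have h3 := z5_deg _ n h0 m hne
    have h4 := z5_coeff n (P - Q) h0 (m 1)
    rw [h1, if_pos (by omega), ← z5_eq_mb n m h3] at h4
    exact hne (by rw [← h4]; simp)
  exact sub_eq_zero.mp h2

lemma z5_mem (n : ℕ) (P : Po M) (hP : P.IsHomogeneous n) : z5_F P ∈ Polynomial.degreeLT M (n + 1) := by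
  rw [Polynomial.mem_degreeLT, Polynomial.degree_lt_iff_coeff_zero]
  intro b hb
  rw [z5_coeff n P hP, if_neg (by omega)]

lemma z5_surj (n : ℕ) (p : Polynomial M) (hp : p ∈ Polynomial.degreeLT M (n + 1)) :
    ∃ P : Po M, P.IsHomogeneous n ∧ z5_F P = p := by
  refine ⟨∑ b ∈ Finset.range (n + 1), monomial (z5_mb n b) (p.coeff b), ?_, ?_⟩
  · refine IsHomogeneous.sum _ _ _ fun b hb => ?_
    refine isHomogeneous_monomial _ ?_
    rw [Finset.mem_range] at hb
    have h1 : (z5_mb n b).degree = z5_mb n b 0 + z5_mb n b 1 := by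
      rw [Finsupp.degree_eq_sum]
      simp
    rw [h1, z5_mb_zero, z5_mb_one]
    omega
  · rw [map_sum]
    have h1 : ∀ b ∈ Finset.range (n + 1), z5_F (monomial (z5_mb n b) (p.coeff b)) =
        Polynomial.C (p.coeff b) * Polynomial.X ^ b := by
      intro b _
      rw [z5_F_monomial, z5_mb_one]
    rw [Finset.sum_congr rfl h1]
    have h2 : p.degree < ((n + 1 : ℕ) : WithBot ℕ) := Polynomial.mem_degreeLT.mp hp
    ext k
    rw [Polynomial.finsetSum_coeff]
    simp only [Polynomial.coeff_C_mul, Polynomial.coeff_X_pow, mul_ite, mul_one, mul_zero]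
    rw [Finset.sum_ite_eq]
    split_ifs with hk
    · rfl
    · rw [Finset.mem_range] at hk
      exact ((Polynomial.degree_lt_iff_coeff_zero _ _).mp h2 k (by omega)).symm

/-- Z5a. the forms of degree `n` and the polynomials of degree `≤ n` in one variable: `X_0^a X_1^b ↦ X^b`. PROOF. Define the map by `aeval ![1, Polynomial.X]`, its inverse on `degreeLT (n+1)`: `∑ c_b X^b ↦ ∑ c_b X_0^(n-b) X_1^b`. -/
theorem dehom_exists (n : ℕ) : ∃ f : Hs M n ≃ₗ[M] Polynomial.degreeLT M (n + 1),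
    ∀ P : Hs M n, (f P : Polynomial M) = aeval ![1, Polynomial.X] (P : Po M) := by
  let L : Hs M n →ₗ[M] Polynomial.degreeLT M (n + 1) :=
    LinearMap.codRestrict (Polynomial.degreeLT M (n + 1)) (z5_F.toLinearMap.comp (Hs M n).subtype)
      (fun P => z5_mem n P.1 P.2)
  have hL : ∀ P : Hs M n, (L P : Polynomial M) = z5_F (P : Po M) := fun P => rfl
  refine ⟨LinearEquiv.ofBijective L ⟨?_, ?_⟩, fun P => rfl⟩
  · intro P Q h
    apply Subtype.ext
    refine z5_inj n _ _ P.2 Q.2 ?_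
    rw [← hL, ← hL, h]
  · intro p
    obtain ⟨P, hP, hPp⟩ := z5_surj n p.1 p.2
    exact ⟨⟨P, hP⟩, Subtype.ext (by rw [hL]; exact hPp)⟩

/-- Z5b. -/
theorem finrank_Hs (n : ℕ) : Module.finrank M (Hs M n) = n + 1 := by
  obtain ⟨f, -⟩ := dehom_exists (M := M) n
  rw [f.finrank_eq, (Polynomial.degreeLTEquiv M (n + 1)).finrank_eq, Module.finrank_fin_fun]

instance (n : ℕ) : FiniteDimensional M (Hs M n) := by
  obtain ⟨f, -⟩ := dehom_exists (M := M) n
  exact LinearEquiv.finiteDimensional ((f.trans (Polynomial.degreeLTEquiv M (n + 1))).symm)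

lemma z5_finrank_map (n : ℕ) (A : Submodule M (Po M)) (hA : A ≤ Hs M n) :
    Module.finrank M (A.map z5_F.toLinearMap : Submodule M (Polynomial M)) = Module.finrank M A := by
  have h1 : Function.Injective (z5_F.toLinearMap.domRestrict A : A →ₗ[M] Polynomial M) := by
    intro P Q h
    apply Subtype.ext
    exact z5_inj n _ _ (hA P.2) (hA Q.2) h
  have h2 : A.map z5_F.toLinearMap = LinearMap.range (z5_F.toLinearMap.domRestrict A) := by
    rw [LinearMap.range_domRestrict]
  rw [h2]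
  exact LinearMap.finrank_range_of_inj h1

lemma z5_sup_le (A B : Submodule M (Po M)) (hAB : ∀ P ∈ A, ∀ i, X i * P ∈ B) :
    (A.map z5_F.toLinearMap ⊔ (A.map z5_F.toLinearMap).map (LinearMap.mulLeft M (Polynomial.X : Polynomial M)) :
      Submodule M (Polynomial M)) ≤ B.map z5_F.toLinearMap := by
  refine sup_le ?_ ?_
  · rintro _ ⟨P, hP, rfl⟩
    exact ⟨X 0 * P, hAB P hP 0, z5_F_zero P⟩
  · rintro _ ⟨_, ⟨P, hP, rfl⟩, rfl⟩
    exact ⟨X 1 * P, hAB P hP 1, z5_F_one P⟩

/-- Z5c. PROOF. Dehomogenise (`dehom_exists`; it is compatible with products: `aeval`), `X_0 ↦ 1`, `X_1 ↦ X`: the image of `B` contains `A' + X A'`. `one_var_lt`. -/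
theorem two_var_lt (m : ℕ) (A B : Submodule M (Po M)) (hA : A ≤ Hs M m) (hB : B ≤ Hs M (m + 1))
    (hAB : ∀ P ∈ A, ∀ i, X i * P ∈ B) (h1 : 1 ≤ Module.finrank M A) : Module.finrank M A + 1 ≤ Module.finrank M B := by
  have : FiniteDimensional M A := Submodule.finiteDimensional_of_le hA
  have : FiniteDimensional M B := Submodule.finiteDimensional_of_le hB
  have h2 := one_var_lt (A.map z5_F.toLinearMap : Submodule M (Polynomial M)) (by rw [z5_finrank_map m A hA]; exact h1)
  rw [z5_finrank_map m A hA] at h2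
  have h3 := Submodule.finrank_mono (z5_sup_le A B hAB)
  rw [z5_finrank_map (m + 1) B hB] at h3
  exact h2.trans h3

lemma z5_char (n r a : ℕ) (hra : r + a = n) (A : Submodule M (Po M)) (hA : A ≤ Hs M n) (h : Po M) (hh : h.IsHomogeneous r)
    (h1 : A.map z5_F.toLinearMap = (Polynomial.degreeLT M (a + 1)).map (LinearMap.mulLeft M (z5_F h))) (P : Po M) :
    P ∈ A ↔ ∃ g ∈ Hs M a, P = h * g := by
  constructor
  · intro hP
    have h2 : z5_F P ∈ A.map z5_F.toLinearMap := ⟨P, hP, rfl⟩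
    rw [h1] at h2
    obtain ⟨q, hq, hqP⟩ := h2
    obtain ⟨g, hg, hgq⟩ := z5_surj a q hq
    refine ⟨g, hg, ?_⟩
    refine z5_inj n _ _ (hA hP) ?_ ?_
    · rw [← hra]
      exact hh.mul hg
    · rw [map_mul, hgq]
      exact hqP.symm
  · rintro ⟨g, hg, rfl⟩
    have h2 : z5_F (h * g) ∈ (Polynomial.degreeLT M (a + 1)).map (LinearMap.mulLeft M (z5_F h)) := by
      refine ⟨z5_F g, z5_mem a g hg, ?_⟩
      rw [map_mul]
      rfl
    rw [← h1] at h2
    obtain ⟨Q, hQ, hQP⟩ := h2
    have h3 : Q = h * g := by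
      refine z5_inj n _ _ (hA hQ) ?_ hQP
      rw [← hra]
      exact hh.mul hg
    rw [← h3]
    exact hQ

lemma z5_finrank_mul (h : Polynomial M) (hh : h ≠ 0) (a : ℕ) :
    Module.finrank M ((Polynomial.degreeLT M a).map (LinearMap.mulLeft M h) : Submodule M (Polynomial M)) = a := by
  have h1 : Function.Injective (LinearMap.mulLeft M h) := fun p q hpq => mul_left_cancel₀ hh hpq
  rw [← (Submodule.equivMapOfInjective (LinearMap.mulLeft M h) h1 (Polynomial.degreeLT M a)).finrank_eq,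
    (Polynomial.degreeLTEquiv M a).finrank_eq, Module.finrank_fin_fun]

/-- Z5d. PROOF. Dehomogenise: `A' = h' · degreeLT a`, `a = finrank A`, by `one_var`; `h' X^(a-1)` has degree `≤ m`, so `deg h' ≤ m - (a - 1) =: r` and `h'` is the dehomogenisation of a form `h` of degree `r`. `h g`, `g` a form of degree `a - 1`, has dehomogenisation in `A'` so it is in `A` (injectivity of
dehomogenisation on forms of degree `m`), dimensions. For `B`: `X_i h g ∈ B` for all `g` of degree `a - 1`, so `h g' ∈ B` for all `g'` of degree `a` (every form of degree `a ≥ 1` is a combination of `X_i g`), and `dim {h g'} = a + 1 = dim B`. -/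
theorem two_var (m : ℕ) (A B : Submodule M (Po M)) (hA : A ≤ Hs M m) (hB : B ≤ Hs M (m + 1))
    (hAB : ∀ P ∈ A, ∀ i, X i * P ∈ B) (a : ℕ) (ha : Module.finrank M A = a + 1) (hb : Module.finrank M B = a + 2) :
    ∃ r : ℕ, r + a = m ∧ ∃ h : Po M, h ≠ 0 ∧ h.IsHomogeneous r ∧ (∀ P, P ∈ A ↔ ∃ g ∈ Hs M a, P = h * g) ∧
      (∀ P, P ∈ B ↔ ∃ g ∈ Hs M (a + 1), P = h * g) := by
  have : FiniteDimensional M A := Submodule.finiteDimensional_of_le hA
  have : FiniteDimensional M B := Submodule.finiteDimensional_of_le hB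
  have hA' := z5_finrank_map m A hA
  have hB' := z5_finrank_map (m + 1) B hB
  have hle := z5_sup_le A B hAB
  obtain ⟨h', hh', h1⟩ := one_var (A.map z5_F.toLinearMap : Submodule M (Polynomial M)) (by rw [hA', ha]; omega)
    (by
      refine (Submodule.finrank_mono hle).trans ?_
      rw [hB', hb, hA', ha])
  rw [hA', ha] at h1
  have hX : h' * Polynomial.X ^ a ∈ A.map z5_F.toLinearMap := by
    rw [h1]
    refine ⟨Polynomial.X ^ a, ?_, rfl⟩
    rw [SetLike.mem_coe, Polynomial.mem_degreeLT, Polynomial.degree_X_pow]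
    exact_mod_cast Nat.lt_succ_self a
  obtain ⟨P, hP, hPX⟩ := hX
  have hdeg : h'.natDegree + a ≤ m := by
    have h2 := z5_mem m P (hA hP)
    have h3 : z5_F P = h' * Polynomial.X ^ a := hPX
    rw [h3, Polynomial.mem_degreeLT] at h2
    have h4 : (h' * Polynomial.X ^ a).natDegree = h'.natDegree + a := by
      rw [Polynomial.natDegree_mul hh' (pow_ne_zero _ Polynomial.X_ne_zero), Polynomial.natDegree_X_pow]
    have h5 : h' * Polynomial.X ^ a ≠ 0 := mul_ne_zero hh' (pow_ne_zero _ Polynomial.X_ne_zero)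
    rw [← Polynomial.natDegree_lt_iff_degree_lt h5, h4] at h2
    omega
  refine ⟨m - a, by omega, ?_⟩
  have hmem : h' ∈ Polynomial.degreeLT M (m - a + 1) := by
    rw [Polynomial.mem_degreeLT, ← Polynomial.natDegree_lt_iff_degree_lt hh']
    omega
  obtain ⟨h, hh, hF⟩ := z5_surj (m - a) h' hmem
  have hne : h ≠ 0 := by
    rintro rfl
    rw [map_zero] at hF
    exact hh' hF.symm
  refine ⟨h, hne, hh, ?_, ?_⟩
  · refine z5_char m (m - a) a (by omega) A hA h hh ?_
    rw [hF]
    exact h1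
  · refine z5_char (m + 1) (m - a) (a + 1) (by omega) B hB h hh ?_
    rw [hF]
    symm
    refine Submodule.eq_of_le_of_finrank_eq ?_ ?_
    · refine le_trans ?_ hle
      rintro _ ⟨q, hq, rfl⟩
      have hq0 : ∀ k, a + 1 + 1 ≤ k → q.coeff k = 0 := by
        rw [SetLike.mem_coe, Polynomial.mem_degreeLT, Polynomial.degree_lt_iff_coeff_zero] at hq
        exact hq
      have h2 : h' * q = h' * Polynomial.C (q.coeff 0) + Polynomial.X * (h' * q.divX) := by
        conv_lhs => rw [← Polynomial.divX_mul_X_add q]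
        ring
      rw [LinearMap.mulLeft_apply, h2]
      refine Submodule.add_mem_sup ?_ ?_
      · rw [h1]
        refine ⟨Polynomial.C (q.coeff 0), ?_, rfl⟩
        rw [SetLike.mem_coe, Polynomial.mem_degreeLT, Polynomial.degree_lt_iff_coeff_zero]
        intro k hk
        rw [Polynomial.coeff_C, if_neg (by omega)]
      · refine ⟨h' * q.divX, ?_, rfl⟩
        rw [SetLike.mem_coe, h1]
        refine ⟨q.divX, ?_, rfl⟩
        rw [SetLike.mem_coe, Polynomial.mem_degreeLT, Polynomial.degree_lt_iff_coeff_zero]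
        intro k hk
        rw [Polynomial.coeff_divX]
        exact hq0 _ (by omega)
    · rw [z5_finrank_mul h' hh', hB', hb]

end Pool.Agent.MSU
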