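import Pool.Agent.Lib.MP_f58a57_nt.U.Z2_Sh
import Pool.Agent.Lib.MP_f58a57_nt.U.Z5_TwoVar

/-! # U/Z6_Rel: the relations between the jets -/

open MvPolynomial

noncomputable section

namespace Pool.Agent.MSU

variable {M : Type} [Field M] [Algebra ℂ M] {Λ : Type}

theorem mem_Rn (K : Ker M Λ) (n : ℕ) (P : Po M) : P ∈ Rn K n ↔ ∀ q : Po M, q.totalDegree < n → K.B P q = 0 := Iff.rfl

/-- Z6a. -/
theorem Rn_anti (K : Ker M Λ) (n : ℕ) : Rn K (n + 1) ≤ Rn K n := by
  intro P hP q hq
  exact hP q (Nat.lt_succ_of_lt hq)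

private theorem ZA06_cst_mul (a : ℂ) (P : Po M) (n : ℕ) (h : P.totalDegree ≤ n) :
    (cst a * P : Po M).totalDegree ≤ n := by
  refine (totalDegree_mul _ _).trans ?_
  rw [cst, totalDegree_C, zero_add]
  exact h

private theorem ZA06_pd (i : Fin 2) (P : Po M) : (pderiv i P).totalDegree ≤ P.totalDegree :=
  totalDegree_pderiv_lt P.totalDegree i P (Nat.le_succ _)

/-- Z6b. PROOF. `K.hD i P q` for `deg q < n`: `B P q = 0`, the second argument in the last term has degree `< n` (`cD_totalDegree`, `pderiv`). -/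
theorem Rn_D (K : Ker M Λ) (n : ℕ) (P : Po M) (h : P ∈ Rn K n) (i : Fin 2) : cD (K.D i) P + X i * P ∈ Rn K n := by
  intro q hq
  have h1 := K.hD i P q
  have h2 : K.B P q = 0 := h q hq
  have h3 : K.B P (cD (K.D i) q - ∑ j, cst (K.e i j) * pderiv j q) = 0 := by
    refine h _ (lt_of_le_of_lt ?_ hq)
    refine (totalDegree_sub _ _).trans (max_le (cD_totalDegree _ _) ?_)
    refine totalDegree_finsetSum_le fun j _ => ?_
    exact ZA06_cst_mul _ _ _ (ZA06_pd j q)
  rw [h2, h3, map_zero, add_zero] at h1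
  exact h1.symm

/-- Z6c. PROOF. `K.hZ j P q` for `deg q < n`: `cD (Z j) q + X j * q` has degree `< n + 1`. -/
theorem Rn_Z (K : Ker M Λ) (n : ℕ) (P : Po M) (h : P ∈ Rn K (n + 1)) (j : Fin 2) :
    cD (K.Z j) P - ∑ i, cst (K.e i j) * pderiv i P ∈ Rn K n := by
  intro q hq
  have h1 := K.hZ j P q
  have h2 : K.B P q = 0 := h q (Nat.lt_succ_of_lt hq)
  have h3 : K.B P (cD (K.Z j) q + X j * q) = 0 := by
    refine h _ (Nat.lt_succ_of_le ?_)
    refine (totalDegree_add _ _).trans (max_le ((cD_totalDegree _ _).trans hq.le) ?_)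
    refine (totalDegree_mul _ _).trans ?_
    rw [totalDegree_X]
    omega
  rw [h2, h3, map_zero, add_zero] at h1
  exact h1.symm

/-- Z6d. PROOF. Given `q'` of degree `< n`, let `q` be such that `map (T w) q = sh (-chi w) q'` and the support of `q` is contained in that of `sh (-chi w) q'` (choose preimages of the coefficients, `K.Tsurj`; `0` for `0`), so `deg q < n` (`sh_totalDegree`).
`K.hT w P q`: `0 = c_w B (sh (lam w) (map (T w) P)) q'`. -/
theorem Rn_T (K : Ker M Λ) (n : ℕ) (P : Po M) (h : P ∈ Rn K n) (w : Λ) : sh (K.lam w) (map (K.T w) P) ∈ Rn K n := by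
  intro q' hq'
  obtain ⟨q, hq⟩ := map_surjective (σ := Fin 2) (K.T w) (K.Tsurj w) (sh (-K.chi w) q')
  have hdeg : q.totalDegree < n := by
    have h1 : (map (K.T w) q).totalDegree = q.totalDegree := by
      unfold totalDegree
      rw [support_map_of_injective q (K.T w).injective]
    rw [← h1, hq]
    exact lt_of_le_of_lt (sh_totalDegree _ _) hq'
  have h2 := K.hT w P q
  rw [h q hdeg, map_zero, hq, sh_sh_neg] at h2
  exact (mul_eq_zero.1 h2.symm).resolve_left (K.c0 w)

/-- Z6e. -/
theorem mem_J (K : Ker M Λ) (n k : ℕ) (p : Po M) : p ∈ J K n k ↔ ∃ P ∈ Rn K n, P.totalDegree ≤ k ∧ homogeneousComponent k P = p := by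
  rw [J, Submodule.mem_map]
  constructor
  · rintro ⟨P, hP, hp⟩
    rw [Submodule.mem_inf, mem_restrictTotalDegree] at hP
    exact ⟨P, hP.1, hP.2, hp⟩
  · rintro ⟨P, hP, hd, hp⟩
    refine ⟨P, ?_, hp⟩
    rw [Submodule.mem_inf, mem_restrictTotalDegree]
    exact ⟨hP, hd⟩

/-- Z6f. -/
theorem J_le (K : Ker M Λ) (n k : ℕ) : J K n k ≤ Hs M k := by
  intro p hp
  obtain ⟨P, -, -, rfl⟩ := (mem_J K n k p).1 hp
  exact homogeneousComponent_mem k P

theorem J_anti (K : Ker M Λ) (n k : ℕ) : J K (n + 1) k ≤ J K n k := by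
  intro p hp
  obtain ⟨P, hP, hd, h⟩ := (mem_J K (n + 1) k p).1 hp
  exact (mem_J K n k p).2 ⟨P, Rn_anti K n hP, hd, h⟩

/-- Z6g. PROOF. `Rn_D`: the component of degree `k + 1` of `cD (D i) P + X i * P` is `X i * homogeneousComponent k P` (`hc_X_mul`, `cD_totalDegree`). -/
theorem J_X (K : Ker M Λ) (n k : ℕ) (p : Po M) (h : p ∈ J K n k) (i : Fin 2) : X i * p ∈ J K n (k + 1) := by
  obtain ⟨P, hP, hd, h⟩ := (mem_J K n k p).1 h
  refine (mem_J K n (k + 1) _).2 ⟨cD (K.D i) P + X i * P, Rn_D K n P hP i, ?_, ?_⟩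
  · refine (totalDegree_add _ _).trans (max_le ((cD_totalDegree _ _).trans (by omega)) ?_)
    refine (totalDegree_mul _ _).trans ?_
    rw [totalDegree_X]
    omega
  · have h0 : homogeneousComponent (k + 1) (cD (K.D i) P) = 0 :=
      homogeneousComponent_eq_zero _ _ (lt_of_le_of_lt (cD_totalDegree _ _) (by omega))
    rw [map_add, h0, zero_add, hc_X_mul, h]

/-- Z6h. PROOF. `Submodule.finrank_mono` in the finite dimensional space `Hs M k`, `finrank_Hs`. -/
theorem J_finrank_le (K : Ker M Λ) (n k : ℕ) : Module.finrank M (J K n k) ≤ k + 1 := by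
  rw [← finrank_Hs (M := M) k]
  exact Submodule.finrank_mono (J_le K n k)

theorem aa_add (K : Ker M Λ) (n k : ℕ) : aa K n k + Module.finrank M (J K n k) = k + 1 := by
  have h := J_finrank_le K n k
  unfold aa
  omega

private theorem ZA06_fin (K : Ker M Λ) (n k : ℕ) : FiniteDimensional M (J K n k) :=
  Submodule.finiteDimensional_of_le (J_le K n k)

theorem aa_anti (K : Ker M Λ) (n k : ℕ) : aa K n k ≤ aa K (n + 1) k := by
  have h1 := aa_add K n k
  have h2 := aa_add K (n + 1) k
  have hf := ZA06_fin K n k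
  have h3 : Module.finrank M (J K (n + 1) k) ≤ Module.finrank M (J K n k) :=
    Submodule.finrank_mono (J_anti K n k)
  omega

/-- Z6i. PROOF. `two_var_lt` and `J_X`: if `aa K n k ≤ k` then `finrank (J K n k) ≥ 1`. -/
theorem aa_step (K : Ker M Λ) (n k : ℕ) (h : aa K n k ≤ k) : aa K n (k + 1) ≤ aa K n k := by
  have h1 := aa_add K n k
  have h2 := aa_add K n (k + 1)
  have h3 := two_var_lt k (J K n k) (J K n (k + 1)) (J_le K n k) (J_le K n (k + 1))
    (fun P hP i => J_X K n k P hP i) (by omega)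
  omega

/-- Z6j. PROOF. `aa = 0` means `J K n k = Hs M k` (dimensions). -/
theorem J_eq_of_aa (K : Ker M Λ) (n k : ℕ) (h : aa K n k = 0) : J K n k = Hs M k := by
  have h1 := aa_add K n k
  refine Submodule.eq_of_le_of_finrank_eq (J_le K n k) ?_
  rw [finrank_Hs]
  omega

/-- Z6k. PROOF. Induction on the degree `k` of `P`: if `k < k0` the hypothesis; if `k ≥ k0` then the leading form of `P` is in `Hs M k = J K n k` so there is `P' ∈ Rn K n` of degree `≤ k` with the same component of degree `k`, `B P q = B (P - P') q`, and `P - P'` has degree `< k`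
(`totalDegree_lt_of_hc`; for `k = 0` it is `0`). -/
theorem all_of_low (K : Ker M Λ) (n k0 : ℕ) (h : ∀ k, k0 ≤ k → aa K n k = 0) (q : Po M) (hq : q.totalDegree < n)
    (h0 : ∀ P : Po M, P.totalDegree < k0 → K.B P q = 0) (P : Po M) : K.B P q = 0 := by
  have key : ∀ N : ℕ, ∀ P : Po M, P.totalDegree < N → K.B P q = 0 := by
    intro N
    induction N with
    | zero => intro P hP; exact absurd hP (Nat.not_lt_zero _)
    | succ N ih =>
      intro P hP
      by_cases hN : N < k0
      · exact h0 P (lt_of_lt_of_le hP hN)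
      · have hmem : homogeneousComponent N P ∈ J K n N := by
          rw [J_eq_of_aa K n N (h N (not_lt.1 hN))]
          exact homogeneousComponent_mem N P
        obtain ⟨P', hP', hd', hc'⟩ := (mem_J K n N _).1 hmem
        have h1 : K.B P' q = 0 := hP' q hq
        have h2 : (P - P').totalDegree ≤ N :=
          (totalDegree_sub _ _).trans (max_le (Nat.lt_succ_iff.1 hP) hd')
        have h3 : homogeneousComponent N (P - P') = 0 := by
          rw [map_sub, hc', sub_self]
        have h4 : K.B (P - P') q = 0 := by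
          rcases N with _ | N
          · have h5 := eq_C_of_totalDegree_zero (P - P') h2
            rw [homogeneousComponent_zero] at h3
            rw [h5, h3, map_zero, LinearMap.zero_apply]
          · exact ih _ (Nat.lt_succ_of_le (totalDegree_lt_of_hc N (P - P') h2 h3))
        rw [map_sub, LinearMap.sub_apply, h1, sub_zero] at h4
        exact h4
  exact key _ P (Nat.lt_succ_self _)

end Pool.Agent.MSU
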