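import Pool.Agent.Lib.MP_f58a57_nt.U.Z6_Rel

/-! # U/Z9a_Const: the symbol has constant coefficients -/

open MvPolynomial

noncomputable section

namespace Pool.Agent.MSU

variable {M : Type} [Field M] [Algebra ℂ M] {Λ : Type}

private theorem ZA09_ofC_mem (N : ℕ) (g : Po ℂ) (hg : g.IsHomogeneous N) : (ofC g : Po M) ∈ Hs M N :=
  IsHomogeneous.map hg _

/-- proportionality of forms -/
private theorem ZA09_prop (r N : ℕ) (Q H : Po M) (hQ : Q.IsHomogeneous r) (hH : H.IsHomogeneous r)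
    (hH0 : H ≠ 0) (h : ∀ i : Fin 2, ∃ g : Po M, Q * (X i : Po M) ^ N = H * g) :
    ∃ c : M, Q = H * C c := by
  obtain ⟨g0, hg0⟩ := h 0
  obtain ⟨g1, hg1⟩ := h 1
  have hX0 : (X 0 : Po M) ≠ 0 := X_ne_zero 0
  have e1 : H * (g0 * (X 1) ^ N) = H * (g1 * (X 0) ^ N) := by
    rw [← mul_assoc, ← mul_assoc, ← hg0, ← hg1]
    ring
  have e2 : g0 * (X 1 : Po M) ^ N = g1 * (X 0) ^ N := mul_left_cancel₀ hH0 e1
  have hp : Prime (X 0 : Po M) := X_prime
  have hnd : ¬ (X 0 : Po M) ∣ (X 1) ^ N := by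
    intro hd
    have hd1 := hp.dvd_of_dvd_pow hd
    rw [X_dvd_X] at hd1
    exact absurd hd1 (by decide)
  have hdvd : (X 0 : Po M) ^ N ∣ g0 := by
    have h1 : (X 0 : Po M) ^ N ∣ (X 1) ^ N * g0 := by
      rw [mul_comm, e2]
      exact Dvd.intro_left _ rfl
    exact hp.pow_dvd_of_dvd_mul_left N hnd h1
  obtain ⟨s, hs⟩ := hdvd
  have e3 : Q = H * s := by
    have h1 : Q * (X 0 : Po M) ^ N = (H * s) * (X 0) ^ N := by
      rw [hg0, hs]
      ring
    exact mul_right_cancel₀ (pow_ne_zero N hX0) h1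
  by_cases hs0 : s = 0
  · exact ⟨0, by rw [e3, hs0, C_0]⟩
  · have hQ0 : Q ≠ 0 := by
      rw [e3]
      exact mul_ne_zero hH0 hs0
    have h1 := hQ.totalDegree hQ0
    have h2 := hH.totalDegree hH0
    rw [e3, totalDegree_mul_of_isDomain hH0 hs0, h2] at h1
    have h3 : s.totalDegree = 0 := by omega
    rw [totalDegree_eq_zero_iff_eq_C] at h3
    exact ⟨_, by rw [e3]; exact congrArg _ h3⟩

/-- a polynomial with complex coefficients -/
private theorem ZA09_lift (H : Po M) (h : ∀ s, ∃ a : ℂ, H.coeff s = algebraMap ℂ M a) :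
    ∃ g : Po ℂ, ofC g = H := by
  choose a ha using h
  refine ⟨∑ s ∈ H.support, monomial s (a s), ?_⟩
  ext s
  unfold ofC
  rw [coeff_map, coeff_sum]
  simp only [coeff_monomial, Finset.sum_ite_eq']
  split_ifs with hs
  · exact (ha s).symm
  · rw [map_zero]
    exact (notMem_support_iff.1 hs).symm

/-- Z9a. PROOF. `two_var` for `A = J K (n+1) m`, `B = J K (n+1) (m+1)` (`J_le`, `J_X`) gives `r + a = m` and `h1` with `A = h1 Hs a`, `B = h1 Hs (a+1)`; divide by a nonzero coefficient of `h1` (at the monomial `m0`), so `h1.coeff m0 = 1`.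
(i) `cD (Z j) h1 = 0`: let `g = (X i)^(a+1)`, `i = 0, 1`. `h1 g ∈ B` is the component of degree `m + 1` of some `P ∈ Rn K (n+1)`, `deg P ≤ m + 1`. By `Rn_Z`, `P' = cD (Z j) P - ∑ ... ∈ Rn K n`, `deg P' ≤ m + 1`, its component of degree `m + 1` is `cD (Z j) (h1 g) = cD (Z j) h1 * g`
(`cD_hc`, `cD_mul_ofC`). So it is in `J K n (m+1) = B`: `cD (Z j) h1 * (X i)^(a+1) = h1 * g_i`, `g_i` a form of degree `a + 1`, for `i = 0, 1`. So `g_0 (X 1)^(a+1) = g_1 (X 0)^(a+1)`, and as `X 0, X 1` are coprime, `(X 0)^(a+1) ∣ g_0`, `g_0 = c (X 0)^(a+1)` (degrees), `cD (Z j) h1 = c h1`, `c ∈ M`;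
the coefficient at `m0`: `c = Z j 1 = 0`.
(ii) `map (T w) h1 = h1`: same with `Rn_T` (in `Rn K (n+1)`): component of degree `m + 1` of `sh (lam w) (map (T w) P)` is `map (T w) (h1 g) = map (T w) h1 * g` (`hc_sh`, `hc_map`), it is in `B`: `map (T w) h1 = c h1`, and the coefficient at `m0` gives `c = 1`.
(iii) Each coefficient `f` of `h1` has `Z j f = 0`, `T w f = f`: by `rigZ` (`κ = 0`, `c = 0`) it is a complex number. -/
theorem symbol (K : Ker M Λ) (n m a : ℕ) (h1 : J K (n + 1) m = J K n m) (h2 : J K (n + 1) (m + 1) = J K n (m + 1))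
    (ha : Module.finrank M (J K (n + 1) m) = a + 1) (hb : Module.finrank M (J K (n + 1) (m + 1)) = a + 2) :
    ∃ r : ℕ, r + a = m ∧ ∃ h : Po ℂ, h ≠ 0 ∧ h.IsHomogeneous r ∧ (∀ P, P ∈ J K (n + 1) m ↔ ∃ g ∈ Hs M a, P = ofC h * g) ∧
      (∀ P, P ∈ J K (n + 1) (m + 1) ↔ ∃ g ∈ Hs M (a + 1), P = ofC h * g) := by
  obtain ⟨r, hr, h0, h00, h0r, hA0, hB0⟩ := two_var m (J K (n + 1) m) (J K (n + 1) (m + 1))
    (J_le K (n + 1) m) (J_le K (n + 1) (m + 1)) (fun P hP i => J_X K (n + 1) m P hP i) a ha hb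
  obtain ⟨m0, hm0⟩ : ∃ s, h0.coeff s ≠ 0 := ne_zero_iff.1 h00
  set u : M := h0.coeff m0 with hu
  -- the normalised form
  set H : Po M := C u⁻¹ * h0 with hH
  have hHm0 : H.coeff m0 = 1 := by
    rw [hH, coeff_C_mul, ← hu, inv_mul_cancel₀ hm0]
  have hH0 : H ≠ 0 := by
    intro h
    rw [h, coeff_zero] at hHm0
    exact zero_ne_one hHm0
  have hHr : H.IsHomogeneous r := by
    have := (isHomogeneous_C (Fin 2) (u⁻¹ : M)).mul h0r
    rwa [zero_add] at this
  have hh0 : h0 = C u * H := by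
    rw [hH, ← mul_assoc, ← C_mul, mul_inv_cancel₀ hm0, C_1, one_mul]
  have hscale : ∀ (N : ℕ) (P : Po M), (∃ g ∈ Hs M N, P = h0 * g) ↔ ∃ g ∈ Hs M N, P = H * g := by
    intro N P
    constructor
    · rintro ⟨g, hg, rfl⟩
      refine ⟨C u * g, ?_, by rw [hh0]; ring⟩
      have := (isHomogeneous_C (Fin 2) (u : M)).mul hg
      rwa [zero_add] at this
    · rintro ⟨g, hg, rfl⟩
      refine ⟨C u⁻¹ * g, ?_, by rw [hH]; ring⟩
      have := (isHomogeneous_C (Fin 2) (u⁻¹ : M)).mul hg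
      rwa [zero_add] at this
  have hA : ∀ P, P ∈ J K (n + 1) m ↔ ∃ g ∈ Hs M a, P = H * g := fun P => (hA0 P).trans (hscale a P)
  have hB : ∀ P, P ∈ J K (n + 1) (m + 1) ↔ ∃ g ∈ Hs M (a + 1), P = H * g :=
    fun P => (hB0 P).trans (hscale (a + 1) P)
  -- the complex forms `g = X i ^ (a + 1)`
  have hgi : ∀ i : Fin 2, (ofC ((X i : Po ℂ) ^ (a + 1)) : Po M) = (X i) ^ (a + 1) := by
    intro i
    unfold ofC
    rw [map_pow, map_X]
  have hgh : ∀ i : Fin 2, ((X i : Po ℂ) ^ (a + 1)).IsHomogeneous (a + 1) := by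
    intro i
    have := (isHomogeneous_X ℂ i).pow (a + 1)
    rwa [one_mul] at this
  have hP : ∀ i : Fin 2, ∃ P ∈ Rn K (n + 1), P.totalDegree ≤ m + 1 ∧
      homogeneousComponent (m + 1) P = H * ofC ((X i : Po ℂ) ^ (a + 1)) := by
    intro i
    exact (mem_J K (n + 1) (m + 1) _).1 ((hB _).2 ⟨_, ZA09_ofC_mem _ _ (hgh i), rfl⟩)
  -- (i)
  have hZ : ∀ j : Fin 2, cD (K.Z j) H = 0 := by
    intro j
    obtain ⟨c, hc⟩ := ZA09_prop r (a + 1) (cD (K.Z j) H) H (cD_homog _ _ _ hHr) hHr hH0 (by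
      intro i
      obtain ⟨P, hP1, hP2, hP3⟩ := hP i
      have hP' := Rn_Z K n P hP1 j
      have hdeg : ∀ i' : Fin 2, (cst (K.e i' j) * pderiv i' P : Po M).totalDegree ≤ m := by
        intro i'
        refine (totalDegree_mul _ _).trans ?_
        have h3 : (cst (K.e i' j) : Po M).totalDegree = 0 := totalDegree_C _
        have h4 := totalDegree_pderiv_lt m i' P hP2
        omega
      have hdsum : (∑ i', cst (K.e i' j) * pderiv i' P : Po M).totalDegree ≤ m :=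
        totalDegree_finsetSum_le fun i' _ => hdeg i'
      have hmem : cD (K.Z j) H * (X i) ^ (a + 1) ∈ J K n (m + 1) := by
        refine (mem_J K n (m + 1) _).2 ⟨_, hP', ?_, ?_⟩
        · refine (totalDegree_sub _ _).trans (max_le ((cD_totalDegree _ _).trans hP2) ?_)
          omega
        · rw [map_sub, cD_hc, hP3, cD_mul_ofC, hgi, homogeneousComponent_eq_zero (m + 1) _ (by omega), sub_zero]
      rw [← h2] at hmem
      obtain ⟨g, -, hg⟩ := (hB _).1 hmem
      exact ⟨g, hg⟩)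
    have h3 : (cD (K.Z j) H).coeff m0 = (H * C c).coeff m0 := by rw [hc]
    rw [coeff_cD, hHm0, mul_comm, coeff_C_mul, hHm0, mul_one, Derivation.map_one_eq_zero] at h3
    rw [hc, ← h3, C_0, mul_zero]
  -- (ii)
  have hT : ∀ w : Λ, map (K.T w) H = H := by
    intro w
    obtain ⟨c, hc⟩ := ZA09_prop r (a + 1) (map (K.T w) H) H (hHr.map _) hHr hH0 (by
      intro i
      obtain ⟨P, hP1, hP2, hP3⟩ := hP i
      have hP' := Rn_T K (n + 1) P hP1 w
      have hd : (map (K.T w) P).totalDegree ≤ m + 1 :=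
        (Finset.sup_mono (support_map_subset _ _)).trans hP2
      have hmem : map (K.T w) H * (X i) ^ (a + 1) ∈ J K (n + 1) (m + 1) := by
        refine (mem_J K (n + 1) (m + 1) _).2 ⟨_, hP', (sh_totalDegree _ _).trans hd, ?_⟩
        rw [(hc_sh _ m _ hd).1, hc_map, hP3, map_mul, map_ofC _ (K.TC w), hgi]
      obtain ⟨g, -, hg⟩ := (hB _).1 hmem
      exact ⟨g, hg⟩)
    have h3 : (map (K.T w) H).coeff m0 = (H * C c).coeff m0 := by rw [hc]
    rw [coeff_map, hHm0, mul_comm, coeff_C_mul, hHm0, mul_one, map_one] at h3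
    rw [hc, ← h3, C_1, mul_one]
  -- (iii)
  obtain ⟨h, hh⟩ := ZA09_lift H (by
    intro s
    refine (K.rigZ (H.coeff s) 0 0 (fun i => ?_) (fun w => ?_)).2
    · rw [← coeff_cD, hZ i, coeff_zero, Pi.zero_apply, map_zero]
    · have h3 : (map (K.T w) H).coeff s = H.coeff s := by rw [hT w]
      rw [coeff_map] at h3
      rw [h3]
      simp)
  have hinj : Function.Injective (algebraMap ℂ M) := (algebraMap ℂ M).injective
  refine ⟨r, hr, h, ?_, ?_, fun P => ?_, fun P => ?_⟩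
  · rintro rfl
    apply hH0
    rw [← hh]
    unfold ofC
    rw [map_zero]
  · intro s hs
    apply hHr
    rw [← hh]
    unfold ofC
    rw [coeff_map]
    intro h3
    exact hs (hinj (by rw [h3, map_zero]))
  · rw [hh]
    exact hA P
  · rw [hh]
    exact hB P

end Pool.Agent.MSU
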